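import Mathlib

/-!
# SMF-CtY: a free algebra embedded in one of countable rank has countable rank (Mathlib only)

The words are linearly independent.
-/

namespace Pool.Agent.SMF

theorem countable_of_emb {k X Y : Type*} [Field k] [Countable X] (f : FreeAlgebra k Y →ₗ[k] FreeAlgebra k X)
    (hf : Function.Injective f) : Countable Y := by
  have h1 : Module.rank k (FreeAlgebra k X) ≤ Cardinal.aleph0 := by
    rw [FreeAlgebra.rank_eq, Cardinal.lift_le_aleph0]
    exact Cardinal.mk_le_aleph0
  have h2 : LinearIndependent k (fun w : FreeMonoid Y => f (FreeAlgebra.basisFreeMonoid k Y w)) :=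
    (FreeAlgebra.basisFreeMonoid k Y).linearIndependent.map' f (LinearMap.ker_eq_bot.2 hf)
  have h3 := h2.cardinal_lift_le_rank
  have h4 : Cardinal.mk (FreeMonoid Y) ≤ Cardinal.aleph0 := by
    rw [← Cardinal.lift_le_aleph0]
    exact h3.trans (Cardinal.lift_le_aleph0.2 h1)
  have h5 : Countable (FreeMonoid Y) := Cardinal.mk_le_aleph0_iff.1 h4
  exact FreeMonoid.of_injective.countable

end Pool.Agent.SMF
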