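import Pool.Agent.SMF.GoodDef

/-!
# SMF-Act0: the coordinatewise action and the constant flag (imports GoodDef, ActG, Ord, Umb)

PLAN.  `act0 φ n`: `r g m = fun j => φ g (m j)`.  `v0`: the flag `Um 1 0` (one block, `k`-structure `k^n`).  `Good`: `h = 1`, its rows are `Pi.single j 1` (`map_one`, `map_zero`), `um_self`.  `Fx`: by `fx_iff`: `co 1 m = m` (`inv_one`, `Matrix.vecMul_one`), the elements of `Um 1 0 j` are the vectors with
constant entries, fixed by `φ g` (`AlgEquiv.commutes`).
-/

namespace Pool.Agent.SMF

open Matrix

variable {k X : Type*} [Field k] {G : Type*} [Group G] (φ : G →* (A k X ≃ₐ[k] A k X)) (n : ℕ)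

/-- the coordinatewise action -/
def act0 : SAct φ n where
  r :=
    { toFun := fun g =>
        { toFun := fun m j => φ g (m j)
          map_add' := fun a b => by funext j; simp
          map_smul' := fun c a => by funext j; simp
          invFun := fun m j => φ g⁻¹ (m j)
          left_inv := fun m => by
            funext j
            show φ g⁻¹ (φ g (m j)) = m j
            rw [← AlgEquiv.mul_apply, ← map_mul, inv_mul_cancel, map_one]
            rfl
          right_inv := fun m => by
            funext j
            show φ g (φ g⁻¹ (m j)) = m j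
            rw [← AlgEquiv.mul_apply, ← map_mul, mul_inv_cancel, map_one]
            rfl }
      map_one' := by
        ext m j
        show φ 1 (m j) = m j
        rw [map_one]
        rfl
      map_mul' := fun g h => by
        ext m j
        show φ (g * h) (m j) = φ g (φ h (m j))
        rw [map_mul]
        rfl }
  semi := fun g a m => by
    funext j
    show φ g (a * m j) = φ g a * φ g (m j)
    rw [map_mul]

theorem act0_apply (g : G) (m : V k X n) (j : Fin n) : (act0 φ n).r g m j = φ g (m j) := rfl

private theorem co_one' (m : V k X n) : co (1 : GLm k X n) m = m := by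
  rw [co, inv_one, Units.val_one, Matrix.vecMul_one]

theorem v0_good : ∃ v : T k X n, Good (act0 φ n) v ∧ (act0 φ n).Fx v := by
  refine ⟨⟨Um (1 : GLm k X n) (fun _ => 0), 1, fun _ => 0, fun _ _ _ => le_refl _, rfl⟩, ?_, ?_⟩
  · refine ⟨1, fun j => um_self 1 (fun _ => 0) j, fun g j => ?_⟩
    funext l
    rw [act0_apply]
    show φ g (((1 : GLm k X n) : Matrix (Fin n) (Fin n) (A k X)) j l) =
      ((1 : GLm k X n) : Matrix (Fin n) (Fin n) (A k X)) j l
    rw [Units.val_one, Matrix.one_apply]
    split_ifs
    · rw [map_one]
    · rw [map_zero]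
  · rw [fx_iff]
    intro g j m hm
    change m ∈ Um (1 : GLm k X n) (fun _ => 0) j at hm
    show (act0 φ n).r g m ∈ Um (1 : GLm k X n) (fun _ => 0) j
    intro l
    refine ⟨fun h => absurd h (lt_irrefl _), fun _ => ?_⟩
    obtain ⟨c, hc⟩ := (hm l).2 rfl
    rw [co_one'] at hc ⊢
    refine ⟨c, ?_⟩
    rw [act0_apply, ← hc, AlgEquiv.commutes]

end Pool.Agent.SMF
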