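import Pool.Agent.SMF.Ord

/-!
# SMF-ActG: semilinear actions on bases and flags (imports Umb, Spec, Ord)

The matrix of `ρ.r g` in the standard basis is invertible; the basis moved by `g` is the product of the entrywise
image of the basis with this matrix.  Coordinates are moved by `φ g`, which is injective and fixes `k`.
-/

namespace Pool.Agent.SMF

open Matrix

variable {k X : Type*} [Field k] {n : ℕ} {G : Type*} [Group G]

/-- semilinear actions of `G` on the free module of rank `n` -/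
structure SAct (φ : G →* (A k X ≃ₐ[k] A k X)) (n : ℕ) where
  r : G →* (V k X n ≃ₗ[k] V k X n)
  semi : ∀ g a m, r g (a • m) = φ g a • r g m

variable {φ : G →* (A k X ≃ₐ[k] A k X)}

/-- the matrix of the action of `g` -/
private noncomputable def EM (ρ : SAct φ n) (g : G) : Matrix (Fin n) (Fin n) (A k X) :=
  fun i => ρ.r g (Pi.single i 1)

private theorem r_eq (ρ : SAct φ n) (g : G) (m : V k X n) : ρ.r g m = (fun i => φ g (m i)) ᵥ* EM ρ g := by
  have h1 : m = ∑ i, m i • (Pi.single i 1 : V k X n) := by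
    funext l
    rw [Finset.sum_apply, Finset.sum_eq_single l]
    · rw [Pi.smul_apply, Pi.single_eq_same, smul_eq_mul, mul_one]
    · intro b _ hb
      rw [Pi.smul_apply, Pi.single_eq_of_ne hb.symm, smul_zero]
    · intro h
      exact absurd (Finset.mem_univ l) h
  rw [Matrix.vecMul_eq_sum]
  conv_lhs => rw [h1]
  rw [map_sum]
  exact Finset.sum_congr rfl fun i _ => ρ.semi g (m i) _

private theorem r_row (ρ : SAct φ n) (g : G) (B : Matrix (Fin n) (Fin n) (A k X)) (j : Fin n) :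
    ((((φ g : A k X ≃ₐ[k] A k X) : A k X →+* A k X).mapMatrix B) * EM ρ g) j = ρ.r g (B j) := by
  rw [Matrix.mul_apply_eq_vecMul, r_eq]
  rfl

private theorem r_inv (ρ : SAct φ n) (g : G) (m : V k X n) : ρ.r g (ρ.r g⁻¹ m) = m := by
  rw [← LinearEquiv.mul_apply, ← map_mul, mul_inv_cancel, map_one]
  rfl

private theorem EM_left (ρ : SAct φ n) (g : G) :
    (((φ g : A k X ≃ₐ[k] A k X) : A k X →+* A k X).mapMatrix (EM ρ g⁻¹)) * EM ρ g = 1 := by
  apply Matrix.ext
  intro i l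
  rw [congrFun (r_row ρ g (EM ρ g⁻¹) i) l]
  show ρ.r g (ρ.r g⁻¹ (Pi.single i 1)) l = _
  rw [r_inv, Matrix.one_eq_pi_single]

private theorem EM_right (ρ : SAct φ n) (g : G) :
    EM ρ g * (((φ g : A k X ≃ₐ[k] A k X) : A k X →+* A k X).mapMatrix (EM ρ g⁻¹)) = 1 := by
  have h1 := EM_left ρ g⁻¹
  rw [inv_inv] at h1
  have h2 := congrArg (((φ g : A k X ≃ₐ[k] A k X) : A k X →+* A k X).mapMatrix) h1
  rw [map_mul, map_one] at h2
  have h3 : (((φ g : A k X ≃ₐ[k] A k X) : A k X →+* A k X).mapMatrix)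
      ((((φ g⁻¹ : A k X ≃ₐ[k] A k X) : A k X →+* A k X).mapMatrix) (EM ρ g)) = EM ρ g := by
    ext i j
    show φ g (φ g⁻¹ (EM ρ g i j)) = EM ρ g i j
    rw [← AlgEquiv.mul_apply, ← map_mul, mul_inv_cancel, map_one]
    rfl
  rw [h3] at h2
  exact h2

theorem exists_gl (ρ : SAct φ n) (g : G) (h : GLm k X n) : ∃ h' : GLm k X n, ∀ j, rw' h' j = ρ.r g (rw' h j) := by
  refine ⟨Units.map (((φ g : A k X ≃ₐ[k] A k X) : A k X →+* A k X).mapMatrix (m := Fin n)).toMonoidHom h *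
    ⟨EM ρ g, _, EM_right ρ g, EM_left ρ g⟩, fun j => ?_⟩
  exact r_row ρ g _ j

/-- the basis moved by `g` -/
noncomputable def SAct.gl (ρ : SAct φ n) (g : G) (h : GLm k X n) : GLm k X n := (exists_gl ρ g h).choose

theorem gl_rw (ρ : SAct φ n) (g : G) (h : GLm k X n) (j : Fin n) : rw' (ρ.gl g h) j = ρ.r g (rw' h j) :=
  (exists_gl ρ g h).choose_spec j

theorem gl_co (ρ : SAct φ n) (g : G) (h : GLm k X n) (m : V k X n) (j : Fin n) :
    co (ρ.gl g h) (ρ.r g m) j = φ g (co h m j) := by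
  have h1 : co (ρ.gl g h) (ρ.r g m) = fun l => φ g (co h m l) := by
    apply co_unique
    conv_lhs => rw [eq_sum h m]
    rw [map_sum]
    refine Finset.sum_congr rfl fun l _ => ?_
    rw [ρ.semi, gl_rw]
  rw [h1]

private theorem um_iff (ρ : SAct φ n) (g : G) (h : GLm k X n) (β : Fin n → ℤ) (j : Fin n) (m : V k X n) :
    ρ.r g m ∈ Um (ρ.gl g h) β j ↔ m ∈ Um h β j := by
  have h1 : ∀ x : A k X, φ g x = 0 ↔ x = 0 := fun x => map_eq_zero_iff _ (φ g).injective
  have h2 : ∀ x : A k X, φ g x ∈ Set.range (algebraMap k (A k X)) ↔ x ∈ Set.range (algebraMap k (A k X)) := by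
    intro x
    constructor
    · rintro ⟨c, hc⟩
      refine ⟨c, (φ g).injective ?_⟩
      rw [AlgEquiv.commutes, hc]
    · rintro ⟨c, rfl⟩
      exact ⟨c, ((φ g).commutes c).symm⟩
  show (∀ l, (β j < β l → co (ρ.gl g h) (ρ.r g m) l = 0) ∧
    (β l = β j → co (ρ.gl g h) (ρ.r g m) l ∈ Set.range (algebraMap k (A k X)))) ↔
    ∀ l, (β j < β l → co h m l = 0) ∧ (β l = β j → co h m l ∈ Set.range (algebraMap k (A k X)))
  simp only [gl_co, h1, h2]

theorem gl_um (ρ : SAct φ n) (g : G) (h : GLm k X n) (β : Fin n → ℤ) (j : Fin n) :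
    (Um h β j).map (ρ.r g : V k X n →ₗ[k] V k X n) = Um (ρ.gl g h) β j := by
  ext m'
  constructor
  · rintro ⟨m, hm, rfl⟩
    exact (um_iff ρ g h β j m).2 hm
  · intro hm
    refine ⟨ρ.r g⁻¹ m', ?_, r_inv ρ g m'⟩
    rw [← r_inv ρ g m', um_iff] at hm
    exact hm

/-- the action on flags -/
noncomputable def SAct.actT (ρ : SAct φ n) (g : G) (t : T k X n) : T k X n :=
  ⟨fun j => (t j).map (ρ.r g : V k X n →ₗ[k] V k X n), by
    obtain ⟨h, β, hβ, ht⟩ := t.2
    refine ⟨ρ.gl g h, β, hβ, ?_⟩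
    funext j
    rw [← gl_um, ht]⟩

theorem actT_apply (ρ : SAct φ n) (g : G) (t : T k X n) (j : Fin n) :
    ρ.actT g t j = (t j).map (ρ.r g : V k X n →ₗ[k] V k X n) := rfl

theorem actT_one (ρ : SAct φ n) (t : T k X n) : ρ.actT 1 t = t := by
  apply Subtype.ext
  funext j
  show (t j).map (ρ.r 1 : V k X n →ₗ[k] V k X n) = t j
  rw [map_one]
  exact Submodule.map_id _

theorem actT_mul (ρ : SAct φ n) (g g' : G) (t : T k X n) : ρ.actT (g * g') t = ρ.actT g (ρ.actT g' t) := by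
  apply Subtype.ext
  funext j
  show (t j).map (ρ.r (g * g') : V k X n →ₗ[k] V k X n) =
    ((t j).map (ρ.r g' : V k X n →ₗ[k] V k X n)).map (ρ.r g : V k X n →ₗ[k] V k X n)
  rw [map_mul, ← Submodule.map_comp]
  rfl

theorem actT_le (ρ : SAct φ n) (g : G) {s t : T k X n} (h : s ≤ t) : ρ.actT g s ≤ ρ.actT g t := by
  obtain ⟨h1, b, hs, ht⟩ := (le_def s t).1 h
  refine (le_def _ _).2 ⟨fun j l hjl => ?_, ρ.gl g b, fun j => ?_, fun j => ?_⟩
  · have h2 : t j ≤ t l := by
      intro m hm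
      have h3 : ρ.r g m ∈ (t l).map (ρ.r g : V k X n →ₗ[k] V k X n) := hjl ⟨m, hm, rfl⟩
      obtain ⟨m', hm', h4⟩ := h3
      have h5 : m' = m := (ρ.r g).injective h4
      rw [← h5]
      exact hm'
    exact Submodule.map_mono (h1 j l h2)
  · rw [gl_rw]
    exact ⟨_, hs j, rfl⟩
  · rw [gl_rw]
    exact ⟨_, ht j, rfl⟩

/-- the action by permutations -/
noncomputable def SAct.perm (ρ : SAct φ n) : G →* Equiv.Perm (T k X n) where
  toFun g := ⟨ρ.actT g, ρ.actT g⁻¹, fun t => by rw [← actT_mul, inv_mul_cancel, actT_one],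
    fun t => by rw [← actT_mul, mul_inv_cancel, actT_one]⟩
  map_one' := Equiv.ext fun t => actT_one ρ t
  map_mul' g g' := Equiv.ext fun t => actT_mul ρ g g' t

/-- fixed flags -/
def SAct.Fx (ρ : SAct φ n) (t : T k X n) : Prop := ∀ g, ρ.actT g t = t

theorem perm_lt (ρ : SAct φ n) (g : G) {s t : T k X n} (h : s < t) : ρ.perm g s < ρ.perm g t := by
  refine lt_of_le_of_ne (actT_le ρ g h.le) fun h1 => h.ne ?_
  exact (ρ.perm g).injective h1

theorem fx_iff (ρ : SAct φ n) (t : T k X n) : ρ.Fx t ↔ ∀ g j m, m ∈ t j → ρ.r g m ∈ t j := by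
  constructor
  · intro h g j m hm
    have h1 : (t j).map (ρ.r g : V k X n →ₗ[k] V k X n) = t j := by
      rw [← actT_apply, h g]
    rw [← h1]
    exact ⟨m, hm, rfl⟩
  · intro h g
    apply Subtype.ext
    funext j
    show (t j).map (ρ.r g : V k X n →ₗ[k] V k X n) = t j
    apply le_antisymm
    · rintro _ ⟨m, hm, rfl⟩
      exact h g j m hm
    · intro m hm
      exact ⟨ρ.r g⁻¹ m, h g⁻¹ j m hm, r_inv ρ g m⟩

end Pool.Agent.SMF
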