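import Pool.Agent.SMF.Defs

/-!
# SMF-Alg: augmentation, left derivatives and degrees in the free algebra (Defs, Mathlib only)
-/

namespace Pool.Agent.SMF

open Matrix

variable {k X : Type*} [Field k]

@[elab_as_elim]
private theorem word_cases {P : FreeMonoid X → Prop} (h1 : P 1)
    (h2 : ∀ (y : X) (w : FreeMonoid X), P (FreeMonoid.of y * w)) (w : FreeMonoid X) : P w :=
  FreeMonoid.casesOn w h1 h2

private theorem E_iota (y : X) : FreeAlgebra.equivMonoidAlgebraFreeMonoid (FreeAlgebra.ι k y) =
    MonoidAlgebra.single (FreeMonoid.of y) (1 : k) := by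
  simp [FreeAlgebra.equivMonoidAlgebraFreeMonoid]

private theorem E_alg (c : k) : FreeAlgebra.equivMonoidAlgebraFreeMonoid
    (algebraMap k (A k X) c) = MonoidAlgebra.single (1 : FreeMonoid X) c := by
  rw [AlgEquiv.commutes]
  rfl

private theorem of_mul_inj {y z : X} {v w : FreeMonoid X}
    (h : FreeMonoid.of y * v = FreeMonoid.of z * w) : y = z ∧ v = w := by
  have h1 : y :: FreeMonoid.toList v = z :: FreeMonoid.toList w := congrArg FreeMonoid.toList h
  obtain ⟨h2, h3⟩ := List.cons.inj h1
  exact ⟨h2, FreeMonoid.toList.injective h3⟩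

private theorem of_mul_ne (y : X) (v : FreeMonoid X) : FreeMonoid.of y * v ≠ 1 := by
  intro h
  have h1 : y :: FreeMonoid.toList v = [] := congrArg FreeMonoid.toList h
  exact List.cons_ne_nil _ _ h1

private theorem len_of_mul (y : X) (v : FreeMonoid X) :
    (FreeMonoid.of y * v).length = v.length + 1 := by
  rw [FreeMonoid.length_mul, FreeMonoid.length_of, add_comm]

theorem cf_ext {a b : A k X} (h : ∀ w, cf w a = cf w b) : a = b := by
  apply FreeAlgebra.equivMonoidAlgebraFreeMonoid.injective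
  apply MonoidAlgebra.coeff_injective
  exact Finsupp.ext h

theorem cf_add (w : FreeMonoid X) (a b : A k X) : cf w (a + b) = cf w a + cf w b := by
  simp [cf]

theorem cf_smul (w : FreeMonoid X) (c : k) (a : A k X) : cf w (c • a) = c * cf w a := by
  simp [cf]

/-- coefficients as a linear map -/
private noncomputable def cfL (w : FreeMonoid X) : A k X →ₗ[k] k where
  toFun := cf w
  map_add' := cf_add w
  map_smul' := cf_smul w

private theorem cf_zero (w : FreeMonoid X) : cf w (0 : A k X) = 0 := map_zero (cfL (k := k) w)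

private theorem cf_sum {ι : Type*} (w : FreeMonoid X) (s : Finset ι) (f : ι → A k X) :
    cf w (∑ i ∈ s, f i) = ∑ i ∈ s, cf w (f i) := map_sum (cfL (k := k) w) f s

private theorem cf_alg_one (c : k) : cf 1 (algebraMap k (A k X) c) = c := by
  unfold cf
  rw [E_alg]
  simp

private theorem cf_alg_of (y : X) (w : FreeMonoid X) (c : k) :
    cf (FreeMonoid.of y * w) (algebraMap k (A k X) c) = 0 := by
  classical
  unfold cf
  rw [E_alg, MonoidAlgebra.coeff_single, Finsupp.single_apply, if_neg]
  exact (of_mul_ne y w).symm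

theorem cf_dl (y : X) (w : FreeMonoid X) (a : A k X) : cf w (dl y a) = cf (FreeMonoid.of y * w) a := by
  unfold cf dl
  rw [AlgEquiv.apply_symm_apply]
  rfl

private theorem cf_one_mul (a b : A k X) : cf 1 (a * b) = cf 1 a * cf 1 b := by
  classical
  unfold cf
  rw [map_mul FreeAlgebra.equivMonoidAlgebraFreeMonoid, MonoidAlgebra.coeff_mul_antidiag _ _ (1 : FreeMonoid X)
    {((1 : FreeMonoid X), (1 : FreeMonoid X))}, Finset.sum_singleton]
  rintro ⟨u, v⟩
  rw [Finset.mem_singleton]
  constructor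
  · intro h
    obtain ⟨rfl, rfl⟩ := Prod.mk.inj h
    exact one_mul _
  · intro h
    have h1 : FreeMonoid.toList u ++ FreeMonoid.toList v = [] := congrArg FreeMonoid.toList h
    obtain ⟨h2, h3⟩ := List.append_eq_nil_iff.1 h1
    exact Prod.ext (FreeMonoid.toList.injective h2) (FreeMonoid.toList.injective h3)

theorem ep_alg (c : k) : ep (algebraMap k (A k X) c) = c :=
  FreeAlgebra.algebraMapInv.commutes c

theorem ep_iota (y : X) : ep (FreeAlgebra.ι k y) = 0 := by
  simp [ep, FreeAlgebra.algebraMapInv]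

private theorem cf_one_iota (y : X) : cf 1 (FreeAlgebra.ι k y) = 0 := by
  classical
  unfold cf
  rw [E_iota, MonoidAlgebra.coeff_single, Finsupp.single_apply, if_neg (FreeMonoid.of_ne_one y)]

theorem ep_add (a b : A k X) : ep (a + b) = ep a + ep b := map_add _ a b

theorem ep_mul (a b : A k X) : ep (a * b) = ep a * ep b := map_mul _ a b

theorem cf_one (a : A k X) : cf 1 a = ep a := by
  refine FreeAlgebra.induction k X (motive := fun a : FreeAlgebra k X => cf 1 a = ep a)
    ?_ ?_ ?_ ?_ a
  · intro r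
    rw [cf_alg_one, ep_alg]
  · intro x
    rw [cf_one_iota, ep_iota]
  · intro a b ha hb
    rw [cf_one_mul, ep_mul, ha, hb]
  · intro a b ha hb
    rw [cf_add, ep_add, ha, hb]

theorem cf_iota_mul (y : X) (w : FreeMonoid X) (a : A k X) :
    cf (FreeMonoid.of y * w) (FreeAlgebra.ι k y * a) = cf w a := by
  unfold cf
  rw [map_mul FreeAlgebra.equivMonoidAlgebraFreeMonoid, E_iota, MonoidAlgebra.coeff_single_mul_mul, one_mul]

private theorem cf_iota_mul_ne {y z : X} (h : y ≠ z) (w : FreeMonoid X) (a : A k X) :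
    cf (FreeMonoid.of y * w) (FreeAlgebra.ι k z * a) = 0 := by
  unfold cf
  rw [map_mul FreeAlgebra.equivMonoidAlgebraFreeMonoid, E_iota]
  exact MonoidAlgebra.coeff_single_mul_of_forall_mul_ne _ _ fun d hd => h (of_mul_inj hd).1.symm

private theorem cf_one_iota_mul (z : X) (a : A k X) : cf 1 (FreeAlgebra.ι k z * a) = 0 := by
  rw [cf_one, ep_mul, ep_iota, zero_mul]

/-- the support is finite -/
theorem cf_finite (a : A k X) : {w : FreeMonoid X | cf w a ≠ 0}.Finite := by
  refine (Finset.finite_toSet (FreeAlgebra.equivMonoidAlgebraFreeMonoid a).coeff.support).subset ?_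
  intro w hw
  exact Finset.mem_coe.2 (Finsupp.mem_support_iff.2 hw)

theorem ep_smul (c : k) (a : A k X) : ep (c • a) = c * ep a := by
  rw [← cf_one, cf_smul, cf_one]

theorem ep_sum {ι : Type*} (s : Finset ι) (f : ι → A k X) : ep (∑ i ∈ s, f i) = ∑ i ∈ s, ep (f i) :=
  map_sum (FreeAlgebra.algebraMapInv (R := k) (X := X)) f s

theorem dl_add (y : X) (a b : A k X) : dl y (a + b) = dl y a + dl y b := by
  apply cf_ext
  intro w
  rw [cf_dl, cf_add, cf_add, cf_dl, cf_dl]

theorem dl_smul (y : X) (c : k) (a : A k X) : dl y (c • a) = c • dl y a := by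
  apply cf_ext
  intro w
  rw [cf_dl, cf_smul, cf_smul, cf_dl]

/-- the derivative as a linear map -/
private noncomputable def dlL (y : X) : A k X →ₗ[k] A k X where
  toFun := dl y
  map_add' := dl_add y
  map_smul' := dl_smul y

theorem dl_zero (y : X) : dl y (0 : A k X) = 0 := map_zero (dlL (k := k) y)

theorem dl_sum {ι : Type*} (y : X) (s : Finset ι) (f : ι → A k X) :
    dl y (∑ i ∈ s, f i) = ∑ i ∈ s, dl y (f i) := map_sum (dlL (k := k) y) f s

theorem dl_alg (y : X) (c : k) : dl y (algebraMap k (A k X) c) = 0 := by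
  apply cf_ext
  intro w
  rw [cf_dl, cf_alg_of, cf_zero]

open Classical in
theorem dl_iota_mul (y z : X) (a : A k X) : dl y (FreeAlgebra.ι k z * a) = if y = z then a else 0 := by
  apply cf_ext
  intro w
  rw [cf_dl]
  by_cases h : y = z
  · subst h
    rw [if_pos rfl, cf_iota_mul]
  · rw [if_neg h, cf_iota_mul_ne h, cf_zero]

theorem dl_finite (a : A k X) : {y : X | dl y a ≠ 0}.Finite := by
  have h1 : ((fun w : FreeMonoid X => (FreeMonoid.toList w).head?) '' {w | cf w a ≠ 0}).Finite :=
    (cf_finite a).image _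
  refine (h1.preimage ((Option.some_injective X).injOn)).subset ?_
  intro y hy
  by_contra hn
  apply hy
  apply cf_ext
  intro w
  rw [cf_zero, cf_dl]
  by_contra hw
  exact hn ⟨FreeMonoid.of y * w, hw, rfl⟩

/-- expansion over a larger set -/
theorem expn' (a : A k X) (s : Finset X) (hs : ∀ y, dl y a ≠ 0 → y ∈ s) :
    a = algebraMap k (A k X) (ep a) + ∑ y ∈ s, FreeAlgebra.ι k y * dl y a := by
  classical
  apply cf_ext
  intro w
  refine word_cases ?_ ?_ w
  · rw [cf_add, cf_alg_one, cf_sum, cf_one]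
    simp only [cf_one_iota_mul, Finset.sum_const_zero, add_zero]
  · intro z v
    rw [cf_add, cf_alg_of, cf_sum, zero_add]
    have h1 : ∀ y ∈ s, cf (FreeMonoid.of z * v) (FreeAlgebra.ι k y * dl y a) =
        if z = y then cf v (dl y a) else 0 := by
      intro y _
      by_cases h : z = y
      · subst h
        rw [if_pos rfl, cf_iota_mul]
      · rw [if_neg h, cf_iota_mul_ne h]
    rw [Finset.sum_congr rfl h1, Finset.sum_ite_eq]
    by_cases h : z ∈ s
    · rw [if_pos h, cf_dl]
    · rw [if_neg h, ← cf_dl]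
      have h2 : dl z a = 0 := by
        by_contra h3
        exact h (hs z h3)
      rw [h2, cf_zero]

/-- expansion -/
theorem expn (a : A k X) : a = algebraMap k (A k X) (ep a) +
    ∑ y ∈ (dl_finite a).toFinset, FreeAlgebra.ι k y * dl y a :=
  expn' a _ fun _ hy => (Set.Finite.mem_toFinset _).2 hy

theorem dl_mul (y : X) (a b : A k X) : dl y (a * b) = dl y a * b + ep a • dl y b := by
  classical
  have h1 : a * b = ep a • b + ∑ z ∈ (dl_finite a).toFinset, FreeAlgebra.ι k z * (dl z a * b) := by
    conv_lhs => rw [expn a]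
    rw [add_mul, Finset.sum_mul, Algebra.smul_def]
    congr 1
    exact Finset.sum_congr rfl fun z _ => mul_assoc _ _ _
  rw [h1, dl_add, dl_smul, dl_sum, add_comm]
  congr 1
  simp only [dl_iota_mul]
  rw [Finset.sum_ite_eq]
  by_cases h : y ∈ (dl_finite a).toFinset
  · rw [if_pos h]
  · rw [if_neg h]
    have h2 : dl y a = 0 := by
      by_contra h3
      exact h ((Set.Finite.mem_toFinset _).2 h3)
    rw [h2, zero_mul]

theorem eq_zero_iff (a : A k X) : a = 0 ↔ ep a = 0 ∧ ∀ y, dl y a = 0 := by
  constructor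
  · rintro rfl
    refine ⟨?_, dl_zero⟩
    rw [← cf_one, cf_zero]
  · rintro ⟨h1, h2⟩
    apply cf_ext
    intro w
    rw [cf_zero]
    refine word_cases ?_ ?_ w
    · rw [cf_one, h1]
    · intro y v
      rw [← cf_dl, h2, cf_zero]

private theorem mem_fil {a : A k X} {d : ℤ} :
    a ∈ Fil (k := k) (X := X) d ↔ ∀ w : FreeMonoid X, cf w a ≠ 0 → (w.length : ℤ) ≤ d := Iff.rfl

theorem fil_mono {d e : ℤ} (h : d ≤ e) : Fil (k := k) (X := X) d ≤ Fil e :=
  fun _ ha w hw => (ha w hw).trans h

theorem fil_neg {d : ℤ} (h : d < 0) : Fil (k := k) (X := X) d = ⊥ := by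
  rw [eq_bot_iff]
  intro a ha
  rw [Submodule.mem_bot]
  apply cf_ext
  intro w
  rw [cf_zero]
  by_contra hw
  have := ha w hw
  omega

theorem fil_exh (a : A k X) : ∃ d : ℤ, 0 ≤ d ∧ a ∈ Fil (k := k) (X := X) d := by
  refine ⟨(((cf_finite a).toFinset.sup fun w => w.length : ℕ) : ℤ), Int.natCast_nonneg _, ?_⟩
  intro w hw
  exact_mod_cast Finset.le_sup (f := fun w : FreeMonoid X => w.length)
    ((Set.Finite.mem_toFinset (cf_finite a)).2 hw)

theorem fil_alg (c : k) {d : ℤ} (h : 0 ≤ d) : algebraMap k (A k X) c ∈ Fil (k := k) (X := X) d := by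
  rw [mem_fil]
  intro w
  refine word_cases ?_ ?_ w
  · intro _
    rw [FreeMonoid.length_one]
    exact_mod_cast h
  · intro y v hv
    exact absurd (cf_alg_of y v c) hv

theorem fil_zero (a : A k X) : a ∈ Fil (k := k) (X := X) 0 ↔ a ∈ Set.range (algebraMap k (A k X)) := by
  constructor
  · intro h
    refine ⟨ep a, ?_⟩
    apply cf_ext
    intro w
    refine word_cases ?_ ?_ w
    · rw [cf_alg_one, cf_one]
    · intro y v
      rw [cf_alg_of]
      by_contra h1
      have h2 := h (FreeMonoid.of y * v) (fun h3 => h1 h3.symm)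
      rw [len_of_mul] at h2
      push_cast at h2
      omega
  · rintro ⟨c, rfl⟩
    exact fil_alg c le_rfl

theorem dl_fil {a : A k X} {d : ℤ} (h : a ∈ Fil (k := k) (X := X) d) (y : X) :
    dl y a ∈ Fil (k := k) (X := X) (d - 1) := by
  intro w hw
  rw [cf_dl] at hw
  have h1 := h _ hw
  rw [len_of_mul] at h1
  push_cast at h1
  omega

/-- degrees and derivatives -/
theorem fil_dl {a : A k X} (h : ep a = 0) (d : ℤ) :
    a ∈ Fil (k := k) (X := X) d ↔ ∀ y, dl y a ∈ Fil (k := k) (X := X) (d - 1) := by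
  refine ⟨fun h1 y => dl_fil h1 y, fun h1 => ?_⟩
  rw [mem_fil]
  intro w
  refine word_cases ?_ ?_ w
  · intro h2
    rw [cf_one] at h2
    exact absurd h h2
  · intro y v hv
    rw [← cf_dl] at hv
    have h2 := h1 y v hv
    rw [len_of_mul]
    push_cast
    omega

theorem iota_fil {a : A k X} {d : ℤ} (h : a ∈ Fil (k := k) (X := X) d) (y : X) :
    FreeAlgebra.ι k y * a ∈ Fil (k := k) (X := X) (d + 1) := by
  rw [mem_fil]
  intro w
  refine word_cases ?_ ?_ w
  · intro h1
    exact absurd (cf_one_iota_mul y a) h1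
  · intro z v hv
    by_cases hz : z = y
    · subst hz
      rw [cf_iota_mul] at hv
      have h2 := h v hv
      rw [len_of_mul]
      push_cast
      omega
    · exact absurd (cf_iota_mul_ne hz v a) hv

theorem fil_mul {a b : A k X} {d e : ℤ} (ha : a ∈ Fil (k := k) (X := X) d) (hb : b ∈ Fil (k := k) (X := X) e) :
    a * b ∈ Fil (k := k) (X := X) (d + e) := by
  classical
  intro w hw
  by_contra hlt
  apply hw
  unfold cf
  rw [map_mul FreeAlgebra.equivMonoidAlgebraFreeMonoid, MonoidAlgebra.coeff_mul]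
  refine Finset.sum_eq_zero fun u hu => Finset.sum_eq_zero fun v hv => ?_
  refine if_neg ?_
  intro huv
  have h1 := ha u (Finsupp.mem_support_iff.1 hu)
  have h2 := hb v (Finsupp.mem_support_iff.1 hv)
  apply hlt
  rw [← huv, FreeMonoid.length_mul]
  push_cast
  omega

/-- Induction on the degree. -/
theorem deg_induction {P : A k X → Prop} (h0 : P 0) (h : ∀ a, (∀ y, P (dl y a)) → P a) (a : A k X) : P a := by
  have key : ∀ (n : ℕ) (a : A k X), a ∈ Fil (k := k) (X := X) ((n : ℤ) - 1) → P a := by
    intro n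
    induction n with
    | zero =>
      intro a ha
      rw [fil_neg (by norm_num), Submodule.mem_bot] at ha
      rw [ha]
      exact h0
    | succ n ih =>
      intro a ha
      refine h a fun y => ih _ ?_
      have h1 := dl_fil ha y
      have h2 : ((n + 1 : ℕ) : ℤ) - 1 - 1 = (n : ℤ) - 1 := by push_cast; ring
      rwa [h2] at h1
  obtain ⟨d, hd0, hd⟩ := fil_exh a
  refine key (d + 1).toNat a ?_
  have h1 : ((d + 1).toNat : ℤ) - 1 = d := by omega
  rwa [h1]

end Pool.Agent.SMF
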