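import Pool.Agent.SMF.GoodU

/-!
# SMF-Bm: the matrices of constants of an action on the pieces of a fixed flag (imports GoodU, ActG, Spec, Alg)

Everything is read off from the coordinates of `ρ.r g m` (`act_co`).
-/

namespace Pool.Agent.SMF

open Matrix

variable {k X : Type*} [Field k] {n : ℕ} {G : Type*} [Group G] {φ : G →* (A k X ≃ₐ[k] A k X)}

open Classical in
/-- the matrix of constants of `g` -/
noncomputable def bm (ρ : SAct φ n) (s : T k X n) (b : GLm k X n) (g : G) : Matrix (Fin n) (Fin n) k :=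
  fun j l => if s l = s j then ep (co b (ρ.r g (rw' b j)) l) else 0

private theorem co_sum {ι : Type*} (g : GLm k X n) (S : Finset ι) (f : ι → V k X n) :
    co g (∑ i ∈ S, f i) = ∑ i ∈ S, co g (f i) := by
  classical
  induction S using Finset.induction_on with
  | empty =>
    rw [Finset.sum_empty, Finset.sum_empty]
    simp [co]
  | insert a S ha ih => rw [Finset.sum_insert ha, Finset.sum_insert ha, co_add, ih]

private theorem act_co (ρ : SAct φ n) (b : GLm k X n) (g : G) (m : V k X n) (i : Fin n) :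
    co b (ρ.r g m) i = ∑ l, φ g (co b m l) * co b (ρ.r g (rw' b l)) i := by
  have h1 : ρ.r g m = ∑ l, φ g (co b m l) • ρ.r g (rw' b l) := by
    conv_lhs => rw [eq_sum b m]
    rw [map_sum]
    exact Finset.sum_congr rfl fun l _ => ρ.semi g _ _
  rw [h1, co_sum, Finset.sum_apply]
  refine Finset.sum_congr rfl fun l _ => ?_
  rw [co_smulA]
  rfl

private theorem mem_moved {ρ : SAct φ n} {s : T k X n} (hs : ρ.Fx s) {b : GLm k X n} (hb : Ad b s) (j : Fin n) (g : G) :
    ρ.r g (rw' b j) ∈ s j := (fx_iff ρ s).1 hs g j _ (hb j)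

theorem bm_const {ρ : SAct φ n} {s : T k X n} (hs : ρ.Fx s) {b : GLm k X n} (hb : Ad b s) {j l : Fin n}
    (h : s l = s j) (g : G) : co b (ρ.r g (rw' b j)) l = algebraMap k (A k X) (bm ρ s b g j l) := by
  obtain ⟨c, hc⟩ := ((T_mem s hb j _).1 (mem_moved hs hb j g) l).2 h
  unfold bm
  rw [if_pos h, ← hc, ep_alg]

theorem bm_up {ρ : SAct φ n} {s : T k X n} (hs : ρ.Fx s) {b : GLm k X n} (hb : Ad b s) {j l : Fin n}
    (h : s j < s l) (g : G) : co b (ρ.r g (rw' b j)) l = 0 :=
  ((T_mem s hb j _).1 (mem_moved hs hb j g) l).1 h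

theorem bm_zero {ρ : SAct φ n} {s : T k X n} {b : GLm k X n} {j l : Fin n} (h : s l ≠ s j) (g : G) :
    bm ρ s b g j l = 0 := by
  unfold bm
  rw [if_neg h]

private theorem ep_one' : ep (1 : A k X) = 1 := by
  have h1 := ep_alg (X := X) (1 : k)
  rwa [map_one] at h1

private theorem ep_zero' : ep (0 : A k X) = 0 := by
  have h1 := ep_alg (X := X) (0 : k)
  rwa [map_zero] at h1

private theorem bm_eq_one {ρ : SAct φ n} {s : T k X n} {b : GLm k X n} {g : G}
    (h : ∀ j l, s l = s j → co b (ρ.r g (rw' b j)) l = (Pi.single j 1 : Fin n → A k X) l) : bm ρ s b g = 1 := by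
  classical
  ext j l
  by_cases h1 : s l = s j
  · have h2 : bm ρ s b g j l = ep (co b (ρ.r g (rw' b j)) l) := by
      unfold bm
      rw [if_pos h1]
    rw [h2, h j l h1]
    by_cases h3 : j = l
    · subst h3
      rw [Pi.single_eq_same, Matrix.one_apply_eq, ep_one']
    · rw [Pi.single_eq_of_ne (fun h4 => h3 h4.symm), Matrix.one_apply_ne h3, ep_zero']
  · have h3 : j ≠ l := by
      rintro rfl
      exact h1 rfl
    rw [bm_zero h1, Matrix.one_apply_ne h3]

theorem bm_one {ρ : SAct φ n} {s : T k X n} {b : GLm k X n} : bm ρ s b 1 = 1 := by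
  refine bm_eq_one fun j l _ => ?_
  rw [map_one]
  show co b (rw' b j) l = _
  rw [co_rw]

private theorem tot' {s : T k X n} {j l : Fin n} (h : s l ≠ s j) : s j < s l ∨ s l < s j := by
  rcases T_tot s j l with h1 | h1
  · exact Or.inl (lt_of_le_of_ne h1 h.symm)
  · exact Or.inr (lt_of_le_of_ne h1 h)

theorem bm_mul {ρ : SAct φ n} {s : T k X n} (hs : ρ.Fx s) {b : GLm k X n} (hb : Ad b s) (g g' : G) :
    bm ρ s b (g * g') = bm ρ s b g' * bm ρ s b g := by
  ext j i
  rw [Matrix.mul_apply]
  by_cases h : s i = s j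
  · apply (algebraMap k (A k X)).injective
    rw [← bm_const hs hb h, map_mul]
    show co b (ρ.r g (ρ.r g' (rw' b j))) i = _
    rw [act_co, map_sum]
    refine Finset.sum_congr rfl fun l _ => ?_
    by_cases hl : s l = s j
    · rw [bm_const hs hb hl, AlgEquiv.commutes, bm_const hs hb (h.trans hl.symm), map_mul]
    · rw [bm_zero hl, zero_mul, map_zero]
      rcases tot' hl with h1 | h1
      · rw [bm_up hs hb h1, map_zero, zero_mul]
      · rw [bm_up hs hb (h ▸ h1 : s l < s i), mul_zero]
  · rw [bm_zero h]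
    symm
    refine Finset.sum_eq_zero fun l _ => ?_
    by_cases hl : s l = s j
    · rw [bm_zero (fun h1 => h (h1.trans hl)) g, mul_zero]
    · rw [bm_zero hl, zero_mul]

theorem bm_triv {ρ : SAct φ n} {s : T k X n} (hs : ρ.Fx s) {b : GLm k X n} (hb : Ad b s)
    (h : ∀ g, bm ρ s b g = 1) : Triv ρ s := by
  classical
  intro g j m hm
  rw [low_iff hb]
  intro i hi
  have hji : s j ≤ s i := by
    rcases T_tot s j i with h1 | h1
    · exact h1
    · by_contra h2
      exact hi (lt_of_le_not_ge h1 h2)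
  have hmc := (T_mem s hb j m).1 hm
  have h1 : co b m i = ∑ l, if l = i then co b m l else 0 := by
    rw [Finset.sum_ite_eq' Finset.univ i (fun l => co b m l), if_pos (Finset.mem_univ i)]
  rw [co_sub, Pi.sub_apply, act_co, h1, sub_eq_zero]
  refine Finset.sum_congr rfl fun l _ => ?_
  by_cases hl : s l = s j
  · obtain ⟨c, hc⟩ := (hmc l).2 hl
    rw [← hc, AlgEquiv.commutes]
    by_cases hij : s i = s j
    · rw [bm_const hs hb (hij.trans hl.symm), h g]
      by_cases h2 : l = i
      · subst h2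
        rw [Matrix.one_apply_eq, map_one, mul_one, if_pos rfl]
      · rw [Matrix.one_apply_ne h2, map_zero, mul_zero, if_neg h2]
    · have h3 : s l < s i := by
        rw [hl]
        exact lt_of_le_of_ne hji fun h4 => hij h4.symm
      have h4 : l ≠ i := by
        rintro rfl
        exact hij hl
      rw [bm_up hs hb h3, mul_zero, if_neg h4]
  · rcases tot' hl with h2 | h2
    · rw [(hmc l).1 h2, map_zero, zero_mul]
      simp
    · have h3 : s l < s i := lt_of_lt_of_le h2 hji
      have h4 : l ≠ i := by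
        rintro rfl
        exact lt_irrefl _ h3
      rw [bm_up hs hb h3, mul_zero, if_neg h4]

theorem triv_bm {ρ : SAct φ n} {s : T k X n} (hs : ρ.Fx s) {b : GLm k X n} (hb : Ad b s) (h : Triv ρ s) (g : G) :
    bm ρ s b g = 1 := by
  refine bm_eq_one fun j l hl => ?_
  have h1 := (low_iff hb j _).1 (h g j _ (hb j)) l (by rw [hl]; exact lt_irrefl _)
  rw [co_sub, Pi.sub_apply, sub_eq_zero, co_rw] at h1
  exact h1

end Pool.Agent.SMF
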