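import Pool.Agent.SMF.CarM

/-!
# SMF-CarH: acyclic carriers, existence of homotopies (imports CarM, H0)

Induction on the length of the lists.
-/

namespace Pool.Agent.SMF

open Finsupp

variable {K : Type*} [Field K] {P P' : Type*}

private theorem agreeH {φ ψ : Ch K P →ₗ[K] Ch K P'} {N : ℕ}
    (h : ∀ l : List P, l.length ≤ N → ψ (single l 1) = φ (single l 1)) {m : ℕ} (hm : m ≤ N)
    {z : Ch K P} (hz : z ∈ SP K (fun _ => True) m) : ψ z = φ z := by
  have h1 : z ∈ LinearMap.eqLocus ψ φ := by
    refine SP_induction (Q := fun _ => True) (m := m) ?_ hz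
    intro l _ hl
    rw [LinearMap.mem_eqLocus]
    exact h l (by omega)
  exact LinearMap.mem_eqLocus.1 h1

private theorem bd_single_memH (l : List P) (m : ℕ) (hm : l.length = m + 1) :
    bd (single l (1 : K)) ∈ SP K (fun l' => l'.Sublist l) m := by
  have h1 : single l (1 : K) ∈ SP K (fun l' => l'.Sublist l) l.length :=
    single_mem_SP (K := K) (Q := fun l' => l'.Sublist l) (List.Sublist.refl l) 1
  rw [hm] at h1
  exact bd_mem (fun a b hab hba => hba.trans hab) h1

theorem carrier_homotopy (N : ℕ) {Q : List P → Prop} (hQ : Clo Q) {R : List P → List P' → Prop}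
    (hmono : ∀ l l' m, Q l → l' ≠ [] → l'.Sublist l → R l' m → R l m)
    (hac : ∀ l, Q l → l ≠ [] → Acyc K (R l)) {φ₁ φ₂ : Ch K P →ₗ[K] Ch K P'} (h₁ : CMap N Q R φ₁)
    (h₂ : CMap N Q R φ₂) :
    ∃ H : Ch K P →ₗ[K] Ch K P', H (single [] 1) = 0 ∧ ∀ l, Q l → l ≠ [] → l.length ≤ N →
      H (single l 1) ∈ SP K (R l) (l.length + 1) ∧
        bd (H (single l 1)) + H (bd (single l 1)) = φ₁ (single l 1) - φ₂ (single l 1) := by
  classical
  induction N with
  | zero =>
    refine ⟨0, rfl, ?_⟩
    intro l _ hl hl0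
    exact absurd (List.length_eq_zero_iff.1 (Nat.le_zero.1 hl0)) hl
  | succ N ih =>
    obtain ⟨H, h3, h4⟩ := ih ⟨h₁.1, fun l a b c => h₁.2 l a b (by omega)⟩
      ⟨h₂.1, fun l a b c => h₂.2 l a b (by omega)⟩
    have hH : ∀ l, Q l → l.length = N + 1 → H (bd (single l 1)) ∈ SP K (R l) (N + 1) := by
      intro l hl hlN
      have h5 := bd_single_memH (K := K) l N hlN
      have h6 : bd (single l (1 : K)) ∈ Submodule.comap H (SP K (R l) (N + 1)) := by
        refine SP_induction ?_ h5
        intro l' hl' hN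
        rw [Submodule.mem_comap]
        by_cases h7 : l' = []
        · rw [h7, h3]
          exact Submodule.zero_mem _
        · have h8 := (h4 l' (hQ l l' hl hl') h7 (by omega)).1
          rw [hN] at h8
          exact SP_mono (fun m hm => hmono l l' m hl h7 hl' hm) (N + 1) h8
      exact h6
    have hx : ∀ l, Q l → l.length = N + 1 →
        φ₁ (single l 1) - φ₂ (single l 1) - H (bd (single l 1)) ∈ SP K (R l) (N + 1) := by
      intro l hl hlN
      have hl0 : l ≠ [] := by
        rintro rfl
        simp at hlN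
      have h5 := (h₁.2 l hl hl0 (by omega)).1
      have h6 := (h₂.2 l hl hl0 (by omega)).1
      rw [hlN] at h5 h6
      exact Submodule.sub_mem _ (Submodule.sub_mem _ h5 h6) (hH l hl hlN)
    have hb : ∀ l, Q l → l.length = N + 1 →
        bd (φ₁ (single l 1) - φ₂ (single l 1) - H (bd (single l 1))) = 0 := by
      intro l hl hlN
      have hl0 : l ≠ [] := by
        rintro rfl
        simp at hlN
      have h5 := bd_single_memH (K := K) l N hlN
      have h6 : bd (single l (1 : K)) ∈ LinearMap.eqLocus (bd ∘ₗ H + H ∘ₗ bd) (φ₁ - φ₂) := by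
        refine SP_induction ?_ h5
        intro l' hl' hN
        rw [LinearMap.mem_eqLocus]
        by_cases h7 : l' = []
        · rw [LinearMap.add_apply, LinearMap.comp_apply, LinearMap.comp_apply,
            LinearMap.sub_apply, h7, h3, h₁.1, h₂.1, bd_nil, map_zero, map_zero, add_zero, sub_self]
        · exact (h4 l' (hQ l l' hl hl') h7 (by omega)).2
      have h7 : bd (H (bd (single l (1 : K)))) + H (bd (bd (single l (1 : K)))) =
          φ₁ (bd (single l 1)) - φ₂ (bd (single l 1)) := LinearMap.mem_eqLocus.1 h6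
      rw [bd_bd, map_zero, add_zero] at h7
      rw [map_sub, map_sub, (h₁.2 l hl hl0 (by omega)).2, (h₂.2 l hl hl0 (by omega)).2, h7,
        sub_self]
    have hy : ∀ l, ∃ y : Ch K P', Q l → l.length = N + 1 →
        y ∈ SP K (R l) (N + 2) ∧
          bd y = φ₁ (single l 1) - φ₂ (single l 1) - H (bd (single l 1)) := by
      intro l
      by_cases hl : Q l ∧ l.length = N + 1
      · have hl0 : l ≠ [] := by
          rintro rfl
          simp at hl
        obtain ⟨y, hy1, hy2⟩ := hac l hl.1 hl0 (N + 1) _ (hx l hl.1 hl.2) (hb l hl.1 hl.2)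
        exact ⟨y, fun _ _ => ⟨hy1, hy2⟩⟩
      · exact ⟨0, fun h3 h4 => absurd ⟨h3, h4⟩ hl⟩
    choose y hy using hy
    obtain ⟨ψ, hψ⟩ : ∃ ψ : Ch K P →ₗ[K] Ch K P', ψ = Finsupp.linearCombination K fun l =>
      if l.length ≤ N then H (single l 1) else y l := ⟨_, rfl⟩
    have hψ1 : ∀ l : List P, l.length ≤ N → ψ (single l 1) = H (single l 1) := by
      intro l hl
      rw [hψ, Finsupp.linearCombination_single, one_smul, if_pos hl]
    have hψ2 : ∀ l : List P, l.length = N + 1 → ψ (single l 1) = y l := by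
      intro l hl
      rw [hψ, Finsupp.linearCombination_single, one_smul, if_neg (by omega)]
    refine ⟨ψ, ?_, ?_⟩
    · rw [hψ1 [] (Nat.zero_le _), h3]
    · intro l hl hl0 hlN
      have hpos : 0 < l.length := List.length_pos_of_ne_nil hl0
      obtain ⟨m, hm⟩ : ∃ m, l.length = m + 1 := ⟨l.length - 1, by omega⟩
      have h5 : ψ (bd (single l 1)) = H (bd (single l 1)) :=
        agreeH hψ1 (by omega : m ≤ N)
          (SP_mono (fun _ _ => trivial) m (bd_single_memH (K := K) l m hm))
      rw [h5]
      by_cases h6 : l.length ≤ N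
      · rw [hψ1 l h6]
        exact h4 l hl hl0 h6
      · have h7 : l.length = N + 1 := by omega
        have h8 := hy l hl h7
        rw [hψ2 l h7, h7, h8.2]
        exact ⟨h8.1, sub_add_cancel _ _⟩

end Pool.Agent.SMF
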