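import Pool.Agent.SMF.H0

/-!
# SMF-CarM: acyclic carriers, existence of chain maps
-/

namespace Pool.Agent.SMF

open Finsupp

variable {K : Type*} [Field K] {P P' : Type*}

/-- `φ` is a chain map up to length `N` on the lists in `Q`, carried by `R` -/
def CMap (N : ℕ) (Q : List P → Prop) (R : List P → List P' → Prop) (φ : Ch K P →ₗ[K] Ch K P') : Prop :=
  φ (single [] 1) = single [] 1 ∧ ∀ l, Q l → l ≠ [] → l.length ≤ N →
    φ (single l 1) ∈ SP K (R l) l.length ∧ bd (φ (single l 1)) = φ (bd (single l 1))

private theorem agree {φ ψ : Ch K P →ₗ[K] Ch K P'} {N : ℕ}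
    (h : ∀ l : List P, l.length ≤ N → ψ (single l 1) = φ (single l 1)) {m : ℕ} (hm : m ≤ N)
    {z : Ch K P} (hz : z ∈ SP K (fun _ => True) m) : ψ z = φ z := by
  have h1 : z ∈ LinearMap.eqLocus ψ φ := by
    refine SP_induction (Q := fun _ => True) (m := m) ?_ hz
    intro l _ hl
    rw [LinearMap.mem_eqLocus]
    exact h l (by omega)
  exact LinearMap.mem_eqLocus.1 h1

private theorem bd_single_mem (l : List P) (m : ℕ) (hm : l.length = m + 1) :
    bd (single l (1 : K)) ∈ SP K (fun l' => l'.Sublist l) m := by
  have h1 : single l (1 : K) ∈ SP K (fun l' => l'.Sublist l) l.length :=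
    single_mem_SP (K := K) (Q := fun l' => l'.Sublist l) (List.Sublist.refl l) 1
  rw [hm] at h1
  exact bd_mem (fun a b hab hba => hba.trans hab) h1

theorem carrier_map (N : ℕ) {Q : List P → Prop} (hQ : Clo Q) {R : List P → List P' → Prop}
    (h0 : ∀ l, Q l → l ≠ [] → R l []) (hmono : ∀ l l' m, Q l → l' ≠ [] → l'.Sublist l → R l' m → R l m)
    (hac : ∀ l, Q l → l ≠ [] → Acyc K (R l)) : ∃ φ : Ch K P →ₗ[K] Ch K P', CMap N Q R φ := by
  classical
  induction N with
  | zero =>
    refine ⟨Finsupp.linearCombination K fun l => if l = [] then single [] 1 else 0, ?_, ?_⟩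
    · rw [Finsupp.linearCombination_single, one_smul, if_pos rfl]
    · intro l _ hl hl0
      exact absurd (List.length_eq_zero_iff.1 (Nat.le_zero.1 hl0)) hl
  | succ N ih =>
    obtain ⟨φ, h1, h2⟩ := ih
    have hx : ∀ l, Q l → l.length = N + 1 → φ (bd (single l 1)) ∈ SP K (R l) N := by
      intro l hl hlN
      have hl0 : l ≠ [] := by
        rintro rfl
        simp at hlN
      have h3 := bd_single_mem (K := K) l N hlN
      have h4 : bd (single l (1 : K)) ∈ Submodule.comap φ (SP K (R l) N) := by
        refine SP_induction ?_ h3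
        intro l' hl' hN
        rw [Submodule.mem_comap]
        by_cases h5 : l' = []
        · subst h5
          have h6 : N = 0 := by simpa using hN.symm
          subst h6
          rw [h1]
          have h7 := single_mem_SP (K := K) (Q := R l) (l := ([] : List P')) (h0 l hl hl0) 1
          exact h7
        · have h6 := (h2 l' (hQ l l' hl hl') h5 (by omega)).1
          rw [hN] at h6
          exact SP_mono (fun m hm => hmono l l' m hl h5 hl' hm) N h6
      exact h4
    have hb : ∀ l, Q l → l.length = N + 1 → bd (φ (bd (single l 1))) = 0 := by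
      intro l hl hlN
      rcases Nat.eq_zero_or_pos N with hN | hN
      · have h3 := hx l hl hlN
        subst hN
        exact bd_zero_of_length h3
      · have h3 := bd_single_mem (K := K) l N hlN
        have h4 : bd (single l (1 : K)) ∈ LinearMap.eqLocus (bd ∘ₗ φ) (φ ∘ₗ bd) := by
          refine SP_induction ?_ h3
          intro l' hl' hN'
          rw [LinearMap.mem_eqLocus]
          have h5 : l' ≠ [] := by
            rintro rfl
            simp at hN'
            omega
          exact (h2 l' (hQ l l' hl hl') h5 (by omega)).2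
        have h5 : bd (φ (bd (single l (1 : K)))) = φ (bd (bd (single l (1 : K)))) :=
          LinearMap.mem_eqLocus.1 h4
        rw [h5, bd_bd, map_zero]
    have hy : ∀ l, ∃ y : Ch K P', Q l → l.length = N + 1 →
        y ∈ SP K (R l) (N + 1) ∧ bd y = φ (bd (single l 1)) := by
      intro l
      by_cases hl : Q l ∧ l.length = N + 1
      · have hl0 : l ≠ [] := by
          rintro rfl
          simp at hl
        obtain ⟨y, hy1, hy2⟩ := hac l hl.1 hl0 N _ (hx l hl.1 hl.2) (hb l hl.1 hl.2)
        exact ⟨y, fun _ _ => ⟨hy1, hy2⟩⟩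
      · exact ⟨0, fun h3 h4 => absurd ⟨h3, h4⟩ hl⟩
    choose y hy using hy
    let ψ : Ch K P →ₗ[K] Ch K P' := Finsupp.linearCombination K fun l =>
      if l.length ≤ N then φ (single l 1) else y l
    have hψ1 : ∀ l : List P, l.length ≤ N → ψ (single l 1) = φ (single l 1) := by
      intro l hl
      show Finsupp.linearCombination K _ (single l 1) = _
      rw [Finsupp.linearCombination_single, one_smul, if_pos hl]
    have hψ2 : ∀ l : List P, l.length = N + 1 → ψ (single l 1) = y l := by
      intro l hl
      show Finsupp.linearCombination K _ (single l 1) = _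
      rw [Finsupp.linearCombination_single, one_smul, if_neg (by omega)]
    refine ⟨ψ, ?_, ?_⟩
    · rw [hψ1 [] (Nat.zero_le _), h1]
    · intro l hl hl0 hlN
      have hpos : 0 < l.length := List.length_pos_of_ne_nil hl0
      obtain ⟨m, hm⟩ : ∃ m, l.length = m + 1 := ⟨l.length - 1, by omega⟩
      have h3 : ψ (bd (single l 1)) = φ (bd (single l 1)) :=
        agree hψ1 (by omega : m ≤ N)
          (SP_mono (fun _ _ => trivial) m (bd_single_mem (K := K) l m hm))
      rw [h3]
      by_cases h4 : l.length ≤ N
      · rw [hψ1 l h4]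
        exact h2 l hl hl0 h4
      · have h5 : l.length = N + 1 := by omega
        rw [hψ2 l h5, h5]
        exact hy l hl h5

end Pool.Agent.SMF
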