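import Pool.Agent.SMF.Split

/-!
# SMF-Kap: the fixed flag through a stable direct summand
-/

namespace Pool.Agent.SMF

variable {k X : Type*} [Field k] {m r : ℕ} {G : Type*} [Group G] {φ : G →* (A k X ≃ₐ[k] A k X)}

open Matrix

private theorem kp_row_mul {n : ℕ} (u g : GLm k X n) (j : Fin n) :
    rw' (u * g) j = ∑ l, (u : Matrix (Fin n) (Fin n) (A k X)) j l • rw' g l := by
  funext i
  rw [Finset.sum_apply]
  show ((u * g : GLm k X n) : Matrix (Fin n) (Fin n) (A k X)) j i = _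
  rw [Units.val_mul, Matrix.mul_apply]
  rfl

/-- block diagonal matrices -/
private def kp_blk (P : Matrix (Fin m) (Fin m) (A k X)) (Q : Matrix (Fin r) (Fin r) (A k X)) :
    Matrix (Fin (m + r)) (Fin (m + r)) (A k X) :=
  (Matrix.fromBlocks P 0 0 Q).submatrix finSumFinEquiv.symm finSumFinEquiv.symm

private theorem kp_blk_mul (P P' : Matrix (Fin m) (Fin m) (A k X)) (Q Q' : Matrix (Fin r) (Fin r) (A k X)) :
    kp_blk P Q * kp_blk P' Q' = kp_blk (P * P') (Q * Q') := by
  unfold kp_blk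
  rw [Matrix.submatrix_mul_equiv, Matrix.fromBlocks_multiply]
  simp only [Matrix.mul_zero, Matrix.zero_mul, add_zero, zero_add]

private theorem kp_blk_one : kp_blk (1 : Matrix (Fin m) (Fin m) (A k X)) (1 : Matrix (Fin r) (Fin r) (A k X)) = 1 := by
  unfold kp_blk
  rw [Matrix.fromBlocks_one, Matrix.submatrix_one_equiv]

private def kp_d (h1 : GLm k X m) (h2 : GLm k X r) : GLm k X (m + r) where
  val := kp_blk (h1 : Matrix (Fin m) (Fin m) (A k X)) (h2 : Matrix (Fin r) (Fin r) (A k X))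
  inv := kp_blk ((h1⁻¹ : GLm k X m) : Matrix (Fin m) (Fin m) (A k X))
    ((h2⁻¹ : GLm k X r) : Matrix (Fin r) (Fin r) (A k X))
  val_inv := by
    rw [kp_blk_mul, Units.mul_inv, Units.mul_inv, kp_blk_one]
  inv_val := by
    rw [kp_blk_mul, Units.inv_mul, Units.inv_mul, kp_blk_one]

private theorem kp_cc (P : Matrix (Fin m) (Fin m) (A k X)) (Q : Matrix (Fin r) (Fin r) (A k X)) (i j : Fin m) :
    kp_blk P Q (Fin.castAdd r i) (Fin.castAdd r j) = P i j := by
  unfold kp_blk
  rw [Matrix.submatrix_apply, finSumFinEquiv_symm_apply_castAdd, finSumFinEquiv_symm_apply_castAdd]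
  rfl

private theorem kp_cn (P : Matrix (Fin m) (Fin m) (A k X)) (Q : Matrix (Fin r) (Fin r) (A k X)) (i : Fin m)
    (j : Fin r) : kp_blk P Q (Fin.castAdd r i) (Fin.natAdd m j) = 0 := by
  unfold kp_blk
  rw [Matrix.submatrix_apply, finSumFinEquiv_symm_apply_castAdd, finSumFinEquiv_symm_apply_natAdd]
  rfl

private theorem kp_nc (P : Matrix (Fin m) (Fin m) (A k X)) (Q : Matrix (Fin r) (Fin r) (A k X)) (i : Fin r)
    (j : Fin m) : kp_blk P Q (Fin.natAdd m i) (Fin.castAdd r j) = 0 := by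
  unfold kp_blk
  rw [Matrix.submatrix_apply, finSumFinEquiv_symm_apply_castAdd, finSumFinEquiv_symm_apply_natAdd]
  rfl

private theorem kp_nn (P : Matrix (Fin m) (Fin m) (A k X)) (Q : Matrix (Fin r) (Fin r) (A k X)) (i j : Fin r) :
    kp_blk P Q (Fin.natAdd m i) (Fin.natAdd m j) = Q i j := by
  unfold kp_blk
  rw [Matrix.submatrix_apply, finSumFinEquiv_symm_apply_natAdd, finSumFinEquiv_symm_apply_natAdd]
  rfl

/-- the first `m` coordinates -/
private def kp_fst (g₀ : GLm k X (m + r)) (v : V k X (m + r)) : V k X m := fun i => co g₀ v (Fin.castAdd r i)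

private theorem kp_co (h1 : GLm k X m) (h2 : GLm k X r) (g₀ : GLm k X (m + r)) (v : V k X (m + r))
    (l : Fin (m + r)) : co (kp_d h1 h2 * g₀) v l = ∑ j, co g₀ v j *
      kp_blk ((h1⁻¹ : GLm k X m) : Matrix (Fin m) (Fin m) (A k X))
        ((h2⁻¹ : GLm k X r) : Matrix (Fin r) (Fin r) (A k X)) j l := by
  have h3 : co (kp_d h1 h2 * g₀) v = co g₀ v ᵥ*
      (((kp_d h1 h2)⁻¹ : GLm k X (m + r)) : Matrix (Fin (m + r)) (Fin (m + r)) (A k X)) := by
    unfold co
    rw [Matrix.vecMul_vecMul, ← Units.val_mul, _root_.mul_inv_rev]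
  rw [h3]
  rfl

private theorem kp_co1 (h1 : GLm k X m) (h2 : GLm k X r) (g₀ : GLm k X (m + r)) (v : V k X (m + r))
    (i : Fin m) : co (kp_d h1 h2 * g₀) v (Fin.castAdd r i) = co h1 (kp_fst g₀ v) i := by
  rw [kp_co, Fin.sum_univ_add]
  simp only [kp_cc, kp_nc, mul_zero, Finset.sum_const_zero, add_zero]
  rfl

private theorem kp_co2 (h1 : GLm k X m) (h2 : GLm k X r) (g₀ : GLm k X (m + r)) (v : V k X (m + r))
    (i : Fin r) : co (kp_d h1 h2 * g₀) v (Fin.natAdd m i) = co h2 (prj g₀ v) i := by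
  rw [kp_co, Fin.sum_univ_add]
  simp only [kp_cn, kp_nn, mul_zero, Finset.sum_const_zero, zero_add]
  rfl

private theorem kp_zero {n : ℕ} (g : GLm k X n) (v : V k X n) (h : ∀ l, co g v l = 0) : v = 0 := by
  rw [eq_sum g v]
  exact Finset.sum_eq_zero fun l _ => by rw [h l, zero_smul]

private theorem kp_co_zero {n : ℕ} (g : GLm k X n) (l : Fin n) : co g (0 : V k X n) l = 0 := by
  simp [co]

private def kp_S {n : ℕ} (g : GLm k X n) (l : Fin n) : Submodule (A k X) (V k X n) where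
  carrier := {v | co g v l = 0}
  add_mem' := by
    intro a b ha hb
    have ha' : co g a l = 0 := ha
    have hb' : co g b l = 0 := hb
    show co g (a + b) l = 0
    rw [co_add, Pi.add_apply, ha', hb', add_zero]
  zero_mem' := kp_co_zero g l
  smul_mem' := by
    intro c v hv
    have hv' : co g v l = 0 := hv
    show co g (c • v) l = 0
    rw [co_smulA, Pi.smul_apply, hv', smul_zero]

private theorem kp_C (β1 : Fin m → ℤ) (β2 : Fin r → ℤ) : ∃ C : ℤ, ∀ i i', β1 i < β2 i' + C := by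
  refine ⟨∑ i, |β1 i| + ∑ i, |β2 i| + 1, fun i i' => ?_⟩
  have h1 : |β1 i| ≤ ∑ i, |β1 i| :=
    Finset.single_le_sum (f := fun i => |β1 i|) (fun _ _ => abs_nonneg _) (Finset.mem_univ i)
  have h2 : |β2 i'| ≤ ∑ i, |β2 i| :=
    Finset.single_le_sum (f := fun i => |β2 i|) (fun _ _ => abs_nonneg _) (Finset.mem_univ i')
  have h3 := le_abs_self (β1 i)
  have h4 := neg_abs_le (β2 i')
  linarith

theorem kap (ρ : SAct φ (m + r)) (g₀ : GLm k X (m + r)) (ρ1 : SAct φ m) (ρ2 : SAct φ r)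
    (h1 : ∀ g c, emb g₀ (ρ1.r g c) = ρ.r g (emb g₀ c)) (h2 : ∀ g v, prj g₀ (ρ.r g v) = ρ2.r g (prj g₀ v))
    {t1 : T k X m} {t2 : T k X r} (ht1 : ρ1.Fx t1) (ht2 : ρ2.Fx t2) :
    ∃ κ : T k X (m + r), ρ.Fx κ ∧
      ∀ κ', κ ≤ κ' → ∀ h : GLm k X (m + r), Ad h κ' → (∀ i : Fin m, inK g₀ (rw' h (Fin.castAdd r i))) ∧
        ∀ v, inK g₀ v → ∀ i : Fin r, co h v (Fin.natAdd m i) = 0 := by
  obtain ⟨a1, β1, hβ1, e1⟩ := t1.2
  obtain ⟨a2, β2, hβ2, e2⟩ := t2.2
  obtain ⟨C, hC⟩ := kp_C β1 β2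
  let β : Fin (m + r) → ℤ := Fin.append β1 fun i => β2 i + C
  have bc : ∀ i, β (Fin.castAdd r i) = β1 i := fun i => Fin.append_left _ _ i
  have bn : ∀ i, β (Fin.natAdd m i) = β2 i + C := fun i => Fin.append_right _ _ i
  have hβ : Monotone β := by
    intro i j
    refine Fin.addCases (fun i => ?_) (fun i => ?_) i
    · refine Fin.addCases (fun j => ?_) (fun j => ?_) j
      · intro hij
        rw [bc, bc]
        have h3 : i ≤ j := by
          rw [Fin.le_def, Fin.val_castAdd, Fin.val_castAdd] at hij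
          exact hij
        exact hβ1 h3
      · intro _
        rw [bc, bn]
        exact (hC i j).le
    · refine Fin.addCases (fun j => ?_) (fun j => ?_) j
      · intro hij
        exfalso
        rw [Fin.le_def, Fin.val_natAdd, Fin.val_castAdd] at hij
        have := j.isLt
        omega
      · intro hij
        rw [bn, bn]
        have h3 : i ≤ j := by
          rw [Fin.le_def, Fin.val_natAdd, Fin.val_natAdd] at hij
          rw [Fin.le_def]
          omega
        have h4 := hβ2 h3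
        linarith
  let κ : T k X (m + r) := ⟨Um (kp_d a1 a2 * g₀) β, kp_d a1 a2 * g₀, β, hβ, rfl⟩
  have k1 : ∀ (i : Fin m) (v : V k X (m + r)), v ∈ κ (Fin.castAdd r i) ↔ inK g₀ v ∧ kp_fst g₀ v ∈ t1 i := by
    intro i v
    have hU : kp_fst g₀ v ∈ t1 i ↔ kp_fst g₀ v ∈ Um a1 β1 i := by
      show kp_fst g₀ v ∈ t1.1 i ↔ _
      rw [e1]
    rw [hU]
    show (∀ l, (β (Fin.castAdd r i) < β l → co (kp_d a1 a2 * g₀) v l = 0) ∧
      (β l = β (Fin.castAdd r i) → co (kp_d a1 a2 * g₀) v l ∈ Set.range (algebraMap k (A k X)))) ↔ _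
    constructor
    · intro h
      refine ⟨?_, fun l => ?_⟩
      · have h3 : prj g₀ v = 0 := by
          apply kp_zero a2
          intro l
          have h4 := (h (Fin.natAdd m l)).1 (by rw [bc, bn]; exact hC i l)
          rw [kp_co2] at h4
          exact h4
        intro l
        exact congrFun h3 l
      · have h4 := h (Fin.castAdd r l)
        rw [bc, bc, kp_co1] at h4
        exact h4
    · rintro ⟨h3, h4⟩ l
      refine Fin.addCases (fun l => ?_) (fun l => ?_) l
      · rw [bc, bc, kp_co1]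
        exact h4 l
      · have h5 : prj g₀ v = 0 := funext h3
        rw [kp_co2, h5, kp_co_zero]
        exact ⟨fun _ => rfl, fun _ => ⟨0, map_zero _⟩⟩
  have k2 : ∀ (i : Fin r) (v : V k X (m + r)), v ∈ κ (Fin.natAdd m i) ↔ prj g₀ v ∈ t2 i := by
    intro i v
    have hU : prj g₀ v ∈ t2 i ↔ prj g₀ v ∈ Um a2 β2 i := by
      show prj g₀ v ∈ t2.1 i ↔ _
      rw [e2]
    rw [hU]
    show (∀ l, (β (Fin.natAdd m i) < β l → co (kp_d a1 a2 * g₀) v l = 0) ∧
      (β l = β (Fin.natAdd m i) → co (kp_d a1 a2 * g₀) v l ∈ Set.range (algebraMap k (A k X)))) ↔ _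
    constructor
    · intro h l
      have h4 := h (Fin.natAdd m l)
      rw [bn, bn, kp_co2] at h4
      exact ⟨fun h5 => h4.1 (by linarith), fun h5 => h4.2 (by rw [h5])⟩
    · intro h l
      refine Fin.addCases (fun l => ?_) (fun l => ?_) l
      · rw [bc, bn]
        have h5 := hC l i
        exact ⟨fun h6 => absurd h6 (not_lt_of_gt h5), fun h6 => absurd h6 (ne_of_lt h5)⟩
      · rw [bn, bn, kp_co2]
        exact ⟨fun h5 => (h l).1 (by linarith), fun h5 => (h l).2 (by linarith)⟩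
  have k3 : ∀ (i : Fin m) (i' : Fin r), ¬ κ (Fin.natAdd m i') ≤ κ (Fin.castAdd r i) := by
    intro i i' h
    have h3 := (um_le (kp_d a1 a2 * g₀) β (Fin.natAdd m i') (Fin.castAdd r i)).1 h
    rw [bc, bn] at h3
    have := hC i i'
    linarith
  refine ⟨κ, ?_, ?_⟩
  · rw [fx_iff]
    intro g j
    refine Fin.addCases (fun i => ?_) (fun i => ?_) j
    · intro v hv
      obtain ⟨h3, h4⟩ := (k1 i v).1 hv
      have h5 : v = emb g₀ (kp_fst g₀ v) := inK_emb g₀ h3
      have h6 : ρ.r g v = emb g₀ (ρ1.r g (kp_fst g₀ v)) := by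
        rw [h1, ← h5]
      rw [h6, k1]
      refine ⟨emb_inK g₀ _, ?_⟩
      have h7 : kp_fst g₀ (emb g₀ (ρ1.r g (kp_fst g₀ v))) = ρ1.r g (kp_fst g₀ v) :=
        funext fun i => emb_co g₀ _ i
      rw [h7]
      exact (fx_iff ρ1 t1).1 ht1 g i _ h4
    · intro v hv
      rw [k2] at hv ⊢
      rw [h2]
      exact (fx_iff ρ2 t2).1 ht2 g i _ hv
  · intro κ' hκ h hh
    obtain ⟨hle, b, hb, hb'⟩ := hκ
    refine ⟨?_, ?_⟩
    swap
    · intro v hv i'
      have q1 : ∀ (i : Fin m) (l : Fin r), κ (Fin.castAdd r i) < κ (Fin.natAdd m l) := fun i l =>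
        lt_of_le_not_ge ((T_tot κ _ _).resolve_right (k3 i l)) (k3 i l)
      have q2 : ∀ (i : Fin m) (l : Fin r), κ' (Fin.castAdd r i) < κ' (Fin.natAdd m l) := fun i l => by
        have h4 : ¬ κ' (Fin.natAdd m l) ≤ κ' (Fin.castAdd r i) := fun h5 => k3 i l (hle _ _ h5)
        exact lt_of_le_not_ge ((T_tot κ' _ _).resolve_right h4) h4
      have q3 : ∀ l : Fin r, v ∈ kp_S b (Fin.natAdd m l) := by
        intro l
        rw [eq_sum (kp_d a1 a2 * g₀) v]
        refine Submodule.sum_mem _ fun j _ => ?_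
        refine Fin.addCases (fun i => ?_) (fun i => ?_) j
        · apply Submodule.smul_mem
          have h5 : rw' (kp_d a1 a2 * g₀) (Fin.castAdd r i) ∈ κ (Fin.castAdd r i) :=
            um_self (kp_d a1 a2 * g₀) β (Fin.castAdd r i)
          exact ((T_mem κ hb _ _).1 h5 _).1 (q1 i l)
        · have h5 : prj g₀ v = 0 := funext hv
          rw [kp_co2, h5, kp_co_zero, zero_smul]
          exact Submodule.zero_mem _
      have q4 : v ∈ kp_S h (Fin.natAdd m i') := by
        rw [eq_sum b v]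
        refine Submodule.sum_mem _ fun j _ => ?_
        refine Fin.addCases (fun i => ?_) (fun i => ?_) j
        · apply Submodule.smul_mem
          exact ((T_mem κ' hh _ _).1 (hb' (Fin.castAdd r i)) _).1 (q2 i i')
        · have h5 : co b v (Fin.natAdd m i) = 0 := q3 i
          rw [h5, zero_smul]
          exact Submodule.zero_mem _
      exact q4
    intro i l
    have h3 : ∀ i' : Fin r, co b (rw' h (Fin.castAdd r i)) (Fin.natAdd m i') = 0 := by
      intro i'
      have h4 : ¬ κ' (Fin.natAdd m i') ≤ κ' (Fin.castAdd r i) := fun h5 => k3 i i' (hle _ _ h5)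
      have h5 : κ' (Fin.castAdd r i) < κ' (Fin.natAdd m i') :=
        lt_of_le_not_ge ((T_tot κ' _ _).resolve_right h4) h4
      exact ((T_mem κ' hb' _ _).1 (hh (Fin.castAdd r i)) _).1 h5
    have h4 : rw' h (Fin.castAdd r i) ∈ kp_S g₀ (Fin.natAdd m l) := by
      rw [eq_sum b (rw' h (Fin.castAdd r i))]
      refine Submodule.sum_mem _ fun j _ => ?_
      refine Fin.addCases (fun i' => ?_) (fun i' => ?_) j
      · apply Submodule.smul_mem
        have h5 := ((k1 i' _).1 (hb (Fin.castAdd r i'))).1 l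
        exact h5
      · rw [h3 i', zero_smul]
        exact Submodule.zero_mem _
    exact h4

end Pool.Agent.SMF
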