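import Pool.Agent.SMF.Tri

/-!
# SMF-Umb: the subspaces `Um g β j` (imports Tri)

Coordinates with respect to the rows of an invertible matrix, and change of basis.
-/

namespace Pool.Agent.SMF

open Matrix

variable {k X : Type*} [Field k] {n : ℕ}

theorem co_add (g : GLm k X n) (a b : V k X n) : co g (a + b) = co g a + co g b := by
  simp [co, Matrix.add_vecMul]

theorem co_sub (g : GLm k X n) (a b : V k X n) : co g (a - b) = co g a - co g b := by
  simp [co, Matrix.sub_vecMul]

theorem co_smulA (g : GLm k X n) (a : A k X) (m : V k X n) : co g (a • m) = a • co g m := by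
  simp [co, Matrix.smul_vecMul]

theorem co_smulk (g : GLm k X n) (c : k) (m : V k X n) : co g (c • m) = c • co g m := by
  simp [co, Matrix.smul_vecMul]

theorem co_rw_mul (g h : GLm k X n) (j l : Fin n) :
    co g (rw' h j) l = ((h * g⁻¹ : GLm k X n) : Matrix (Fin n) (Fin n) (A k X)) j l := by
  rw [Units.val_mul, Matrix.mul_apply_eq_vecMul]
  rfl

theorem co_rw (g : GLm k X n) (j : Fin n) : co g (rw' g j) = Pi.single j 1 := by
  funext l
  rw [co_rw_mul, mul_inv_cancel, Units.val_one, Matrix.one_eq_pi_single]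

private theorem vecMul_sum' (g : GLm k X n) (c : V k X n) :
    ∑ l, c l • rw' g l = c ᵥ* (g : Matrix (Fin n) (Fin n) (A k X)) := by
  rw [Matrix.vecMul_eq_sum]

theorem eq_sum (g : GLm k X n) (m : V k X n) : m = ∑ l, co g m l • rw' g l := by
  rw [vecMul_sum', co, Matrix.vecMul_vecMul, ← Units.val_mul, inv_mul_cancel, Units.val_one,
    Matrix.vecMul_one]

theorem co_unique (g : GLm k X n) (m : V k X n) (c : V k X n) (h : m = ∑ l, c l • rw' g l) : co g m = c := by
  rw [h, vecMul_sum', co, Matrix.vecMul_vecMul, ← Units.val_mul, mul_inv_cancel, Units.val_one,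
    Matrix.vecMul_one]

theorem co_change (g h : GLm k X n) (m : V k X n) :
    co h m = co g m ᵥ* (((h * g⁻¹)⁻¹ : GLm k X n) : Matrix (Fin n) (Fin n) (A k X)) := by
  rw [co, co, Matrix.vecMul_vecMul, ← Units.val_mul]
  congr 2
  group

theorem um_self (g : GLm k X n) (β : Fin n → ℤ) (j : Fin n) : rw' g j ∈ Um g β j := by
  intro l
  rw [co_rw]
  constructor
  · intro h
    rw [Pi.single_apply, if_neg]
    rintro rfl
    exact lt_irrefl _ h
  · intro _
    rw [Pi.single_apply]
    split_ifs
    · exact ⟨1, map_one _⟩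
    · exact ⟨0, map_zero _⟩

theorem um_shp (g h : GLm k X n) (β : Fin n → ℤ) :
    (∀ j, rw' h j ∈ Um g β j) ↔ ∃ c0, Shp β ((h * g⁻¹ : GLm k X n) : Matrix (Fin n) (Fin n) (A k X)) c0 := by
  constructor
  · intro H
    have H2 : ∀ j l, β j = β l → ∃ c : k, algebraMap k (A k X) c =
        ((h * g⁻¹ : GLm k X n) : Matrix (Fin n) (Fin n) (A k X)) j l := by
      intro j l hjl
      obtain ⟨c, hc⟩ := (H j l).2 hjl.symm
      exact ⟨c, by rw [hc, co_rw_mul]⟩
    classical
    refine ⟨fun j l => if e : β j = β l then (H2 j l e).choose else 0, ?_, ?_, ?_⟩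
    · intro j l hjl
      rw [← co_rw_mul]
      exact (H j l).1 hjl
    · intro j l hjl
      simp only [dif_pos hjl]
      exact (H2 j l hjl).choose_spec.symm
    · intro j l hjl
      simp only [dif_neg hjl]
  · rintro ⟨c0, h1, h2, _⟩ j l
    rw [co_rw_mul]
    exact ⟨fun hjl => h1 j l hjl, fun hjl => ⟨c0 j l, (h2 j l hjl.symm).symm⟩⟩

private theorem um_sub' {g h : GLm k X n} {β : Fin n → ℤ} {d0 : Matrix (Fin n) (Fin n) k}
    (hd : Shp β (((h * g⁻¹)⁻¹ : GLm k X n) : Matrix (Fin n) (Fin n) (A k X)) d0) (j : Fin n) :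
    Um g β j ≤ Um h β j := by
  intro m hm l
  have e : co h m l = ∑ i, co g m i *
      (((h * g⁻¹)⁻¹ : GLm k X n) : Matrix (Fin n) (Fin n) (A k X)) i l := by
    rw [co_change g h m]
    rfl
  rw [e]
  constructor
  · intro hjl
    refine Finset.sum_eq_zero fun i _ => ?_
    rcases lt_or_ge (β j) (β i) with hi | hi
    · rw [(hm i).1 hi, zero_mul]
    · rw [hd.1 i l (lt_of_le_of_lt hi hjl), mul_zero]
  · intro hjl
    have : ∑ i, co g m i * (((h * g⁻¹)⁻¹ : GLm k X n) : Matrix (Fin n) (Fin n) (A k X)) i l ∈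
        (algebraMap k (A k X)).range := by
      refine Subring.sum_mem _ fun i _ => ?_
      rcases lt_trichotomy (β j) (β i) with hi | hi | hi
      · rw [(hm i).1 hi, zero_mul]
        exact Subring.zero_mem _
      · refine Subring.mul_mem _ ?_ ?_
        · exact (hm i).2 hi.symm
        · rw [hd.2.1 i l (hi.symm.trans hjl.symm)]
          exact ⟨_, rfl⟩
      · rw [hd.1 i l (hi.trans_eq hjl.symm), mul_zero]
        exact Subring.zero_mem _
    exact this

theorem um_change (g h : GLm k X n) (β : Fin n → ℤ) (hh : ∀ j, rw' h j ∈ Um g β j) : Um h β = Um g β := by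
  obtain ⟨c0, hc⟩ := (um_shp g h β).1 hh
  funext j
  apply le_antisymm
  · refine um_sub' (g := h) (h := g) (d0 := c0) ?_ j
    have : (g * h⁻¹)⁻¹ = h * g⁻¹ := by group
    rw [this]
    exact hc
  · exact um_sub' (tri3 _ hc) j

theorem um_le (g : GLm k X n) (β : Fin n → ℤ) (j l : Fin n) : Um g β j ≤ Um g β l ↔ β j ≤ β l := by
  constructor
  · intro H
    by_contra hlt
    rw [not_le] at hlt
    have h1 := (H (um_self g β j) j).1 hlt
    rw [co_rw, Pi.single_eq_same] at h1
    exact one_ne_zero h1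
  · intro hjl m hm i
    constructor
    · intro hi
      exact (hm i).1 (lt_of_le_of_lt hjl hi)
    · intro hi
      rcases eq_or_lt_of_le hjl with h | h
      · exact (hm i).2 (hi.trans h.symm)
      · rw [(hm i).1 (h.trans_eq hi.symm)]
        exact ⟨0, map_zero _⟩

/-- lower elements may be multiplied by anything -/
theorem um_low (g : GLm k X n) (β : Fin n → ℤ) {j l : Fin n} (h : β j < β l) {m : V k X n} (hm : m ∈ Um g β j)
    (a : A k X) : a • m ∈ Um g β l := by
  intro i
  rw [co_smulA, Pi.smul_apply]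
  constructor
  · intro hi
    rw [(hm i).1 (h.trans hi), smul_zero]
  · intro hi
    rw [(hm i).1 (h.trans_eq hi.symm), smul_zero]
    exact ⟨0, map_zero _⟩

theorem um_fine (g : GLm k X n) {β γ : Fin n → ℤ} (h : ∀ j l, β j ≤ β l ↔ γ j ≤ γ l) : Um g β = Um g γ := by
  have hlt : ∀ j l, β j < β l ↔ γ j < γ l := by
    intro j l
    rw [← not_le, ← not_le, h]
  have heq : ∀ j l, β j = β l ↔ γ j = γ l := by
    intro j l
    rw [le_antisymm_iff, le_antisymm_iff, h, h]
  funext j
  ext m
  constructor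
  · intro hm l
    exact ⟨fun hl => (hm l).1 ((hlt _ _).2 hl), fun hl => (hm l).2 ((heq _ _).2 hl)⟩
  · intro hm l
    exact ⟨fun hl => (hm l).1 ((hlt _ _).1 hl), fun hl => (hm l).2 ((heq _ _).1 hl)⟩

end Pool.Agent.SMF
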