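import Pool.Agent.SMF.WAb
import Pool.Agent.SMF.Umb

/-!
# SMF-WAm: left kernels of matrices over the free algebra (imports WAb, Umb)

Column by column, with block diagonal changes of basis.
-/

namespace Pool.Agent.SMF

open Matrix

variable {k X : Type*} [Field k]

/-- block diagonal matrices -/
private def wm_blk {m r : ℕ} (P : Matrix (Fin m) (Fin m) (A k X)) (Q : Matrix (Fin r) (Fin r) (A k X)) :
    Matrix (Fin (m + r)) (Fin (m + r)) (A k X) :=
  (Matrix.fromBlocks P 0 0 Q).submatrix finSumFinEquiv.symm finSumFinEquiv.symm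

private theorem wm_blk_mul {m r : ℕ} (P P' : Matrix (Fin m) (Fin m) (A k X))
    (Q Q' : Matrix (Fin r) (Fin r) (A k X)) : wm_blk P Q * wm_blk P' Q' = wm_blk (P * P') (Q * Q') := by
  unfold wm_blk
  rw [Matrix.submatrix_mul_equiv, Matrix.fromBlocks_multiply]
  simp only [Matrix.mul_zero, Matrix.zero_mul, add_zero, zero_add]

private theorem wm_blk_one {m r : ℕ} :
    wm_blk (1 : Matrix (Fin m) (Fin m) (A k X)) (1 : Matrix (Fin r) (Fin r) (A k X)) = 1 := by
  unfold wm_blk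
  rw [Matrix.fromBlocks_one, Matrix.submatrix_one_equiv]

private def wm_d {m : ℕ} (r : ℕ) (h1 : GLm k X m) : GLm k X (m + r) where
  val := wm_blk (h1 : Matrix (Fin m) (Fin m) (A k X)) 1
  inv := wm_blk ((h1⁻¹ : GLm k X m) : Matrix (Fin m) (Fin m) (A k X)) 1
  val_inv := by
    rw [wm_blk_mul, Units.mul_inv, Matrix.one_mul, wm_blk_one]
  inv_val := by
    rw [wm_blk_mul, Units.inv_mul, Matrix.one_mul, wm_blk_one]

private theorem wm_cc {m r : ℕ} (P : Matrix (Fin m) (Fin m) (A k X)) (Q : Matrix (Fin r) (Fin r) (A k X))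
    (i j : Fin m) : wm_blk P Q (Fin.castAdd r i) (Fin.castAdd r j) = P i j := by
  unfold wm_blk
  rw [Matrix.submatrix_apply, finSumFinEquiv_symm_apply_castAdd, finSumFinEquiv_symm_apply_castAdd]
  rfl

private theorem wm_cn {m r : ℕ} (P : Matrix (Fin m) (Fin m) (A k X)) (Q : Matrix (Fin r) (Fin r) (A k X))
    (i : Fin m) (j : Fin r) : wm_blk P Q (Fin.castAdd r i) (Fin.natAdd m j) = 0 := by
  unfold wm_blk
  rw [Matrix.submatrix_apply, finSumFinEquiv_symm_apply_castAdd, finSumFinEquiv_symm_apply_natAdd]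
  rfl

private theorem wm_nc {m r : ℕ} (P : Matrix (Fin m) (Fin m) (A k X)) (Q : Matrix (Fin r) (Fin r) (A k X))
    (i : Fin r) (j : Fin m) : wm_blk P Q (Fin.natAdd m i) (Fin.castAdd r j) = 0 := by
  unfold wm_blk
  rw [Matrix.submatrix_apply, finSumFinEquiv_symm_apply_castAdd, finSumFinEquiv_symm_apply_natAdd]
  rfl

private theorem wm_nn {m r : ℕ} (P : Matrix (Fin m) (Fin m) (A k X)) (Q : Matrix (Fin r) (Fin r) (A k X))
    (i j : Fin r) : wm_blk P Q (Fin.natAdd m i) (Fin.natAdd m j) = Q i j := by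
  unfold wm_blk
  rw [Matrix.submatrix_apply, finSumFinEquiv_symm_apply_natAdd, finSumFinEquiv_symm_apply_natAdd]
  rfl

private theorem wm_low {m r : ℕ} (h1 : GLm k X m) (v : Fin (m + r) → A k X) (l : Fin m) :
    ((wm_d r h1 : Matrix (Fin (m + r)) (Fin (m + r)) (A k X)) *ᵥ v) (Fin.castAdd r l) =
      ((h1 : Matrix (Fin m) (Fin m) (A k X)) *ᵥ fun i => v (Fin.castAdd r i)) l := by
  show ∑ i, wm_blk (h1 : Matrix (Fin m) (Fin m) (A k X)) 1 (Fin.castAdd r l) i * v i =
    ∑ i, (h1 : Matrix (Fin m) (Fin m) (A k X)) l i * v (Fin.castAdd r i)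
  rw [Fin.sum_univ_add]
  simp only [wm_cc, wm_cn, zero_mul, Finset.sum_const_zero, add_zero]

private theorem wm_high {m r : ℕ} (h1 : GLm k X m) (c : Fin (m + r) → A k X) (l : Fin r) :
    (c ᵥ* (wm_d r h1 : Matrix (Fin (m + r)) (Fin (m + r)) (A k X))) (Fin.natAdd m l) =
      c (Fin.natAdd m l) := by
  show ∑ i, c i * wm_blk (h1 : Matrix (Fin m) (Fin m) (A k X)) 1 i (Fin.natAdd m l) = _
  rw [Fin.sum_univ_add]
  simp only [wm_cn, wm_nn, mul_zero, Finset.sum_const_zero, zero_add]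
  rw [Finset.sum_eq_single l]
  · rw [Matrix.one_apply_eq, mul_one]
  · intro i _ hi
    rw [Matrix.one_apply_ne hi, mul_zero]
  · intro h
    exact absurd (Finset.mem_univ l) h

private theorem wm_step {m r j : ℕ} (C : Matrix (Fin (m + r)) (Fin j) (A k X)) (b : Fin (m + r) → A k X)
    (h0 : ∀ (l : Fin m) i, C (Fin.castAdd r l) i = 0)
    (h1 : ∀ c : Fin (m + r) → A k X, (∀ l : Fin m, c (Fin.castAdd r l) = 0) → c ᵥ* C = 0 → c = 0) :
    ∃ (d : GLm k X (m + r)) (m' : ℕ), m' ≤ m ∧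
      (∀ l : Fin (m + r), (l : ℕ) < m' →
        (∀ i, ((d : Matrix (Fin (m + r)) (Fin (m + r)) (A k X)) * C) l i = 0) ∧
          ((d : Matrix (Fin (m + r)) (Fin (m + r)) (A k X)) *ᵥ b) l = 0) ∧
      ∀ c : Fin (m + r) → A k X, (∀ l : Fin (m + r), (l : ℕ) < m' → c l = 0) →
        c ᵥ* ((d : Matrix (Fin (m + r)) (Fin (m + r)) (A k X)) * C) = 0 →
        ∑ l, c l * ((d : Matrix (Fin (m + r)) (Fin (m + r)) (A k X)) *ᵥ b) l = 0 → c = 0 := by
  obtain ⟨g, m', hm', hg0, hg1⟩ := wa fun i => b (Fin.castAdd r i)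
  refine ⟨wm_d r g, m', hm', fun l hl => ?_, fun c hc hcC hcb => ?_⟩
  · obtain ⟨l', rfl⟩ : ∃ l' : Fin m, l = Fin.castAdd r l' := ⟨⟨l, by omega⟩, rfl⟩
    refine ⟨fun i => ?_, ?_⟩
    · have h2 := wm_low g (fun a => C a i) l'
      refine h2.trans ?_
      show ∑ a, (g : Matrix (Fin m) (Fin m) (A k X)) l' a * C (Fin.castAdd r a) i = 0
      refine Finset.sum_eq_zero fun a _ => ?_
      rw [h0, mul_zero]
    · rw [wm_low]
      exact hg0 l' hl
  · rw [← Matrix.vecMul_vecMul] at hcC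
    obtain ⟨c', hc'⟩ : ∃ c' : Fin (m + r) → A k X, c' = c ᵥ*
      (wm_d r g : Matrix (Fin (m + r)) (Fin (m + r)) (A k X)) := ⟨_, rfl⟩
    rw [← hc'] at hcC
    have hz : Fin.append (fun _ : Fin m => (0 : A k X)) (fun l : Fin r => c' (Fin.natAdd m l)) = 0 := by
      refine h1 _ (fun l => Fin.append_left _ _ l) ?_
      funext i
      have h3 := congrFun hcC i
      rw [Pi.zero_apply] at h3
      have h4 : (c' ᵥ* C) i = ∑ a, c' a * C a i := rfl
      rw [h4, Fin.sum_univ_add] at h3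
      show ∑ a, Fin.append (fun _ : Fin m => (0 : A k X)) (fun l : Fin r => c' (Fin.natAdd m l)) a * C a i = 0
      rw [Fin.sum_univ_add, ← h3]
      congr 1
      · refine Finset.sum_congr rfl fun a _ => ?_
        rw [h0, mul_zero, mul_zero]
      · refine Finset.sum_congr rfl fun a _ => ?_
        rw [Fin.append_right]
    have hh : ∀ l : Fin r, c (Fin.natAdd m l) = 0 := by
      intro l
      have h3 := congrFun hz (Fin.natAdd m l)
      rw [Fin.append_right, hc', wm_high] at h3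
      exact h3
    have hl : (fun l : Fin m => c (Fin.castAdd r l)) = 0 := by
      refine hg1 _ (fun l hl => hc _ hl) ?_
      rw [Fin.sum_univ_add] at hcb
      have h3 : ∑ i : Fin r, c (Fin.natAdd m i) *
          ((wm_d r g : Matrix (Fin (m + r)) (Fin (m + r)) (A k X)) *ᵥ b) (Fin.natAdd m i) = 0 :=
        Finset.sum_eq_zero fun i _ => by rw [hh, zero_mul]
      rw [h3, add_zero] at hcb
      refine Eq.trans (Finset.sum_congr rfl fun i _ => ?_) hcb
      rw [wm_low]
    funext l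
    refine Fin.addCases (fun l => ?_) (fun l => ?_) l
    · exact congrFun hl l
    · exact hh l

private theorem wm_ind {N : ℕ} : ∀ (j : ℕ) (C : Matrix (Fin N) (Fin j) (A k X)),
    ∃ (g : GLm k X N) (m : ℕ), m ≤ N ∧
      (∀ l : Fin N, (l : ℕ) < m → ∀ i, ((g : Matrix (Fin N) (Fin N) (A k X)) * C) l i = 0) ∧
      ∀ c : Fin N → A k X, (∀ l : Fin N, (l : ℕ) < m → c l = 0) →
        c ᵥ* ((g : Matrix (Fin N) (Fin N) (A k X)) * C) = 0 → c = 0
  | 0, C => by
    refine ⟨1, N, le_rfl, fun l _ i => i.elim0, fun c hc _ => ?_⟩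
    funext l
    exact hc l l.2
  | j + 1, C => by
    obtain ⟨g, m, hm, h0, h1⟩ := wm_ind j (C.submatrix id Fin.castSucc)
    obtain ⟨r, rfl⟩ := Nat.exists_eq_add_of_le hm
    obtain ⟨d, m', hm', h2, h3⟩ := wm_step ((g : Matrix (Fin (m + r)) (Fin (m + r)) (A k X)) *
      C.submatrix id Fin.castSucc) ((g : Matrix (Fin (m + r)) (Fin (m + r)) (A k X)) *ᵥ
        fun l => C l (Fin.last j)) (fun l i => h0 _ l.2 i) (fun c hc hc' => h1 c (fun l hl => by
          have h4 := hc ⟨l, hl⟩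
          exact h4) hc')
    have hcs : ∀ l i, (((d * g : GLm k X (m + r)) : Matrix (Fin (m + r)) (Fin (m + r)) (A k X)) * C) l
        (Fin.castSucc i) = ((d : Matrix (Fin (m + r)) (Fin (m + r)) (A k X)) *
          ((g : Matrix (Fin (m + r)) (Fin (m + r)) (A k X)) * C.submatrix id Fin.castSucc)) l i := by
      intro l i
      rw [Units.val_mul, ← Matrix.mul_assoc]
      rfl
    have hla : ∀ l, (((d * g : GLm k X (m + r)) : Matrix (Fin (m + r)) (Fin (m + r)) (A k X)) * C) l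
        (Fin.last j) = ((d : Matrix (Fin (m + r)) (Fin (m + r)) (A k X)) *ᵥ
          ((g : Matrix (Fin (m + r)) (Fin (m + r)) (A k X)) *ᵥ fun l => C l (Fin.last j))) l := by
      intro l
      rw [Units.val_mul, Matrix.mulVec_mulVec]
      rfl
    refine ⟨d * g, m', hm'.trans (Nat.le_add_right m r), fun l hl i => ?_, fun c hc hc' => ?_⟩
    · refine Fin.lastCases ?_ (fun i => ?_) i
      · rw [hla]
        exact (h2 l hl).2
      · rw [hcs]
        exact (h2 l hl).1 i
    · refine h3 c hc ?_ ?_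
      · funext i
        have h5 := congrFun hc' (Fin.castSucc i)
        rw [Pi.zero_apply] at h5 ⊢
        rw [← h5]
        show ∑ l, c l * ((d : Matrix (Fin (m + r)) (Fin (m + r)) (A k X)) *
          ((g : Matrix (Fin (m + r)) (Fin (m + r)) (A k X)) * C.submatrix id Fin.castSucc)) l i =
          ∑ l, c l * (((d * g : GLm k X (m + r)) : Matrix (Fin (m + r)) (Fin (m + r)) (A k X)) * C) l
            (Fin.castSucc i)
        exact Finset.sum_congr rfl fun l _ => congrArg (c l * ·) (hcs l i).symm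
      · have h5 := congrFun hc' (Fin.last j)
        rw [Pi.zero_apply] at h5
        rw [← h5]
        exact Finset.sum_congr rfl fun l _ => congrArg (c l * ·) (hla l).symm

theorem wam {N j : ℕ} (C : Matrix (Fin N) (Fin j) (A k X)) :
    ∃ (g : GLm k X N) (m : ℕ), m ≤ N ∧
      (∀ l : Fin N, (l : ℕ) < m → ∀ i, ((g : Matrix (Fin N) (Fin N) (A k X)) * C) l i = 0) ∧
      ∀ c : Fin N → A k X, c ᵥ* C = 0 → ∀ l : Fin N, m ≤ (l : ℕ) → co g c l = 0 := by
  classical
  obtain ⟨g, m, hm, h0, h1⟩ := wm_ind j C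
  refine ⟨g, m, hm, h0, fun c hc l hl => ?_⟩
  have h2 : co g c ᵥ* ((g : Matrix (Fin N) (Fin N) (A k X)) * C) = 0 := by
    unfold co
    rw [Matrix.vecMul_vecMul, ← Matrix.mul_assoc, ← Units.val_mul, inv_mul_cancel, Units.val_one,
      Matrix.one_mul, hc]
  have h3 := h1 (fun l => if (l : ℕ) < m then 0 else co g c l) (fun l hl => if_pos hl) (by
    rw [← h2]
    funext i
    show ∑ l : Fin N, (if (l : ℕ) < m then 0 else co g c l) * ((g : Matrix (Fin N) (Fin N) (A k X)) * C) l i =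
      ∑ l, co g c l * ((g : Matrix (Fin N) (Fin N) (A k X)) * C) l i
    refine Finset.sum_congr rfl fun l _ => ?_
    by_cases h : (l : ℕ) < m
    · rw [h0 l h i, mul_zero, mul_zero]
    · rw [if_neg h])
  have h4 := congrFun h3 l
  simp only [Pi.zero_apply] at h4
  rwa [if_neg (not_lt.2 hl)] at h4

end Pool.Agent.SMF
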