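import Pool.Agent.SMF.Pth
import Pool.Agent.SMF.Kap
import Pool.Agent.SMF.Act0
import Pool.Agent.SMF.WAm

/-!
# SMF-TrivM: left kernels of matrices of invariants of a `p`-group (assembly)
-/

namespace Pool.Agent.SMF

open Matrix

variable {k X : Type*} [Field k] {G : Type*} [Group G]

private theorem dotm_eq {N j : ℕ} (g : GLm k X N) (v : Fin N → A k X) (C : Matrix (Fin N) (Fin j) (A k X)) :
    v ᵥ* C = co g v ᵥ* ((g : Matrix (Fin N) (Fin N) (A k X)) * C) := by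
  show v ᵥ* C = (v ᵥ* ((g⁻¹ : GLm k X N) : Matrix (Fin N) (Fin N) (A k X))) ᵥ*
      ((g : Matrix (Fin N) (Fin N) (A k X)) * C)
  rw [Matrix.vecMul_vecMul, ← Matrix.mul_assoc, ← Units.val_mul, inv_mul_cancel, Units.val_one, Matrix.one_mul]

theorem trivM {p : ℕ} [Fact p.Prime] [Finite G] (hG : IsPGroup p G) (φ : G →* (A k X ≃ₐ[k] A k X)) {N j : ℕ}
    (C : Matrix (Fin N) (Fin j) (A k X)) (hC : ∀ g l i, φ g (C l i) = C l i) :
    ∃ (P : GLm k X N) (m : ℕ), m ≤ N ∧ (∀ g l l', φ g ((P : Matrix (Fin N) (Fin N) (A k X)) l l') =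
        (P : Matrix (Fin N) (Fin N) (A k X)) l l') ∧
      (∀ l : Fin N, (l : ℕ) < m → ∀ i, ((P : Matrix (Fin N) (Fin N) (A k X)) * C) l i = 0) ∧
      ∀ c : Fin N → A k X, c ᵥ* C = 0 → ∀ l : Fin N, m ≤ (l : ℕ) → co P c l = 0 := by
  obtain ⟨g₀, m, hm, hz, hind⟩ := wam C
  obtain ⟨r, rfl⟩ := Nat.exists_eq_add_of_le hm
  have hKiff : ∀ v : V k X (m + r), inK g₀ v ↔ v ᵥ* C = 0 := by
    intro v
    constructor
    · intro h
      rw [dotm_eq g₀ v C]
      funext i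
      show ∑ l, co g₀ v l * ((g₀ : Matrix (Fin (m + r)) (Fin (m + r)) (A k X)) * C) l i = 0
      apply Finset.sum_eq_zero
      intro l _
      refine Fin.addCases (fun i' => ?_) (fun i' => ?_) l
      · rw [hz (Fin.castAdd r i') (by simp), mul_zero]
      · rw [h i', zero_mul]
    · intro h i
      exact hind v h (Fin.natAdd m i) (by simp)
  let ρ := act0 φ (m + r)
  have hK : ∀ g v, inK g₀ v → inK g₀ (ρ.r g v) := by
    intro g v hv
    rw [hKiff] at hv ⊢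
    funext i
    have h1 : ∑ l, ρ.r g v l * C l i = φ g (∑ l, v l * C l i) := by
      rw [map_sum]
      apply Finset.sum_congr rfl
      intro l _
      rw [map_mul, hC]
      rfl
    have h2 : ∑ l, v l * C l i = 0 := congrFun hv i
    show ∑ l, ρ.r g v l * C l i = 0
    rw [h1, h2, map_zero]
  obtain ⟨ρ1, h1⟩ := split1 ρ g₀ hK
  obtain ⟨ρ2, h2⟩ := split2 ρ g₀ hK
  obtain ⟨t1, ht1⟩ := fx_exists hG ρ1
  obtain ⟨t2, ht2⟩ := fx_exists hG ρ2
  obtain ⟨κ, hκ, hκ'⟩ := kap ρ g₀ ρ1 ρ2 h1 h2 ht1 ht2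
  obtain ⟨v₀, hv1, hv2⟩ := v0_good φ (m + r)
  obtain ⟨κ', hle, h, hh, hfix⟩ := good_path hG ρ hv1 hv2 hκ
  obtain ⟨hP1, hP2⟩ := hκ' κ' hle h hh
  refine ⟨h, m, hm, ?_, ?_, ?_⟩
  · intro g i j
    exact congrFun (hfix g i) j
  · intro l
    refine Fin.addCases (fun i' => ?_) (fun i' => ?_) l
    · intro _ i
      exact congrFun ((hKiff _).mp (hP1 i')) i
    · intro hl
      simp at hl
  · intro c hc l
    refine Fin.addCases (fun i' => ?_) (fun i' => ?_) l
    · intro hl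
      exfalso
      simp at hl
      have := i'.isLt
      omega
    · intro _
      exact hP2 c ((hKiff c).mpr hc) i'

end Pool.Agent.SMF
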