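import Pool.Agent.SMF.StarD
import Pool.Agent.SMF.TrivM

/-!
# SMF-TrivR: right kernels of matrices of invariants of a `p`-group (imports TrivM, StarD)

`trivM` for the action conjugated by the reversal of words and the conjugate transpose.
-/

namespace Pool.Agent.SMF

open Matrix

variable {k X : Type*} [Field k] {G : Type*} [Group G]

theorem trivR {p : ℕ} [Fact p.Prime] [Finite G] (hG : IsPGroup p G) (φ : G →* (A k X ≃ₐ[k] A k X)) {N j : ℕ}
    (C : Matrix (Fin j) (Fin N) (A k X)) (hC : ∀ g i l, φ g (C i l) = C i l) :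
    ∃ (P : GLm k X N) (m : ℕ), m ≤ N ∧ (∀ g l l', φ g ((P : Matrix (Fin N) (Fin N) (A k X)) l l') =
        (P : Matrix (Fin N) (Fin N) (A k X)) l l') ∧
      (∀ l : Fin N, (l : ℕ) < m → ∀ i, (C * (P : Matrix (Fin N) (Fin N) (A k X))) i l = 0) ∧
      ∀ f : Fin N → A k X, C *ᵥ f = 0 → ∀ l : Fin N, m ≤ (l : ℕ) →
        (((P⁻¹ : GLm k X N) : Matrix (Fin N) (Fin N) (A k X)) *ᵥ f) l = 0 := by
  obtain ⟨P0, m, hm, hfix, hz, hk⟩ := trivM hG (starφ φ) (Cᴴ) (by
    intro g l i
    rw [starφ_apply, Matrix.conjTranspose_apply, star_star, hC])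
  let P : GLm k X N := {
    val := ((P0 : Matrix (Fin N) (Fin N) (A k X)))ᴴ
    inv := (((P0⁻¹ : GLm k X N) : Matrix (Fin N) (Fin N) (A k X)))ᴴ
    val_inv := by
      rw [← Matrix.conjTranspose_mul, ← Units.val_mul, inv_mul_cancel, Units.val_one, Matrix.conjTranspose_one]
    inv_val := by
      rw [← Matrix.conjTranspose_mul, ← Units.val_mul, mul_inv_cancel, Units.val_one, Matrix.conjTranspose_one] }
  have hP : (P : Matrix (Fin N) (Fin N) (A k X)) = ((P0 : Matrix (Fin N) (Fin N) (A k X)))ᴴ := rfl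
  have hPi : ((P⁻¹ : GLm k X N) : Matrix (Fin N) (Fin N) (A k X)) =
      (((P0⁻¹ : GLm k X N) : Matrix (Fin N) (Fin N) (A k X)))ᴴ := rfl
  refine ⟨P, m, hm, fun g l l' => ?_, fun l hl i => ?_, fun f hf l hl => ?_⟩
  · have h1 := hfix g l' l
    rw [starφ_apply] at h1
    rw [hP, Matrix.conjTranspose_apply]
    have h2 := congrArg star h1
    rw [star_star] at h2
    exact h2
  · have h1 : C * (P : Matrix (Fin N) (Fin N) (A k X)) = ((P0 : Matrix (Fin N) (Fin N) (A k X)) * Cᴴ)ᴴ := by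
      rw [Matrix.conjTranspose_mul, Matrix.conjTranspose_conjTranspose, hP]
    rw [h1, Matrix.conjTranspose_apply, hz l hl i, star_zero]
  · have h1 : star f ᵥ* Cᴴ = 0 := by
      rw [← Matrix.star_mulVec, hf, star_zero]
    have h2 : co P0 (star f) l = 0 := hk (star f) h1 l hl
    have h3 : star ((((P⁻¹ : GLm k X N) : Matrix (Fin N) (Fin N) (A k X))) *ᵥ f) = co P0 (star f) := by
      rw [Matrix.star_mulVec, hPi, Matrix.conjTranspose_conjTranspose]
      rfl
    have h4 := congrFun h3 l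
    rw [h2, Pi.star_apply] at h4
    exact star_eq_zero.1 h4

end Pool.Agent.SMF
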