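import Pool.Agent.SMF.ClD
import Pool.Agent.SMF.TrivR

/-!
# SMF-ClA: structure of the closure (imports ClD, TrivR, TrivM)

PLAN.  (1) `ind_basis`: choose a generating family `u : Fin n → S` of `N'` with `n` minimal (`Nat.find`).  Apply `trivM` to the column `C l 0 = (u l : A)`: `P`, `m` with fixed entries (so `P`, and `P⁻¹` (apply `φ g` entrywise, uniqueness of inverses), have entries in `S`, by `hS`).  The entries of
`P *ᵥ u` are in `N'` and generate it (`u = P⁻¹ *ᵥ (P *ᵥ u)`), the first `m` vanish, so `m = 0` by minimality, and `∑ c l * u l = 0 → co P c = 0 → c = 0`.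
(2) `N = span (range a)`, `a : Fin j → S`, `a i = ∑ l, C i l * u l`, `C i l ∈ S`.  Apply `trivR` to `C` (entries in `A`): `P`, `m`.  `u' = P⁻¹ *ᵥ u` (entries in `N'`), `u = P *ᵥ u'`, again generating `N'` over `S` and independent over `A`; `a i = ∑ l, (C * P) i l * u' l` is a combination of the `u' l` with `m ≤ l`.
`extN S N' = ` the `A`-span of the `u' l`, free.  Claim: `clo S N N' = ` the `A`-span of the `u' l` with `m ≤ l`.  `⊇`: let `f` vanish on `extN S N`, `f_l = f (u' l)`; the column `h_l = f (u l)` satisfies `C *ᵥ h = 0` (`f (a i) = 0`), so `(P⁻¹ *ᵥ h) l = f_l = 0` for `m ≤ l`.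
`⊆`: for `l < m` the coordinate form of `u' l` (`u'` is a basis of `extN S N'`) vanishes on all `a i`, hence on `extN S N`; so all coordinates `l < m` of an element of `clo` vanish.
(3) `cloS = span_S {u' l | m ≤ l}`: if `v ∈ S` is `∑_{m ≤ l} c l * u' l`, `c l ∈ A`, apply `φ g`: the `c l` are fixed by independence, so in `S`.  Complement `E = span_S {u' l | l < m}`; `N ≤ cloS` since the `a i` are in it (or directly from the definition).
-/

namespace Pool.Agent.SMF

open Matrix

variable {k X : Type*} [Field k] {G : Type*} [Group G]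

private theorem fix_inv {n : ℕ} (φ : G →* (A k X ≃ₐ[k] A k X)) (P : GLm k X n)
    (hP : ∀ g l l', φ g ((P : Matrix (Fin n) (Fin n) (A k X)) l l') =
      (P : Matrix (Fin n) (Fin n) (A k X)) l l') (g : G) (l l' : Fin n) :
    φ g (((P⁻¹ : GLm k X n) : Matrix (Fin n) (Fin n) (A k X)) l l') =
      ((P⁻¹ : GLm k X n) : Matrix (Fin n) (Fin n) (A k X)) l l' := by
  set Q : Matrix (Fin n) (Fin n) (A k X) := ((P⁻¹ : GLm k X n) : Matrix (Fin n) (Fin n) (A k X)) with hQ
  have hQP : Q * (P : Matrix (Fin n) (Fin n) (A k X)) = 1 := by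
    rw [hQ, ← Units.val_mul, inv_mul_cancel, Units.val_one]
  have hPQ : (P : Matrix (Fin n) (Fin n) (A k X)) * Q = 1 := by
    rw [hQ, ← Units.val_mul, mul_inv_cancel, Units.val_one]
  have h1 : Q.map (φ g) * (P : Matrix (Fin n) (Fin n) (A k X)) = 1 := by
    ext i j
    have h2 : (Q.map (φ g) * (P : Matrix (Fin n) (Fin n) (A k X))) i j =
        φ g ((Q * (P : Matrix (Fin n) (Fin n) (A k X))) i j) := by
      rw [Matrix.mul_apply, Matrix.mul_apply, map_sum]
      refine Finset.sum_congr rfl fun x _ => ?_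
      rw [map_mul, hP, Matrix.map_apply]
    rw [h2, hQP, Matrix.one_apply]
    split_ifs
    · exact map_one _
    · exact map_zero _
  have h2 : Q.map (φ g) = Q := by
    calc Q.map (φ g) = Q.map (φ g) * ((P : Matrix (Fin n) (Fin n) (A k X)) * Q) := by
          rw [hPQ, Matrix.mul_one]
      _ = Q := by rw [← Matrix.mul_assoc, h1, Matrix.one_mul]
  exact congrFun (congrFun h2 l) l'

private theorem coe_sum_smul (S : Subalgebra k (A k X)) {n : ℕ} (c u : Fin n → S) :
    ((∑ l, c l • u l : S) : A k X) = (fun l => (c l : A k X)) ⬝ᵥ (fun l => (u l : A k X)) := by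
  rw [dotProduct]
  have h := map_sum S.val (fun l => c l • u l) Finset.univ
  exact h

private theorem span_change (S : Subalgebra k (A k X)) {n : ℕ} (u : Fin n → S)
    (P Q : Matrix (Fin n) (Fin n) (A k X)) (hPS : ∀ l l', P l l' ∈ S) (hQS : ∀ l l', Q l l' ∈ S)
    (hQP : Q * P = 1) : ∃ u' : Fin n → S, (fun l => (u' l : A k X)) = P *ᵥ (fun l => (u l : A k X)) ∧
      Submodule.span S (Set.range u') = Submodule.span S (Set.range u) := by
  have key : ∀ (v : Fin n → S) (R : Matrix (Fin n) (Fin n) (A k X)) (hR : ∀ l l', R l l' ∈ S),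
      ∃ v' : Fin n → S, (fun l => (v' l : A k X)) = R *ᵥ (fun l => (v l : A k X)) ∧
        Submodule.span S (Set.range v') ≤ Submodule.span S (Set.range v) := by
    intro v R hR
    refine ⟨fun l => ∑ l', (⟨R l l', hR l l'⟩ : S) • v l', ?_, ?_⟩
    · funext l
      show ((∑ l', (⟨R l l', hR l l'⟩ : S) • v l' : S) : A k X) = _
      rw [coe_sum_smul S (fun l' => (⟨R l l', hR l l'⟩ : S)) v]
      rfl
    · rw [Submodule.span_le]
      rintro _ ⟨l, rfl⟩
      exact Submodule.sum_mem _ fun l' _ =>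
        Submodule.smul_mem _ _ (Submodule.subset_span ⟨l', rfl⟩)
  obtain ⟨u', h1, h2⟩ := key u P hPS
  refine ⟨u', h1, le_antisymm h2 ?_⟩
  obtain ⟨u'', h3, h4⟩ := key u' Q hQS
  have h5 : u'' = u := by
    funext l
    apply Subtype.ext
    have h6 : (fun l => (u'' l : A k X)) = (fun l => (u l : A k X)) := by
      rw [h3, h1, Matrix.mulVec_mulVec, hQP, Matrix.one_mulVec]
    exact congrFun h6 l
  rw [h5] at h4
  exact h4

theorem ind_basis {p : ℕ} [Fact p.Prime] [Finite G] (hG : IsPGroup p G) (φ : G →* (A k X ≃ₐ[k] A k X))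
    (S : Subalgebra k (A k X)) (hS : ∀ a, a ∈ S ↔ ∀ g, φ g a = a) {N : Submodule S S} (hN : N.FG) :
    ∃ (n : ℕ) (u : Fin n → S), N = Submodule.span S (Set.range u) ∧
      ∀ c : Fin n → A k X, ∑ l, c l * (u l : A k X) = 0 → c = 0 := by
  classical
  have hex : ∃ n : ℕ, ∃ u : Fin n → S, Submodule.span S (Set.range u) = N :=
    Submodule.fg_iff_exists_fin_generating_family.mp hN
  obtain ⟨u, hu⟩ := Nat.find_spec hex
  have hmin : ∀ m, m < Nat.find hex → ¬ ∃ u : Fin m → S, Submodule.span S (Set.range u) = N :=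
    fun m hm => Nat.find_min hex hm
  generalize Nat.find hex = n at u hu hmin
  let C : Matrix (Fin n) (Fin 1) (A k X) := fun l _ => (u l : A k X)
  have hC : ∀ g l i, φ g (C l i) = C l i := fun g l _ => (hS _).mp (u l).2 g
  obtain ⟨P, m, hm, hPf, hP0, hPi⟩ := trivM hG φ C hC
  have hQf := fix_inv φ P hPf
  have hQP : ((P⁻¹ : GLm k X n) : Matrix (Fin n) (Fin n) (A k X)) *
      (P : Matrix (Fin n) (Fin n) (A k X)) = 1 := by
    rw [← Units.val_mul, inv_mul_cancel, Units.val_one]
  obtain ⟨u', hu', hs'⟩ := span_change S u (P : Matrix (Fin n) (Fin n) (A k X))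
    ((P⁻¹ : GLm k X n) : Matrix (Fin n) (Fin n) (A k X))
    (fun l l' => (hS _).mpr fun g => hPf g l l') (fun l l' => (hS _).mpr fun g => hQf g l l') hQP
  have hm0 : m = 0 := by
    by_contra hne
    obtain ⟨n1, rfl⟩ : ∃ n1, n = n1 + 1 := ⟨n - 1, by omega⟩
    apply hmin n1 (Nat.lt_succ_self n1)
    refine ⟨fun i => u' i.succ, ?_⟩
    have h0 : u' 0 = 0 := by
      apply Subtype.ext
      have h1 := hP0 0 (by simp; omega) 0
      have h2 := congrFun hu' 0
      rw [Matrix.mul_apply] at h1
      rw [show ((u' 0 : S) : A k X) = _ from h2]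
      exact h1
    rw [← hu, ← hs']
    apply le_antisymm
    · apply Submodule.span_mono
      rintro _ ⟨i, rfl⟩
      exact ⟨i.succ, rfl⟩
    · rw [Submodule.span_le]
      rintro _ ⟨i, rfl⟩
      refine Fin.cases ?_ (fun i' => ?_) i
      · rw [h0]
        exact Submodule.zero_mem _
      · exact Submodule.subset_span ⟨i', rfl⟩
  refine ⟨n, u, hu.symm, fun c hc => ?_⟩
  have h1 : c ᵥ* C = 0 := by
    funext i
    exact hc
  have h2 : co P c = 0 := by
    funext l
    exact hPi c h1 l (by omega)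
  have h3 : c = co P c ᵥ* (P : Matrix (Fin n) (Fin n) (A k X)) := by
    rw [co, Matrix.vecMul_vecMul, hQP, Matrix.vecMul_one]
  rw [h3, h2, Matrix.zero_vecMul]

private theorem extN_span (S : Subalgebra k (A k X)) {n : ℕ} (w : Fin n → S) :
    extN S (Submodule.span S (Set.range w)) =
      Submodule.span (A k X) (Set.range fun i => (w i : A k X)) := by
  apply le_antisymm
  · rw [extN, Submodule.span_le]
    rintro _ ⟨y, hy, rfl⟩
    obtain ⟨c, rfl⟩ := (Submodule.mem_span_range_iff_exists_fun S).mp hy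
    show ((∑ i, c i • w i : S) : A k X) ∈ _
    rw [coe_sum_smul]
    exact Submodule.sum_mem _ fun i _ =>
      Submodule.smul_mem _ (c i : A k X) (Submodule.subset_span ⟨i, rfl⟩)
  · apply Submodule.span_mono
    rintro _ ⟨i, rfl⟩
    exact ⟨w i, Submodule.subset_span ⟨i, rfl⟩, rfl⟩

private theorem coord_form {n : ℕ} (w : Fin n → A k X)
    (hw : ∀ c : Fin n → A k X, c ⬝ᵥ w = 0 → c = 0) (M : Submodule (A k X) (A k X))
    (hM : M ≤ Submodule.span (A k X) (Set.range w)) (l : Fin n) :
    ∃ f : M →ₗ[A k X] A k X, ∀ (c : Fin n → A k X) (h : c ⬝ᵥ w ∈ M), f ⟨c ⬝ᵥ w, h⟩ = c l := by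
  have hli : LinearIndependent (A k X) w := by
    rw [Fintype.linearIndependent_iff]
    intro g hg i
    exact congrFun (hw g hg) i
  refine ⟨(Finsupp.lapply l) ∘ₗ (hli.repr : Submodule.span (A k X) (Set.range w) →ₗ[A k X] _) ∘ₗ
    Submodule.inclusion hM, fun c h => ?_⟩
  have h1 : hli.repr ⟨c ⬝ᵥ w, hM h⟩ = Finsupp.equivFunOnFinite.symm c := by
    apply hli.repr_eq
    rw [Finsupp.linearCombination_apply, Finsupp.sum_fintype]
    · rfl
    · intro i
      exact zero_smul _ _
  show (hli.repr ⟨c ⬝ᵥ w, hM h⟩) l = c l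
  rw [h1]
  rfl

theorem cl_struct {p : ℕ} [Fact p.Prime] [Finite G] (hG : IsPGroup p G) (φ : G →* (A k X ≃ₐ[k] A k X))
    (S : Subalgebra k (A k X)) (hS : ∀ a, a ∈ S ↔ ∀ g, φ g a = a) {N N' : Submodule S S} (hN : N.FG)
    (hN' : N'.FG) (hle : N ≤ N') :
    (cloS S N N').FG ∧ N ≤ cloS S N N' ∧ cloS S N N' ≤ N' ∧
      ∃ E : Submodule S S, cloS S N N' ⊓ E = ⊥ ∧ cloS S N N' ⊔ E = N' := by
  classical
  obtain ⟨n, u, hu, hui⟩ := ind_basis hG φ S hS hN'
  obtain ⟨j, a, ha⟩ := Submodule.fg_iff_exists_fin_generating_family.mp hN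
  have haC : ∀ i, ∃ c : Fin n → S, ∑ l, c l • u l = a i := by
    intro i
    rw [← Submodule.mem_span_range_iff_exists_fun S, ← hu]
    exact hle (ha ▸ Submodule.subset_span ⟨i, rfl⟩)
  choose CS hCS using haC
  let C : Matrix (Fin j) (Fin n) (A k X) := fun i l => (CS i l : A k X)
  have hC : ∀ g i l, φ g (C i l) = C i l := fun g i l => (hS _).mp (CS i l).2 g
  obtain ⟨P, m, hm, hPf, hP0, hPi⟩ := trivR hG φ C hC
  have hQf := fix_inv φ P hPf
  set PM : Matrix (Fin n) (Fin n) (A k X) := (P : Matrix (Fin n) (Fin n) (A k X)) with hPM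
  set QM : Matrix (Fin n) (Fin n) (A k X) :=
    ((P⁻¹ : GLm k X n) : Matrix (Fin n) (Fin n) (A k X)) with hQM
  have hQP : QM * PM = 1 := by
    rw [hQM, hPM, ← Units.val_mul, inv_mul_cancel, Units.val_one]
  have hPQ : PM * QM = 1 := by
    rw [hQM, hPM, ← Units.val_mul, mul_inv_cancel, Units.val_one]
  obtain ⟨u', hu', hs'⟩ := span_change S u QM PM
    (fun l l' => (hS _).mpr fun g => hQf g l l') (fun l l' => (hS _).mpr fun g => hPf g l l') hPQ
  set uA : Fin n → A k X := fun l => (u l : A k X) with huA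
  set vA : Fin n → A k X := fun l => (u' l : A k X) with hvA
  have huv : uA = PM *ᵥ vA := by
    rw [hu', Matrix.mulVec_mulVec, hPQ, Matrix.one_mulVec]
  have hvi : ∀ c : Fin n → A k X, c ⬝ᵥ vA = 0 → c = 0 := by
    intro c hc
    rw [hu', Matrix.dotProduct_mulVec] at hc
    have h1 := hui (c ᵥ* QM) hc
    have h2 : c = (c ᵥ* QM) ᵥ* PM := by
      rw [Matrix.vecMul_vecMul, hQP, Matrix.vecMul_one]
    rw [h2, h1, Matrix.zero_vecMul]
  have haA : ∀ i, (a i : A k X) = C i ⬝ᵥ uA := by
    intro i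
    rw [← hCS i, coe_sum_smul]
  have haV : ∀ i, (a i : A k X) = (fun l => (C * PM) i l) ⬝ᵥ vA := by
    intro i
    rw [haA i, huv, Matrix.dotProduct_mulVec]
    rfl
  have hext : extN S N' = Submodule.span (A k X) (Set.range vA) := by
    rw [hu, ← hs', extN_span]
  have hextu : extN S N' = Submodule.span (A k X) (Set.range uA) := by
    rw [hu, extN_span]
  have hextN : extN S N = Submodule.span (A k X) (Set.range fun i => (a i : A k X)) := by
    rw [← ha, extN_span]
  have hextle : extN S N ≤ extN S N' := by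
    rw [extN, extN]
    exact Submodule.span_mono (Set.image_mono hle)
  -- the closure
  have hclo : ∀ v, v ∈ clo S N N' ↔ ∃ c : Fin n → A k X, (∀ l : Fin n, (l : ℕ) < m → c l = 0) ∧
      v = c ⬝ᵥ vA := by
    intro v
    constructor
    · rintro ⟨hv, hf⟩
      have hv' := hv
      rw [hext] at hv'
      obtain ⟨c, rfl⟩ := (Submodule.mem_span_range_iff_exists_fun (A k X)).mp hv'
      refine ⟨c, fun l hl => ?_, rfl⟩
      obtain ⟨f, hfc⟩ := coord_form vA hvi (extN S N') hext.le l
      have h1 := hf f ?_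
      · rw [← hfc c hv]
        exact h1
      · intro w hw hw'
        rw [hextN] at hw'
        obtain ⟨d, rfl⟩ := (Submodule.mem_span_range_iff_exists_fun (A k X)).mp hw'
        have h2 : ∑ i, d i • (a i : A k X) = (d ᵥ* (C * PM)) ⬝ᵥ vA := by
          rw [← Matrix.dotProduct_mulVec]
          refine Finset.sum_congr rfl fun i _ => ?_
          rw [haV i]
          rfl
        have h3 : (⟨∑ i, d i • (a i : A k X), hw⟩ : extN S N') =
            ⟨(d ᵥ* (C * PM)) ⬝ᵥ vA, h2 ▸ hw⟩ := Subtype.ext h2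
        rw [h3, hfc]
        show ∑ i, d i * (C * PM) i l = 0
        refine Finset.sum_eq_zero fun i _ => ?_
        rw [hP0 l hl i, mul_zero]
    · rintro ⟨c, hc, rfl⟩
      have hv : c ⬝ᵥ vA ∈ extN S N' := by
        rw [hext]
        exact Submodule.sum_mem _ fun i _ =>
          Submodule.smul_mem _ (c i) (Submodule.subset_span ⟨i, rfl⟩)
      refine ⟨hv, fun f hf => ?_⟩
      have hum : ∀ l, uA l ∈ extN S N' := fun l => by
        rw [hextu]; exact Submodule.subset_span ⟨l, rfl⟩
      have hvm : ∀ l, vA l ∈ extN S N' := fun l => by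
        rw [hext]; exact Submodule.subset_span ⟨l, rfl⟩
      have hlin : ∀ (d w : Fin n → A k X) (hw : ∀ l, w l ∈ extN S N') (hd : d ⬝ᵥ w ∈ extN S N'),
          f ⟨d ⬝ᵥ w, hd⟩ = d ⬝ᵥ (fun l => f ⟨w l, hw l⟩) := by
        intro d w hw hd
        have h1 : (⟨d ⬝ᵥ w, hd⟩ : extN S N') = ∑ l, d l • (⟨w l, hw l⟩ : extN S N') := by
          apply Subtype.ext
          rw [Submodule.coe_sum]
          rfl
        rw [h1, map_sum]
        refine Finset.sum_congr rfl fun l _ => ?_
        rw [map_smul]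
        rfl
      have h1 : C *ᵥ (fun l => f ⟨uA l, hum l⟩) = 0 := by
        funext i
        have hd : C i ⬝ᵥ uA ∈ extN S N' := by
          rw [← haA i]
          exact hextle (hextN ▸ Submodule.subset_span ⟨i, rfl⟩)
        have h2 := hlin (C i) uA hum hd
        show C i ⬝ᵥ (fun l => f ⟨uA l, hum l⟩) = 0
        rw [← h2]
        apply hf
        rw [← haA i, hextN]
        exact Submodule.subset_span ⟨i, rfl⟩
      have h2 : ∀ l : Fin n, m ≤ (l : ℕ) → f ⟨vA l, hvm l⟩ = 0 := by
        intro l hl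
        have h3 := hPi _ h1 l hl
        have h4 : vA l = QM l ⬝ᵥ uA := by rw [hu']; rfl
        have hd : QM l ⬝ᵥ uA ∈ extN S N' := h4 ▸ hvm l
        have h5 := hlin (QM l) uA hum hd
        have h6 : (⟨vA l, hvm l⟩ : extN S N') = ⟨QM l ⬝ᵥ uA, hd⟩ := Subtype.ext h4
        rw [h6, h5]
        exact h3
      rw [hlin c vA hvm hv]
      refine Finset.sum_eq_zero fun l _ => ?_
      by_cases hl : (l : ℕ) < m
      · rw [hc l hl, zero_mul]
      · show c l * f ⟨vA l, hvm l⟩ = 0
        rw [h2 l (not_lt.mp hl), mul_zero]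
  have hcloS : ∀ v : S, v ∈ cloS S N N' ↔ ∃ c : Fin n → S, (∀ l : Fin n, (l : ℕ) < m → c l = 0) ∧
      v = ∑ l, c l • u' l := by
    intro v
    show (v : A k X) ∈ clo S N N' ↔ _
    rw [hclo]
    constructor
    · rintro ⟨c, hc, hv⟩
      have hcS : ∀ l, c l ∈ S := by
        intro l
        rw [hS]
        intro g
        have h1 : (fun l => φ g (c l)) ⬝ᵥ vA = c ⬝ᵥ vA := by
          rw [← hv]
          conv_rhs => rw [← (hS _).mp v.2 g, hv]
          rw [dotProduct, dotProduct, map_sum]
          refine Finset.sum_congr rfl fun i _ => ?_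
          rw [map_mul]
          congr 1
          exact ((hS _).mp (u' i).2 g).symm
        have h2 : (fun l => φ g (c l) - c l) ⬝ᵥ vA = 0 := by
          have h3 : (fun l => φ g (c l) - c l) = (fun l => φ g (c l)) - c := rfl
          rw [h3, sub_dotProduct, h1, sub_self]
        exact sub_eq_zero.mp (congrFun (hvi _ h2) l)
      refine ⟨fun l => ⟨c l, hcS l⟩, fun l hl => Subtype.ext (hc l hl), ?_⟩
      apply Subtype.ext
      rw [hv, coe_sum_smul]
    · rintro ⟨c, hc, rfl⟩
      refine ⟨fun l => (c l : A k X), fun l hl => ?_, coe_sum_smul S c u'⟩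
      show (c l : A k X) = 0
      rw [hc l hl]
      rfl
  have hN'u : N' = Submodule.span S (Set.range u') := by rw [hs', ← hu]
  have hbase : ∀ l : Fin n, m ≤ (l : ℕ) → u' l ∈ cloS S N N' := by
    intro l hl
    rw [hcloS]
    refine ⟨Pi.single l 1, fun l' hl' => ?_, ?_⟩
    · rw [Pi.single_eq_of_ne]
      rintro rfl
      omega
    · rw [Finset.sum_eq_single l]
      · rw [Pi.single_eq_same, one_smul]
      · intro b _ hb
        rw [Pi.single_eq_of_ne hb, zero_smul]
      · intro h
        exact absurd (Finset.mem_univ l) h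
  refine ⟨?_, ?_, ?_, Submodule.span S (u' '' {l | (l : ℕ) < m}), ?_, ?_⟩
  · refine ⟨(Finset.univ.filter fun l : Fin n => m ≤ (l : ℕ)).image u', ?_⟩
    apply le_antisymm
    · rw [Submodule.span_le]
      intro x hx
      simp only [Finset.coe_image, Finset.coe_filter, Finset.mem_univ, true_and, Set.mem_image,
        Set.mem_ofPred_eq] at hx
      obtain ⟨l, hl, rfl⟩ := hx
      exact hbase l hl
    · intro v hv
      obtain ⟨c, hc, rfl⟩ := (hcloS v).mp hv
      refine Submodule.sum_mem _ fun l _ => ?_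
      by_cases hl : (l : ℕ) < m
      · rw [hc l hl, zero_smul]
        exact Submodule.zero_mem _
      · refine Submodule.smul_mem _ _ (Submodule.subset_span ?_)
        simp only [Finset.coe_image, Finset.coe_filter, Finset.mem_univ, true_and, Set.mem_image,
          Set.mem_ofPred_eq]
        exact ⟨l, not_lt.mp hl, rfl⟩
  · intro v hv
    show (v : A k X) ∈ clo S N N'
    have h1 : (v : A k X) ∈ extN S N := Submodule.subset_span ⟨v, hv, rfl⟩
    exact ⟨hextle h1, fun f hf => hf _ (hextle h1) h1⟩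
  · intro v hv
    obtain ⟨c, _, rfl⟩ := (hcloS v).mp hv
    rw [hN'u]
    exact Submodule.sum_mem _ fun l _ => Submodule.smul_mem _ _ (Submodule.subset_span ⟨l, rfl⟩)
  · rw [eq_bot_iff]
    rintro v ⟨hv1, hv2⟩
    obtain ⟨c, hc, hvc⟩ := (hcloS v).mp hv1
    have hE : ∃ d : Fin n → S, (∀ l : Fin n, m ≤ (l : ℕ) → d l = 0) ∧ v = ∑ l, d l • u' l := by
      refine Submodule.span_induction (p := fun v _ => ∃ d : Fin n → S,
        (∀ l : Fin n, m ≤ (l : ℕ) → d l = 0) ∧ v = ∑ l, d l • u' l) ?_ ?_ ?_ ?_ hv2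
      · rintro _ ⟨l, hl, rfl⟩
        refine ⟨Pi.single l 1, fun l' hl' => ?_, ?_⟩
        · rw [Pi.single_eq_of_ne]
          rintro rfl
          have : (l' : ℕ) < m := hl
          omega
        · rw [Finset.sum_eq_single l]
          · rw [Pi.single_eq_same, one_smul]
          · intro b _ hb
            rw [Pi.single_eq_of_ne hb, zero_smul]
          · intro h
            exact absurd (Finset.mem_univ l) h
      · exact ⟨0, fun _ _ => rfl, by simp⟩
      · rintro x y _ _ ⟨d, hd, rfl⟩ ⟨e, he, rfl⟩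
        refine ⟨d + e, fun l hl => ?_, ?_⟩
        · rw [Pi.add_apply, hd l hl, he l hl, add_zero]
        · rw [← Finset.sum_add_distrib]
          refine Finset.sum_congr rfl fun l _ => ?_
          rw [Pi.add_apply, add_smul]
      · rintro b x _ ⟨d, hd, rfl⟩
        refine ⟨fun l => b * d l, fun l hl => ?_, ?_⟩
        · show b * d l = 0
          rw [hd l hl, mul_zero]
        · rw [Finset.smul_sum]
          refine Finset.sum_congr rfl fun l _ => ?_
          rw [mul_smul]
    obtain ⟨d, hd, hvd⟩ := hE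
    have h1 : (fun l => (c l : A k X) - (d l : A k X)) = 0 := by
      apply hvi
      have h3 : (fun l => (c l : A k X) - (d l : A k X)) =
        (fun l => (c l : A k X)) - (fun l => (d l : A k X)) := rfl
      rw [h3, sub_dotProduct, ← coe_sum_smul, ← coe_sum_smul, ← hvc, ← hvd, sub_self]
    have h2 : c = 0 := by
      funext l
      by_cases hl : (l : ℕ) < m
      · exact hc l hl
      · apply Subtype.ext
        have h4 : (c l : A k X) - (d l : A k X) = 0 := congrFun h1 l
        rw [hd l (not_lt.mp hl), Subalgebra.coe_zero, sub_zero] at h4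
        exact h4
    rw [hvc, h2]
    simp
  · apply le_antisymm
    · apply sup_le
      · intro v hv
        obtain ⟨c, _, rfl⟩ := (hcloS v).mp hv
        rw [hN'u]
        exact Submodule.sum_mem _ fun l _ =>
          Submodule.smul_mem _ _ (Submodule.subset_span ⟨l, rfl⟩)
      · rw [hN'u]
        exact Submodule.span_mono (Set.image_subset_range _ _)
    · conv_lhs => rw [hN'u]
      rw [Submodule.span_le]
      rintro _ ⟨l, rfl⟩
      by_cases hl : (l : ℕ) < m
      · exact Submodule.mem_sup_right (Submodule.subset_span ⟨l, hl, rfl⟩)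
      · exact Submodule.mem_sup_left (hbase l (not_lt.mp hl))

end Pool.Agent.SMF
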