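import Mathlib

/-!
# SMF-ProjF: left ideals of the free algebra are projective (Mathlib only)

PLAN.  Let `F = FreeAlgebra k X`, `J` a left ideal, `M = F ⧸ J` (a left `F`-module, a `k`-space), `π : F → M`.  If `J = ⊤` it is free.  Otherwise choose a `k`-linear section `σ : M → F` of `π` with `σ (π 1) = 1` (`π 1 ≠ 0`; extend `π 1` to a basis of `M`, or correct any section).
(1) For `x : X` define the `k`-linear map `D x : F → F ⊗[k] M` with `D x (word u) = ∑ over the splittings u = u' x u'' of u' ⊗ π u''` (on the basis of words: `FreeAlgebra.equivMonoidAlgebraFreeMonoid`; recursion on the list: `D x (y :: u) = (if y = x then 1 ⊗ π u else 0) + y • D x u`), where `F` acts on the left factor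
(`TensorProduct.leftModule`/`AlgebraTensorModule`), so `D x (ι y * a) = (if y = x then 1 ⊗ π a else 0) + ι y • D x a`.  For `a` fixed `D x a ≠ 0` for finitely many `x` only.  On `J` (`π a = 0`) `D x` is `F`-linear: `D x (ι y * a) = ι y • D x a`.
(2) `s x : F ⊗[k] M → F`, `b ⊗ m ↦ b * ι x * σ m - b * σ (ι x • m)`, `F`-linear with values in `J` (`π (ι x * σ m) = ι x • m = π (σ (ι x • m))`).
(3) For all `a`: `∑ x, s x (D x a) = a * σ (π 1) - σ (π a) = a - σ (π a)`: on words by induction: for `y :: u`: `s y (1 ⊗ π u) + y * (∑ x, s x (D x u)) = ι y * σ (π u) - σ (ι y • π u) + ι y * (u - σ (π u)) = ι y * u - σ (π (ι y * u))`.  So for `a ∈ J`: `∑ x, s x (D x a) = a`.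
(4) So `J` is a direct summand of the free module `⨁ x, F ⊗[k] M` (`Module.Free.projective`, `Module.Projective.of_split`); or write the dual basis with a `k`-basis of `M` (`Module.projective_def'`/`Module.Projective.of_lifting_property`…).
Any other proof is fine (e.g. the weak algorithm).
-/

namespace Pool.Agent.SMF

open TensorProduct

section

variable {k X : Type*} [Field k] (J : Submodule (FreeAlgebra k X) (FreeAlgebra k X))

/-- the free module `F ⊗ (X →₀ F ⧸ J)` -/
private abbrev PP : Type _ := FreeAlgebra k X ⊗[k] (X →₀ (FreeAlgebra k X ⧸ J))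

/-- the action of a generator on `(F ⧸ J) × (F ⊗ (X →₀ F ⧸ J))` -/
private noncomputable def ry (y : X) : Module.End k ((FreeAlgebra k X ⧸ J) × PP J) :=
  LinearMap.prod
    ((Algebra.lsmul k k (FreeAlgebra k X ⧸ J) (FreeAlgebra.ι k y)).comp (LinearMap.fst k _ _))
    ((TensorProduct.mk k (FreeAlgebra k X) (X →₀ (FreeAlgebra k X ⧸ J)) 1).comp
        ((Finsupp.lsingle y).comp (LinearMap.fst k _ _)) +
      (Algebra.lsmul k k (PP J) (FreeAlgebra.ι k y)).comp (LinearMap.snd k _ _))

private theorem ry_apply (y : X) (m : FreeAlgebra k X ⧸ J) (p : PP J) :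
    ry J y (m, p) = (FreeAlgebra.ι k y • m,
      (1 : FreeAlgebra k X) ⊗ₜ[k] Finsupp.single y m + FreeAlgebra.ι k y • p) := rfl

/-- the action of the free algebra -/
private noncomputable def rho : FreeAlgebra k X →ₐ[k] Module.End k ((FreeAlgebra k X ⧸ J) × PP J) :=
  FreeAlgebra.lift k (ry J)

private theorem rho_ι (y : X) : rho J (FreeAlgebra.ι k y) = ry J y := FreeAlgebra.lift_ι_apply _ _

private theorem rho_fst (a : FreeAlgebra k X) : ∀ (m : FreeAlgebra k X ⧸ J) (p : PP J),
    (rho J a (m, p)).1 = a • m := by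
  induction a using FreeAlgebra.induction with
  | grade0 c =>
    intro m p
    rw [AlgHom.commutes, Module.algebraMap_end_apply, Prod.smul_fst, algebraMap_smul]
  | grade1 y =>
    intro m p
    rw [rho_ι, ry_apply]
  | mul a b ha hb =>
    intro m p
    rw [map_mul, Module.End.mul_apply]
    have h1 : rho J b (m, p) = (b • m, (rho J b (m, p)).2) := Prod.ext (hb m p) rfl
    rw [h1, ha, mul_smul]
  | add a b ha hb =>
    intro m p
    rw [map_add, LinearMap.add_apply, Prod.fst_add, ha, hb, add_smul]

private theorem rho_zero (a : FreeAlgebra k X) : ∀ p : PP J, rho J a (0, p) = (0, a • p) := by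
  induction a using FreeAlgebra.induction with
  | grade0 c =>
    intro p
    rw [AlgHom.commutes, Module.algebraMap_end_apply]
    exact Prod.ext
      ((algebraMap_smul (FreeAlgebra k X) c (0 : FreeAlgebra k X ⧸ J)).symm.trans
        (smul_zero (algebraMap k (FreeAlgebra k X) c)))
      (algebraMap_smul (FreeAlgebra k X) c p).symm
  | grade1 y =>
    intro p
    rw [rho_ι, ry_apply, smul_zero, Finsupp.single_zero, TensorProduct.tmul_zero, zero_add]
  | mul a b ha hb =>
    intro p
    rw [map_mul, Module.End.mul_apply, hb, ha, mul_smul]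
  | add a b ha hb =>
    intro p
    rw [map_add, LinearMap.add_apply, ha, hb, Prod.mk_add_mk, add_zero, add_smul]

variable (σ : (FreeAlgebra k X ⧸ J) →ₗ[k] FreeAlgebra k X)

/-- the map to the free algebra -/
private noncomputable def s0 : (X →₀ (FreeAlgebra k X ⧸ J)) →ₗ[k] FreeAlgebra k X :=
  Finsupp.lsum k fun x => (LinearMap.mulLeft k (FreeAlgebra.ι k x)).comp σ -
    σ.comp (Algebra.lsmul k k (FreeAlgebra k X ⧸ J) (FreeAlgebra.ι k x))

private theorem s0_single (x : X) (m : FreeAlgebra k X ⧸ J) :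
    s0 J σ (Finsupp.single x m) = FreeAlgebra.ι k x * σ m - σ (FreeAlgebra.ι k x • m) := by
  unfold s0
  rw [Finsupp.lsum_single]
  rfl

private noncomputable def s1 : PP J →ₗ[FreeAlgebra k X] FreeAlgebra k X :=
  TensorProduct.AlgebraTensorModule.lift
    (LinearMap.toSpanSingleton (FreeAlgebra k X)
      ((X →₀ (FreeAlgebra k X ⧸ J)) →ₗ[k] FreeAlgebra k X) (s0 J σ))

private theorem s1_tmul (b : FreeAlgebra k X) (n : X →₀ (FreeAlgebra k X ⧸ J)) :
    s1 J σ (b ⊗ₜ n) = b * s0 J σ n := rfl

private theorem s1_mem (hσ : ∀ m, J.mkQ (σ m) = m) (p : PP J) : s1 J σ p ∈ J := by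
  have h0 : ∀ n, J.mkQ (s0 J σ n) = 0 := by
    intro n
    induction n using Finsupp.induction_linear with
    | zero => rw [map_zero, map_zero]
    | add f g hf hg => rw [map_add, map_add, hf, hg, add_zero]
    | single x m =>
      rw [s0_single, map_sub, hσ, ← smul_eq_mul, map_smul, hσ, sub_self]
  induction p using TensorProduct.induction_on with
  | zero =>
    rw [map_zero]
    exact J.zero_mem
  | tmul b n =>
    rw [s1_tmul, ← smul_eq_mul]
    refine J.smul_mem b ?_
    have h1 := h0 n
    rwa [Submodule.mkQ_apply, Submodule.Quotient.mk_eq_zero] at h1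
  | add x y hx hy =>
    rw [map_add]
    exact J.add_mem hx hy

private theorem s1_rho (a : FreeAlgebra k X) : ∀ (m : FreeAlgebra k X ⧸ J) (p : PP J),
    s1 J σ (rho J a (m, p)).2 = a * σ m - σ (a • m) + a * s1 J σ p := by
  induction a using FreeAlgebra.induction with
  | grade0 c =>
    intro m p
    rw [AlgHom.commutes, Module.algebraMap_end_apply, Prod.smul_snd, algebraMap_smul, map_smul σ,
      ← algebraMap_smul (FreeAlgebra k X) c p, map_smul, ← Algebra.smul_def, sub_self, zero_add,
      smul_eq_mul]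
  | grade1 y =>
    intro m p
    rw [rho_ι, ry_apply]
    simp only
    rw [map_add, s1_tmul, one_mul, s0_single, map_smul (s1 J σ), smul_eq_mul]
  | mul a b ha hb =>
    intro m p
    rw [map_mul, Module.End.mul_apply]
    have h1 : rho J b (m, p) = (b • m, (rho J b (m, p)).2) := Prod.ext (rho_fst J b m p) rfl
    rw [h1, ha, hb, mul_smul, mul_assoc, mul_assoc, mul_add, mul_sub]
    abel
  | add a b ha hb =>
    intro m p
    rw [map_add, LinearMap.add_apply, Prod.snd_add, map_add, ha, hb, add_smul, map_add, add_mul,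
      add_mul]
    abel

end

theorem left_proj {k X : Type*} [Field k] (J : Submodule (FreeAlgebra k X) (FreeAlgebra k X)) :
    Module.Projective (FreeAlgebra k X) J := by
  obtain ⟨σ, hσ0⟩ := LinearMap.exists_rightInverse_of_surjective (J.mkQ.restrictScalars k)
    (LinearMap.range_eq_top.2 J.mkQ_surjective)
  have hσ : ∀ m, J.mkQ (σ m) = m := fun m => LinearMap.congr_fun hσ0 m
  have hj : σ (J.mkQ 1) - 1 ∈ J := by
    have h1 : J.mkQ (σ (J.mkQ 1) - 1) = 0 := by rw [map_sub, hσ, sub_self]
    rwa [Submodule.mkQ_apply, Submodule.Quotient.mk_eq_zero] at h1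
  have hfst : ∀ a : J, rho J (a : FreeAlgebra k X) (J.mkQ 1, 0) =
      (0, (rho J (a : FreeAlgebra k X) (J.mkQ 1, 0)).2) := by
    intro a
    refine Prod.ext ?_ rfl
    rw [rho_fst, ← map_smul, smul_eq_mul, mul_one]
    exact (Submodule.Quotient.mk_eq_zero J).2 a.2
  let i : J →ₗ[FreeAlgebra k X] PP J × FreeAlgebra k X :=
    { toFun := fun a => ((rho J (a : FreeAlgebra k X) (J.mkQ 1, 0)).2, (a : FreeAlgebra k X))
      map_add' := by
        intro a b
        rw [Submodule.coe_add, map_add, LinearMap.add_apply, Prod.snd_add]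
        rfl
      map_smul' := by
        intro b a
        rw [Submodule.coe_smul, smul_eq_mul, map_mul, Module.End.mul_apply, hfst a, rho_zero]
        rfl }
  let q : PP J × FreeAlgebra k X →ₗ[FreeAlgebra k X] J :=
    { toFun := fun z => ⟨s1 J σ z.1 - z.2 * (σ (J.mkQ 1) - 1),
        J.sub_mem (s1_mem J σ hσ z.1) (J.smul_mem z.2 hj)⟩
      map_add' := by
        intro z z'
        apply Subtype.ext
        show s1 J σ (z.1 + z'.1) - (z.2 + z'.2) * (σ (J.mkQ 1) - 1) =
          (s1 J σ z.1 - z.2 * (σ (J.mkQ 1) - 1)) + (s1 J σ z'.1 - z'.2 * (σ (J.mkQ 1) - 1))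
        rw [map_add, add_mul]
        abel
      map_smul' := by
        intro b z
        apply Subtype.ext
        show s1 J σ (b • z.1) - (b * z.2) * (σ (J.mkQ 1) - 1) =
          b * (s1 J σ z.1 - z.2 * (σ (J.mkQ 1) - 1))
        rw [map_smul, smul_eq_mul, mul_sub b, mul_assoc] }
  refine Module.Projective.of_split i q ?_
  apply LinearMap.ext
  intro a
  apply Subtype.ext
  show s1 J σ (rho J (a : FreeAlgebra k X) (J.mkQ 1, 0)).2 -
    (a : FreeAlgebra k X) * (σ (J.mkQ 1) - 1) = a
  rw [s1_rho, map_zero, mul_zero, add_zero, ← map_smul J.mkQ, smul_eq_mul, mul_one]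
  have h1 : J.mkQ (a : FreeAlgebra k X) = 0 := (Submodule.Quotient.mk_eq_zero J).2 a.2
  rw [h1, map_zero, sub_zero, mul_sub, mul_one]
  abel

end Pool.Agent.SMF
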