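import Pool.Agent.SMF.ClD
import Pool.Agent.SMF.ProjF

/-!
# SMF-ClB: the closures of a finitely generated left ideal stabilise (imports ClD, ProjF)

PLAN.  `J = ⨆ i, extN S (N i)`, a directed union (`extN` is monotone), projective by `left_proj`: dual basis: a free module `J →₀ A` retracts on `J` (`Module.Projective.out` / `Module.projective_def`): a linear `s : J → (J →₀ A)` with `∑ y, s v y • y = v`; write `f_y v = s v y`.
`extN S (N j)` is finitely generated (by the generators of `N j`), so there is a finite set `Y0` of `y ∈ J` with `f_y = 0` on `extN S (N j)` for `y ∉ Y0`.  Choose `i0 ≥ j` with `Y0 ⊆ extN S (N i0)` (finite, directed union).  Let `i ≥ i0`.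
`⊆`: `v ∈ clo (N j) (N i)`: for `y ∉ Y0` the restriction of `f_y` to `extN S (N i)` vanishes on `extN S (N j)`, so `f_y v = 0` and `v = ∑_{y ∈ Y0} f_y v • y ∈ extN S (N i0)`.  If `f` is a form on `extN S (N i0)` vanishing on `extN S (N j)`, then `f' w = ∑_{y ∈ Y0} f_y w • f y` is a
form on `extN S (N i)`, with `f' w = f (∑_{y ∈ Y0} f_y w • y) = f w = 0` for `w ∈ extN S (N j)`; so `0 = f' v = f v`.
`⊇`: restrict forms from `extN S (N i)` to `extN S (N i0)`.
-/

namespace Pool.Agent.SMF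

variable {k X : Type*} [Field k]

private theorem extN_mono (S : Subalgebra k (A k X)) {N N' : Submodule S S} (h : N ≤ N') :
    extN S N ≤ extN S N' :=
  Submodule.span_mono (Set.image_mono h)

private theorem extN_le_of_fg (S : Subalgebra k (A k X)) (T : Set S)
    (M : Submodule (A k X) (A k X)) (hT : ∀ t ∈ T, (t : A k X) ∈ M) :
    extN S (Submodule.span S T) ≤ M := by
  refine Submodule.span_le.2 ?_
  rintro _ ⟨x, hx, rfl⟩
  have hx' : x ∈ Submodule.span S T := hx
  show (x : A k X) ∈ M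
  induction hx' using Submodule.span_induction with
  | mem x h => exact hT x h
  | zero => rw [Subalgebra.coe_zero]; exact zero_mem _
  | add x y hx1 hy1 ihx ihy =>
    rw [Subalgebra.coe_add]; exact add_mem (ihx hx1) (ihy hy1)
  | smul a x hx1 ih =>
    have h : ((a • x : S) : A k X) = (a : A k X) • (x : A k X) := rfl
    rw [h]
    exact Submodule.smul_mem _ _ (ih hx1)

theorem cl_stab (S : Subalgebra k (A k X)) (N : ℕ → Submodule S S) (hmono : Monotone N)
    (hfg : ∀ i, (N i).FG) (j : ℕ) : ∃ i0, j ≤ i0 ∧ ∀ i, i0 ≤ i → clo S (N j) (N i) = clo S (N j) (N i0) := by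
  classical
  have hE : ∀ a b : ℕ, a ≤ b → extN S (N a) ≤ extN S (N b) := fun a b hab =>
    extN_mono S (hmono hab)
  have hdir : Directed (· ≤ ·) (fun i => extN S (N i)) := fun a b =>
    ⟨max a b, hE _ _ (le_max_left _ _), hE _ _ (le_max_right _ _)⟩
  obtain ⟨J, hJ⟩ : ∃ J, J = ⨆ i, extN S (N i) := ⟨_, rfl⟩
  have hEJ : ∀ i, extN S (N i) ≤ J := fun i => hJ ▸ le_iSup (fun i => extN S (N i)) i
  have hmem : ∀ v ∈ J, ∃ i, v ∈ extN S (N i) := by
    intro v hv
    rw [hJ] at hv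
    exact (Submodule.mem_iSup_of_directed _ hdir).1 hv
  obtain ⟨s, hs⟩ := Module.projective_def'.1 (left_proj J)
  have hs' : ∀ v : J, (Finsupp.linearCombination (A k X) id) (s v) = v := fun v =>
    LinearMap.congr_fun hs v
  obtain ⟨T, hT⟩ := hfg j
  have hTJ : ∀ t ∈ T, (t : A k X) ∈ J := by
    intro t ht
    refine hEJ j (Submodule.subset_span ⟨t, ?_, rfl⟩)
    rw [← hT]
    exact Submodule.subset_span ht
  obtain ⟨Y0, hY0⟩ : ∃ Y0 : Finset J, ∀ t, ∀ ht : t ∈ T,
      (s ⟨(t : A k X), hTJ t ht⟩).support ⊆ Y0 := by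
    refine ⟨T.attach.biUnion fun t => (s ⟨(t.1 : A k X), hTJ t.1 t.2⟩).support, ?_⟩
    intro t ht
    exact Finset.subset_biUnion_of_mem
      (fun t : T => (s ⟨(t.1 : A k X), hTJ t.1 t.2⟩).support) (Finset.mem_attach T ⟨t, ht⟩)
  -- the elements of `J` whose coordinates outside of `Y0` vanish
  have hsup : ∀ w, ∀ hw : w ∈ J, w ∈ extN S (N j) → (s ⟨w, hw⟩) ∈
      Finsupp.supported (A k X) (A k X) (Y0 : Set J) := by
    intro w hw hwj
    have h1 : extN S (N j) ≤
        ((Finsupp.supported (A k X) (A k X) (Y0 : Set J)).comap s).map J.subtype := by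
      rw [← hT]
      refine extN_le_of_fg S _ _ ?_
      intro t ht
      refine ⟨⟨(t : A k X), hTJ t ht⟩, ?_, rfl⟩
      show s _ ∈ Finsupp.supported (A k X) (A k X) (Y0 : Set J)
      rw [Finsupp.mem_supported]
      exact_mod_cast hY0 t ht
    obtain ⟨⟨w', hw'⟩, h2, h3⟩ := h1 hwj
    have h4 : w' = w := h3
    subst h4
    exact h2
  obtain ⟨i0, hji0, hi0⟩ : ∃ i0, j ≤ i0 ∧ ∀ y ∈ Y0, (y : A k X) ∈ extN S (N i0) := by
    choose ix hix using fun y : J => hmem y.1 y.2
    refine ⟨max j (Y0.sup ix), le_max_left _ _, fun y hy => ?_⟩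
    exact hE _ _ (le_trans (Finset.le_sup hy) (le_max_right _ _)) (hix y)
  -- the projection
  obtain ⟨P, hP⟩ : ∃ P : J →ₗ[A k X] extN S (N i0), ∀ v : J,
      P v = ∑ y ∈ Y0.attach, s v y.1 • (⟨(y.1 : A k X), hi0 y.1 y.2⟩ : extN S (N i0)) := by
    refine ⟨∑ y ∈ Y0.attach, (LinearMap.toSpanSingleton (A k X) (extN S (N i0))
      ⟨(y.1 : A k X), hi0 y.1 y.2⟩) ∘ₗ (Finsupp.lapply y.1) ∘ₗ s, ?_⟩
    intro v
    rw [LinearMap.sum_apply]
    rfl
  have hPv : ∀ v : J, s v ∈ Finsupp.supported (A k X) (A k X) (Y0 : Set J) →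
      ((P v : extN S (N i0)) : A k X) = v := by
    intro v hv
    rw [hP, AddSubmonoidClass.coe_finsetSum]
    rw [Finsupp.mem_supported] at hv
    have hv2 : (s v).support ⊆ Y0 := by exact_mod_cast hv
    have h1 := hs' v
    rw [Finsupp.linearCombination_apply, Finsupp.sum_of_support_subset (s v) hv2
      (fun i a => a • id i) (fun i _ => zero_smul _ _)] at h1
    have h2 := congrArg (Subtype.val) h1
    rw [AddSubmonoidClass.coe_finsetSum] at h2
    rw [← h2, ← Finset.sum_attach Y0]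
    rfl
  refine ⟨i0, hji0, fun i hi => le_antisymm ?_ ?_⟩
  · rintro v ⟨hv, hvf⟩
    have hvJ : v ∈ J := hEJ i hv
    have hsv : s ⟨v, hvJ⟩ ∈ Finsupp.supported (A k X) (A k X) (Y0 : Set J) := by
      rw [Finsupp.mem_supported']
      intro y hy
      have h1 := hvf ((Finsupp.lapply y) ∘ₗ s ∘ₗ (Submodule.inclusion (hEJ i))) ?_
      · exact h1
      · intro w hw hwj
        have h2 := hsup w (hEJ i hw) hwj
        rw [Finsupp.mem_supported'] at h2
        exact h2 y hy
    have hv0 : v ∈ extN S (N i0) := by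
      have h1 := hPv _ hsv
      have h2 : v = ((P ⟨v, hvJ⟩ : extN S (N i0)) : A k X) := h1.symm
      rw [h2]
      exact (P ⟨v, hvJ⟩).2
    refine ⟨hv0, fun f hf => ?_⟩
    have h1 := hvf (f ∘ₗ P ∘ₗ (Submodule.inclusion (hEJ i))) ?_
    · have h2 : P ⟨v, hvJ⟩ = ⟨v, hv0⟩ := Subtype.ext (hPv _ hsv)
      have h3 : f (P ⟨v, hvJ⟩) = 0 := h1
      rw [h2] at h3
      exact h3
    · intro w hw hwj
      have hw0 : w ∈ extN S (N i0) := hE _ _ hji0 hwj
      have h2 : P ⟨w, hEJ i hw⟩ = ⟨w, hw0⟩ := Subtype.ext (hPv _ (hsup w _ hwj))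
      show f (P ⟨w, hEJ i hw⟩) = 0
      rw [h2]
      exact hf w hw0 hwj
  · rintro v ⟨hv, hvf⟩
    refine ⟨hE _ _ hi hv, fun f hf => ?_⟩
    exact hvf (f ∘ₗ (Submodule.inclusion (hE _ _ hi))) (fun w hw hwj => hf w _ hwj)

end Pool.Agent.SMF
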