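import Pool.Agent.SMF.Defs

/-!
# SMF-ClD: closures of left ideals of a subalgebra of the free algebra (definitions)
-/

namespace Pool.Agent.SMF

variable {k X : Type*} [Field k]

/-- the left ideal of the free algebra generated by a left ideal of `S` -/
def extN (S : Subalgebra k (A k X)) (N : Submodule S S) : Submodule (A k X) (A k X) :=
  Submodule.span (A k X) ((fun x : S => (x : A k X)) '' (N : Set S))

/-- the closure of `extN N` in `extN N'`: all linear forms on `extN N'` which vanish on `N` vanish there -/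
def clo (S : Subalgebra k (A k X)) (N N' : Submodule S S) : Submodule (A k X) (A k X) where
  carrier := {v | ∃ hv : v ∈ extN S N', ∀ f : extN S N' →ₗ[A k X] A k X,
    (∀ w, ∀ hw : w ∈ extN S N', w ∈ extN S N → f ⟨w, hw⟩ = 0) → f ⟨v, hv⟩ = 0}
  add_mem' := by
    rintro a b ⟨ha, ha'⟩ ⟨hb, hb'⟩
    refine ⟨add_mem ha hb, fun f hf => ?_⟩
    have h : (⟨a + b, add_mem ha hb⟩ : extN S N') = ⟨a, ha⟩ + ⟨b, hb⟩ := rfl
    rw [h, map_add, ha' f hf, hb' f hf, add_zero]
  zero_mem' := ⟨zero_mem _, fun f _ => by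
    have h : (⟨0, zero_mem _⟩ : extN S N') = 0 := rfl
    rw [h, map_zero]⟩
  smul_mem' := by
    rintro c a ⟨ha, ha'⟩
    refine ⟨Submodule.smul_mem _ c ha, fun f hf => ?_⟩
    have h : (⟨c • a, Submodule.smul_mem _ c ha⟩ : extN S N') = c • ⟨a, ha⟩ := rfl
    rw [h, map_smul, ha' f hf, smul_zero]

/-- the elements of `S` in the closure -/
def cloS (S : Subalgebra k (A k X)) (N N' : Submodule S S) : Submodule S S where
  carrier := {v | (v : A k X) ∈ clo S N N'}
  add_mem' := fun {a b} ha hb => by
    show ((a + b : S) : A k X) ∈ clo S N N'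
    rw [Subalgebra.coe_add]
    exact add_mem ha hb
  zero_mem' := by
    show ((0 : S) : A k X) ∈ clo S N N'
    rw [Subalgebra.coe_zero]
    exact zero_mem _
  smul_mem' := fun c a ha => by
    show ((c • a : S) : A k X) ∈ clo S N N'
    have h : ((c • a : S) : A k X) = (c : A k X) • (a : A k X) := rfl
    rw [h]
    exact Submodule.smul_mem _ _ ha

end Pool.Agent.SMF
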