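import Pool.Agent.SMF.Spec

/-!
# SMF-Ord: the partial order on the flags with `k`-structures (imports Spec)

Transitivity: a basis adapted to `s`, `t` and a basis adapted to `t`, `u` can be replaced by one basis
which is adapted to all three flags (`core`).
-/

namespace Pool.Agent.SMF

open Matrix

variable {k X : Type*} [Field k] {n : ℕ}

theorem ad_coarse {s t : T k X n} (h : ∀ j l, t j ≤ t l → s j ≤ s l) {g g' : GLm k X n} (hg : Ad g s)
    (hg' : ∀ j, rw' g' j ∈ Submodule.span k {v | ∃ l, t l = t j ∧ v = rw' g l}) : Ad g' s := by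
  intro j
  refine (Submodule.span_le (p := s j)).2 ?_ (hg' j)
  rintro v ⟨l, hl, rfl⟩
  exact h l j hl.le (hg l)

theorem ad_fine {t t' : T k X n} (h : ∀ j l, t' j ≤ t' l → t j ≤ t l) {g' b : GLm k X n} (hb : Ad b t')
    (hg' : ∀ j, rw' g' j - rw' b j ∈ Submodule.span (A k X) {v | ∃ l, t l < t j ∧ v = rw' b l}) : Ad g' t' := by
  intro j
  have key : ∀ x ∈ Submodule.span (A k X) {v | ∃ l, t l < t j ∧ v = rw' b l},
      ∀ a : A k X, a • x ∈ t' j := by
    intro x hx
    induction hx using Submodule.span_induction with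
    | mem x hx =>
      obtain ⟨l, hl, rfl⟩ := hx
      intro a
      have h1 : ¬ t' j ≤ t' l := fun h2 => absurd (h j l h2) (not_le_of_gt hl)
      have h2 : t' l ≤ t' j := (T_tot t' j l).resolve_left h1
      exact T_low t' (lt_of_le_not_ge h2 h1) (hb l) a
    | zero =>
      intro a
      rw [smul_zero]
      exact Submodule.zero_mem _
    | add x y _ _ h1 h2 =>
      intro a
      rw [smul_add]
      exact Submodule.add_mem _ (h1 a) (h2 a)
    | smul c x _ h1 =>
      intro a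
      rw [smul_smul]
      exact h1 (a * c)
  have h1 := key _ (hg' j) 1
  rw [one_smul] at h1
  have h2 := Submodule.add_mem _ h1 (hb j)
  rwa [sub_add_cancel] at h2

theorem core2 {s t t' : T k X n} (h : ∀ j l, t j ≤ t l → s j ≤ s l) (h' : ∀ j l, t' j ≤ t' l → t j ≤ t l)
    {g b : GLm k X n} (hgs : Ad g s) (hgt : Ad g t) (hbt : Ad b t) (hbt' : Ad b t') :
    ∃ g' : GLm k X n, Ad g' s ∧ Ad g' t ∧ Ad g' t' ∧
      ∀ j, rw' g' j ∈ Submodule.span k {v | ∃ l, t l = t j ∧ v = rw' g l} := by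
  obtain ⟨g', h1, h2⟩ := core t hgt hbt
  exact ⟨g', ad_coarse h hgs h1, ad_coarse (fun _ _ h => h) hgt h1, ad_fine h' hbt' h2, h1⟩

theorem Le_refl (t : T k X n) : Le t t := by
  obtain ⟨β, -, -, -, g, hg⟩ := T_spec t
  exact ⟨fun _ _ h => h, g, hg, hg⟩

theorem Le_trans {s t u : T k X n} (h : Le s t) (h' : Le t u) : Le s u := by
  obtain ⟨h1, g, hgs, hgt⟩ := h
  obtain ⟨h2, b, hbt, hbu⟩ := h'
  obtain ⟨g', h3, -, h4, -⟩ := core2 h1 h2 hgs hgt hbt hbu
  exact ⟨fun j l h => h1 j l (h2 j l h), g', h3, h4⟩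

theorem Le_antisymm {s t : T k X n} (h : Le s t) (h' : Le t s) : s = t := by
  obtain ⟨h1, g, hgs, hgt⟩ := h
  exact T_ext (fun j l => ⟨h'.1 j l, h1 j l⟩) hgs hgt

instance : PartialOrder (T k X n) where
  le := Le
  le_refl := Le_refl
  le_trans _ _ _ := Le_trans
  le_antisymm _ _ := Le_antisymm

theorem le_def (s t : T k X n) : s ≤ t ↔ Le s t := Iff.rfl

end Pool.Agent.SMF
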