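import Pool.Agent.SMF.LatW
import Pool.Agent.SMF.Ord

/-!
# SMF-CompM: compatibility passes to finer flags (imports LatW, Ord)

A basis adapted to the coarse flag is corrected by constants within the blocks.
-/

namespace Pool.Agent.SMF

variable {k X : Type*} [Field k] {n : ℕ}

theorem comp_mono {Λ : Lat k X n} {s t : T k X n} (h : Comp Λ s) (hst : s ≤ t) : Comp Λ t := by
  obtain ⟨g, D, hg, hD, hm, hΛ⟩ := h
  obtain ⟨hsh, b, hbs, hbt⟩ := (le_def s t).1 hst
  obtain ⟨g', _, _, hg't, hspan⟩ := core2 (s := s) (t := s) (t' := t) (fun _ _ h => h) hsh hg hg hbs hbt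
  refine ⟨g', D, hg't, fun j l hjl => hD j l (hsh j l hjl), hm, ?_⟩
  have hk : filW 1 g' D = filW 1 g D := by
    apply filW_kk
    intro j
    refine Submodule.span_mono ?_ (hspan j)
    rintro v ⟨l, hl, rfl⟩
    exact ⟨l, le_antisymm (hD l j hl.le) (hD j l hl.ge), rfl⟩
  rw [hΛ]
  apply Lat.ext
  exact hk.symm

end Pool.Agent.SMF
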