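import Pool.Agent.SMF.H0

/-!
# SMF-Cone: strict chains below an element are acyclic (imports H0)
-/

namespace Pool.Agent.SMF

open Finsupp

variable {K : Type*} [Field K] {T : Type*} [PartialOrder T]

open Classical in
/-- the contraction -/
private noncomputable def hom (K : Type*) [Field K] {T : Type*} (s : T) : Ch K T →ₗ[K] Ch K T :=
  Finsupp.linearCombination K
    (fun l : List T => if s ∈ l then 0 else ((-1 : K) ^ l.length) • single (l ++ [s]) (1 : K))

omit [PartialOrder T] in
open Classical in
private theorem hom_single (s : T) (l : List T) (a : K) :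
    hom K s (single l a) =
      a • (if s ∈ l then 0 else ((-1 : K) ^ l.length) • single (l ++ [s]) (1 : K)) := by
  unfold hom
  rw [Finsupp.linearCombination_single]

private theorem hom_cns (s v : T) (hv : s ≠ v) (c : Ch K T) :
    hom K s (cns v c) = -cns v (hom K s c) := by
  induction c using Finsupp.induction_linear with
  | zero => simp
  | add f g hf hg => rw [map_add, map_add, hf, hg, map_add, map_add, neg_add]
  | single l a =>
    rw [cns_single, hom_single, hom_single, map_smul, ← smul_neg]
    congr 1
    by_cases h : s ∈ l
    · rw [if_pos h, if_pos (List.mem_cons_of_mem v h), map_zero, neg_zero]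
    · have h' : s ∉ v :: l := by
        rw [List.mem_cons]
        rintro (h1 | h1)
        · exact hv h1
        · exact h h1
      rw [if_neg h, if_neg h', map_smul, cns_single, List.length_cons, pow_succ, List.cons_append,
        mul_neg_one, neg_smul]

private theorem hom_key (s : T) (l : List T) (hl : l.Pairwise (· < ·)) (hs : ∀ u ∈ l, u ≤ s) :
    bd (hom K s (single l 1)) + hom K s (bd (single l 1)) = single l 1 := by
  induction l with
  | nil =>
    rw [bd_nil, map_zero, add_zero, hom_single, if_neg List.not_mem_nil, one_smul,
      List.length_nil, pow_zero, one_smul, List.nil_append, ← cns_single, bd_cns, bd_nil, map_zero,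
      sub_zero]
  | cons v l ih =>
    rw [List.pairwise_cons] at hl
    have ih' := ih hl.2 fun u hu => hs u (List.mem_cons_of_mem v hu)
    by_cases hv : s = v
    · have hl0 : l = [] := by
        rcases l with _ | ⟨u, l⟩
        · rfl
        · exfalso
          have h1 := hl.1 u List.mem_cons_self
          have h2 := hs u (List.mem_cons_of_mem v List.mem_cons_self)
          rw [hv] at h2
          exact absurd (lt_of_lt_of_le h1 h2) (lt_irrefl _)
      subst hl0
      subst hv
      rw [hom_single, if_pos List.mem_cons_self, smul_zero, map_zero, zero_add, ← cns_single,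
        bd_cns, bd_nil, map_zero, sub_zero, hom_single, if_neg List.not_mem_nil, one_smul,
        List.length_nil, pow_zero, one_smul, List.nil_append, cns_single]
    · rw [← cns_single, hom_cns s v hv, map_neg, bd_cns, bd_cns, map_sub, hom_cns s v hv]
      have h1 : -(hom K s (single l 1) - cns v (bd (hom K s (single l 1)))) +
          (hom K s (single l 1) - -cns v (hom K s (bd (single l 1)))) =
          cns v (bd (hom K s (single l 1)) + hom K s (bd (single l 1))) := by
        rw [map_add]
        abel
      rw [h1, ih']

theorem cone_acyc (s : T) : Acyc K (fun l : List T => l.Pairwise (· < ·) ∧ ∀ u ∈ l, u ≤ s) := by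
  intro m z hz hbd
  refine ⟨hom K s z, ?_, ?_⟩
  · have h1 : z ∈ (SP K (fun l : List T => l.Pairwise (· < ·) ∧ ∀ u ∈ l, u ≤ s) (m + 1)).comap
        (hom K s) := by
      refine SP_induction ?_ hz
      rintro l ⟨h1, h2⟩ h3
      rw [Submodule.mem_comap, hom_single]
      by_cases h : s ∈ l
      · rw [if_pos h, smul_zero]
        exact Submodule.zero_mem _
      · rw [if_neg h]
        refine Submodule.smul_mem _ _ (Submodule.smul_mem _ _ ?_)
        have h4 : (l ++ [s]).length = m + 1 := by
          rw [List.length_append, List.length_singleton, h3]
        rw [← h4]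
        refine single_mem_SP ⟨?_, ?_⟩ _
        · rw [List.pairwise_append]
          refine ⟨h1, List.pairwise_singleton _ _, ?_⟩
          intro a ha b hb
          rw [List.mem_singleton] at hb
          rw [hb]
          exact lt_of_le_of_ne (h2 a ha) fun h5 => h (h5 ▸ ha)
        · intro u hu
          rw [List.mem_append, List.mem_singleton] at hu
          rcases hu with hu | hu
          · exact h2 u hu
          · exact le_of_eq hu
    exact h1
  · have h1 : z ∈ LinearMap.eqLocus (bd ∘ₗ hom K s + hom K s ∘ₗ bd) (LinearMap.id : Ch K T →ₗ[K] Ch K T) := by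
      refine SP_induction ?_ hz
      rintro l ⟨h1, h2⟩ h3
      rw [LinearMap.mem_eqLocus]
      exact hom_key s l h1 h2
    rw [LinearMap.mem_eqLocus, LinearMap.add_apply, LinearMap.comp_apply, LinearMap.comp_apply, hbd,
      map_zero, add_zero] at h1
    exact h1

end Pool.Agent.SMF
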