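import Pool.Agent.SMF.Bm

/-!
# SMF-Cop: the coprime case (imports Bm, GoodU, Spec, Ord)

The matrices of the constants of a group of order prime to the characteristic are not unipotent.
-/

namespace Pool.Agent.SMF

open Matrix

variable {k X : Type*} [Field k] {n : ℕ} {G : Type*} [Group G] {φ : G →* (A k X ≃ₐ[k] A k X)}

theorem unip {M : Matrix (Fin n) (Fin n) k} (hN : IsNilpotent (M - 1)) {q : ℕ} (hq : (q : k) ≠ 0) (h : M ^ q = 1) :
    M = 1 := by
  have key : ∀ i : ℕ, ∃ R : Matrix (Fin n) (Fin n) k, Commute R M ∧ M ^ i = 1 + (M - 1) * R := by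
    intro i
    refine ⟨∑ j ∈ Finset.range i, M ^ j, ?_, ?_⟩
    · exact Commute.sum_left _ _ _ fun j _ => (Commute.refl M).pow_left j
    · rw [mul_geom_sum]
      abel
  have key2 : ∀ q : ℕ, ∃ R : Matrix (Fin n) (Fin n) k, Commute R M ∧
      ∑ i ∈ Finset.range q, M ^ i = (q : Matrix (Fin n) (Fin n) k) + (M - 1) * R := by
    intro q
    induction q with
    | zero =>
      refine ⟨0, Commute.zero_left _, ?_⟩
      rw [Finset.sum_range_zero, Nat.cast_zero, mul_zero, add_zero]
    | succ q ih =>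
      obtain ⟨R, hR, h1⟩ := ih
      obtain ⟨S, hS, h2⟩ := key q
      refine ⟨R + S, hR.add_left hS, ?_⟩
      rw [Finset.sum_range_succ, h1, h2, mul_add, Nat.cast_add, Nat.cast_one]
      abel
  obtain ⟨R, hR, h1⟩ := key2 q
  have hc : Commute (M - 1) R := (hR.symm.sub_left (Commute.one_left R))
  have hnil : IsNilpotent ((M - 1) * R) := hc.isNilpotent_mul_right hN
  have hu : IsUnit (q : Matrix (Fin n) (Fin n) k) := by
    have h2 : (q : Matrix (Fin n) (Fin n) k) = algebraMap k (Matrix (Fin n) (Fin n) k) (q : k) := by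
      rw [map_natCast]
    rw [h2]
    exact (isUnit_iff_ne_zero.2 hq).map (algebraMap k (Matrix (Fin n) (Fin n) k))
  have hU : IsUnit (∑ i ∈ Finset.range q, M ^ i) := by
    rw [h1]
    exact hnil.isUnit_add_left_of_commute hu (Nat.cast_commute q _).symm
  have h3 := geom_sum_mul M q
  rw [h, sub_self] at h3
  exact sub_eq_zero.1 (hU.mul_right_eq_zero.1 h3)

/-- a matrix which lowers the rank is nilpotent -/
private theorem nil_of_lt {β : Fin n → ℤ} {N : Matrix (Fin n) (Fin n) k} (h0 : ∀ j l, N j l ≠ 0 → β l < β j) :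
    N ^ (n + 1) = 0 := by
  classical
  have hr : ∀ j l, β l < β j → (Finset.univ.filter fun i => β i < β l).card <
      (Finset.univ.filter fun i => β i < β j).card := by
    intro j l h
    refine Finset.card_lt_card ⟨fun i hi => ?_, fun h1 => ?_⟩
    · rw [Finset.mem_filter] at hi ⊢
      exact ⟨hi.1, hi.2.trans h⟩
    · have h2 := h1 (Finset.mem_filter.2 ⟨Finset.mem_univ l, h⟩)
      exact lt_irrefl _ (Finset.mem_filter.1 h2).2
  have key : ∀ (m : ℕ) (j l : Fin n), (N ^ m) j l ≠ 0 →
      m ≤ (Finset.univ.filter fun i => β i < β j).card := by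
    intro m
    induction m with
    | zero => exact fun _ _ _ => Nat.zero_le _
    | succ m ih =>
      intro j l h
      rw [pow_succ', Matrix.mul_apply] at h
      obtain ⟨i, _, hi⟩ := Finset.exists_ne_zero_of_sum_ne_zero h
      have h1 := h0 j i (left_ne_zero_of_mul hi)
      have h2 := ih i l (right_ne_zero_of_mul hi)
      have h3 := hr j i h1
      omega
  ext j l
  rw [Matrix.zero_apply]
  by_contra h
  have h1 := key _ j l h
  have h2 : (Finset.univ.filter fun i => β i < β j).card ≤ n :=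
    (Finset.card_filter_le _ _).trans (by rw [Finset.card_univ, Fintype.card_fin])
  omega

private theorem bm_pow {ρ : SAct φ n} {s : T k X n} (hs : ρ.Fx s) {b : GLm k X n} (hb : Ad b s) (g : G) (i : ℕ) :
    bm ρ s b (g ^ i) = bm ρ s b g ^ i := by
  induction i with
  | zero => rw [pow_zero, pow_zero, bm_one]
  | succ i ih => rw [pow_succ, bm_mul hs hb, ih, pow_succ']

theorem triv_cop [Finite G] (hG : (Nat.card G : k) ≠ 0) {ρ : SAct φ n} {s t : T k X n} (hs : ρ.Fx s)
    (ht : ρ.Fx t) (hst : s ≤ t) (hgood : Good ρ t) : Triv ρ s := by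
  obtain ⟨h1, b, hbs, hbt⟩ := (le_def s t).1 hst
  refine bm_triv hs hbs fun g => ?_
  obtain ⟨β, -, hβ, -⟩ := T_spec t
  have hT := triv_bm ht hbt (good_triv hgood) g
  have hinj : Function.Injective (algebraMap k (A k X)) := fun x y h => by
    rw [← ep_alg (X := X) x, ← ep_alg (X := X) y, h]
  have h0 : ∀ j l, (bm ρ s b g - 1) j l ≠ 0 → β l < β j := by
    intro j l h
    by_contra h2
    apply h
    have h3 : t j ≤ t l := (hβ j l).2 (not_lt.1 h2)
    rw [Matrix.sub_apply]
    by_cases h4 : s l = s j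
    · have h5 := bm_const hs hbs h4 g
      rcases h3.lt_or_eq with h6 | h6
      · rw [bm_up ht hbt h6 g] at h5
        rw [Matrix.one_apply_ne (fun h7 => h6.ne (by rw [h7])), sub_zero]
        exact hinj (h5.symm.trans (map_zero _).symm)
      · rw [bm_const ht hbt h6.symm g, hT] at h5
        rw [hinj h5, sub_self]
    · rw [bm_zero h4, Matrix.one_apply_ne (fun h7 => h4 (by rw [h7])), sub_zero]
  refine unip ⟨n + 1, nil_of_lt h0⟩ hG ?_
  rw [← bm_pow hs hbs, pow_card_eq_one', bm_one]

end Pool.Agent.SMF
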