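import Mathlib

/-!
# SMF-FixV: `p`-groups in characteristic `p` have fixed vectors (Mathlib only)

The span over the prime field of an orbit is a finite set whose cardinality is divisible by `p`.
-/

namespace Pool.Agent.SMF

variable {p : ℕ} [Fact p.Prime] {G : Type*} [Group G] [Finite G] {k : Type*} [Field k] [CharP k p]
  {E : Type*} [AddCommGroup E] [Module k E]

private theorem exists_fixed_aux {F : Type*} [AddCommGroup F] [Module (ZMod p) F] (hG : IsPGroup p G)
    (ρ : G → F →+ F) (h1 : ∀ x, ρ 1 x = x) (hmul : ∀ g h x, ρ (g * h) x = ρ g (ρ h x)) {v : F} (hv : v ≠ 0) :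
    ∃ w : F, w ≠ 0 ∧ ∀ g, ρ g w = w := by
  obtain ⟨W, hW⟩ : ∃ W : Submodule (ZMod p) F, W = Submodule.span (ZMod p) (Set.range fun g => ρ g v) :=
    ⟨_, rfl⟩
  have hvW : v ∈ W := by
    rw [hW]
    apply Submodule.subset_span
    exact ⟨1, h1 v⟩
  have hfd : FiniteDimensional (ZMod p) W := by
    rw [hW]
    exact FiniteDimensional.span_of_finite (ZMod p) (Set.finite_range _)
  have hfin : Finite W := Module.finite_of_finite (ZMod p)
  have hmem : ∀ g, ∀ w ∈ W, ρ g w ∈ W := by
    intro g w hw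
    rw [hW] at hw ⊢
    induction hw using Submodule.span_induction with
    | mem x hx =>
      obtain ⟨h, rfl⟩ := hx
      apply Submodule.subset_span
      exact ⟨g * h, hmul g h v⟩
    | zero => rw [map_zero]; exact Submodule.zero_mem _
    | add x y _ _ hx hy => rw [map_add]; exact Submodule.add_mem _ hx hy
    | smul c x _ hx =>
      rw [ZMod.map_smul (ρ g) c x]
      exact Submodule.smul_mem _ c hx
  let act : MulAction G W :=
    { smul := fun g w => ⟨ρ g w.1, hmem g w.1 w.2⟩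
      one_smul := fun w => Subtype.ext (h1 w.1)
      mul_smul := fun g h w => Subtype.ext (hmul g h w.1) }
  have hcard : p ∣ Nat.card W := by
    have h1 : Nat.card W = p ^ Module.finrank (ZMod p) W := by
      have h2 := Module.natCard_eq_pow_finrank (K := ZMod p) (V := W)
      rwa [Nat.card_zmod] at h2
    have h3 : Nontrivial W := ⟨⟨⟨v, hvW⟩, 0, fun h => hv (congrArg Subtype.val h)⟩⟩
    have h4 : 0 < Module.finrank (ZMod p) W := Module.finrank_pos
    rw [h1]
    exact dvd_pow_self p h4.ne'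
  have h0 : (0 : W) ∈ MulAction.fixedPoints G W := by
    intro g
    apply Subtype.ext
    show ρ g 0 = 0
    exact map_zero _
  obtain ⟨w, hw1, hw2⟩ := hG.exists_fixed_point_of_prime_dvd_card_of_fixed_point W hcard h0
  refine ⟨w.1, fun h => hw2 (Subtype.ext h.symm), fun g => ?_⟩
  have h5 := hw1 g
  exact congrArg Subtype.val h5

theorem exists_fixed (hG : IsPGroup p G) (ρ : G →* Module.End k E) [Nontrivial E] :
    ∃ v : E, v ≠ 0 ∧ ∀ g, ρ g v = v := by
  have hp : ∀ x : E, p • x = 0 := by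
    intro x
    have h1 : ((p : k)) • x = 0 := by rw [CharP.cast_eq_zero k p, zero_smul]
    rwa [Nat.cast_smul_eq_nsmul] at h1
  obtain ⟨v, hv⟩ := exists_ne (0 : E)
  exact @exists_fixed_aux p _ G _ _ E _ (AddCommGroup.zmodModule hp) hG (fun g => (ρ g).toAddMonoidHom)
    (fun x => by show ρ 1 x = x; simp) (fun g h x => by show ρ (g * h) x = ρ g (ρ h x); simp) v hv

theorem exists_step (hG : IsPGroup p G) (ρ : G →* Module.End k E) [FiniteDimensional k E] {U W : Submodule k E}
    (hU : ∀ g, ∀ v ∈ U, ρ g v ∈ U) (hW : ∀ g, ∀ v ∈ W, ρ g v ∈ W) (hUW : U < W) :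
    ∃ U' : Submodule k E, U < U' ∧ U' ≤ W ∧ Module.finrank k U' = Module.finrank k U + 1 ∧
      (∀ g, ∀ v ∈ U', ρ g v ∈ U') ∧ ∀ g, ∀ v ∈ U', ρ g v - v ∈ U := by
  obtain ⟨Q, hQ⟩ : ∃ Q : Submodule k W, Q = U.comap W.subtype := ⟨_, rfl⟩
  have hQm : ∀ x : W, x ∈ Q ↔ x.1 ∈ U := by
    intro x
    rw [hQ]
    exact Iff.rfl
  have hQg : ∀ g, Q ≤ Q.comap ((ρ g).restrict (hW g)) := by
    intro g x hx
    rw [Submodule.mem_comap, hQm]
    exact hU g x.1 ((hQm x).1 hx)
  obtain ⟨σ, hσ⟩ : ∃ σ : G →* Module.End k (W ⧸ Q), ∀ g (x : W),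
      σ g (Q.mkQ x) = Q.mkQ ((ρ g).restrict (hW g) x) := by
    refine ⟨{ toFun := fun g => Q.mapQ Q ((ρ g).restrict (hW g)) (hQg g)
              map_one' := ?_
              map_mul' := ?_ }, fun g x => rfl⟩
    · apply Submodule.linearMap_qext
      ext x
      show Q.mkQ ((ρ 1).restrict (hW 1) x) = Q.mkQ x
      congr 1
      apply Subtype.ext
      show ρ 1 x.1 = x.1
      simp
    · intro g h
      apply Submodule.linearMap_qext
      ext x
      show Q.mkQ ((ρ (g * h)).restrict (hW (g * h)) x) =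
        Q.mkQ ((ρ g).restrict (hW g) ((ρ h).restrict (hW h) x))
      congr 1
      apply Subtype.ext
      show ρ (g * h) x.1 = ρ g (ρ h x.1)
      simp
  have hnt : Nontrivial (W ⧸ Q) := by
    obtain ⟨v, hv1, hv2⟩ := SetLike.exists_of_lt hUW
    refine ⟨⟨Q.mkQ ⟨v, hv1⟩, 0, fun h => hv2 ?_⟩⟩
    rw [Submodule.mkQ_apply, Submodule.Quotient.mk_eq_zero, hQm] at h
    exact h
  obtain ⟨q, hq1, hq2⟩ := exists_fixed hG σ
  obtain ⟨⟨w, hwW⟩, rfl⟩ := Submodule.mkQ_surjective Q q
  have hwU : w ∉ U := by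
    intro h
    apply hq1
    rw [Submodule.mkQ_apply, Submodule.Quotient.mk_eq_zero, hQm]
    exact h
  have hwg : ∀ g, ρ g w - w ∈ U := by
    intro g
    have h1 := hq2 g
    rw [hσ, Submodule.mkQ_apply, Submodule.mkQ_apply, Submodule.Quotient.eq, hQm] at h1
    exact h1
  have hmem : ∀ v ∈ U ⊔ Submodule.span k {w}, ∃ u ∈ U, ∃ c : k, v = u + c • w := by
    intro v hv
    obtain ⟨u, hu, x, hx, rfl⟩ := Submodule.mem_sup.1 hv
    obtain ⟨c, rfl⟩ := Submodule.mem_span_singleton.1 hx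
    exact ⟨u, hu, c, rfl⟩
  have hsub : ∀ g, ∀ v ∈ U ⊔ Submodule.span k {w}, ρ g v - v ∈ U := by
    intro g v hv
    obtain ⟨u, hu, c, rfl⟩ := hmem v hv
    have h1 : ρ g (u + c • w) - (u + c • w) = (ρ g u - u) + c • (ρ g w - w) := by
      rw [map_add, map_smul, smul_sub]
      abel
    rw [h1]
    exact U.add_mem (U.sub_mem (hU g u hu) hu) (U.smul_mem c (hwg g))
  have hlt : U < U ⊔ Submodule.span k {w} := by
    refine lt_of_le_of_ne le_sup_left fun h => hwU ?_
    rw [h]
    exact Submodule.mem_sup_right (Submodule.mem_span_singleton_self w)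
  refine ⟨U ⊔ Submodule.span k {w}, hlt, ?_, ?_, ?_, hsub⟩
  · exact sup_le hUW.le ((Submodule.span_singleton_le_iff_mem w W).2 hwW)
  · have h1 := Submodule.finrank_lt_finrank_of_lt hlt
    have h2 := Submodule.finrank_add_le_finrank_add_finrank U (Submodule.span k {w})
    have h3 : w ≠ 0 := fun h => hwU (by rw [h]; exact U.zero_mem)
    rw [finrank_span_singleton h3] at h2
    omega
  · intro g v hv
    have h1 : ρ g v = (ρ g v - v) + v := by abel
    rw [h1]
    exact Submodule.add_mem _ (Submodule.mem_sup_left (hsub g v hv)) hv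

end Pool.Agent.SMF
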