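import Pool.Agent.SMF.FlB
import Pool.Agent.SMF.Bm

/-!
# SMF-FlC: fixed flags and trivial action (imports FlA, Bm, GoodU, ActG, Spec)

PLAN.  (1) For `v ∈ F i` with `F i ≤ F (hi β j)`: `v l = 0` unless `β l ≤ β j`, i.e. `t l ≤ t j`.  `ρ.r g (embk b v) = ∑ l, v l • ρ.r g (rw' b l)` and `ρ.r g (rw' b l) = ∑ i, co b (ρ.r g (rw' b l)) i • rw' b i`, where the coordinate is `0` for `t l < t i` (`bm_up`), the constant
`bm ρ t b g l i` for `t i = t l` (`bm_const`; `bm_zero` for the other `i`).  So `ρ.r g (embk b v) = embk b (v ᵥ* bm ρ t b g) + e`, `e` an `A`-combination of the `rw' b i` with `t i < t j`, and for `β i < β j`: `Pi.single i 1 ∈ csub {l | β l < β j} = F (lo β j) ≤ F (lo γ j)` (`lo β j ≤ lo γ j`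
since `β l < β j → γ l < γ j`), so `rw' b i = embk b (Pi.single i 1)` and `e ∈ span_A (embk b '' F (lo γ j))`.  Note `lo γ j ≤ hi γ j ≤ hi β j` (`γ l ≤ γ j → β l ≤ β j`) and `F` is monotone.
`flag_fx`: `fx_iff`; an element of `flagU b γ F j` is a sum of `a • embk b v`, `v ∈ F (lo γ j)`, and `embk b v`, `v ∈ F (hi γ j)`; `semi`, (1) for `i = lo γ j` and `i = hi γ j`, stability of `F` (`Submodule.span_induction`, `Submodule.mem_sup`).
`flag_triv`: `embk b '' F (lo γ j) ⊆ low`: if `lo γ j = 0` then `F 0 = ⊥`; otherwise for the index `l` with `(l : ℕ) = lo γ j - 1`: `γ l < γ j` (`lo_iff`), `hi γ l = lo γ j`, so `embk b '' F (lo γ j)` is contained in `flagT l < flagT j` (shape: as in FlB, `flagT` is `Um h γ`, `um_le`; you may import FlB for `flag_shape`).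
Then `ρ.r g m - m ∈ low`: for `m = a • embk b v` both terms are; for `m = embk b v`, `v ∈ F (hi γ j)`, by (1) and `htr`.
-/

namespace Pool.Agent.SMF

open Matrix Module

variable {k X : Type*} [Field k] {n : ℕ} {G : Type*} [Group G] {φ : G →* (A k X ≃ₐ[k] A k X)}

private theorem embk_apply (b : GLm k X n) (v : Fin n → k) : embk b v = ∑ l, v l • rw' b l := rfl

private theorem embk_single (b : GLm k X n) (i : Fin n) : embk b (Pi.single i 1) = rw' b i := by
  rw [embk_apply, Finset.sum_eq_single i]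
  · rw [Pi.single_eq_same, one_smul]
  · intro l _ hl
    rw [Pi.single_eq_of_ne hl, zero_smul]
  · intro h
    exact absurd (Finset.mem_univ i) h

private theorem lt_iff' {t : T k X n} {β : Fin n → ℤ} (hβ : ∀ j l, t j ≤ t l ↔ β j ≤ β l) (j l : Fin n) :
    t j < t l ↔ β j < β l := by
  rw [lt_iff_le_not_ge, lt_iff_le_not_ge, hβ, hβ]

private theorem smulk_eq (c : k) (m : V k X n) : c • m = algebraMap k (A k X) c • m := by
  funext i
  show c • m i = algebraMap k (A k X) c * m i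
  rw [Algebra.smul_def]

private theorem lt_trichotomy' (t : T k X n) (i l : Fin n) : t i < t l ∨ t i = t l ∨ t l < t i := by
  rcases T_tot t i l with h | h
  · rcases eq_or_lt_of_le h with h1 | h1
    · exact Or.inr (Or.inl h1)
    · exact Or.inl h1
  · rcases eq_or_lt_of_le h with h1 | h1
    · exact Or.inr (Or.inl h1.symm)
    · exact Or.inr (Or.inr h1)

/-- the error for a row -/
private theorem row_err {ρ : SAct φ n} {t : T k X n} (ht : ρ.Fx t) {b : GLm k X n} (hb : Ad b t) (g : G)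
    (l : Fin n) : ρ.r g (rw' b l) - ∑ i, bm ρ t b g l i • rw' b i ∈
      Submodule.span (A k X) {v | ∃ i, t i < t l ∧ v = rw' b i} := by
  have h1 : ρ.r g (rw' b l) - ∑ i, bm ρ t b g l i • rw' b i =
      ∑ i, (co b (ρ.r g (rw' b l)) i - algebraMap k (A k X) (bm ρ t b g l i)) • rw' b i := by
    conv_lhs => rw [eq_sum b (ρ.r g (rw' b l))]
    rw [← Finset.sum_sub_distrib]
    refine Finset.sum_congr rfl fun i _ => ?_
    rw [sub_smul, smulk_eq]
  rw [h1]
  refine Submodule.sum_mem _ fun i _ => ?_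
  rcases lt_trichotomy' t i l with h | h | h
  · exact Submodule.smul_mem _ _ (Submodule.subset_span ⟨i, h, rfl⟩)
  · rw [bm_const ht hb h g, sub_self, zero_smul]
    exact Submodule.zero_mem _
  · rw [bm_up ht hb h g, bm_zero h.ne', map_zero, sub_zero, zero_smul]
    exact Submodule.zero_mem _

/-- the error for a combination of rows -/
private theorem comb_err {ρ : SAct φ n} {t : T k X n} (ht : ρ.Fx t) {b : GLm k X n} (hb : Ad b t) (g : G)
    {j : Fin n} {v : Fin n → k} (hv : ∀ l, v l ≠ 0 → t l ≤ t j) :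
    ρ.r g (embk b v) - embk b (v ᵥ* bm ρ t b g) ∈
      Submodule.span (A k X) {v | ∃ i, t i < t j ∧ v = rw' b i} := by
  have h1 : embk b (v ᵥ* bm ρ t b g) = ∑ l, v l • ∑ i, bm ρ t b g l i • rw' b i := by
    rw [embk_apply]
    simp only [Matrix.vecMul, dotProduct, Finset.sum_smul, Finset.smul_sum]
    rw [Finset.sum_comm]
    refine Finset.sum_congr rfl fun l _ => Finset.sum_congr rfl fun i _ => ?_
    rw [smul_smul]
  have h2 : ρ.r g (embk b v) = ∑ l, v l • ρ.r g (rw' b l) := by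
    rw [embk_apply, map_sum]
    exact Finset.sum_congr rfl fun l _ => map_smul _ _ _
  rw [h1, h2, ← Finset.sum_sub_distrib]
  refine Submodule.sum_mem _ fun l _ => ?_
  rw [← smul_sub]
  by_cases hl : v l = 0
  · rw [hl, zero_smul]
    exact Submodule.zero_mem _
  · rw [smulk_eq]
    refine Submodule.smul_mem _ _ ?_
    refine Submodule.span_mono ?_ (row_err ht hb g l)
    rintro w ⟨i, hi, rfl⟩
    exact ⟨i, lt_of_lt_of_le hi (hv l hl), rfl⟩

section

variable {ρ : SAct φ n} {t : T k X n} {b : GLm k X n} {β γ : Fin n → ℤ} {F : ℕ → Submodule k (Fin n → k)}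

private theorem F_mono (hF : FlP F) : Monotone F := monotone_nat_of_le_succ hF.1

private theorem lo_le (hγβ : ∀ j l, γ j ≤ γ l → β j ≤ β l) (j : Fin n) : lo β j ≤ lo γ j := by
  refine Finset.card_le_card fun l hl => ?_
  rw [Finset.mem_filter] at hl ⊢
  refine ⟨hl.1, ?_⟩
  by_contra h
  have h1 := hγβ j l (not_lt.1 h)
  exact absurd hl.2 (not_lt.2 h1)

private theorem hi_le (hγβ : ∀ j l, γ j ≤ γ l → β j ≤ β l) (j : Fin n) : hi γ j ≤ hi β j := by
  refine Finset.card_le_card fun l hl => ?_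
  rw [Finset.mem_filter] at hl ⊢
  exact ⟨hl.1, hγβ l j hl.2⟩

private theorem lo_le_hi (j : Fin n) : lo γ j ≤ hi γ j := by
  refine Finset.card_le_card fun l hl => ?_
  rw [Finset.mem_filter] at hl ⊢
  exact ⟨hl.1, hl.2.le⟩

/-- the rows below are in the span -/
private theorem below (hβ : ∀ j l, t j ≤ t l ↔ β j ≤ β l) (hF : FlP F) (hR : Rf β F)
    (hγβ : ∀ j l, γ j ≤ γ l → β j ≤ β l) (j : Fin n) :
    Submodule.span (A k X) {v | ∃ i, t i < t j ∧ v = rw' b i} ≤
      Submodule.span (A k X) (embk b '' (F (lo γ j) : Set (Fin n → k))) := by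
  rw [Submodule.span_le]
  rintro w ⟨i, hi, rfl⟩
  refine Submodule.subset_span ⟨Pi.single i 1, ?_, embk_single b i⟩
  have h1 : (Pi.single i 1 : Fin n → k) ∈ F (lo β j) := by
    rw [(hR j).1]
    intro l hl
    refine Pi.single_eq_of_ne ?_ _
    rintro rfl
    exact hl ((lt_iff' hβ _ _).1 hi)
  exact F_mono hF (lo_le hγβ j) h1

private theorem supp (hβ : ∀ j l, t j ≤ t l ↔ β j ≤ β l) (hF : FlP F) (hR : Rf β F)
    (hγβ : ∀ j l, γ j ≤ γ l → β j ≤ β l) {j : Fin n} {v : Fin n → k} (hv : v ∈ F (hi γ j)) (l : Fin n)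
    (hl : v l ≠ 0) : t l ≤ t j := by
  have h1 := F_mono hF (hi_le hγβ j) hv
  rw [(hR j).2] at h1
  rw [hβ]
  by_contra h2
  exact hl (h1 l h2)

private theorem err (ht : ρ.Fx t) (hb : Ad b t) (hβ : ∀ j l, t j ≤ t l ↔ β j ≤ β l) (hF : FlP F)
    (hR : Rf β F) (hγβ : ∀ j l, γ j ≤ γ l → β j ≤ β l) (g : G) {j : Fin n} {v : Fin n → k}
    (hv : v ∈ F (hi γ j)) : ρ.r g (embk b v) - embk b (v ᵥ* bm ρ t b g) ∈
      Submodule.span (A k X) (embk b '' (F (lo γ j) : Set (Fin n → k))) :=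
  below hβ hF hR hγβ j (comb_err ht hb g (supp hβ hF hR hγβ hv))

private theorem stab (ht : ρ.Fx t) (hb : Ad b t) (hβ : ∀ j l, t j ≤ t l ↔ β j ≤ β l) (hF : FlP F)
    (hR : Rf β F) (hst : ∀ g i, ∀ v ∈ F i, v ᵥ* bm ρ t b g ∈ F i) (hγβ : ∀ j l, γ j ≤ γ l → β j ≤ β l)
    (g : G) {j : Fin n} {m : V k X n}
    (hm : m ∈ Submodule.span (A k X) (embk b '' (F (lo γ j) : Set (Fin n → k)))) :
    ρ.r g m ∈ Submodule.span (A k X) (embk b '' (F (lo γ j) : Set (Fin n → k))) := by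
  induction hm using Submodule.span_induction with
  | mem x hx =>
    obtain ⟨v, hv, rfl⟩ := hx
    have h1 := err ht hb hβ hF hR hγβ g (F_mono hF (lo_le_hi j) hv)
    have h2 : embk b (v ᵥ* bm ρ t b g) ∈
        Submodule.span (A k X) (embk b '' (F (lo γ j) : Set (Fin n → k))) :=
      Submodule.subset_span ⟨_, hst g _ v hv, rfl⟩
    have h3 := Submodule.add_mem _ h1 h2
    rwa [sub_add_cancel] at h3
  | zero => rw [map_zero]; exact Submodule.zero_mem _
  | add x y _ _ hx hy => rw [map_add]; exact Submodule.add_mem _ hx hy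
  | smul a x _ hx => rw [ρ.semi]; exact Submodule.smul_mem _ _ hx

private theorem mem_flagU {j : Fin n} {m : V k X n} : m ∈ flagU b γ F j ↔
    ∃ x ∈ Submodule.span (A k X) (embk b '' (F (lo γ j) : Set (Fin n → k))), ∃ v ∈ F (hi γ j),
      m = x + embk b v := by
  unfold flagU
  rw [Submodule.mem_sup]
  constructor
  · rintro ⟨x, hx, y, ⟨v, hv, rfl⟩, rfl⟩
    exact ⟨x, hx, v, hv, rfl⟩
  · rintro ⟨x, hx, v, hv, rfl⟩
    exact ⟨x, hx, _, ⟨v, hv, rfl⟩, rfl⟩

/-- the span is contained in the lower part -/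
private theorem span_low (hγ : Monotone γ) (hF : FlP F) (j : Fin n) :
    Submodule.span (A k X) (embk b '' (F (lo γ j) : Set (Fin n → k))) ≤ low (flagT b hγ hF) j := by
  rw [Submodule.span_le]
  rintro w ⟨v, hv, rfl⟩
  by_cases h0 : lo γ j = 0
  · rw [h0] at hv
    have h1 : F 0 = ⊥ := Submodule.finrank_eq_zero.1 (hF.2 0 (Nat.zero_le _))
    rw [h1] at hv
    have h2 : v = 0 := (Submodule.mem_bot k).1 hv
    rw [h2, map_zero]
    exact Submodule.zero_mem _
  · have hn : lo γ j ≤ n := by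
      have h1 := Finset.card_le_univ (Finset.univ.filter fun l => γ l < γ j)
      rw [Fintype.card_fin] at h1
      exact h1
    obtain ⟨l, hl⟩ : ∃ l : Fin n, (l : ℕ) + 1 = lo γ j :=
      ⟨⟨lo γ j - 1, by omega⟩, by show lo γ j - 1 + 1 = lo γ j; omega⟩
    have hlt : γ l < γ j := (lo_iff hγ j l).2 (by omega)
    have hhi : hi γ l = lo γ j := by
      unfold hi
      rw [lo]
      congr 1
      refine Finset.filter_congr fun i _ => ⟨fun h => lt_of_le_of_lt h hlt, fun h => ?_⟩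
      have h1 := (lo_iff hγ j i).1 h
      refine hγ ?_
      rw [Fin.le_def]
      omega
    refine Submodule.subset_span ⟨l, ?_, ?_⟩
    · rw [lt_iff_le_not_ge, flag_shape, flag_shape]
      exact ⟨hlt.le, not_le.2 hlt⟩
    · refine mem_flagU.2 ⟨0, Submodule.zero_mem _, v, ?_, (zero_add _).symm⟩
      rw [hhi]
      exact hv

end

theorem flag_fx {ρ : SAct φ n} {t : T k X n} (ht : ρ.Fx t) {b : GLm k X n} (hb : Ad b t) {β : Fin n → ℤ}
    (hβm : Monotone β) (hβ : ∀ j l, t j ≤ t l ↔ β j ≤ β l) {F : ℕ → Submodule k (Fin n → k)} (hF : FlP F)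
    (hR : Rf β F) (hst : ∀ g i, ∀ v ∈ F i, v ᵥ* bm ρ t b g ∈ F i) {γ : Fin n → ℤ} (hγ : Monotone γ)
    (hγβ : ∀ j l, γ j ≤ γ l → β j ≤ β l) : ρ.Fx (flagT b hγ hF) := by
  have _ := hβm
  rw [fx_iff]
  intro g j m hm
  obtain ⟨x, hx, v, hv, rfl⟩ := mem_flagU.1 hm
  have h1 := stab ht hb hβ hF hR hst hγβ g hx
  have h2 := err ht hb hβ hF hR hγβ g hv
  refine mem_flagU.2 ⟨ρ.r g x + (ρ.r g (embk b v) - embk b (v ᵥ* bm ρ t b g)), Submodule.add_mem _ h1 h2,
    v ᵥ* bm ρ t b g, hst g _ v hv, ?_⟩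
  rw [map_add]
  abel

theorem flag_triv {ρ : SAct φ n} {t : T k X n} (ht : ρ.Fx t) {b : GLm k X n} (hb : Ad b t) {β : Fin n → ℤ}
    (hβm : Monotone β) (hβ : ∀ j l, t j ≤ t l ↔ β j ≤ β l) {F : ℕ → Submodule k (Fin n → k)} (hF : FlP F)
    (hR : Rf β F) (hst : ∀ g i, ∀ v ∈ F i, v ᵥ* bm ρ t b g ∈ F i) {γ : Fin n → ℤ} (hγ : Monotone γ)
    (hγβ : ∀ j l, γ j ≤ γ l → β j ≤ β l)
    (htr : ∀ g j, ∀ v ∈ F (hi γ j), v ᵥ* bm ρ t b g - v ∈ F (lo γ j)) : Triv ρ (flagT b hγ hF) := by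
  have _ := hβm
  intro g j m hm
  obtain ⟨x, hx, v, hv, rfl⟩ := mem_flagU.1 hm
  have h1 := stab ht hb hβ hF hR hst hγβ g hx
  have h2 := err ht hb hβ hF hR hγβ g hv
  have h3 : embk b (v ᵥ* bm ρ t b g - v) ∈
      Submodule.span (A k X) (embk b '' (F (lo γ j) : Set (Fin n → k))) :=
    Submodule.subset_span ⟨_, htr g j v hv, rfl⟩
  apply span_low hγ hF j
  have h4 : ρ.r g (x + embk b v) - (x + embk b v) = (ρ.r g x - x) +
      (ρ.r g (embk b v) - embk b (v ᵥ* bm ρ t b g)) + embk b (v ᵥ* bm ρ t b g - v) := by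
    rw [map_add, map_sub]
    abel
  rw [h4]
  exact Submodule.add_mem _ (Submodule.add_mem _ (Submodule.sub_mem _ h1 hx) h2) h3

end Pool.Agent.SMF
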