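import Pool.Agent.SMF.FlB
import Pool.Agent.SMF.Bm

/-!
# SMF-FlD: every complete refinement comes from a complete flag of `k^n` (imports FlB, FlA, Bm, Ord, Spec)

PLAN.  `t ≤ c` gives `h` adapted to both; `core2` with `(s, t, t') := (t, t, c)`, `g := b`, `b := h`: `g'` adapted to `t` and `c` with `rw' g' j ∈ span k {rw' b l | t l = t j}`: so `rw' g' j = embk b (c0 j)` with `c0 j l = 0` unless `t l = t j`; the matrix `c0` is a unit:
`g' * b⁻¹ = c0.map (algebraMap)` has shape `Shp β _ c0` (`tri1`; or the augmentation of the invertible matrix).  `F i = span {c0 j | (j : ℕ) < i}`: `FlP F` (linear independence of the rows).  With this `c0` (rows in `F (j + 1)`) `flagU_eq` gives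
`flagT b _ hF = Um g' (fun j => j)`, and `c = Um g' (fun j => j)` because `c` is complete: by `T_spec c` `c = Um g' β'` with `c j ≤ c l ↔ β' j ≤ β' l`, and `Cpl`, `T_mono` give `c j ≤ c l ↔ j ≤ l` (`um_fine`).
`Rf β F`: the rows `c0 j` with `β j ≤ β i` are in `csub {l | β l ≤ β i}` and there are `hi β i = dim` of them (dimension of `csub s` is the cardinality of `s`); the same for `lo`.
Stability: `v ∈ F i`, we may take `v = c0 j`, `j < i`: `rw' g' j ∈ c j`, so `ρ.r g (rw' g' j) ∈ c j = Um g' _ j`: its coordinates `co g' _ l` vanish for `l > j`, and the one for `l = j` is constant.  As in FlC (1), `ρ.r g (embk b v) = embk b (v ᵥ* bm ρ t b g) + e`, `e` an `A`-combination of the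
`rw' b i`, `t i < t j` (here `v = c0 j` is supported in the block of `j`).  In coordinates for `g'`: `embk b w`, `w = v ᵥ* bm …` supported in the block of `j`, `w = ∑ μ l • c0 l`, `μ l = 0` unless `t l = t j`, so `co g' (embk b w) l = μ l` and `co g' e l = 0` for `t l = t j` (`e ∈ low t j`: `low_iff` with `g'` adapted to `t`); hence `μ l = 0` for
`l > j`: `w ∈ span {c0 l | l ≤ j} = F (j + 1) ≤ F i`.  (For `i > n` everything is `⊤`.)
-/

namespace Pool.Agent.SMF

open Matrix Module

variable {k X : Type*} [Field k] {n : ℕ} {G : Type*} [Group G] {φ : G →* (A k X ≃ₐ[k] A k X)}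

private theorem fd_smul (c : k) (m : V k X n) : algebraMap k (A k X) c • m = c • m :=
  algebraMap_smul (A k X) c m

private theorem fd_co (b : GLm k X n) (v : Fin n → k) (l : Fin n) :
    co b (embk b v) l = algebraMap k (A k X) (v l) := by
  have e : embk b v = ∑ l, algebraMap k (A k X) (v l) • rw' b l := by
    show ∑ l, v l • rw' b l = _
    exact Finset.sum_congr rfl fun l _ => (fd_smul (v l) (rw' b l)).symm
  rw [co_unique b (embk b v) (fun l => algebraMap k (A k X) (v l)) e]

private theorem fd_single (b : GLm k X n) (l : Fin n) : embk b (Pi.single l 1) = rw' b l := by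
  show ∑ i, (Pi.single l (1 : k) : Fin n → k) i • rw' b i = rw' b l
  rw [Finset.sum_eq_single l]
  · rw [Pi.single_eq_same, one_smul]
  · intro i _ hi
    rw [Pi.single_eq_of_ne hi, zero_smul]
  · intro h
    exact absurd (Finset.mem_univ l) h

private theorem fd_co_sum {ι : Type*} (b : GLm k X n) (s : Finset ι) (f : ι → V k X n) (i : Fin n) :
    co b (∑ x ∈ s, f x) i = ∑ x ∈ s, co b (f x) i := by
  classical
  induction s using Finset.induction_on with
  | empty =>
    rw [Finset.sum_empty, Finset.sum_empty]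
    simp [co]
  | insert x s hx ih =>
    rw [Finset.sum_insert hx, Finset.sum_insert hx, co_add, Pi.add_apply, ih]

private theorem fd_mat {b g : GLm k X n} {C : Matrix (Fin n) (Fin n) k}
    (h : ∀ j, rw' g j = embk b (C j)) : (g : Matrix (Fin n) (Fin n) (A k X)) =
      C.map (algebraMap k (A k X)) * (b : Matrix (Fin n) (Fin n) (A k X)) := by
  funext j
  rw [Matrix.mul_apply_eq_vecMul, Matrix.vecMul_eq_sum]
  refine (h j).trans ?_
  show ∑ l, C j l • rw' b l = _
  exact Finset.sum_congr rfl fun l _ => (fd_smul (C j l) (rw' b l)).symm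

private theorem fd_span {t : T k X n} {b : GLm k X n} {j : Fin n} {x : V k X n}
    (hx : x ∈ Submodule.span k {v | ∃ l, t l = t j ∧ v = rw' b l}) :
    ∃ v : Fin n → k, (∀ l, t l ≠ t j → v l = 0) ∧ x = embk b v := by
  induction hx using Submodule.span_induction with
  | mem x hx =>
    obtain ⟨l, hl, rfl⟩ := hx
    refine ⟨Pi.single l 1, fun i hi => ?_, (fd_single b l).symm⟩
    rw [Pi.single_apply, if_neg]
    rintro rfl
    exact hi hl
  | zero => exact ⟨0, fun _ _ => rfl, (map_zero _).symm⟩
  | add x y _ _ hx hy =>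
    obtain ⟨v, h1, rfl⟩ := hx
    obtain ⟨w, h2, rfl⟩ := hy
    exact ⟨v + w, fun l hl => by rw [Pi.add_apply, h1 l hl, h2 l hl, add_zero],
      (map_add _ _ _).symm⟩
  | smul a x _ hx =>
    obtain ⟨v, h1, rfl⟩ := hx
    exact ⟨a • v, fun l hl => by rw [Pi.smul_apply, h1 l hl, smul_zero], (map_smul _ _ _).symm⟩

private def fdF (C : Matrix (Fin n) (Fin n) k) (i : ℕ) : Submodule k (Fin n → k) :=
  Submodule.span k {v | ∃ j : Fin n, (j : ℕ) < i ∧ v = C j}

private theorem fd_mono (C : Matrix (Fin n) (Fin n) k) {i i' : ℕ} (h : i ≤ i') :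
    fdF C i ≤ fdF C i' := by
  refine Submodule.span_mono ?_
  rintro v ⟨j, hj, rfl⟩
  exact ⟨j, lt_of_lt_of_le hj h, rfl⟩

private theorem fd_flp {C : Matrix (Fin n) (Fin n) k} (hC : IsUnit C) : FlP (fdF C) := by
  refine ⟨fun i => fd_mono C (Nat.le_succ i), fun i hi => ?_⟩
  rw [Module.finrank_fin_fun] at hi
  have h1 : LinearIndependent k (fun j => C j) := Matrix.linearIndependent_rows_of_isUnit hC
  have h2 : LinearIndependent k (fun j : Fin i => C (Fin.castLE hi j)) :=
    h1.comp _ (Fin.castLE_injective hi)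
  have h3 : {v | ∃ j : Fin n, (j : ℕ) < i ∧ v = C j} =
      Set.range (fun j : Fin i => C (Fin.castLE hi j)) := by
    ext v
    constructor
    · rintro ⟨j, hj, rfl⟩
      exact ⟨⟨j, hj⟩, rfl⟩
    · rintro ⟨j, rfl⟩
      exact ⟨Fin.castLE hi j, j.isLt, rfl⟩
  unfold fdF
  rw [h3, finrank_span_eq_card h2, Fintype.card_fin]

private theorem fd_expand {C : Matrix (Fin n) (Fin n) k} (hC : IsUnit C) (v : Fin n → k) :
    v = ∑ l, (v ᵥ* C⁻¹) l • C l := by
  have h := (Matrix.isUnit_iff_isUnit_det C).1 hC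
  rw [← Matrix.vecMul_eq_sum, Matrix.vecMul_vecMul, Matrix.nonsing_inv_mul _ h, Matrix.vecMul_one]

private theorem fd_csub {β : Fin n → ℤ} {C : Matrix (Fin n) (Fin n) k} (hC : IsUnit C)
    (h1 : ∀ j l, β j ≠ β l → C j l = 0) (h2 : ∀ j l, β j ≠ β l → C⁻¹ j l = 0) {s : Set (Fin n)}
    (hs : ∀ j l, β j = β l → j ∈ s → l ∈ s) :
    Submodule.span k {v | ∃ j : Fin n, j ∈ s ∧ v = C j} = csub s := by
  apply le_antisymm
  · rw [Submodule.span_le]
    rintro v ⟨j, hj, rfl⟩ l hl
    exact h1 j l fun e => hl (hs j l e hj)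
  · intro v hv
    rw [fd_expand hC v]
    refine Submodule.sum_mem _ fun l _ => ?_
    by_cases hl : l ∈ s
    · exact Submodule.smul_mem _ _ (Submodule.subset_span ⟨l, hl, rfl⟩)
    · have h3 : (v ᵥ* C⁻¹) l = 0 := by
        show ∑ i, v i * C⁻¹ i l = 0
        refine Finset.sum_eq_zero fun i _ => ?_
        by_cases hi : i ∈ s
        · rw [h2 i l (fun e => hl (hs i l e hi)), mul_zero]
        · rw [hv i hi, zero_mul]
      rw [h3, zero_smul]
      exact Submodule.zero_mem _

theorem id_mono : Monotone (fun j : Fin n => ((j : ℕ) : ℤ)) := fun a b h => by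
  show ((a : ℕ) : ℤ) ≤ ((b : ℕ) : ℤ)
  exact_mod_cast h

theorem flag_of {ρ : SAct φ n} {t : T k X n} (ht : ρ.Fx t) {b : GLm k X n} (hb : Ad b t) {β : Fin n → ℤ}
    (hβm : Monotone β) (hβ : ∀ j l, t j ≤ t l ↔ β j ≤ β l) {c : T k X n} (hc : t ≤ c) (hcpl : Cpl c)
    (hfx : ρ.Fx c) :
    ∃ (F : ℕ → Submodule k (Fin n → k)) (hF : FlP F), Rf β F ∧ (∀ g i, ∀ v ∈ F i, v ᵥ* bm ρ t b g ∈ F i) ∧
      c = flagT b id_mono hF := by
  classical
  obtain ⟨h1, h, hht, hhc⟩ := (le_def t c).1 hc
  obtain ⟨g', hg1, -, hg2, hg3⟩ := core2 (s := t) (t := t) (t' := c) (fun _ _ h => h) h1 hb hb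
    hht hhc
  obtain ⟨C, hC⟩ : ∃ C : Matrix (Fin n) (Fin n) k,
      ∀ j, (∀ l, t l ≠ t j → C j l = 0) ∧ rw' g' j = embk b (C j) := by
    choose C hC using fun j => fd_span (hg3 j)
    exact ⟨C, hC⟩
  have heq : ∀ j l, t j = t l ↔ β j = β l := fun j l => by
    rw [le_antisymm_iff, le_antisymm_iff, hβ, hβ]
  have hM := fd_mat fun j => (hC j).2
  have hM' : ((g' * b⁻¹ : GLm k X n) : Matrix (Fin n) (Fin n) (A k X)) =
      C.map (algebraMap k (A k X)) := by
    rw [Units.val_mul, hM, Matrix.mul_assoc, ← Units.val_mul, mul_inv_cancel, Units.val_one,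
      Matrix.mul_one]
  have hz : ∀ j l, β j ≠ β l → C j l = 0 := fun j l h =>
    (hC j).1 l fun e => h ((heq l j).1 e).symm
  have hShp : Shp β ((g' * b⁻¹ : GLm k X n) : Matrix (Fin n) (Fin n) (A k X)) C := by
    rw [hM']
    exact ⟨fun j l h => by rw [Matrix.map_apply, hz j l h.ne, map_zero], fun j l _ => rfl, hz⟩
  have hCu : IsUnit C := tri1 _ hShp
  have hz' : ∀ j l, β j ≠ β l → C⁻¹ j l = 0 := (tri3 _ hShp).2.2
  have hF : FlP (fdF C) := fd_flp hCu
  refine ⟨fdF C, hF, ?_, ?_, ?_⟩
  · intro j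
    constructor
    · have e : {v | ∃ l : Fin n, (l : ℕ) < lo β j ∧ v = C l} =
          {v | ∃ l : Fin n, l ∈ {l | β l < β j} ∧ v = C l} := by
        ext v
        refine exists_congr fun l => and_congr ?_ Iff.rfl
        exact (lo_iff hβm j l).symm
      unfold fdF
      rw [e]
      refine fd_csub hCu hz hz' fun a b hab ha => ?_
      show β b < β j
      rw [← hab]
      exact ha
    · have e : {v | ∃ l : Fin n, (l : ℕ) < hi β j ∧ v = C l} =
          {v | ∃ l : Fin n, l ∈ {l | β l ≤ β j} ∧ v = C l} := by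
        ext v
        refine exists_congr fun l => and_congr ?_ Iff.rfl
        exact (hi_iff hβm j l).symm
      unfold fdF
      rw [e]
      refine fd_csub hCu hz hz' fun a b hab ha => ?_
      show β b ≤ β j
      rw [← hab]
      exact ha
  · intro g i v hv
    have key : ∀ j : Fin n, C j ᵥ* bm ρ t b g ∈ fdF C ((j : ℕ) + 1) := by
      intro j
      obtain ⟨w, hw⟩ : ∃ w, w = C j ᵥ* bm ρ t b g := ⟨_, rfl⟩
      have hwi : ∀ i, w i = ∑ l, C j l * bm ρ t b g l i := fun i => by
        rw [hw]
        rfl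
      rw [← hw]
      have hco : ∀ i, ¬ t i < t j →
          co b (ρ.r g (rw' g' j)) i = algebraMap k (A k X) (w i) := by
        intro i hi
        have e1 : rw' g' j = ∑ l, C j l • rw' b l := (hC j).2
        rw [e1, map_sum, fd_co_sum, hwi, map_sum]
        refine Finset.sum_congr rfl fun l _ => ?_
        rw [map_smul, co_smulk, Pi.smul_apply, Algebra.smul_def, map_mul]
        by_cases hl : t l = t j
        · congr 1
          by_cases hij : t i = t j
          · exact bm_const ht hb (hij.trans hl.symm) g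
          · have h2 : t j ≤ t i := by
              rcases T_tot t i j with h3 | h3
              · exact absurd (lt_of_le_of_ne h3 hij) hi
              · exact h3
            have h3 : t l < t i := by
              rw [hl]
              exact lt_of_le_of_ne h2 (Ne.symm hij)
            rw [bm_up ht hb h3 g, bm_zero h3.ne' g, map_zero]
        · rw [(hC j).1 l hl, map_zero, zero_mul, zero_mul]
      have he : ρ.r g (rw' g' j) - embk b w ∈ low t j := by
        rw [low_iff hb]
        intro i hi
        rw [co_sub, Pi.sub_apply, hco i hi, fd_co, sub_self]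
      obtain ⟨μ, hμ⟩ : ∃ μ, μ = w ᵥ* C⁻¹ := ⟨_, rfl⟩
      have hwμ : w = ∑ l, μ l • C l := by
        rw [hμ]
        exact fd_expand hCu w
      have hemb : ∀ l, co g' (embk b w) l = algebraMap k (A k X) (μ l) := by
        intro l
        have e1 : embk b w = ∑ l, algebraMap k (A k X) (μ l) • rw' g' l := by
          rw [hwμ, map_sum]
          refine Finset.sum_congr rfl fun l _ => ?_
          rw [map_smul, fd_smul, (hC l).2]
        rw [co_unique g' _ _ e1]
      have hw0 : ∀ i, t i ≠ t j → w i = 0 := by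
        intro i hi
        rw [hwi]
        refine Finset.sum_eq_zero fun l _ => ?_
        by_cases hl : t l = t j
        · rw [bm_zero (fun e => hi (e.trans hl)) g, mul_zero]
        · rw [(hC j).1 l hl, zero_mul]
      have hμ0 : ∀ l, t l ≠ t j → μ l = 0 := by
        intro l hl
        rw [hμ]
        show ∑ i, w i * C⁻¹ i l = 0
        refine Finset.sum_eq_zero fun i _ => ?_
        by_cases hij : t i = t j
        · rw [hz' i l (fun e => hl (((heq i l).2 e).symm.trans hij)), mul_zero]
        · rw [hw0 i hij, zero_mul]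
      have hμ1 : ∀ l, j < l → μ l = 0 := by
        intro l hjl
        by_cases hl : t l = t j
        · have e0 : c j < c l :=
            lt_of_le_not_ge (T_mono c hjl.le) fun e => absurd (hcpl l j e) (not_le.2 hjl)
          have e1 : co g' (ρ.r g (rw' g' j)) l = 0 :=
            ((T_mem c hg2 j _).1 ((fx_iff ρ c).1 hfx g j _ (hg2 j)) l).1 e0
          have e2 : co g' (ρ.r g (rw' g' j) - embk b w) l = 0 :=
            (low_iff hg1 j _).1 he l (by rw [hl]; exact lt_irrefl _)
          rw [co_sub, Pi.sub_apply, e1, hemb, zero_sub, neg_eq_zero] at e2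
          have e3 := congrArg ep e2
          rwa [ep_alg, ((eq_zero_iff (0 : A k X)).1 rfl).1] at e3
        · exact hμ0 l hl
      rw [hwμ]
      refine Submodule.sum_mem _ fun l _ => ?_
      by_cases hl : l ≤ j
      · exact Submodule.smul_mem _ _ (Submodule.subset_span ⟨l, Nat.lt_succ_of_le hl, rfl⟩)
      · rw [hμ1 l (not_le.1 hl), zero_smul]
        exact Submodule.zero_mem _
    unfold fdF at hv
    induction hv using Submodule.span_induction with
    | mem v hv =>
      obtain ⟨j, hj, rfl⟩ := hv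
      exact fd_mono C hj (key j)
    | zero =>
      rw [Matrix.zero_vecMul]
      exact Submodule.zero_mem _
    | add x y _ _ hx hy =>
      rw [Matrix.add_vecMul]
      exact Submodule.add_mem _ hx hy
    | smul a x _ hx =>
      rw [Matrix.smul_vecMul]
      exact Submodule.smul_mem _ _ hx
  · obtain ⟨cu, hcu⟩ := hCu
    have e1 : flagU b (fun j : Fin n => ((j : ℕ) : ℤ)) (fdF C) =
        Um g' (fun j : Fin n => ((j : ℕ) : ℤ)) := by
      refine flagU_eq b id_mono hF (c := cu) (fun j => ?_) (h := g') ?_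
      · rw [hcu]
        exact Submodule.subset_span ⟨j, Nat.lt_succ_self _, rfl⟩
      · rw [hcu]
        exact hM
    obtain ⟨βc, -, hle, hgg, -⟩ := T_spec c
    apply Subtype.ext
    show c.1 = flagU b (fun j : Fin n => ((j : ℕ) : ℤ)) (fdF C)
    rw [e1, hgg g' hg2]
    apply um_fine
    intro j l
    rw [← hle]
    constructor
    · intro h2
      exact id_mono (hcpl j l h2)
    · intro h2
      apply T_mono c
      have h3 : ((j : ℕ) : ℤ) ≤ ((l : ℕ) : ℤ) := h2
      exact_mod_cast h3

end Pool.Agent.SMF
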