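import Mathlib

/-!
# SMF-StFl: complete flags through given subspaces (Mathlib only)
-/

namespace Pool.Agent.SMF

open Module

/-- the state after `i` steps -/
private def StP {k E : Type*} [Field k] [AddCommGroup E] [Module k E]
    (S : Submodule k E → Prop) {q : ℕ} (W : Fin q → Submodule k E) (i : ℕ)
    (U : Submodule k E) : Prop :=
  S U ∧ (i ≤ finrank k E → finrank k U = i) ∧ (finrank k E ≤ i → U = ⊤) ∧
    ∀ j, W j ≤ U ∨ U ≤ W j

private theorem st_step {k E : Type*} [Field k] [AddCommGroup E] [Module k E]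
    [FiniteDimensional k E] (S : Submodule k E → Prop) (htop : S ⊤)
    (hstep : ∀ U W, S U → S W → U < W → ∃ U', S U' ∧ U < U' ∧ U' ≤ W ∧ finrank k U' = finrank k U + 1)
    {q : ℕ} (W : Fin q → Submodule k E) (hW : Monotone W) (hS : ∀ j, S (W j)) (i : ℕ)
    (U : {U // StP S W i U}) : ∃ U' : {U' // StP S W (i + 1) U'}, U.1 ≤ U'.1 := by
  classical
  obtain ⟨U, hU, hf, ht, hc⟩ := U
  by_cases hi : finrank k E ≤ i
  · refine ⟨⟨⊤, htop, fun h => by omega, fun _ => rfl, fun j => Or.inl le_top⟩, le_top⟩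
  · push Not at hi
    have hfU := hf hi.le
    have hfin : ∀ U', S U' → U < U' → finrank k U' = finrank k U + 1 →
        (∀ j, W j ≤ U' ∨ U' ≤ W j) → ∃ U' : {U' // StP S W (i + 1) U'}, U ≤ U'.1 := by
      intro U' h1 h2 h3 h4
      refine ⟨⟨U', h1, fun _ => by omega, fun h => ?_, h4⟩, h2.le⟩
      exact Submodule.eq_top_of_finrank_eq (by omega)
    by_cases hT : ∃ j, ¬ W j ≤ U
    · have hne : (Finset.univ.filter fun j => ¬ W j ≤ U).Nonempty := by
        obtain ⟨j, hj⟩ := hT
        exact ⟨j, Finset.mem_filter.2 ⟨Finset.mem_univ _, hj⟩⟩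
      set j0 := (Finset.univ.filter fun j => ¬ W j ≤ U).min' hne with hj0
      have h1 : ¬ W j0 ≤ U := (Finset.mem_filter.1 (Finset.min'_mem _ hne)).2
      have h2 : U < W j0 := by
        refine lt_of_le_not_ge ?_ h1
        exact (hc j0).resolve_left h1
      obtain ⟨U', a1, a2, a3, a4⟩ := hstep U (W j0) hU (hS j0) h2
      refine hfin U' a1 a2 a4 fun j => ?_
      by_cases h3 : W j ≤ U
      · exact Or.inl (h3.trans a2.le)
      · right
        refine a3.trans (hW ?_)
        have h4 : j ∈ Finset.univ.filter fun j => ¬ W j ≤ U :=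
          Finset.mem_filter.2 ⟨Finset.mem_univ _, h3⟩
        exact Finset.min'_le _ _ h4
    · push Not at hT
      have h2 : U < ⊤ := by
        refine lt_top_iff_ne_top.2 ?_
        rintro rfl
        rw [finrank_top] at hfU
        omega
      obtain ⟨U', a1, a2, a3, a4⟩ := hstep U ⊤ hU htop h2
      exact hfin U' a1 a2 a4 fun j => Or.inl ((hT j).trans a2.le)

theorem stfl {k E : Type*} [Field k] [AddCommGroup E] [Module k E] [FiniteDimensional k E]
    (S : Submodule k E → Prop) (hbot : S ⊥) (htop : S ⊤)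
    (hstep : ∀ U W, S U → S W → U < W → ∃ U', S U' ∧ U < U' ∧ U' ≤ W ∧ finrank k U' = finrank k U + 1)
    {q : ℕ} (W : Fin q → Submodule k E) (hW : Monotone W) (hS : ∀ j, S (W j)) :
    ∃ F : ℕ → Submodule k E, (∀ i, F i ≤ F (i + 1)) ∧ (∀ i, i ≤ finrank k E → finrank k (F i) = i) ∧
      (∀ i, S (F i)) ∧ ∀ j, F (finrank k (W j)) = W j := by
  choose g hg using st_step S htop hstep W hW hS
  have h0 : StP S W 0 ⊥ := by
    refine ⟨hbot, fun _ => finrank_bot k E, fun h => ?_, fun j => Or.inr bot_le⟩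
    exact Submodule.eq_top_of_finrank_eq (by rw [finrank_bot]; omega)
  let F : (i : ℕ) → {U // StP S W i U} := fun i =>
    Nat.rec (motive := fun i => {U // StP S W i U}) ⟨⊥, h0⟩ (fun i U => g i U) i
  refine ⟨fun i => (F i).1, fun i => hg i (F i), fun i hi => (F i).2.2.1 hi,
    fun i => (F i).2.1, fun j => ?_⟩
  have hn : finrank k (W j) ≤ finrank k E := Submodule.finrank_le _
  have h1 := (F (finrank k (W j))).2.2.1 hn
  rcases (F (finrank k (W j))).2.2.2.2 j with h2 | h2
  · exact (Submodule.eq_of_le_of_finrank_eq h2 h1.symm).symm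
  · exact Submodule.eq_of_le_of_finrank_eq h2 h1

end Pool.Agent.SMF
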