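import Pool.Agent.SMF.FlB
import Pool.Agent.SMF.FlC
import Pool.Agent.SMF.FlD
import Pool.Agent.SMF.FixV
import Pool.Agent.SMF.StFl

/-!
# SMF-CplE: complete fixed refinements exist; trivial action on the steps of a stable flag (imports FlB, FlC, FlD, FixV, StFl, Bm)
-/

namespace Pool.Agent.SMF

open Matrix Module

variable {k X : Type*} [Field k] {n : ℕ} {G : Type*} [Group G] {φ : G →* (A k X ≃ₐ[k] A k X)}

/-- the action on the constants -/
private noncomputable def actE {ρ : SAct φ n} {t : T k X n} (ht : ρ.Fx t) {b : GLm k X n} (hb : Ad b t) :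
    G →* Module.End k (Fin n → k) where
  toFun g := Matrix.vecMulLinear (bm ρ t b g)
  map_one' := by
    refine LinearMap.ext fun v => ?_
    rw [bm_one]
    show v ᵥ* (1 : Matrix (Fin n) (Fin n) k) = v
    exact Matrix.vecMul_one v
  map_mul' g g' := by
    refine LinearMap.ext fun v => ?_
    rw [bm_mul ht hb]
    show v ᵥ* (bm ρ t b g' * bm ρ t b g) = (v ᵥ* bm ρ t b g') ᵥ* bm ρ t b g
    rw [Matrix.vecMul_vecMul]

theorem one_step {p : ℕ} [Fact p.Prime] [CharP k p] [Finite G] (hG : IsPGroup p G) {ρ : SAct φ n} {t : T k X n}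
    (ht : ρ.Fx t) {b : GLm k X n} (hb : Ad b t) {F : ℕ → Submodule k (Fin n → k)} (hF : FlP F)
    (hst : ∀ g i, ∀ v ∈ F i, v ᵥ* bm ρ t b g ∈ F i) (g : G) {i : ℕ} (hi : i < n) {v : Fin n → k}
    (hv : v ∈ F (i + 1)) : v ᵥ* bm ρ t b g - v ∈ F i := by
  have hn : finrank k (Fin n → k) = n := by rw [Module.finrank_fintype_fun_eq_card, Fintype.card_fin]
  have h1 : finrank k (F i) = i := hF.2 i (by omega)
  have h2 : finrank k (F (i + 1)) = i + 1 := hF.2 (i + 1) (by omega)
  have hlt : F i < F (i + 1) := by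
    refine lt_of_le_of_ne (hF.1 i) fun h => ?_
    rw [h, h2] at h1
    omega
  obtain ⟨U', _, h4, h5, _, h7⟩ := exists_step hG (actE ht hb) (U := F i) (W := F (i + 1))
    (fun g v hv => hst g i v hv) (fun g v hv => hst g (i + 1) v hv) hlt
  have h8 : U' = F (i + 1) := Submodule.eq_of_le_of_finrank_eq h4 (by rw [h5, h1, h2])
  exact h7 g v (by rw [h8]; exact hv)

private theorem csub_finrank (s : Set (Fin n)) [DecidablePred (· ∈ s)] :
    finrank k (csub (k := k) s) = Fintype.card s := by
  let e : csub (k := k) s ≃ₗ[k] (s → k) :=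
    { toFun := fun v l => v.1 l.1
      map_add' := fun _ _ => rfl
      map_smul' := fun _ _ => rfl
      invFun := fun f => ⟨fun l => if h : l ∈ s then f ⟨l, h⟩ else 0, fun l hl => dif_neg hl⟩
      left_inv := fun v => by
        refine Subtype.ext (funext fun l => ?_)
        by_cases h : l ∈ s
        · exact dif_pos h
        · show (if h : l ∈ s then v.1 l else 0) = v.1 l
          rw [dif_neg h]
          exact (v.2 l h).symm
      right_inv := fun f => by
        funext l
        show (if h : l.1 ∈ s then f ⟨l.1, h⟩ else 0) = f l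
        rw [dif_pos l.2] }
  rw [e.finrank_eq, Module.finrank_fintype_fun_eq_card]

private theorem csub_hi (β : Fin n → ℤ) (j : Fin n) :
    finrank k (csub (k := k) {l | β l ≤ β j}) = hi β j := by
  classical
  rw [csub_finrank]
  unfold hi
  exact Fintype.card_subtype _

theorem cpl_exists {p : ℕ} [Fact p.Prime] [CharP k p] [Finite G] (hG : IsPGroup p G) {ρ : SAct φ n} {t : T k X n}
    (ht : ρ.Fx t) : ∃ c, t ≤ c ∧ Cpl c ∧ ρ.Fx c := by
  classical
  obtain ⟨β, hβm, hβ, _, b, hb⟩ := T_spec t
  obtain ⟨F, hF1, hF2, hst, hW⟩ := stfl (k := k) (E := Fin n → k)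
    (fun U => ∀ g, ∀ v ∈ U, v ᵥ* bm ρ t b g ∈ U)
    (fun g v hv => by
      rw [Submodule.mem_bot] at hv ⊢
      rw [hv, Matrix.zero_vecMul])
    (fun g v _ => Submodule.mem_top)
    (fun U W hU hW hUW => by
      obtain ⟨U', h3, h4, h5, h6, _⟩ := exists_step hG (actE ht hb) (U := U) (W := W) hU hW hUW
      exact ⟨U', h6, h3, h4, h5⟩)
    (fun j : Fin n => csub {l | β l ≤ β j})
    (fun j j' hjj v hv l hl => hv l fun h => hl (le_trans (show β l ≤ β j from h) (hβm hjj)))
    (fun j g v hv i hi => by
      show ∑ l, v l * bm ρ t b g l i = 0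
      refine Finset.sum_eq_zero fun l _ => ?_
      by_cases hl : β l ≤ β j
      · rw [bm_zero, mul_zero]
        intro h
        apply hi
        have h1 : β i ≤ β l := (hβ i l).1 (le_of_eq h)
        exact h1.trans hl
      · rw [hv l hl, zero_mul])
  have hF : FlP F := ⟨hF1, hF2⟩
  have hhi : ∀ j, F (hi β j) = csub {l | β l ≤ β j} := by
    intro j
    have h1 := hW j
    rw [csub_hi] at h1
    exact h1
  have hR : Rf β F := by
    intro j
    refine ⟨?_, hhi j⟩
    by_cases hne : (Finset.univ.filter fun l => β l < β j).Nonempty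
    · obtain ⟨l, hl⟩ : ∃ l, l = (Finset.univ.filter fun l => β l < β j).max' hne := ⟨_, rfl⟩
      have hl1 : β l < β j := by
        have h1 := Finset.max'_mem _ hne
        rw [← hl, Finset.mem_filter] at h1
        exact h1.2
      have hiff : ∀ l', β l' ≤ β l ↔ β l' < β j := by
        intro l'
        refine ⟨fun h => lt_of_le_of_lt h hl1, fun h => hβm ?_⟩
        rw [hl]
        exact Finset.le_max' (Finset.univ.filter fun l => β l < β j) l' (Finset.mem_filter.2 ⟨Finset.mem_univ _, h⟩)
      have h1 : lo β j = hi β l := by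
        unfold lo hi
        congr 1
        ext l'
        rw [Finset.mem_filter, Finset.mem_filter, hiff]
      have h2 : {l' | β l' < β j} = {l' | β l' ≤ β l} := by
        ext l'
        exact (hiff l').symm
      rw [h1, h2]
      exact hhi l
    · rw [Finset.not_nonempty_iff_eq_empty] at hne
      have h1 : lo β j = 0 := by
        unfold lo
        rw [hne, Finset.card_empty]
      have h2 : F 0 = ⊥ := Submodule.finrank_eq_zero.1 (hF2 0 (Nat.zero_le _))
      rw [h1, h2]
      symm
      rw [Submodule.eq_bot_iff]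
      intro v hv
      funext l
      refine hv l fun h => ?_
      have h3 : l ∈ Finset.univ.filter fun l => β l < β j := Finset.mem_filter.2 ⟨Finset.mem_univ _, h⟩
      rw [hne] at h3
      exact Finset.notMem_empty l h3
  have hγβ : ∀ j l : Fin n, ((j : ℕ) : ℤ) ≤ ((l : ℕ) : ℤ) → β j ≤ β l := by
    intro j l h
    exact hβm (by exact_mod_cast h)
  refine ⟨flagT b id_mono hF, flag_ge hb hβm hβ hF hR id_mono hγβ, ?_,
    flag_fx ht hb hβm hβ hF hR (fun g i v hv => hst i g v hv) id_mono hγβ⟩
  intro j l h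
  have h1 := (flag_shape b id_mono hF j l).1 h
  exact_mod_cast h1

end Pool.Agent.SMF
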