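import Pool.Agent.SMF.GoodU

/-!
# SMF-GoodD: fixed bases pass to coarser flags with trivial action on the pieces (imports GoodU)

The block diagonal part of the base change has fixed entries.
-/

namespace Pool.Agent.SMF

variable {k X : Type*} [Field k] {n : ℕ} {G : Type*} [Group G] {φ : G →* (A k X ≃ₐ[k] A k X)}

private theorem row_mul' (u g : GLm k X n) (j : Fin n) :
    rw' (u * g) j = ∑ l, (u : Matrix (Fin n) (Fin n) (A k X)) j l • rw' g l := by
  funext i
  rw [Finset.sum_apply]
  show ((u * g : GLm k X n) : Matrix (Fin n) (Fin n) (A k X)) j i = _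
  rw [Units.val_mul, Matrix.mul_apply]
  rfl

private theorem co_sum {ι : Type*} (g : GLm k X n) (S : Finset ι) (f : ι → V k X n) :
    co g (∑ i ∈ S, f i) = ∑ i ∈ S, co g (f i) := by
  classical
  induction S using Finset.induction_on with
  | empty =>
    rw [Finset.sum_empty, Finset.sum_empty]
    simp [co]
  | insert i S hi ih => rw [Finset.sum_insert hi, Finset.sum_insert hi, co_add, ih]

open Classical in
/-- the block diagonal part -/
private noncomputable def dg (s : T k X n) (a : Matrix (Fin n) (Fin n) (A k X)) :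
    Matrix (Fin n) (Fin n) (A k X) := fun j l => if s l = s j then a j l else 0

private theorem dg_mul (s : T k X n) {a a' : Matrix (Fin n) (Fin n) (A k X)}
    (h : ∀ j l, s j < s l → a j l = 0) (h' : ∀ j l, s j < s l → a' j l = 0) (h1 : a * a' = 1) :
    dg s a * dg s a' = 1 := by
  classical
  ext j l
  rw [Matrix.mul_apply]
  unfold dg
  by_cases hjl : s l = s j
  · have h2 : (a * a') j l = (1 : Matrix (Fin n) (Fin n) (A k X)) j l := by rw [h1]
    rw [Matrix.mul_apply] at h2
    rw [← h2]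
    refine Finset.sum_congr rfl fun i _ => ?_
    by_cases hi : s i = s j
    · rw [if_pos hi, if_pos (hjl.trans hi.symm)]
    · rw [if_neg hi, zero_mul]
      rcases T_tot s j i with h3 | h3
      · rw [h j i (lt_of_le_of_ne h3 (Ne.symm hi)), zero_mul]
      · rw [h' i l (by rw [hjl]; exact lt_of_le_of_ne h3 hi), mul_zero]
  · have hne : j ≠ l := fun e => hjl (by rw [e])
    rw [Matrix.one_apply_ne hne]
    refine Finset.sum_eq_zero fun i _ => ?_
    by_cases hi : s i = s j
    · rw [if_neg (fun h3 : s l = s i => hjl (h3.trans hi)), mul_zero]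
    · rw [if_neg hi, zero_mul]

private theorem lt_of_le' {s t : T k X n} (h : ∀ j l, t j ≤ t l → s j ≤ s l) {j l : Fin n}
    (hjl : s j < s l) : t j < t l := by
  have h1 : ¬ t l ≤ t j := fun h2 => absurd (h l j h2) (not_le_of_gt hjl)
  exact lt_of_le_not_ge ((T_tot t j l).resolve_right h1) h1

private theorem tri_co {s t : T k X n} (h : ∀ j l, t j ≤ t l → s j ≤ s l) {b c : GLm k X n}
    (hb : Ad b t) (hc : Ad c t) (j l : Fin n) (hjl : s j < s l) :
    ((c * b⁻¹ : GLm k X n) : Matrix (Fin n) (Fin n) (A k X)) j l = 0 := by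
  rw [← co_rw_mul]
  exact ((T_mem t hb j _).1 (hc j) l).1 (lt_of_le' h hjl)

/-- coordinates of a moved basis vector -/
private theorem co_moved {ρ : SAct φ n} {s : T k X n} (htr : Triv ρ s) {b : GLm k X n} (hb : Ad b s)
    (g : G) {l l0 : Fin n} (hl : ¬ s l0 < s l) :
    co b (ρ.r g (rw' b l)) l0 = (Pi.single l 1 : Fin n → A k X) l0 := by
  have h1 := (low_iff hb l _).1 (htr g l _ (hb l)) l0 hl
  rw [co_sub, Pi.sub_apply, sub_eq_zero, co_rw] at h1
  exact h1

private theorem fix_a {ρ : SAct φ n} {s : T k X n} (htr : Triv ρ s) {b h : GLm k X n} (hb : Ad b s)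
    (hfix : ∀ g j, ρ.r g (rw' h j) = rw' h j)
    (ha : ∀ j l, s j < s l → ((h * b⁻¹ : GLm k X n) : Matrix (Fin n) (Fin n) (A k X)) j l = 0)
    (g : G) (j l0 : Fin n) (hl0 : s l0 = s j) :
    φ g (((h * b⁻¹ : GLm k X n) : Matrix (Fin n) (Fin n) (A k X)) j l0) =
      ((h * b⁻¹ : GLm k X n) : Matrix (Fin n) (Fin n) (A k X)) j l0 := by
  obtain ⟨a, hae⟩ : ∃ a : Matrix (Fin n) (Fin n) (A k X),
      a = ((h * b⁻¹ : GLm k X n) : Matrix (Fin n) (Fin n) (A k X)) := ⟨_, rfl⟩
  rw [← hae] at ha ⊢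
  have e1 : ∀ l, co b (rw' h j) l = a j l := by
    intro l
    rw [co_rw_mul, hae]
  have e2 : rw' h j = ∑ l, a j l • rw' b l := by
    conv_lhs => rw [eq_sum b (rw' h j)]
    exact Finset.sum_congr rfl fun l _ => by rw [e1 l]
  have e3 : rw' h j = ∑ l, φ g (a j l) • ρ.r g (rw' b l) := by
    rw [← hfix g j]
    conv_lhs => rw [e2]
    rw [map_sum]
    exact Finset.sum_congr rfl fun l _ => ρ.semi g _ _
  have e4 : co b (rw' h j) l0 = ∑ l, φ g (a j l) * co b (ρ.r g (rw' b l)) l0 := by
    conv_lhs => rw [e3]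
    rw [co_sum, Finset.sum_apply]
    exact Finset.sum_congr rfl fun l _ => by rw [co_smulA]; rfl
  rw [e1] at e4
  refine Eq.symm (e4.trans ?_)
  rw [Finset.sum_eq_single l0]
  · rw [co_moved htr hb g (lt_irrefl _), Pi.single_eq_same, mul_one]
  · intro l _ hne
    by_cases h1 : s j < s l
    · rw [ha j l h1, map_zero, zero_mul]
    · rw [co_moved htr hb g (by rw [hl0]; exact h1), Pi.single_eq_of_ne (Ne.symm hne), mul_zero]
  · intro h1
    exact absurd (Finset.mem_univ l0) h1

theorem good_down {ρ : SAct φ n} {s t : T k X n} (ht : Good ρ t) (hst : s ≤ t) (htr : Triv ρ s) : Good ρ s := by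
  classical
  obtain ⟨h, hht, hfix⟩ := ht
  obtain ⟨hsh, b, hbs, hbt⟩ := (le_def s t).1 hst
  obtain ⟨a, hae⟩ : ∃ a : GLm k X n, a = h * b⁻¹ := ⟨_, rfl⟩
  have hai : a⁻¹ = b * h⁻¹ := by
    rw [hae]
    group
  have ha : ∀ j l, s j < s l → (a : Matrix (Fin n) (Fin n) (A k X)) j l = 0 := by
    rw [hae]
    exact tri_co hsh hbt hht
  have ha' : ∀ j l, s j < s l →
      ((a⁻¹ : GLm k X n) : Matrix (Fin n) (Fin n) (A k X)) j l = 0 := by
    rw [hai]
    exact tri_co hsh hht hbt
  have h1 := dg_mul s ha ha' (by rw [← Units.val_mul, mul_inv_cancel, Units.val_one])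
  have h2 := dg_mul s ha' ha (by rw [← Units.val_mul, inv_mul_cancel, Units.val_one])
  obtain ⟨α, hα⟩ : ∃ α, α = dg s (a : Matrix (Fin n) (Fin n) (A k X)) := ⟨_, rfl⟩
  obtain ⟨α', hα'⟩ : ∃ α', α' = dg s ((a⁻¹ : GLm k X n) : Matrix (Fin n) (Fin n) (A k X)) :=
    ⟨_, rfl⟩
  rw [← hα, ← hα'] at h1 h2
  have hfa : ∀ g : G, α.map (φ g) = α := by
    intro g
    ext j l
    rw [Matrix.map_apply, hα]
    show φ g (if s l = s j then (a : Matrix (Fin n) (Fin n) (A k X)) j l else 0) =
      if s l = s j then (a : Matrix (Fin n) (Fin n) (A k X)) j l else 0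
    by_cases hl : s l = s j
    · rw [if_pos hl, hae]
      rw [hae] at ha
      exact fix_a htr hbs hfix ha g j l hl
    · rw [if_neg hl, map_zero]
  have hfa' : ∀ g : G, α'.map (φ g) = α' := by
    intro g
    have h3 : α * α'.map (φ g) = 1 := by
      have h4 : (α * α').map (φ g) = α.map (φ g) * α'.map (φ g) := Matrix.map_mul
      rw [hfa g] at h4
      rw [← h4, h1]
      exact Matrix.map_one _ (map_zero _) (map_one _)
    calc α'.map (φ g) = α' * α * α'.map (φ g) := by rw [h2, one_mul]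
      _ = α' := by rw [mul_assoc, h3, mul_one]
  obtain ⟨u, hu⟩ : ∃ u : GLm k X n, (u : Matrix (Fin n) (Fin n) (A k X)) = α' :=
    ⟨⟨α', α, h2, h1⟩, rfl⟩
  refine ⟨u * h, ?_, ?_⟩
  · intro j
    rw [T_mem s hbs]
    have h3 : ∀ l, co b (rw' (u * h) j) l =
        ∑ i, α' j i * (a : Matrix (Fin n) (Fin n) (A k X)) i l := by
      intro l
      rw [co_rw_mul, mul_assoc, ← hae, Units.val_mul, hu, Matrix.mul_apply]
    have h5 : ∀ i, s i ≠ s j → α' j i = 0 := by
      intro i hi
      rw [hα']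
      exact if_neg hi
    intro l
    constructor
    · intro hjl
      rw [h3]
      refine Finset.sum_eq_zero fun i _ => ?_
      by_cases hi : s i = s j
      · rw [ha i l (by rw [hi]; exact hjl), mul_zero]
      · rw [h5 i hi, zero_mul]
    · intro hjl
      have h6 : co b (rw' (u * h) j) l = (1 : Matrix (Fin n) (Fin n) (A k X)) j l := by
        rw [h3, ← h2, Matrix.mul_apply]
        refine Finset.sum_congr rfl fun i _ => ?_
        by_cases hi : s i = s j
        · have h7 : α i l = (a : Matrix (Fin n) (Fin n) (A k X)) i l := by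
            rw [hα]
            exact if_pos (hjl.trans hi.symm)
          rw [h7]
        · rw [h5 i hi, zero_mul, zero_mul]
      rw [h6, Matrix.one_apply]
      split_ifs
      · exact ⟨1, map_one _⟩
      · exact ⟨0, map_zero _⟩
  · intro g j
    rw [row_mul', map_sum]
    refine Finset.sum_congr rfl fun l _ => ?_
    rw [ρ.semi, hfix, hu]
    have h3 : φ g (α' j l) = α' j l := by
      have h4 := congrFun (congrFun (hfa' g) j) l
      rwa [Matrix.map_apply] at h4
    rw [h3]

end Pool.Agent.SMF
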