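import Pool.Agent.SMF.CplE
import Pool.Agent.SMF.GoodD

/-!
# SMF-CplG: all complete fixed refinements of a flag are simultaneously good (imports CplE, FlB, FlC, FlD, GoodD, GoodU, Gal)

PLAN.  `β` of `T_spec t`, `b` adapted.  `c = flagT b id_mono hF`, `c' = flagT b id_mono hF'` (`flag_of`), `F`, `F'` stable, refining `β`.  `gallery` with `S U := ∀ g, ∀ v ∈ U, v ᵥ* bm ρ t b g ∈ U` (closed under sums).  Induction along the path for the statement
`∀ hA : FlP A, Good ρ (flagT b id_mono hA)` (`Relation.ReflTransGen.head_induction_on` / `trans_induction_on`).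
One step `A → B`, equal outside `r`: `Rf β A` and `Rf β B` since `F (hi β j) = F' (hi β j)` etc.  If `A r = B r` then `A = B`: trivial.  So `A r ≠ B r`, hence `0 < r < n` (`A 0 = ⊥`, `A i = ⊤` for `i ≥ n`) and `β (r - 1) = β r` as indices (otherwise `r = lo β r` and `A r = csub _ = B r`).
Let `γ j = j` except `γ r = r - 1` (monotone, finer than `β`).  `lo γ j`, `hi γ j` are `(j, j + 1)` for `j ∉ {r - 1, r}` and `(r - 1, r + 1)` for `j ∈ {r - 1, r}` (`lo_iff`, `hi_iff` or direct), never `r`; so `flagT b γ A = flagT b γ B =: s` (`flag_congr`), `s ≤ flagT b id A`, `s ≤ flagT b id B` (`flag_le`).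
`Triv ρ s` by `flag_triv`: for `j ∉ {r - 1, r}`: `one_step`.  For `j ∈ {r - 1, r}`: `A (r + 1) = A r ⊔ B r` (both of dimension `r`, different, contained in `A (r + 1) = B (r + 1)` of dimension `r + 1`), and for `v ∈ A r`: `v ᵥ* bm - v ∈ A (r - 1)` (`one_step`), for
`v ∈ B r`: `∈ B (r - 1) = A (r - 1)`.  Then `good_down` (from `flagT b id A` to `s`) and `good_up`.
-/

namespace Pool.Agent.SMF

open Matrix Module

variable {k X : Type*} [Field k] {n : ℕ} {G : Type*} [Group G] {φ : G →* (A k X ≃ₐ[k] A k X)}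

private theorem fl_bot {F : ℕ → Submodule k (Fin n → k)} (hF : FlP F) : F 0 = ⊥ :=
  Submodule.finrank_eq_zero.1 (hF.2 0 (Nat.zero_le _))

private theorem fl_top {F : ℕ → Submodule k (Fin n → k)} (hF : FlP F) {i : ℕ} (hi : n ≤ i) : F i = ⊤ := by
  have h1 : F (finrank k (Fin n → k)) = ⊤ := Submodule.eq_top_of_finrank_eq (hF.2 _ le_rfl)
  refine top_le_iff.1 ?_
  rw [← h1]
  refine monotone_nat_of_le_succ hF.1 ?_
  rw [Module.finrank_fin_fun]
  exact hi

private theorem fl_dim {F : ℕ → Submodule k (Fin n → k)} (hF : FlP F) {i : ℕ} (hi : i ≤ n) :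
    finrank k (F i) = i := hF.2 i (by rw [Module.finrank_fin_fun]; exact hi)

private theorem hi_le (γ : Fin n → ℤ) (j : Fin n) : hi γ j ≤ n := by
  unfold hi
  exact (Finset.card_le_univ _).trans (Fintype.card_fin n).le

private theorem lo_le (γ : Fin n → ℤ) (j : Fin n) : lo γ j ≤ n := by
  unfold lo
  exact (Finset.card_le_univ _).trans (Fintype.card_fin n).le

/-- the coarsening which joins the indices `q` and `q + 1` -/
private def cg (n q : ℕ) (j : Fin n) : ℤ := if (j : ℕ) = q + 1 then (q : ℤ) else ((j : ℕ) : ℤ)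

private theorem cg_mono (q : ℕ) : Monotone (cg n q) := by
  intro a b h
  have h1 : (a : ℕ) ≤ b := h
  unfold cg
  split_ifs <;> omega

private theorem sup_eq {A B : ℕ → Submodule k (Fin n → k)} (hA : FlP A) (hB : FlP B) {q : ℕ}
    (hq : q + 1 < n) (hne : A (q + 1) ≠ B (q + 1)) (h2 : A (q + 2) = B (q + 2)) :
    A (q + 1) ⊔ B (q + 1) = A (q + 2) := by
  have d1 := fl_dim hA hq.le
  have d2 := fl_dim hB hq.le
  have d3 : finrank k (A (q + 2)) = q + 2 := fl_dim hA (by omega)
  have hle : A (q + 1) ⊔ B (q + 1) ≤ A (q + 2) := sup_le (hA.1 _) (by rw [h2]; exact hB.1 _)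
  refine Submodule.eq_of_le_of_finrank_le hle ?_
  rw [d3]
  have hlt : A (q + 1) < A (q + 1) ⊔ B (q + 1) := by
    refine lt_of_le_of_ne le_sup_left fun h => hne ?_
    have h3 : B (q + 1) ≤ A (q + 1) := by
      rw [h]
      exact le_sup_right
    exact (Submodule.eq_of_le_of_finrank_eq h3 (by rw [d1, d2])).symm
  have h4 := Submodule.finrank_lt_finrank_of_lt hlt
  rw [d1] at h4
  exact h4

private theorem step {p : ℕ} [Fact p.Prime] [CharP k p] [Finite G] (hG : IsPGroup p G) {ρ : SAct φ n}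
    {t : T k X n} (ht : ρ.Fx t) {b : GLm k X n} (hb : Ad b t) {β : Fin n → ℤ} (hβm : Monotone β)
    (hβ : ∀ j l, t j ≤ t l ↔ β j ≤ β l) {A B : ℕ → Submodule k (Fin n → k)} (hA : FlP A) (hB : FlP B)
    (hRA : Rf β A) (hRB : Rf β B) (hSA : ∀ g i, ∀ v ∈ A i, v ᵥ* bm ρ t b g ∈ A i)
    (hSB : ∀ g i, ∀ v ∈ B i, v ᵥ* bm ρ t b g ∈ B i) {r : ℕ} (hr : ∀ i, i ≠ r → A i = B i)
    (h : Good ρ (flagT b id_mono hA)) : Good ρ (flagT b id_mono hB) := by
  by_cases hAB : A r = B r
  · have h1 : A = B := by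
      funext i
      by_cases hi : i = r
      · rw [hi, hAB]
      · exact hr i hi
    subst h1
    exact h
  have hr0 : r ≠ 0 := by
    rintro rfl
    exact hAB (by rw [fl_bot hA, fl_bot hB])
  have hrn : r < n := by
    by_contra hcon
    exact hAB (by rw [fl_top hA (by omega), fl_top hB (by omega)])
  obtain ⟨q, rfl⟩ : ∃ q, r = q + 1 := ⟨r - 1, by omega⟩
  have hβq : β ⟨q + 1, hrn⟩ ≤ β ⟨q, by omega⟩ := by
    by_contra hcon
    have hlt : β ⟨q, by omega⟩ < β ⟨q + 1, hrn⟩ := not_le.1 hcon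
    have e1 := (lo_iff hβm ⟨q + 1, hrn⟩ ⟨q, by omega⟩).1 hlt
    have e2 : ¬ ((q + 1 : ℕ) < lo β ⟨q + 1, hrn⟩) := fun h2 =>
      absurd ((lo_iff hβm ⟨q + 1, hrn⟩ ⟨q + 1, hrn⟩).2 h2) (lt_irrefl _)
    have e3 : lo β ⟨q + 1, hrn⟩ = q + 1 := by
      have e4 : q < lo β ⟨q + 1, hrn⟩ := e1
      omega
    apply hAB
    have e5 := (hRA ⟨q + 1, hrn⟩).1
    have e6 := (hRB ⟨q + 1, hrn⟩).1
    rw [e3] at e5 e6
    rw [e5, e6]
  have hγ : Monotone (cg n q) := cg_mono q
  have hcq : cg n q ⟨q, by omega⟩ = q := by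
    unfold cg
    rw [if_neg (by simp)]
  have hcq1 : cg n q ⟨q + 1, hrn⟩ = q := by
    unfold cg
    rw [if_pos rfl]
  have hγβ : ∀ j l, cg n q j ≤ cg n q l → β j ≤ β l := by
    intro j l hjl
    by_cases h1 : (j : ℕ) ≤ l
    · exact hβm h1
    · have h2 : (j : ℕ) = q + 1 ∧ (l : ℕ) = q := by
        unfold cg at hjl
        split_ifs at hjl <;> omega
      have h3 : j = ⟨q + 1, hrn⟩ := Fin.ext h2.1
      have h4 : l = ⟨q, by omega⟩ := Fin.ext h2.2
      rw [h3, h4]
      exact hβq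
  have hlo : ∀ j, lo (cg n q) j ≠ q + 1 := by
    intro j hj
    have h1 := (lo_iff hγ j ⟨q, by omega⟩).2 (by rw [hj]; exact Nat.lt_succ_self q)
    have h2 := fun h3 => (lo_iff hγ j ⟨q + 1, hrn⟩).1 h3
    rw [hcq1] at h2
    rw [hcq] at h1
    have h3 := h2 h1
    rw [hj] at h3
    exact lt_irrefl _ h3
  have hhi : ∀ j, hi (cg n q) j ≠ q + 1 := by
    intro j hj
    have h1 := (hi_iff hγ j ⟨q, by omega⟩).2 (by rw [hj]; exact Nat.lt_succ_self q)
    have h2 := fun h3 => (hi_iff hγ j ⟨q + 1, hrn⟩).1 h3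
    rw [hcq1] at h2
    rw [hcq] at h1
    have h3 := h2 h1
    rw [hj] at h3
    exact lt_irrefl _ h3
  have hcongr : flagT b hγ hA = flagT b hγ hB :=
    flag_congr b hγ hA hB fun j => ⟨hr _ (hlo j), hr _ (hhi j)⟩
  have hleA : flagT b hγ hA ≤ flagT b id_mono hA := flag_le b hγ id_mono hA fun j l hjl => hγ (by
    have h1 : ((j : ℕ) : ℤ) ≤ ((l : ℕ) : ℤ) := hjl
    have h2 : (j : ℕ) ≤ l := by exact_mod_cast h1
    exact h2)
  have hleB : flagT b hγ hB ≤ flagT b id_mono hB := flag_le b hγ id_mono hB fun j l hjl => hγ (by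
    have h1 : ((j : ℕ) : ℤ) ≤ ((l : ℕ) : ℤ) := hjl
    have h2 : (j : ℕ) ≤ l := by exact_mod_cast h1
    exact h2)
  have htriv : Triv ρ (flagT b hγ hA) := by
    refine flag_triv ht hb hβm hβ hA hRA hSA hγ hγβ ?_
    intro g j v hv
    by_cases hj : (j : ℕ) = q ∨ (j : ℕ) = q + 1
    · have hcj : cg n q j = q := by
        unfold cg
        rcases hj with h1 | h1
        · rw [if_neg (by omega), h1]
        · rw [if_pos h1]
      have l1 : lo (cg n q) j = q := by
        have e1 : ¬ (q < lo (cg n q) j) := fun h2 => by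
          have h3 := (lo_iff hγ j ⟨q, by omega⟩).2 h2
          rw [hcq, hcj] at h3
          exact lt_irrefl _ h3
        by_contra hcon
        have h4 : lo (cg n q) j < q := by omega
        have h5 : ¬ (cg n q ⟨lo (cg n q) j, by omega⟩ < cg n q j) := fun h6 =>
          lt_irrefl _ ((lo_iff hγ j ⟨lo (cg n q) j, by omega⟩).1 h6)
        apply h5
        rw [hcj]
        unfold cg
        rw [if_neg (by
          show ¬ (lo (cg n q) j = q + 1)
          omega)]
        exact Int.ofNat_lt.2 h4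
      have l2 : hi (cg n q) j = q + 2 := by
        have e1 : q + 1 < hi (cg n q) j := (hi_iff hγ j ⟨q + 1, hrn⟩).1 (by rw [hcq1, hcj])
        by_contra hcon
        have h4 : q + 2 < hi (cg n q) j := by omega
        have h5 := hi_le (cg n q) j
        have h6 := (hi_iff hγ j ⟨q + 2, by omega⟩).2 h4
        rw [hcj] at h6
        unfold cg at h6
        rw [if_neg (by
          show ¬ (q + 2 = q + 1)
          omega)] at h6
        push_cast at h6
        omega
      rw [l1]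
      rw [l2, ← sup_eq hA hB hrn hAB (hr (q + 2) (by omega))] at hv
      obtain ⟨a, ha, b', hb', rfl⟩ := Submodule.mem_sup.1 hv
      have h1 := one_step hG ht hb hA hSA g (i := q) (by omega) ha
      have h2 := one_step hG ht hb hB hSB g (i := q) (by omega) hb'
      rw [← hr q (by omega)] at h2
      have h3 := Submodule.add_mem _ h1 h2
      have h4 : (a + b') ᵥ* bm ρ t b g - (a + b') =
          (a ᵥ* bm ρ t b g - a) + (b' ᵥ* bm ρ t b g - b') := by
        rw [Matrix.add_vecMul]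
        abel
      rw [h4]
      exact h3
    · have hj1 : (j : ℕ) ≠ q := fun h1 => hj (Or.inl h1)
      have hj2 : (j : ℕ) ≠ q + 1 := fun h1 => hj (Or.inr h1)
      have hcj : cg n q j = ((j : ℕ) : ℤ) := by
        unfold cg
        rw [if_neg hj2]
      have l1 : lo (cg n q) j = j := by
        have e1 : ¬ ((j : ℕ) < lo (cg n q) j) := fun h2 =>
          lt_irrefl _ ((lo_iff hγ j j).2 h2)
        by_contra hcon
        have h4 : lo (cg n q) j < j := by omega
        have h5 : ¬ (cg n q ⟨lo (cg n q) j, by omega⟩ < cg n q j) := fun h6 =>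
          lt_irrefl _ ((lo_iff hγ j ⟨lo (cg n q) j, by omega⟩).1 h6)
        apply h5
        rw [hcj]
        unfold cg
        split_ifs with h7
        · have h8 : lo (cg n q) j = q + 1 := h7
          omega
        · exact Int.ofNat_lt.2 h4
      have l2 : hi (cg n q) j = (j : ℕ) + 1 := by
        have e1 : (j : ℕ) < hi (cg n q) j := (hi_iff hγ j j).1 le_rfl
        by_contra hcon
        have h4 : (j : ℕ) + 1 < hi (cg n q) j := by omega
        have h5 := hi_le (cg n q) j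
        have h6 := (hi_iff hγ j ⟨(j : ℕ) + 1, by omega⟩).2 h4
        rw [hcj] at h6
        unfold cg at h6
        split_ifs at h6 with h7
        · have h8 : (j : ℕ) + 1 = q + 1 := h7
          omega
        · push_cast at h6
          omega
      rw [l1]
      rw [l2] at hv
      exact one_step hG ht hb hA hSA g j.2 hv
  have hd : Good ρ (flagT b hγ hA) := good_down h hleA htriv
  rw [hcongr] at hd
  exact good_up hd hleB

theorem good_cpl {p : ℕ} [Fact p.Prime] [CharP k p] [Finite G] (hG : IsPGroup p G) {ρ : SAct φ n} {t c c' : T k X n}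
    (ht : ρ.Fx t) (hc : t ≤ c) (hc' : t ≤ c') (h1 : Cpl c) (h1' : Cpl c') (h2 : ρ.Fx c) (h2' : ρ.Fx c')
    (h : Good ρ c) : Good ρ c' := by
  obtain ⟨β, hβm, hβ, -, b, hb⟩ := T_spec t
  obtain ⟨F, hF, hR, hst, hcF⟩ := flag_of ht hb hβm hβ hc h1 h2
  obtain ⟨F', hF', hR', hst', hcF'⟩ := flag_of ht hb hβm hβ hc' h1' h2'
  have hpath := gallery (fun U : Submodule k (Fin n → k) => ∀ g, ∀ v ∈ U, v ᵥ* bm ρ t b g ∈ U) (by
    intro U W hU hW g v hv
    obtain ⟨a, ha, b', hb', rfl⟩ := Submodule.mem_sup.1 hv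
    rw [Matrix.add_vecMul]
    exact Submodule.add_mem_sup (hU g a ha) (hW g b' hb')) hF hF' (fun i g v hv => hst g i v hv)
    (fun i g v hv => hst' g i v hv)
  have hFF : ∀ j, F (lo β j) = F' (lo β j) ∧ F (hi β j) = F' (hi β j) := fun j =>
    ⟨(hR j).1.trans (hR' j).1.symm, (hR j).2.trans (hR' j).2.symm⟩
  have key : ∀ B : ℕ → Submodule k (Fin n → k), Relation.ReflTransGen
      (fun A B : ℕ → Submodule k (Fin n → k) => FlP A ∧ FlP B ∧
        (∀ i, ∀ g, ∀ v ∈ A i, v ᵥ* bm ρ t b g ∈ A i) ∧ (∀ i, ∀ g, ∀ v ∈ B i, v ᵥ* bm ρ t b g ∈ B i) ∧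
        (∀ i, F i = F' i → A i = F i ∧ B i = F i) ∧ ∃ r, ∀ i, i ≠ r → A i = B i) F B →
      ∀ hB : FlP B, Good ρ (flagT b id_mono hB) := by
    intro B hFB
    induction hFB with
    | refl =>
      intro hB
      rw [hcF] at h
      exact h
    | tail _ hstep ih =>
      intro hB
      obtain ⟨hA, hB', hSA, hSB, hag, r, hr⟩ := hstep
      refine step hG ht hb hβm hβ hA hB (fun j => ⟨?_, ?_⟩) (fun j => ⟨?_, ?_⟩)
        (fun g i v hv => hSA i g v hv) (fun g i v hv => hSB i g v hv) hr (ih hA)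
      · rw [(hag _ (hFF j).1).1, (hR j).1]
      · rw [(hag _ (hFF j).2).1, (hR j).2]
      · rw [(hag _ (hFF j).1).2, (hR j).1]
      · rw [(hag _ (hFF j).2).2, (hR j).2]
  rw [hcF']
  exact key F' hpath hF'

end Pool.Agent.SMF
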