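import Mathlib

/-!
# SMF-CtG: one sided ideals of subalgebras of `k⟨X⟩`, `X` countable, are countably generated (Mathlib only)

The dimension of `k⟨X⟩` is countable.
-/

namespace Pool.Agent.SMF

private theorem cg_sub {k X : Type*} [Field k] [Countable X] (S : Subalgebra k (FreeAlgebra k X))
    (J : Submodule k S) : ∃ a : ℕ → S, J = Submodule.span k (Set.range a) := by
  have h1 : Module.rank k (FreeAlgebra k X) ≤ Cardinal.aleph0 := by
    rw [FreeAlgebra.rank_eq, Cardinal.lift_le_aleph0]
    exact Cardinal.mk_le_aleph0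
  have h2 : Module.rank k J ≤ Cardinal.aleph0 := by
    refine le_trans ?_ h1
    refine LinearMap.rank_le_of_injective (S.val.toLinearMap.comp J.subtype) ?_
    intro x y hxy
    exact Subtype.ext (Subtype.ext hxy)
  have hb := Module.Basis.ofVectorSpace k J
  have h3 : Countable (Module.Basis.ofVectorSpaceIndex k J) := by
    rw [← Cardinal.mk_le_aleph0_iff, hb.mk_eq_rank'']
    exact h2
  have h4 : Set.Countable (insert (0 : S) (Set.range fun i => ((hb i : J) : S))) :=
    (Set.countable_range _).insert 0
  obtain ⟨a, ha⟩ := h4.exists_eq_range (Set.insert_nonempty _ _)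
  refine ⟨a, ?_⟩
  rw [← ha, Submodule.span_insert_zero]
  have h5 : (Set.range fun i => ((hb i : J) : S)) = J.subtype '' Set.range hb := by
    rw [← Set.range_comp]
    rfl
  rw [h5, Submodule.span_image, hb.span_eq, Submodule.map_top, Submodule.range_subtype]

theorem ideal_cg {k X : Type*} [Field k] [Countable X] (S : Subalgebra k (FreeAlgebra k X)) (I : Submodule S S) :
    ∃ a : ℕ → S, I = Submodule.span S (Set.range a) := by
  obtain ⟨a, ha⟩ := cg_sub S (I.restrictScalars k)
  refine ⟨a, le_antisymm ?_ ?_⟩
  · intro x hx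
    have h1 : x ∈ I.restrictScalars k := hx
    rw [ha] at h1
    exact Submodule.span_le_restrictScalars k S (Set.range a) h1
  · rw [Submodule.span_le]
    intro x hx
    have h1 : x ∈ I.restrictScalars k := by
      rw [ha]
      exact Submodule.subset_span hx
    exact h1

theorem ideal_cg_r {k X : Type*} [Field k] [Countable X] (S : Subalgebra k (FreeAlgebra k X))
    (I : Submodule Sᵐᵒᵖ S) : ∃ a : ℕ → S, I = Submodule.span Sᵐᵒᵖ (Set.range a) := by
  obtain ⟨a, ha⟩ := cg_sub S (I.restrictScalars k)
  refine ⟨a, le_antisymm ?_ ?_⟩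
  · intro x hx
    have h1 : x ∈ I.restrictScalars k := hx
    rw [ha] at h1
    exact Submodule.span_le_restrictScalars k Sᵐᵒᵖ (Set.range a) h1
  · rw [Submodule.span_le]
    intro x hx
    have h1 : x ∈ I.restrictScalars k := by
      rw [ha]
      exact Submodule.subset_span hx
    exact h1

end Pool.Agent.SMF
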