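import Mathlib

/-!
# Project SMF (MP_5e1856_al): invariants of groups of prime power order.  Basic definitions.

`A k X` is the free algebra `k⟨X⟩`, `cf w a` the coefficient of the word `w` in `a`, `ep` the augmentation,
`dl y a` the left derivative (`a = ep a + ∑_y y * dl y a`), `Fil d` the elements of degree at most `d`.
`V n = Fin n → A` is the free left module of rank `n` (rows), `GLm n` the invertible `n × n` matrices; the rows of
`g ∈ GLm n` form a basis and `co g m = m * g⁻¹` are the coordinates of `m` in that basis.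
-/

namespace Pool.Agent.SMF

open Matrix

noncomputable section

/-- the free algebra -/
abbrev A (k X : Type*) [Field k] := FreeAlgebra k X

variable {k X : Type*} [Field k]

/-- the coefficient of a word -/
def cf (w : FreeMonoid X) (a : A k X) : k := (FreeAlgebra.equivMonoidAlgebraFreeMonoid a).coeff w

/-- the augmentation -/
def ep (a : A k X) : k := FreeAlgebra.algebraMapInv a

/-- the left derivative -/
def dl (y : X) (a : A k X) : A k X :=
  FreeAlgebra.equivMonoidAlgebraFreeMonoid.symm
    (MonoidAlgebra.ofCoeff (Finsupp.comapDomain (fun w => FreeMonoid.of y * w)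
      (FreeAlgebra.equivMonoidAlgebraFreeMonoid a).coeff (fun _ _ _ _ h => mul_left_cancel h)))

/-- the elements of degree at most `d` -/
def Fil (d : ℤ) : Submodule k (A k X) where
  carrier := {a | ∀ w : FreeMonoid X, cf w a ≠ 0 → (w.length : ℤ) ≤ d}
  add_mem' := by
    intro a b ha hb w hw
    by_contra hcon
    apply hw
    have h1 : cf w a = 0 := by
      by_contra h
      exact hcon (ha w h)
    have h2 : cf w b = 0 := by
      by_contra h
      exact hcon (hb w h)
    have h3 : cf w (a + b) = cf w a + cf w b := by simp [cf]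
    rw [h3, h1, h2, add_zero]
  zero_mem' := by
    intro w hw
    simp [cf] at hw
  smul_mem' := by
    intro c a ha w hw
    apply ha w
    intro h
    apply hw
    have h3 : cf w (c • a) = c * cf w a := by simp [cf]
    rw [h3, h, mul_zero]

/-- rows -/
abbrev V (k X : Type*) [Field k] (n : ℕ) := Fin n → A k X

/-- invertible matrices -/
abbrev GLm (k X : Type*) [Field k] (n : ℕ) := (Matrix (Fin n) (Fin n) (A k X))ˣ

variable {n : ℕ}

/-- the rows of `g` -/
abbrev rw' (g : GLm k X n) (j : Fin n) : V k X n := (g : Matrix (Fin n) (Fin n) (A k X)) j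

/-- coordinates with respect to the rows of `g` -/
def co (g : GLm k X n) (m : V k X n) : V k X n := m ᵥ* ((g⁻¹ : GLm k X n) : Matrix (Fin n) (Fin n) (A k X))

/-- the level submodules of the flag with `k`-structures given by a basis and a monotone function. -/
def Um (g : GLm k X n) (β : Fin n → ℤ) (j : Fin n) : Submodule k (V k X n) where
  carrier := {m | ∀ l, (β j < β l → co g m l = 0) ∧
    (β l = β j → co g m l ∈ Set.range (algebraMap k (A k X)))}
  add_mem' := by
    intro a b ha hb l
    have h3 : co g (a + b) l = co g a l + co g b l := by simp [co, Matrix.add_vecMul]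
    refine ⟨fun h => by rw [h3, (ha l).1 h, (hb l).1 h, add_zero], fun h => ?_⟩
    obtain ⟨c, hc⟩ := (ha l).2 h
    obtain ⟨d, hd⟩ := (hb l).2 h
    exact ⟨c + d, by rw [h3, ← hc, ← hd, map_add]⟩
  zero_mem' := by
    intro l
    have h3 : co g (0 : V k X n) l = 0 := by simp [co]
    exact ⟨fun _ => h3, fun _ => ⟨0, by rw [h3, map_zero]⟩⟩
  smul_mem' := by
    intro c a ha l
    have h3 : co g (c • a) l = c • co g a l := by simp [co, Matrix.smul_vecMul]
    refine ⟨fun h => by rw [h3, (ha l).1 h, smul_zero], fun h => ?_⟩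
    obtain ⟨d, hd⟩ := (ha l).2 h
    exact ⟨c * d, by rw [h3, ← hd, map_mul, Algebra.smul_def]⟩

/-- The flags with `k`-structures. -/
def T (k X : Type*) [Field k] (n : ℕ) :=
  {U : Fin n → Submodule k (V k X n) // ∃ (g : GLm k X n) (β : Fin n → ℤ), Monotone β ∧ U = Um g β}

instance : CoeFun (T k X n) (fun _ => Fin n → Submodule k (V k X n)) := ⟨fun t => t.1⟩

/-- `g` is adapted to `t` -/
def Ad (g : GLm k X n) (t : T k X n) : Prop := ∀ j, rw' g j ∈ t j

/-- `s` is coarser than `t` -/
def Le (s t : T k X n) : Prop :=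
  (∀ j l, t j ≤ t l → s j ≤ s l) ∧ ∃ h : GLm k X n, Ad h s ∧ Ad h t

/-- Lattices. -/
@[ext] structure Lat (k X : Type*) [Field k] (n : ℕ) where
  fil : ℤ → Submodule k (V k X n)
  mono : Monotone fil
  low : ∃ d, fil d = ⊥
  exh : ∀ m, ∃ d, m ∈ fil d
  star : ∀ d m, (∀ j, ep (m j) = 0) → (m ∈ fil d ↔ ∀ y, (fun j => dl y (m j)) ∈ fil (d - 1))

instance : PartialOrder (Lat k X n) where
  le Λ Λ' := ∀ d, Λ.fil d ≤ Λ'.fil d
  le_refl Λ d := le_refl _
  le_trans Λ Λ' Λ'' h h' d := (h d).trans (h' d)
  le_antisymm Λ Λ' h h' := Lat.ext (funext fun d => le_antisymm (h d) (h' d))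

/-- the filtration with basis the rows of `g`, in degrees `D`, variables of weight `w` -/
def filW (w : ℕ) (g : GLm k X n) (D : Fin n → ℤ) (d : ℤ) : Submodule k (V k X n) where
  carrier := {m | ∀ j, co g m j ∈ Fil (k := k) (X := X) ((d - D j) / (w : ℤ))}
  add_mem' := by
    intro a b ha hb l
    have h3 : co g (a + b) l = co g a l + co g b l := by simp [co, Matrix.add_vecMul]
    rw [h3]
    exact Submodule.add_mem _ (ha l) (hb l)
  zero_mem' := by
    intro l
    have h3 : co g (0 : V k X n) l = 0 := by simp [co]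
    rw [h3]
    exact Submodule.zero_mem _
  smul_mem' := by
    intro c a ha l
    have h3 : co g (c • a) l = c • co g a l := by simp [co, Matrix.smul_vecMul]
    rw [h3]
    exact Submodule.smul_mem _ _ (ha l)

end

end Pool.Agent.SMF
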