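import Mathlib

/-!
# SMF-FirT: transport of freeness of one sided ideals along ring isomorphisms (Mathlib only)
-/

namespace Pool.Agent.SMF

/-- free ideal rings: all one sided ideals are free of unique rank -/
def IsFir (S : Type*) [Ring S] : Prop :=
  InvariantBasisNumber S ∧ (∀ I : Submodule S S, Module.Free S I) ∧
    ∀ I : Submodule Sᵐᵒᵖ S, Module.Free Sᵐᵒᵖ I

/-- all countably generated one sided ideals are free of unique rank -/
def IsCFir (S : Type*) [Ring S] : Prop :=
  InvariantBasisNumber S ∧ (∀ a : ℕ → S, Module.Free S (Submodule.span S (Set.range a))) ∧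
    ∀ a : ℕ → S, Module.Free Sᵐᵒᵖ (Submodule.span Sᵐᵒᵖ (Set.range a))

section

variable {R R' M M' : Type*} [Ring R] [Ring R'] [AddCommGroup M] [AddCommGroup M'] [Module R M] [Module R' M']

/-- the preimage of a submodule -/
private def firtPre (σ : R ≃+* R') (f : M ≃+ M') (hf : ∀ c x, f (c • x) = σ c • f x) (I' : Submodule R' M') :
    Submodule R M where
  carrier := {x | f x ∈ I'}
  add_mem' := by
    intro a b ha hb
    show f (a + b) ∈ I'
    rw [map_add]
    exact I'.add_mem ha hb
  zero_mem' := by
    show f 0 ∈ I'
    rw [map_zero]
    exact I'.zero_mem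
  smul_mem' := by
    intro c a ha
    show f (c • a) ∈ I'
    rw [hf]
    exact I'.smul_mem _ ha

private theorem firt_free (σ : R ≃+* R') (f : M ≃+ M') (hf : ∀ c x, f (c • x) = σ c • f x) (I' : Submodule R' M')
    (h : Module.Free R (firtPre σ f hf I')) : Module.Free R' I' := by
  have : RingHomInvPair (σ : R →+* R') (σ.symm : R' →+* R) := RingHomInvPair.of_ringEquiv σ
  have : RingHomInvPair (σ.symm : R' →+* R) (σ : R →+* R') := RingHomInvPair.symm _ _
  obtain ⟨e, -⟩ : ∃ e : firtPre σ f hf I' ≃ₛₗ[(σ : R →+* R')] I', True :=
    ⟨{ toFun := fun x => ⟨f x.1, x.2⟩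
       map_add' := fun x y => Subtype.ext (map_add f _ _)
       map_smul' := fun c x => Subtype.ext (hf c x.1)
       invFun := fun y => ⟨f.symm y.1, by
        show f (f.symm y.1) ∈ I'
        rw [AddEquiv.apply_symm_apply]
        exact y.2⟩
       left_inv := fun x => Subtype.ext (f.symm_apply_apply _)
       right_inv := fun y => Subtype.ext (f.apply_symm_apply _) }, trivial⟩
  exact Module.Free.of_equiv e

private theorem firt_span (σ : R ≃+* R') (f : M ≃+ M') (hf : ∀ c x, f (c • x) = σ c • f x) (a : ℕ → M') :
    firtPre σ f hf (Submodule.span R' (Set.range a)) = Submodule.span R (Set.range fun i => f.symm (a i)) := by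
  apply le_antisymm
  · have key : ∀ y ∈ Submodule.span R' (Set.range a), f.symm y ∈ Submodule.span R (Set.range fun i => f.symm (a i)) := by
      intro y hy
      induction hy using Submodule.span_induction with
      | mem y hy =>
        obtain ⟨i, rfl⟩ := hy
        exact Submodule.subset_span ⟨i, rfl⟩
      | zero =>
        rw [map_zero]
        exact Submodule.zero_mem _
      | add x y _ _ h1 h2 =>
        rw [map_add]
        exact Submodule.add_mem _ h1 h2
      | smul c x _ h1 =>
        have h2 : f.symm (c • x) = σ.symm c • f.symm x := by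
          apply f.injective
          rw [AddEquiv.apply_symm_apply, hf, RingEquiv.apply_symm_apply, AddEquiv.apply_symm_apply]
        rw [h2]
        exact Submodule.smul_mem _ _ h1
    intro x hx
    have h1 := key (f x) hx
    rwa [AddEquiv.symm_apply_apply] at h1
  · rw [Submodule.span_le]
    rintro _ ⟨i, rfl⟩
    show f (f.symm (a i)) ∈ Submodule.span R' (Set.range a)
    rw [AddEquiv.apply_symm_apply]
    exact Submodule.subset_span ⟨i, rfl⟩

end

private theorem firt_ibn {S S' : Type*} [Ring S] [Ring S'] (e : S ≃+* S') (h : InvariantBasisNumber S) :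
    InvariantBasisNumber S' := by
  refine ⟨fun {n m} f => ?_⟩
  refine h.eq_of_fin_equiv (n := n) (m := m) ?_
  exact
    { toFun := fun x i => e.symm (f (fun j => e (x j)) i)
      map_add' := by
        intro x y
        funext i
        have h1 : (fun j => e ((x + y) j)) = (fun j => e (x j)) + fun j => e (y j) := by
          funext j
          exact map_add e _ _
        show e.symm (f (fun j => e ((x + y) j)) i) = _
        rw [h1, map_add, Pi.add_apply, map_add]
        rfl
      map_smul' := by
        intro c x
        funext i
        have h1 : (fun j => e ((c • x) j)) = e c • fun j => e (x j) := by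
          funext j
          exact map_mul e _ _
        show e.symm (f (fun j => e ((c • x) j)) i) = _
        rw [h1, map_smul, Pi.smul_apply, smul_eq_mul, map_mul, RingEquiv.symm_apply_apply]
        rfl
      invFun := fun x i => e.symm (f.symm (fun j => e (x j)) i)
      left_inv := by
        intro x
        funext i
        show e.symm (f.symm (fun j => e (e.symm (f (fun j => e (x j)) j))) i) = x i
        have h1 : (fun j => e (e.symm (f (fun j => e (x j)) j))) = f fun j => e (x j) := by
          funext j
          exact e.apply_symm_apply _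
        rw [h1, LinearEquiv.symm_apply_apply, RingEquiv.symm_apply_apply]
      right_inv := by
        intro x
        funext i
        show e.symm (f (fun j => e (e.symm (f.symm (fun j => e (x j)) j))) i) = x i
        have h1 : (fun j => e (e.symm (f.symm (fun j => e (x j)) j))) = f.symm fun j => e (x j) := by
          funext j
          exact e.apply_symm_apply _
        rw [h1, LinearEquiv.apply_symm_apply, RingEquiv.symm_apply_apply] }

private theorem firt_left {S S' : Type*} [Ring S] [Ring S'] (e : S ≃+* S') (c x : S) :
    e.toAddEquiv (c • x) = e c • e.toAddEquiv x := map_mul e c x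

private theorem firt_right {S S' : Type*} [Ring S] [Ring S'] (e : S ≃+* S') (c : Sᵐᵒᵖ) (x : S) :
    e.toAddEquiv (c • x) = RingEquiv.op e c • e.toAddEquiv x := map_mul e x c.unop

theorem fir_transport {S S' : Type*} [Ring S] [Ring S'] (e : S ≃+* S') (h : IsFir S) : IsFir S' := by
  refine ⟨firt_ibn e h.1, fun I => ?_, fun I => ?_⟩
  · exact firt_free e e.toAddEquiv (firt_left e) I (h.2.1 _)
  · exact firt_free (RingEquiv.op e) e.toAddEquiv (firt_right e) I (h.2.2 _)

theorem cfir_transport {S S' : Type*} [Ring S] [Ring S'] (e : S ≃+* S') (h : IsCFir S) : IsCFir S' := by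
  refine ⟨firt_ibn e h.1, fun a => ?_, fun a => ?_⟩
  · refine firt_free e e.toAddEquiv (firt_left e) _ ?_
    rw [firt_span]
    exact h.2.1 _
  · refine firt_free (RingEquiv.op e) e.toAddEquiv (firt_right e) _ ?_
    rw [firt_span]
    exact h.2.2 _

end Pool.Agent.SMF
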