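import Pool.Agent.SMF.RightF
import Pool.Agent.SMF.FirT

/-!
# SMF-Fin: invariants of groups with a normal subgroup of prime power index and free invariants (assembly)
-/

namespace Pool.Agent.SMF

open Pool.Agent.Helper71.FreeDefs

variable {k X : Type*} [Field k]

theorem fin_cfir (G : Subgroup (FreeAlgebra k X ≃ₐ[k] FreeAlgebra k X)) {p e : ℕ} (hp : p.Prime)
    (hG : Nat.card G = p ^ e) : IsCFir (invariants G) :=
  ⟨inv_ibn G, fun a => left_cg G hp hG a, fun a => right_cg G hp hG a⟩

theorem fin_fir [Countable X] (G : Subgroup (FreeAlgebra k X ≃ₐ[k] FreeAlgebra k X)) {p e : ℕ} (hp : p.Prime)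
    (hG : Nat.card G = p ^ e) : IsFir (invariants G) :=
  ⟨inv_ibn G, fun I => left_all G hp hG I, fun I => right_all G hp hG I⟩

section Ext

variable (G N : Subgroup (FreeAlgebra k X ≃ₐ[k] FreeAlgebra k X))

/-- `g ∈ G` maps the invariants of the normal subgroup `N` to themselves -/
theorem map_inv_N (hnor : ∀ g ∈ G, ∀ n ∈ N, g⁻¹ * n * g ∈ N) {g : FreeAlgebra k X ≃ₐ[k] FreeAlgebra k X} (hg : g ∈ G)
    {f : FreeAlgebra k X} (hf : f ∈ invariants N) : g f ∈ invariants N := by
  intro n hn
  have h1 : (g⁻¹ * n * g) f = f := hf _ (hnor g hg n hn)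
  have h2 : g ((g⁻¹ * n * g) f) = n (g f) := by
    simp [AlgEquiv.mul_apply]
  rw [h1] at h2
  exact h2.symm

/-- the action of `G` on the invariants of `N` -/
def actN (hnor : ∀ g ∈ G, ∀ n ∈ N, g⁻¹ * n * g ∈ N) : G →* (invariants N ≃ₐ[k] invariants N) where
  toFun g :=
    { toFun := fun f => ⟨(g : FreeAlgebra k X ≃ₐ[k] FreeAlgebra k X) f, map_inv_N G N hnor g.2 f.2⟩
      invFun := fun f => ⟨((g⁻¹ : G) : FreeAlgebra k X ≃ₐ[k] FreeAlgebra k X) f, map_inv_N G N hnor (g⁻¹).2 f.2⟩
      left_inv := fun f => Subtype.ext (by simp)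
      right_inv := fun f => Subtype.ext (by simp)
      map_mul' := fun a b => Subtype.ext (by simp)
      map_add' := fun a b => Subtype.ext (by simp)
      commutes' := fun c => Subtype.ext (by simp) }
  map_one' := by
    apply AlgEquiv.ext
    intro f
    rfl
  map_mul' g h := by
    apply AlgEquiv.ext
    intro f
    rfl

theorem actN_apply (hnor : ∀ g ∈ G, ∀ n ∈ N, g⁻¹ * n * g ∈ N) (g : G) (f : invariants N) :
    ((actN G N hnor g f : invariants N) : FreeAlgebra k X) = (g : FreeAlgebra k X ≃ₐ[k] FreeAlgebra k X) f := rfl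

/-- transport along an isomorphism with a free algebra -/
noncomputable def conjE {Y : Type*} (E : FreeAlgebra k Y ≃ₐ[k] invariants N) :
    (invariants N ≃ₐ[k] invariants N) →* (FreeAlgebra k Y ≃ₐ[k] FreeAlgebra k Y) where
  toFun u := (E.trans u).trans E.symm
  map_one' := by
    apply AlgEquiv.ext
    intro f
    show E.symm ((1 : invariants N ≃ₐ[k] invariants N) (E f)) = f
    simp
  map_mul' u v := by
    apply AlgEquiv.ext
    intro f
    show E.symm ((u * v) (E f)) = E.symm (u (E (E.symm (v (E f)))))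
    simp [AlgEquiv.mul_apply]

theorem ext_main (hle : N ≤ G) (hnor : ∀ g ∈ G, ∀ n ∈ N, g⁻¹ * n * g ∈ N) {p e : ℕ} (hp : p.Prime)
    (hidx : N.relIndex G = p ^ e) {Y : Type*} (E : FreeAlgebra k Y ≃ₐ[k] invariants N) :
    ∃ (H : Subgroup (FreeAlgebra k Y ≃ₐ[k] FreeAlgebra k Y)) (e' : ℕ), Nat.card H = p ^ e' ∧
      Nonempty (invariants H ≃+* invariants G) := by
  let Φ : G →* (FreeAlgebra k Y ≃ₐ[k] FreeAlgebra k Y) := (conjE N E).comp (actN G N hnor)
  have hΦ : ∀ (g : G) (f : FreeAlgebra k Y), Φ g f = E.symm (actN G N hnor g (E f)) := fun g f => rfl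
  have hker : N.subgroupOf G ≤ Φ.ker := by
    intro g hg
    rw [MonoidHom.mem_ker]
    apply AlgEquiv.ext
    intro f
    rw [hΦ]
    have h1 : actN G N hnor g (E f) = E f := by
      apply Subtype.ext
      rw [actN_apply]
      exact (E f).2 g.1 (Subgroup.mem_subgroupOf.mp hg)
    rw [h1]
    simp
  have hidx2 : Φ.ker.index ∣ p ^ e := by
    rw [← hidx]
    exact Subgroup.index_dvd_of_le hker
  obtain ⟨e', -, he'⟩ := (Nat.dvd_prime_pow hp).mp hidx2
  refine ⟨Φ.range, e', ?_, ⟨?_⟩⟩
  · rw [← he', Subgroup.index_ker]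
  · -- the isomorphism
    have hmem : ∀ f : FreeAlgebra k Y, f ∈ invariants Φ.range ↔ ((E f : invariants N) : FreeAlgebra k X) ∈ invariants G := by
      intro f
      constructor
      · intro h g hg
        have h1 : Φ ⟨g, hg⟩ f = f := h _ ⟨⟨g, hg⟩, rfl⟩
        rw [hΦ] at h1
        have h2 : actN G N hnor ⟨g, hg⟩ (E f) = E f := by
          have := congrArg E h1
          simpa using this
        have h3 := congrArg (fun x : invariants N => (x : FreeAlgebra k X)) h2
        exact h3
      · rintro h _ ⟨g, rfl⟩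
        show Φ g f = f
        rw [hΦ]
        have h1 : actN G N hnor g (E f) = E f := by
          apply Subtype.ext
          rw [actN_apply]
          exact h g.1 g.2
        rw [h1]
        simp
    have hmem2 : ∀ x : FreeAlgebra k X, x ∈ invariants G → x ∈ invariants N := fun x hx n hn => hx n (hle hn)
    exact
      { toFun := fun f => ⟨(E f.1 : invariants N), (hmem f.1).mp f.2⟩
        invFun := fun x => ⟨E.symm ⟨x.1, hmem2 x.1 x.2⟩, (hmem _).mpr (by simp)⟩
        left_inv := fun f => Subtype.ext (by simp)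
        right_inv := fun x => Subtype.ext (by simp)
        map_mul' := fun f g => Subtype.ext (by simp)
        map_add' := fun f g => Subtype.ext (by simp) }

end Ext

end Pool.Agent.SMF
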