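import Pool.Agent.SMF.Gal
import Pool.Agent.SMF.Ord

/-!
# SMF-FlA: flags with `k`-structures from complete flags of `k^n` (imports Gal for `FlP`, Ord, Spec, Umb)

`embk b v = ∑ v l • rw' b l`; `flagU b γ F j` = `A`-span of the image of `F (lo γ j)` plus the image of `F (hi γ j)`.
The rows of a matrix adapted to the flag are a basis of `k^n`.
-/

namespace Pool.Agent.SMF

open Matrix Module

variable {k X : Type*} [Field k] {n : ℕ}

/-- combinations of the rows of `b` with constant coefficients -/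
def embk (b : GLm k X n) : (Fin n → k) →ₗ[k] V k X n where
  toFun v := ∑ l, v l • rw' b l
  map_add' u v := by simp [add_smul, Finset.sum_add_distrib]
  map_smul' c v := by simp [mul_smul, Finset.smul_sum]

/-- number of indices below the block of `j` -/
def lo (γ : Fin n → ℤ) (j : Fin n) : ℕ := (Finset.univ.filter (fun l => γ l < γ j)).card

/-- number of indices up to the block of `j` -/
def hi (γ : Fin n → ℤ) (j : Fin n) : ℕ := (Finset.univ.filter (fun l => γ l ≤ γ j)).card

private theorem low_card (S : Finset (Fin n)) (hS : ∀ a b, a ≤ b → b ∈ S → a ∈ S) (l : Fin n) :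
    l ∈ S ↔ (l : ℕ) < S.card := by
  constructor
  · intro h
    have h1 : Finset.Iic l ⊆ S := fun a ha => hS a l (Finset.mem_Iic.1 ha) h
    have h2 := Finset.card_le_card h1
    rw [Fin.card_Iic] at h2
    omega
  · intro h
    by_contra hl
    have h1 : S ⊆ Finset.Iio l := by
      intro a ha
      rw [Finset.mem_Iio]
      by_contra hal
      exact hl (hS l a (not_lt.1 hal) ha)
    have h2 := Finset.card_le_card h1
    rw [Fin.card_Iio] at h2
    omega

theorem lo_iff {γ : Fin n → ℤ} (hγ : Monotone γ) (j l : Fin n) : γ l < γ j ↔ (l : ℕ) < lo γ j := by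
  unfold lo
  rw [← low_card]
  · rw [Finset.mem_filter]
    exact ⟨fun h => ⟨Finset.mem_univ _, h⟩, fun h => h.2⟩
  · intro a b hab hb
    rw [Finset.mem_filter] at hb ⊢
    exact ⟨Finset.mem_univ _, (hγ hab).trans_lt hb.2⟩

theorem hi_iff {γ : Fin n → ℤ} (hγ : Monotone γ) (j l : Fin n) : γ l ≤ γ j ↔ (l : ℕ) < hi γ j := by
  unfold hi
  rw [← low_card]
  · rw [Finset.mem_filter]
    exact ⟨fun h => ⟨Finset.mem_univ _, h⟩, fun h => h.2⟩
  · intro a b hab hb
    rw [Finset.mem_filter] at hb ⊢
    exact ⟨Finset.mem_univ _, (hγ hab).trans hb.2⟩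

/-- the level submodules -/
def flagU (b : GLm k X n) (γ : Fin n → ℤ) (F : ℕ → Submodule k (Fin n → k)) (j : Fin n) :
    Submodule k (V k X n) :=
  (Submodule.span (A k X) (embk b '' (F (lo γ j) : Set (Fin n → k)))).restrictScalars k ⊔
    (F (hi γ j)).map (embk b)

private theorem F_mono {F : ℕ → Submodule k (Fin n → k)} (hF : FlP F) : Monotone F := monotone_nat_of_le_succ hF.1

private theorem F_rank {F : ℕ → Submodule k (Fin n → k)} (hF : FlP F) {i : ℕ} (hi : i ≤ n) : finrank k (F i) = i := by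
  refine hF.2 i ?_
  rw [Module.finrank_fin_fun]
  exact hi

theorem exists_c {F : ℕ → Submodule k (Fin n → k)} (hF : FlP F) :
    ∃ c : (Matrix (Fin n) (Fin n) k)ˣ, ∀ j : Fin n, (c : Matrix (Fin n) (Fin n) k) j ∈ F ((j : ℕ) + 1) := by
  classical
  have h1 : ∀ j : Fin n, ∃ v ∈ F ((j : ℕ) + 1), v ∉ F (j : ℕ) := by
    intro j
    by_contra hc
    push Not at hc
    have h2 := Submodule.finrank_mono (show F ((j : ℕ) + 1) ≤ F (j : ℕ) from hc)
    rw [F_rank hF (by omega), F_rank hF (by omega)] at h2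
    omega
  choose c hc1 hc2 using h1
  have hli : LinearIndependent k (Matrix.of c).row := by
    rw [Fintype.linearIndependent_iff]
    intro g hg
    by_contra hne
    push Not at hne
    obtain ⟨i0, hi0⟩ := hne
    have hS : (Finset.univ.filter fun i => g i ≠ 0).Nonempty :=
      ⟨i0, Finset.mem_filter.2 ⟨Finset.mem_univ _, hi0⟩⟩
    obtain ⟨j, hjS, hjmax⟩ := Finset.exists_max_image _ id hS
    have hj : g j ≠ 0 := (Finset.mem_filter.1 hjS).2
    apply hc2 j
    have h3 : g j • c j = -∑ i ∈ Finset.univ.erase j, g i • c i := by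
      rw [eq_neg_iff_add_eq_zero]
      have h4 := Finset.add_sum_erase Finset.univ (fun i => g i • c i) (Finset.mem_univ j)
      rw [h4]
      exact hg
    have h5 : g j • c j ∈ F (j : ℕ) := by
      rw [h3]
      refine Submodule.neg_mem _ (Submodule.sum_mem _ fun i hi => ?_)
      have hij : i ≠ j := (Finset.mem_erase.1 hi).1
      rcases lt_or_gt_of_ne hij with h6 | h6
      · exact Submodule.smul_mem _ _ (F_mono hF (show (i : ℕ) + 1 ≤ (j : ℕ) from h6) (hc1 i))
      · have h7 : g i = 0 := by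
          by_contra h8
          exact absurd (hjmax i (Finset.mem_filter.2 ⟨Finset.mem_univ _, h8⟩)) (not_le.2 h6)
        rw [h7, zero_smul]
        exact Submodule.zero_mem _
    have h6 := Submodule.smul_mem _ (g j)⁻¹ h5
    rwa [smul_smul, inv_mul_cancel₀ hj, one_smul] at h6
  rw [Matrix.linearIndependent_rows_iff_isUnit] at hli
  obtain ⟨u, hu⟩ := hli
  refine ⟨u, fun j => ?_⟩
  rw [hu]
  exact hc1 j

theorem flag_span {F : ℕ → Submodule k (Fin n → k)} (hF : FlP F) {c : (Matrix (Fin n) (Fin n) k)ˣ}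
    (hc : ∀ j : Fin n, (c : Matrix (Fin n) (Fin n) k) j ∈ F ((j : ℕ) + 1)) {i : ℕ} (hi : i ≤ n) :
    F i = Submodule.span k {v | ∃ j : Fin n, (j : ℕ) < i ∧ v = (c : Matrix (Fin n) (Fin n) k) j} := by
  have hli : LinearIndependent k (c : Matrix (Fin n) (Fin n) k).row :=
    Matrix.linearIndependent_rows_iff_isUnit.2 c.isUnit
  have hinj : Function.Injective (Fin.castLE hi) := Fin.castLE_injective hi
  have hset : {v | ∃ j : Fin n, (j : ℕ) < i ∧ v = (c : Matrix (Fin n) (Fin n) k) j} =
      Set.range ((c : Matrix (Fin n) (Fin n) k).row ∘ Fin.castLE hi) := by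
    ext v
    constructor
    · rintro ⟨j, hj, rfl⟩
      exact ⟨⟨j, hj⟩, rfl⟩
    · rintro ⟨j, rfl⟩
      exact ⟨Fin.castLE hi j, j.2, rfl⟩
  symm
  refine Submodule.eq_of_le_of_finrank_eq ?_ ?_
  · rw [Submodule.span_le]
    rintro v ⟨j, hj, rfl⟩
    exact F_mono hF (show (j : ℕ) + 1 ≤ i from hj) (hc j)
  · rw [hset, finrank_span_eq_card (hli.comp _ hinj), Fintype.card_fin, F_rank hF hi]

private theorem embk_row (b : GLm k X n) {c : (Matrix (Fin n) (Fin n) k)ˣ} {h : GLm k X n}
    (hh : (h : Matrix (Fin n) (Fin n) (A k X)) =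
      ((c : Matrix (Fin n) (Fin n) k).map (algebraMap k (A k X))) * (b : Matrix (Fin n) (Fin n) (A k X))) (j : Fin n) :
    embk b ((c : Matrix (Fin n) (Fin n) k) j) = rw' h j := by
  funext i
  show (∑ l, (c : Matrix (Fin n) (Fin n) k) j l • rw' b l) i = (h : Matrix (Fin n) (Fin n) (A k X)) j i
  rw [hh, Matrix.mul_apply, Finset.sum_apply]
  refine Finset.sum_congr rfl fun l _ => ?_
  rw [Matrix.map_apply, Pi.smul_apply, Algebra.smul_def]

private theorem lo_le (γ : Fin n → ℤ) (j : Fin n) : lo γ j ≤ n := by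
  unfold lo
  exact (Finset.card_le_univ _).trans (Fintype.card_fin n).le

private theorem hi_le (γ : Fin n → ℤ) (j : Fin n) : hi γ j ≤ n := by
  unfold hi
  exact (Finset.card_le_univ _).trans (Fintype.card_fin n).le

private theorem co_zero' (h : GLm k X n) : co h (0 : V k X n) = 0 := by simp [co]

theorem flagU_eq (b : GLm k X n) {γ : Fin n → ℤ} (hγ : Monotone γ) {F : ℕ → Submodule k (Fin n → k)} (hF : FlP F)
    {c : (Matrix (Fin n) (Fin n) k)ˣ} (hc : ∀ j : Fin n, (c : Matrix (Fin n) (Fin n) k) j ∈ F ((j : ℕ) + 1))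
    {h : GLm k X n} (hh : (h : Matrix (Fin n) (Fin n) (A k X)) =
      ((c : Matrix (Fin n) (Fin n) k).map (algebraMap k (A k X))) * (b : Matrix (Fin n) (Fin n) (A k X))) :
    flagU b γ F = Um h γ := by
  have hrow := embk_row b hh
  have hlow : ∀ j : Fin n, ∀ v ∈ F (lo γ j), ∀ l, γ j ≤ γ l → co h (embk b v) l = 0 := by
    intro j v hv
    rw [flag_span hF hc (lo_le γ j)] at hv
    induction hv using Submodule.span_induction with
    | mem v hv =>
      obtain ⟨l0, hl0, rfl⟩ := hv
      intro l hl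
      have h1 := (lo_iff hγ j l0).2 hl0
      rw [hrow, co_rw, Pi.single_eq_of_ne]
      rintro rfl
      omega
    | zero =>
      intro l _
      rw [map_zero, co_zero', Pi.zero_apply]
    | add x y _ _ hx hy =>
      intro l hl
      rw [map_add, co_add, Pi.add_apply, hx l hl, hy l hl, add_zero]
    | smul s x _ hx =>
      intro l hl
      rw [map_smul, co_smulk, Pi.smul_apply, hx l hl, smul_zero]
  funext j
  apply le_antisymm
  · refine sup_le ?_ ?_
    · have hA : ∀ x ∈ Submodule.span (A k X) (embk b '' (F (lo γ j) : Set (Fin n → k))), ∀ l, γ j ≤ γ l →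
          co h x l = 0 := by
        intro x hx
        induction hx using Submodule.span_induction with
        | mem x hx =>
          obtain ⟨v, hv, rfl⟩ := hx
          exact hlow j v hv
        | zero =>
          intro l _
          rw [co_zero', Pi.zero_apply]
        | add x y _ _ hx hy =>
          intro l hl
          rw [co_add, Pi.add_apply, hx l hl, hy l hl, add_zero]
        | smul s x _ hx =>
          intro l hl
          rw [co_smulA, Pi.smul_apply, hx l hl, smul_zero]
      intro x hx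
      have h1 := hA x hx
      intro l
      exact ⟨fun hl => h1 l hl.le, fun hl => ⟨0, by rw [map_zero, h1 l hl.ge]⟩⟩
    · rw [Submodule.map_le_iff_le_comap, flag_span hF hc (hi_le γ j), Submodule.span_le]
      rintro v ⟨l, hl, rfl⟩
      show embk b ((c : Matrix (Fin n) (Fin n) k) l) ∈ Um h γ j
      rw [hrow]
      exact (um_le h γ l j).2 ((hi_iff hγ j l).2 hl) (um_self h γ l)
  · intro m hm
    rw [eq_sum h m]
    refine Submodule.sum_mem _ fun l _ => ?_
    rcases lt_trichotomy (γ l) (γ j) with hl | hl | hl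
    · refine Submodule.mem_sup_left ?_
      show co h m l • rw' h l ∈ Submodule.span (A k X) (embk b '' (F (lo γ j) : Set (Fin n → k)))
      refine Submodule.smul_mem _ _ (Submodule.subset_span ⟨(c : Matrix (Fin n) (Fin n) k) l, ?_, hrow l⟩)
      exact F_mono hF (show (l : ℕ) + 1 ≤ lo γ j from (lo_iff hγ j l).1 hl) (hc l)
    · refine Submodule.mem_sup_right ?_
      obtain ⟨s, hs⟩ := (hm l).2 hl
      refine ⟨s • (c : Matrix (Fin n) (Fin n) k) l, ?_, ?_⟩
      · refine Submodule.smul_mem _ _ ?_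
        exact F_mono hF (show (l : ℕ) + 1 ≤ hi γ j from (hi_iff hγ j l).1 hl.le) (hc l)
      · rw [map_smul, hrow, ← hs, algebraMap_smul]
    · rw [(hm l).1 hl, zero_smul]
      exact Submodule.zero_mem _

theorem flagU_T (b : GLm k X n) {γ : Fin n → ℤ} (hγ : Monotone γ) {F : ℕ → Submodule k (Fin n → k)} (hF : FlP F) :
    ∃ (g : GLm k X n) (β : Fin n → ℤ), Monotone β ∧ flagU b γ F = Um g β := by
  obtain ⟨c, hc⟩ := exists_c hF
  refine ⟨Units.map (RingHom.mapMatrix (algebraMap k (A k X))).toMonoidHom c * b, γ, hγ, flagU_eq b hγ hF hc ?_⟩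
  rw [Units.val_mul]
  rfl

/-- the flag with `k`-structures -/
def flagT (b : GLm k X n) {γ : Fin n → ℤ} (hγ : Monotone γ) {F : ℕ → Submodule k (Fin n → k)} (hF : FlP F) :
    T k X n := ⟨flagU b γ F, flagU_T b hγ hF⟩

/-- the coordinate subspace -/
def csub (s : Set (Fin n)) : Submodule k (Fin n → k) where
  carrier := {v | ∀ l, l ∉ s → v l = 0}
  add_mem' := fun {a b} ha hb l hl => by simp [ha l hl, hb l hl]
  zero_mem' := fun l _ => rfl
  smul_mem' := fun c v hv l hl => by simp [hv l hl]

/-- the flag `F` refines the block filtration of `β` -/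
def Rf (β : Fin n → ℤ) (F : ℕ → Submodule k (Fin n → k)) : Prop :=
  ∀ j, F (lo β j) = csub {l | β l < β j} ∧ F (hi β j) = csub {l | β l ≤ β j}

end Pool.Agent.SMF
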