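import Pool.Agent.SMF.FlA

/-!
# SMF-FlB: order relations between the flags `flagT` (imports FlA, Ord, Spec, Umb)

With `c` from `exists_c` and `h` the unit with matrix `c.map (algebraMap) * b` every `flagT b hγ hF` is `Um h γ`.
-/

namespace Pool.Agent.SMF

open Matrix Module

variable {k X : Type*} [Field k] {n : ℕ}

private theorem flb_h (b : GLm k X n) {F : ℕ → Submodule k (Fin n → k)} (hF : FlP F) :
    ∃ h : GLm k X n, (∀ j : Fin n, ∃ v ∈ F ((j : ℕ) + 1), rw' h j = ∑ l, v l • rw' b l) ∧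
      ∀ γ : Fin n → ℤ, Monotone γ → flagU b γ F = Um h γ := by
  obtain ⟨c, hc⟩ := exists_c hF
  refine ⟨Units.map (RingHom.mapMatrix (algebraMap k (A k X))).toMonoidHom c * b, fun j => ⟨_, hc j, ?_⟩,
    fun γ hγ => flagU_eq b hγ hF hc rfl⟩
  funext i
  show (((c : Matrix (Fin n) (Fin n) k).map (algebraMap k (A k X))) * (b : Matrix (Fin n) (Fin n) (A k X))) j i = _
  rw [Matrix.mul_apply, Finset.sum_apply]
  refine Finset.sum_congr rfl fun l _ => ?_
  rw [Matrix.map_apply, Pi.smul_apply, Algebra.smul_def]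

theorem flag_shape (b : GLm k X n) {γ : Fin n → ℤ} (hγ : Monotone γ) {F : ℕ → Submodule k (Fin n → k)} (hF : FlP F)
    (j l : Fin n) : flagT b hγ hF j ≤ flagT b hγ hF l ↔ γ j ≤ γ l := by
  obtain ⟨h, -, hh⟩ := flb_h b hF
  show flagU b γ F j ≤ flagU b γ F l ↔ γ j ≤ γ l
  rw [hh γ hγ]
  exact um_le h γ j l

private theorem flb_ad {b h : GLm k X n} {F : ℕ → Submodule k (Fin n → k)} (hF : FlP F)
    (hh : ∀ γ : Fin n → ℤ, Monotone γ → flagU b γ F = Um h γ) {γ : Fin n → ℤ} (hγ : Monotone γ) :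
    Ad h (flagT b hγ hF) := by
  intro j
  show rw' h j ∈ flagU b γ F j
  rw [hh γ hγ]
  exact um_self h γ j

theorem flag_le (b : GLm k X n) {γ γ' : Fin n → ℤ} (hγ : Monotone γ) (hγ' : Monotone γ')
    {F : ℕ → Submodule k (Fin n → k)} (hF : FlP F) (h : ∀ j l, γ' j ≤ γ' l → γ j ≤ γ l) :
    flagT b hγ hF ≤ flagT b hγ' hF := by
  obtain ⟨g, -, hg⟩ := flb_h b hF
  refine ⟨fun j l h1 => ?_, g, flb_ad hF hg hγ, flb_ad hF hg hγ'⟩
  rw [flag_shape] at h1 ⊢
  exact h j l h1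

theorem flag_congr (b : GLm k X n) {γ : Fin n → ℤ} (hγ : Monotone γ) {F F' : ℕ → Submodule k (Fin n → k)}
    (hF : FlP F) (hF' : FlP F') (h : ∀ j, F (lo γ j) = F' (lo γ j) ∧ F (hi γ j) = F' (hi γ j)) :
    flagT b hγ hF = flagT b hγ hF' := by
  apply Subtype.ext
  show flagU b γ F = flagU b γ F'
  funext j
  unfold flagU
  rw [(h j).1, (h j).2]

theorem flag_ge {t : T k X n} {b : GLm k X n} (hb : Ad b t) {β : Fin n → ℤ} (hβm : Monotone β)
    (hβ : ∀ j l, t j ≤ t l ↔ β j ≤ β l) {F : ℕ → Submodule k (Fin n → k)} (hF : FlP F) (hR : Rf β F)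
    {γ : Fin n → ℤ} (hγ : Monotone γ) (hγβ : ∀ j l, γ j ≤ γ l → β j ≤ β l) : t ≤ flagT b hγ hF := by
  obtain ⟨g, hc, hg⟩ := flb_h b hF
  refine ⟨fun j l h1 => ?_, g, fun j => ?_, flb_ad hF hg hγ⟩
  · rw [flag_shape] at h1
    exact (hβ j l).2 (hγβ j l h1)
  · obtain ⟨v, hv, hvr⟩ := hc j
    have hmono : Monotone F := monotone_nat_of_le_succ hF.1
    have h1 : (j : ℕ) + 1 ≤ hi β j := (hi_iff hβm j j).1 le_rfl
    have h2 : v ∈ F (hi β j) := hmono h1 hv
    rw [(hR j).2] at h2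
    rw [hvr]
    refine Submodule.sum_mem _ fun l _ => ?_
    by_cases h3 : β l ≤ β j
    · exact Submodule.smul_mem _ _ ((hβ l j).2 h3 (hb l))
    · rw [h2 l h3, zero_smul]
      exact Submodule.zero_mem _

end Pool.Agent.SMF
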