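import Mathlib

/-!
# SMF-Gal: galleries between complete flags (Mathlib only)

PLAN.  `n = finrank k E`.  For a complete flag: `A 0 = ⊥`, `A i = ⊤` for `i ≥ n`, `A` is monotone, `A i < A (i + 1)` for `i < n`.  We show: for every flag `A` with members in `S` and the invariant `∀ i, F i = F' i → A i = F i` the relation leads from `A` to `F'`; then take `A = F`.
If `A ≠ F'` let `i` be the least index with `A i ≠ F' i`: `1 ≤ i < n` and `A (i - 1) = F' (i - 1)`; let `m` be the least index with `F' i ≤ A m`; `i < m ≤ n` (`F' i ≤ A i` would give equality by dimension).  Put `r = m - 1 ≥ i` and let `B` be `A` with the member `r` replaced by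
`A (r - 1) ⊔ F' i` (`Function.update`).  It contains `A (r - 1)` strictly (`F' i ≤ A (r - 1)` is false by minimality of `m`), is contained in `A (r + 1) = A m`, and has dimension `r`:
`A (r - 1) ⊓ F' i ≥ A (i - 1)` has dimension `≥ i - 1`, so the sum has dimension `≤ (r - 1) + i - (i - 1) = r` (`Submodule.finrank_sup_add_finrank_inf_eq`).  The invariant holds for `B`: if `F r = F' r` then `A r = F' r ≥ F' i`, contradicting the minimality of `m`.
Induction on the pair `(n - i, m)` (lexicographic; or on the number `∑_{i,j} finrank (A i ⊓ F' j)`, bounded and increasing): for `B` either the first difference with `F'` is later, or it is the same `i` and `F' i ≤ B (m - 1)`.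
-/

namespace Pool.Agent.SMF

open Module

/-- complete flags of subspaces -/
def FlP {k E : Type*} [Field k] [AddCommGroup E] [Module k E] (F : ℕ → Submodule k E) : Prop :=
  (∀ i, F i ≤ F (i + 1)) ∧ ∀ i, i ≤ finrank k E → finrank k (F i) = i

theorem gallery {k E : Type*} [Field k] [AddCommGroup E] [Module k E] [FiniteDimensional k E]
    (S : Submodule k E → Prop) (hsup : ∀ U W, S U → S W → S (U ⊔ W)) {F F' : ℕ → Submodule k E} (hF : FlP F)
    (hF' : FlP F') (hS : ∀ i, S (F i)) (hS' : ∀ i, S (F' i)) :
    Relation.ReflTransGen (fun A B : ℕ → Submodule k E => FlP A ∧ FlP B ∧ (∀ i, S (A i)) ∧ (∀ i, S (B i)) ∧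
      (∀ i, F i = F' i → A i = F i ∧ B i = F i) ∧ ∃ r, ∀ i, i ≠ r → A i = B i) F F' := by
  classical
  have hmono : ∀ A : ℕ → Submodule k E, FlP A → Monotone A := fun A hA => monotone_nat_of_le_succ hA.1
  have htop : ∀ A : ℕ → Submodule k E, FlP A → ∀ j, finrank k E ≤ j → A j = ⊤ := by
    intro A hA j hj
    have h1 : A (finrank k E) = ⊤ := Submodule.eq_top_of_finrank_eq (hA.2 _ le_rfl)
    refine top_le_iff.1 ?_
    rw [← h1]
    exact hmono A hA hj
  have hbot : ∀ A : ℕ → Submodule k E, FlP A → A 0 = ⊥ := by
    intro A hA
    exact Submodule.finrank_eq_zero.1 (hA.2 0 (Nat.zero_le _))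
  have key : ∀ d i, i + d = finrank k E → ∀ A : ℕ → Submodule k E, FlP A → (∀ j, S (A j)) →
      (∀ j, F j = F' j → A j = F j) → (∀ j < i, A j = F' j) →
      Relation.ReflTransGen (fun A B : ℕ → Submodule k E => FlP A ∧ FlP B ∧ (∀ i, S (A i)) ∧ (∀ i, S (B i)) ∧
        (∀ i, F i = F' i → A i = F i ∧ B i = F i) ∧ ∃ r, ∀ i, i ≠ r → A i = B i) A F' := by
    intro d
    induction d with
    | zero =>
      intro i hi A hA _ _ hag
      have h1 : A = F' := by
        funext j
        by_cases hj : j < i
        · exact hag j hj
        · rw [htop A hA j (by omega), htop F' hF' j (by omega)]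
      rw [h1]
    | succ d ih =>
      intro i hi
      have inner : ∀ e, i + e ≤ finrank k E → ∀ A : ℕ → Submodule k E, FlP A → (∀ j, S (A j)) →
          (∀ j, F j = F' j → A j = F j) → (∀ j < i, A j = F' j) → F' i ≤ A (i + e) →
          Relation.ReflTransGen (fun A B : ℕ → Submodule k E => FlP A ∧ FlP B ∧ (∀ i, S (A i)) ∧ (∀ i, S (B i)) ∧
            (∀ i, F i = F' i → A i = F i ∧ B i = F i) ∧ ∃ r, ∀ i, i ≠ r → A i = B i) A F' := by
        intro e
        induction e with
        | zero =>
          intro he A hA hSA hinv hag hle
          have h1 : F' i = A i := Submodule.eq_of_le_of_finrank_eq hle (by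
            rw [hA.2 i (by omega), hF'.2 i (by omega)])
          refine ih (i + 1) (by omega) A hA hSA hinv fun j hj => ?_
          rcases Nat.lt_succ_iff_lt_or_eq.1 hj with h2 | h2
          · exact hag j h2
          · rw [h2, h1]
        | succ e ihe =>
          intro he A hA hSA hinv hag hle
          by_cases hc : F' i ≤ A (i + e)
          · exact ihe (by omega) A hA hSA hinv hag hc
          · have hi1 : 1 ≤ i := by
              by_contra h0
              have h1 : i = 0 := by omega
              apply hc
              rw [h1, hbot F' hF']
              exact bot_le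
            obtain ⟨r, hr⟩ : ∃ r, i + e = r + 1 := ⟨i + e - 1, by omega⟩
            rw [hr] at hc
            have hr2 : i + (e + 1) = r + 2 := by omega
            rw [hr2] at hle
            have hmA := hmono A hA
            have hmF := hmono F' hF'
            obtain ⟨U, hU⟩ : ∃ U, U = A r ⊔ F' i := ⟨_, rfl⟩
            obtain ⟨B, hB⟩ : ∃ B, B = Function.update A (r + 1) U := ⟨_, rfl⟩
            have hBr : B (r + 1) = U := by rw [hB, Function.update_self]
            have hBne : ∀ j, j ≠ r + 1 → B j = A j := fun j hj => by rw [hB, Function.update_of_ne hj]
            have hdim : finrank k U = r + 1 := by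
              have h1 := Submodule.finrank_sup_add_finrank_inf_eq (A r) (F' i)
              rw [← hU, hA.2 r (by omega), hF'.2 i (by omega)] at h1
              have h2 : i - 1 ≤ finrank k (A r ⊓ F' i : Submodule k E) := by
                rw [← hA.2 (i - 1) (by omega)]
                refine Submodule.finrank_mono (le_inf (hmA (by omega)) ?_)
                rw [hag (i - 1) (by omega)]
                exact hmF (by omega)
              have h3 : finrank k (A r) < finrank k U := by
                refine Submodule.finrank_lt_finrank_of_lt (lt_of_le_of_ne ?_ ?_)
                · rw [hU]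
                  exact le_sup_left
                · intro h4
                  apply hc
                  refine le_trans ?_ (hA.1 r)
                  rw [h4, hU]
                  exact le_sup_right
              rw [hA.2 r (by omega)] at h3
              omega
            have hBF : FlP B := by
              refine ⟨fun j => ?_, fun j hj => ?_⟩
              · by_cases h1 : j = r + 1
                · rw [h1, hBr, hBne (r + 1 + 1) (by omega), hU]
                  exact sup_le (hmA (by omega)) hle
                · by_cases h2 : j + 1 = r + 1
                  · have h3 : j = r := by omega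
                    rw [h2, hBr, hBne j h1, hU, h3]
                    exact le_sup_left
                  · rw [hBne j h1, hBne _ h2]
                    exact hA.1 j
              · by_cases h1 : j = r + 1
                · rw [h1, hBr]
                  exact hdim
                · rw [hBne j h1]
                  exact hA.2 j hj
            have hBS : ∀ j, S (B j) := by
              intro j
              by_cases h1 : j = r + 1
              · rw [h1, hBr, hU]
                exact hsup _ _ (hSA r) (hS' i)
              · rw [hBne j h1]
                exact hSA j
            have hBi : ∀ j, F j = F' j → B j = F j := by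
              intro j hj
              by_cases h1 : j = r + 1
              · exfalso
                apply hc
                rw [h1] at hj
                rw [hinv _ hj, hj]
                exact hmF (by omega)
              · rw [hBne j h1]
                exact hinv j hj
            have hBag : ∀ j < i, B j = F' j := by
              intro j hj
              rw [hBne j (by omega)]
              exact hag j hj
            refine Relation.ReflTransGen.head ⟨hA, hBF, hSA, hBS, fun j hj => ⟨hinv j hj, hBi j hj⟩,
              r + 1, fun j hj => (hBne j hj).symm⟩ (ihe (by omega) B hBF hBS hBi hBag ?_)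
            rw [hr, hBr, hU]
            exact le_sup_right
      intro A hA hSA hinv hag
      refine inner (d + 1) (by omega) A hA hSA hinv hag ?_
      rw [hi, htop A hA _ le_rfl]
      exact le_top
  exact key (finrank k E) 0 (Nat.zero_add _) F hF hS (fun _ _ => rfl) fun j hj => absurd hj (Nat.not_lt_zero j)

end Pool.Agent.SMF
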