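import Pool.Agent.SMF.ActG

/-!
# SMF-GoodDef: flags with a fixed adapted basis; trivial action on the pieces (definitions)
-/

namespace Pool.Agent.SMF

variable {k X : Type*} [Field k] {n : ℕ} {G : Type*} [Group G] {φ : G →* (A k X ≃ₐ[k] A k X)}

/-- some adapted basis of `t` consists of fixed vectors -/
def Good (ρ : SAct φ n) (t : T k X n) : Prop :=
  ∃ h : GLm k X n, Ad h t ∧ ∀ g j, ρ.r g (rw' h j) = rw' h j

/-- the free submodule spanned by the pieces below `t j` -/
def low (t : T k X n) (j : Fin n) : Submodule (A k X) (V k X n) :=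
  Submodule.span (A k X) {v | ∃ l, t l < t j ∧ v ∈ t l}

/-- the group acts trivially on the pieces of `t` -/
def Triv (ρ : SAct φ n) (t : T k X n) : Prop := ∀ g j m, m ∈ t j → ρ.r g m - m ∈ low t j

/-- complete flags -/
def Cpl (c : T k X n) : Prop := ∀ j l, c j ≤ c l → j ≤ l

end Pool.Agent.SMF
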