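import Pool.Agent.SMF.GoodDef

/-!
# SMF-GoodU: lower parts of a flag in coordinates; fixed bases pass to finer flags (imports GoodDef, Ord, Spec)

Everything is computed in the coordinates of an adapted basis.
-/

namespace Pool.Agent.SMF

variable {k X : Type*} [Field k] {n : ℕ} {G : Type*} [Group G] {φ : G →* (A k X ≃ₐ[k] A k X)}

private theorem gu_co0 (b : GLm k X n) (l : Fin n) : co b (0 : V k X n) l = 0 := by simp [co]

private theorem gu_co (ρ : SAct φ n) {h0 : GLm k X n} (hf : ∀ g j, ρ.r g (rw' h0 j) = rw' h0 j) (g : G) (m : V k X n) :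
    co h0 (ρ.r g m) = fun l => φ g (co h0 m l) := by
  apply co_unique
  have h1 := congrArg (ρ.r g) (eq_sum h0 m)
  rw [h1, map_sum]
  refine Finset.sum_congr rfl fun l _ => ?_
  rw [ρ.semi, hf]

theorem low_iff {t : T k X n} {b : GLm k X n} (hb : Ad b t) (j : Fin n) (m : V k X n) :
    m ∈ low t j ↔ ∀ l, ¬ t l < t j → co b m l = 0 := by
  constructor
  · intro hm
    induction hm using Submodule.span_induction with
    | mem v hv =>
      obtain ⟨l', hl', hv⟩ := hv
      intro l hl
      have h1 : ¬ t l ≤ t l' := fun h2 => hl (lt_of_le_of_lt h2 hl')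
      have h2 : t l' ≤ t l := (T_tot t l l').resolve_left h1
      exact ((T_mem t hb l' v).1 hv l).1 (lt_of_le_not_ge h2 h1)
    | zero => exact fun l _ => gu_co0 b l
    | add x y _ _ hx hy =>
      intro l hl
      rw [co_add, Pi.add_apply, hx l hl, hy l hl, add_zero]
    | smul c x _ hx =>
      intro l hl
      rw [co_smulA, Pi.smul_apply, hx l hl, smul_zero]
  · intro h
    rw [eq_sum b m]
    refine Submodule.sum_mem _ fun l _ => ?_
    by_cases hl : t l < t j
    · exact Submodule.smul_mem _ _ (Submodule.subset_span ⟨l, hl, hb l⟩)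
    · rw [h l hl, zero_smul]
      exact Submodule.zero_mem _

theorem good_up {ρ : SAct φ n} {s t : T k X n} (h : Good ρ s) (hst : s ≤ t) : Good ρ t := by
  obtain ⟨h0, h1, h2⟩ := h
  obtain ⟨h3, b, h4, h5⟩ := (le_def s t).1 hst
  obtain ⟨g', -, -, h6, h7⟩ := core2 (fun _ _ h => h) h3 h1 h1 h4 h5
  refine ⟨g', h6, fun g j => ?_⟩
  have key : ∀ x ∈ Submodule.span k {v | ∃ l, s l = s j ∧ v = rw' h0 l}, ρ.r g x = x := by
    intro x hx
    induction hx using Submodule.span_induction with
    | mem v hv =>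
      obtain ⟨l, -, hv⟩ := hv
      rw [hv]
      exact h2 g l
    | zero => exact map_zero _
    | add x y _ _ hx hy => rw [map_add, hx, hy]
    | smul c x _ hx => rw [map_smul, hx]
  exact key _ (h7 j)

theorem good_triv {ρ : SAct φ n} {t : T k X n} (h : Good ρ t) : Triv ρ t := by
  obtain ⟨h0, h1, h2⟩ := h
  intro g j m hm
  rw [low_iff h1]
  intro l hl
  rw [co_sub, Pi.sub_apply, gu_co ρ h2]
  show φ g (co h0 m l) - co h0 m l = 0
  have h3 := (T_mem t h1 j m).1 hm l
  by_cases h4 : t l ≤ t j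
  · have h5 : t l = t j := eq_of_le_of_not_lt h4 hl
    obtain ⟨c, hc⟩ := h3.2 h5
    rw [← hc, AlgEquiv.commutes, sub_self]
  · have h5 : t j < t l := lt_of_le_not_ge ((T_tot t j l).resolve_right h4) h4
    rw [h3.1 h5, map_zero, sub_zero]

end Pool.Agent.SMF
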