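import Mathlib

/-!
# SMF-H0: chains of lists, the boundary (Mathlib only)

`Ch K P` : finite formal sums of lists of vertices; the boundary of `v :: l` is `l - v :: bd l` (the empty list is the augmentation).
PLAN.  `bd_single`: `Finsupp.linearCombination_single`.  `bd_cns`: both sides are linear in `c` (`Finsupp.lhom_ext'` or `Finsupp.induction_linear`), on
`single l 1` it is the definition.  `bd_bd`: linear, induction on the list with `bd_cns`.  `bd_mem`: for `single l a`, `l` in the predicate: induction
on `l` shows that `bdL l` is supported on sublists of `l` of length `l.length - 1` (prove: `∀ l, bdL l ∈ supported {l' | l'.Sublist l ∧ l'.length + 1 = l.length}`); then sum over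
the support.  `bd_mp`: linear, induction on the list.  `mp_mem`, `mp_congr`: on singles.
-/

namespace Pool.Agent.SMF

open Finsupp

noncomputable section

variable {K : Type*} [Field K] {P P' : Type*}

/-- chains: finite formal sums of lists -/
abbrev Ch (K P : Type*) [Field K] := List P →₀ K

/-- put a vertex in front -/
def cns (v : P) : Ch K P →ₗ[K] Ch K P := Finsupp.lmapDomain K K (List.cons v)

/-- boundary of a list -/
def bdL : List P → Ch K P
  | [] => 0
  | v :: l => single l 1 - cns v (bdL l)

/-- the boundary -/
def bd : Ch K P →ₗ[K] Ch K P := Finsupp.linearCombination K bdL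

/-- image of chains under a map of vertices -/
def mp (f : P → P') : Ch K P →ₗ[K] Ch K P' := Finsupp.lmapDomain K K (List.map f)

/-- chains of length `m` with support in `Q` -/
def SP (K : Type*) [Field K] {P : Type*} (Q : List P → Prop) (m : ℕ) : Submodule K (Ch K P) :=
  Finsupp.supported K K {l | Q l ∧ l.length = m}

/-- acyclicity -/
def Acyc (K : Type*) [Field K] {P : Type*} (Q : List P → Prop) : Prop :=
  ∀ m, ∀ z ∈ SP K Q m, bd z = 0 → ∃ y ∈ SP K Q (m + 1), bd y = z

/-- closed under sublists -/
def Clo {P : Type*} (Q : List P → Prop) : Prop := ∀ l l', Q l → l'.Sublist l → Q l'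

theorem cns_single (v : P) (l : List P) (a : K) : cns v (single l a) = single (v :: l) a := by
  rw [cns, Finsupp.lmapDomain_apply, Finsupp.mapDomain_single]

theorem mp_single (f : P → P') (l : List P) (a : K) : mp f (single l a) = single (l.map f) a := by
  rw [mp, Finsupp.lmapDomain_apply, Finsupp.mapDomain_single]

theorem bd_single (l : List P) (a : K) : bd (single l a) = a • bdL l := by
  rw [bd, Finsupp.linearCombination_single]

theorem bd_nil (a : K) : bd (single ([] : List P) a) = 0 := by
  rw [bd_single, bdL, smul_zero]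

theorem bd_cns (v : P) (c : Ch K P) : bd (cns v c) = c - cns v (bd c) := by
  induction c using Finsupp.induction_linear with
  | zero => simp
  | add x y hx hy =>
    simp only [map_add, hx, hy]
    abel
  | single l a =>
    rw [cns_single, bd_single, bd_single, bdL, smul_sub, map_smul, Finsupp.smul_single, smul_eq_mul, mul_one]

theorem bd_bd (c : Ch K P) : bd (bd c) = 0 := by
  have key : ∀ l : List P, bd (bdL (K := K) l) = 0 := by
    intro l
    induction l with
    | nil => rw [bdL, map_zero]
    | cons v l ih => rw [bdL, map_sub, bd_single, one_smul, bd_cns, ih, map_zero, sub_zero, sub_self]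
  induction c using Finsupp.induction_linear with
  | zero => simp
  | add x y hx hy => rw [map_add, map_add, hx, hy, add_zero]
  | single l a => rw [bd_single, map_smul, key, smul_zero]

private theorem mp_cns' (f : P → P') (v : P) (c : Ch K P) : mp f (cns v c) = cns (f v) (mp f c) := by
  induction c using Finsupp.induction_linear with
  | zero => simp
  | add x y hx hy => rw [map_add, map_add, map_add, map_add, hx, hy]
  | single l a => rw [cns_single, mp_single, mp_single, cns_single, List.map_cons]

theorem bd_mp (f : P → P') (c : Ch K P) : bd (mp f c) = mp f (bd c) := by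
  have key : ∀ l : List P, bdL (K := K) (l.map f) = mp f (bdL l) := by
    intro l
    induction l with
    | nil => rw [List.map_nil, bdL, bdL, map_zero]
    | cons v l ih => rw [List.map_cons, bdL, bdL, map_sub, mp_single, mp_cns', ih]
  induction c using Finsupp.induction_linear with
  | zero => simp
  | add x y hx hy => rw [map_add, map_add, map_add, map_add, hx, hy]
  | single l a => rw [mp_single, bd_single, bd_single, map_smul, key]

theorem mp_cns (f : P → P') (v : P) (c : Ch K P) : mp f (cns v c) = cns (f v) (mp f c) := by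
  exact mp_cns' f v c

theorem mem_SP {Q : List P → Prop} {m : ℕ} {z : Ch K P} : z ∈ SP K Q m ↔ ∀ l, z l ≠ 0 → Q l ∧ l.length = m := by
  rw [SP, Finsupp.mem_supported]
  constructor
  · intro h l hl
    exact h (Finset.mem_coe.2 (Finsupp.mem_support_iff.2 hl))
  · intro h l hl
    exact h l (Finsupp.mem_support_iff.1 (Finset.mem_coe.1 hl))

theorem single_mem_SP {Q : List P → Prop} {l : List P} (h : Q l) (a : K) : single l a ∈ SP K Q l.length := by
  exact Finsupp.single_mem_supported K a ⟨h, rfl⟩

theorem SP_mono {Q Q' : List P → Prop} (h : ∀ l, Q l → Q' l) (m : ℕ) : SP K Q m ≤ SP K Q' m := by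
  exact Finsupp.supported_mono fun l hl => ⟨h l hl.1, hl.2⟩

private theorem lmap_mem {α β : Type*} {g : α → β} {s : Set α} {t : Set β} (h : ∀ x ∈ s, g x ∈ t)
    {z : α →₀ K} (hz : z ∈ Finsupp.supported K K s) :
    Finsupp.lmapDomain K K g z ∈ Finsupp.supported K K t := by
  have h1 : Finsupp.lmapDomain K K g z ∈ (Finsupp.supported K K s).map (Finsupp.lmapDomain K K g) :=
    Submodule.mem_map_of_mem hz
  rw [Finsupp.lmapDomain_supported] at h1
  refine Finsupp.supported_mono ?_ h1
  rintro _ ⟨x, hx, rfl⟩
  exact h x hx

private theorem SP_ind {Q : List P → Prop} {m : ℕ} {M : Submodule K (Ch K P)}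
    (h : ∀ l, Q l → l.length = m → single l 1 ∈ M) {z : Ch K P} (hz : z ∈ SP K Q m) : z ∈ M := by
  rw [SP, Finsupp.supported_eq_span_single] at hz
  refine (Submodule.span_le.2 ?_) hz
  rintro _ ⟨l, hl, rfl⟩
  exact h l hl.1 hl.2

private theorem bdL_mem (l : List P) :
    bdL (K := K) l ∈ Finsupp.supported K K {l' : List P | l'.Sublist l ∧ l'.length + 1 = l.length} := by
  induction l with
  | nil => exact Submodule.zero_mem _
  | cons v l ih =>
    rw [bdL]
    refine Submodule.sub_mem _ ?_ ?_
    · exact Finsupp.single_mem_supported K 1 ⟨List.sublist_cons_self v l, by simp⟩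
    · refine lmap_mem ?_ ih
      rintro l' ⟨h1, h2⟩
      exact ⟨h1.cons_cons v, by simp [h2]⟩

theorem bd_mem {Q : List P → Prop} (hQ : Clo Q) {m : ℕ} {z : Ch K P} (hz : z ∈ SP K Q (m + 1)) :
    bd z ∈ SP K Q m := by
  refine SP_ind (M := (SP K Q m).comap bd) ?_ hz
  intro l hl hm
  rw [Submodule.mem_comap, bd_single, one_smul]
  refine Finsupp.supported_mono ?_ (bdL_mem l)
  rintro l' ⟨h1, h2⟩
  exact ⟨hQ l l' hl h1, by omega⟩

theorem bd_zero_of_length {Q : List P → Prop} {z : Ch K P} (hz : z ∈ SP K Q 0) : bd z = 0 := by
  refine SP_ind (M := LinearMap.ker (bd (K := K) (P := P))) ?_ hz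
  intro l hl hm
  rw [List.length_eq_zero_iff] at hm
  rw [LinearMap.mem_ker, hm, bd_nil]

theorem mp_mem {Q : List P → Prop} {Q' : List P' → Prop} {f : P → P'} (h : ∀ l, Q l → Q' (l.map f)) {m : ℕ}
    {z : Ch K P} (hz : z ∈ SP K Q m) : mp f z ∈ SP K Q' m := by
  refine lmap_mem (s := {l | Q l ∧ l.length = m}) (t := {l | Q' l ∧ l.length = m}) ?_ hz
  intro l hl
  exact ⟨h l hl.1, by rw [List.length_map]; exact hl.2⟩

theorem mp_congr {f g : P → P'} {z : Ch K P} (h : ∀ l, z l ≠ 0 → ∀ u ∈ l, f u = g u) : mp f z = mp g z := by
  rw [mp, mp, Finsupp.lmapDomain_apply, Finsupp.lmapDomain_apply]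
  refine Finsupp.mapDomain_congr fun l hl => ?_
  exact List.map_congr_left (h l (Finsupp.mem_support_iff.1 hl))

theorem mp_id (z : Ch K P) : mp (fun u => u) z = z := by
  rw [mp, Finsupp.lmapDomain_apply]
  have h : List.map (fun u : P => u) = id := by
    funext l
    simp
  rw [h, Finsupp.mapDomain_id]

/-- a linear map is determined on lists; the chains with support in `Q` are spanned by the lists in `Q` -/
theorem SP_induction {Q : List P → Prop} {m : ℕ} {M : Submodule K (Ch K P)} (h : ∀ l, Q l → l.length = m → single l 1 ∈ M)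
    {z : Ch K P} (hz : z ∈ SP K Q m) : z ∈ M := by
  exact SP_ind h hz

end

end Pool.Agent.SMF
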