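import Pool.Agent.SMF.Umb

/-!
# SMF-Spec: adapted bases of a flag with `k`-structures (imports Umb)

The flag is `Um g β` for every adapted basis `g`; everything is read off from `β`.
-/

namespace Pool.Agent.SMF

open Matrix

variable {k X : Type*} [Field k] {n : ℕ}

private theorem lt_iff_aux {t : T k X n} {β : Fin n → ℤ} (hle : ∀ j l, t j ≤ t l ↔ β j ≤ β l) (j l : Fin n) :
    t j < t l ↔ β j < β l := by
  rw [lt_iff_le_not_ge, lt_iff_le_not_ge, hle, hle]

private theorem eq_iff_aux {t : T k X n} {β : Fin n → ℤ} (hle : ∀ j l, t j ≤ t l ↔ β j ≤ β l) (j l : Fin n) :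
    t j = t l ↔ β j = β l := by
  rw [le_antisymm_iff, le_antisymm_iff, hle, hle]

private theorem row_mul (u g : GLm k X n) (j : Fin n) :
    rw' (u * g) j = ∑ l, (u : Matrix (Fin n) (Fin n) (A k X)) j l • rw' g l := by
  funext i
  rw [Finset.sum_apply]
  show ((u * g : GLm k X n) : Matrix (Fin n) (Fin n) (A k X)) j i = _
  rw [Units.val_mul, Matrix.mul_apply]
  rfl

theorem T_spec (t : T k X n) : ∃ β : Fin n → ℤ, Monotone β ∧ (∀ j l, t j ≤ t l ↔ β j ≤ β l) ∧
    (∀ g, Ad g t → t.1 = Um g β) ∧ ∃ g, Ad g t := by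
  obtain ⟨U, g, β, hβ, hU⟩ := t
  subst hU
  exact ⟨β, hβ, fun j l => um_le g β j l, fun h hh => (um_change g h β hh).symm, g, fun j => um_self g β j⟩

theorem T_tot (t : T k X n) (j l : Fin n) : t j ≤ t l ∨ t l ≤ t j := by
  obtain ⟨β, hβ, hle, -⟩ := T_spec t
  rcases le_total (β j) (β l) with h | h
  · exact Or.inl ((hle j l).2 h)
  · exact Or.inr ((hle l j).2 h)

theorem T_mono (t : T k X n) {j l : Fin n} (h : j ≤ l) : t j ≤ t l := by
  obtain ⟨β, hβ, hle, -⟩ := T_spec t
  exact (hle j l).2 (hβ h)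

theorem T_low (t : T k X n) {j l : Fin n} (h : t j < t l) {m : V k X n} (hm : m ∈ t j) (a : A k X) :
    a • m ∈ t l := by
  obtain ⟨β, hβ, hle, hg, g, hgt⟩ := T_spec t
  have hU : t.1 = Um g β := hg g hgt
  have hlt : β j < β l := (lt_iff_aux hle j l).1 h
  have hm' : m ∈ Um g β j := by
    rw [← hU]
    exact hm
  have := um_low g β hlt hm' a
  rw [← hU] at this
  exact this

/-- Elements of `t j` in terms of an adapted basis. -/
theorem T_mem (t : T k X n) {g : GLm k X n} (hg : Ad g t) (j : Fin n) (m : V k X n) :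
    m ∈ t j ↔ ∀ l, (t j < t l → co g m l = 0) ∧ (t l = t j → co g m l ∈ Set.range (algebraMap k (A k X))) := by
  obtain ⟨β, hβ, hle, hgg, -⟩ := T_spec t
  have hU : t.1 = Um g β := hgg g hg
  have h1 : m ∈ t j ↔ m ∈ Um g β j := by
    show m ∈ t.1 j ↔ m ∈ Um g β j
    rw [hU]
  rw [h1]
  show (∀ l, (β j < β l → co g m l = 0) ∧ (β l = β j → co g m l ∈ Set.range (algebraMap k (A k X)))) ↔ _
  constructor
  · intro h l
    exact ⟨fun h2 => (h l).1 ((lt_iff_aux hle j l).1 h2), fun h2 => (h l).2 ((eq_iff_aux hle l j).1 h2)⟩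
  · intro h l
    exact ⟨fun h2 => (h l).1 ((lt_iff_aux hle j l).2 h2), fun h2 => (h l).2 ((eq_iff_aux hle l j).2 h2)⟩

/-- Two flags with the same shape and a common adapted basis are equal. -/
theorem T_ext {s t : T k X n} (h : ∀ j l, s j ≤ s l ↔ t j ≤ t l) {g : GLm k X n} (hs : Ad g s) (ht : Ad g t) :
    s = t := by
  obtain ⟨β, hβ, hle, hgg, -⟩ := T_spec s
  obtain ⟨γ, hγ, hle', hgg', -⟩ := T_spec t
  apply Subtype.ext
  rw [hgg g hs, hgg' g ht]
  apply um_fine
  intro j l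
  rw [← hle, ← hle']
  exact h j l

theorem core (t : T k X n) {g h : GLm k X n} (hg : Ad g t) (hh : Ad h t) :
    ∃ g' : GLm k X n,
      (∀ j, rw' g' j ∈ Submodule.span k {v | ∃ l, t l = t j ∧ v = rw' g l}) ∧
      (∀ j, rw' g' j - rw' h j ∈ Submodule.span (A k X) {v | ∃ l, t l < t j ∧ v = rw' h l}) := by
  obtain ⟨β, hβ, hle, hgg, -⟩ := T_spec t
  have hU : t.1 = Um g β := hgg g hg
  have hh' : ∀ j, rw' h j ∈ Um g β j := by
    intro j
    rw [← hU]
    exact hh j
  obtain ⟨c0, hc0⟩ := (um_shp g h β).1 hh'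
  have hun : IsUnit c0 := tri1 (h * g⁻¹) hc0
  have ha0 : Shp β (c0.map (algebraMap k (A k X))) c0 := by
    refine ⟨fun j l hjl => ?_, fun j l _ => rfl, hc0.2.2⟩
    rw [Matrix.map_apply, hc0.2.2 j l (ne_of_lt hjl), map_zero]
  obtain ⟨u, hu⟩ := tri2 ha0 hun
  have hu' : Shp β (u : Matrix (Fin n) (Fin n) (A k X)) c0 := by
    rw [hu]
    exact ha0
  have hw : Shp β ((u * (h * g⁻¹)⁻¹ : GLm k X n) : Matrix (Fin n) (Fin n) (A k X)) 1 := by
    have h1 := tri_mul hu' (tri3 (h * g⁻¹) hc0)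
    rw [Matrix.mul_nonsing_inv c0 ((Matrix.isUnit_iff_isUnit_det c0).1 hun)] at h1
    rw [Units.val_mul]
    exact h1
  refine ⟨u * g, fun j => ?_, fun j => ?_⟩
  · rw [row_mul]
    apply Submodule.sum_mem
    intro l _
    by_cases hjl : β j = β l
    · have h1 : (u : Matrix (Fin n) (Fin n) (A k X)) j l • rw' g l = c0 j l • rw' g l := by
        rw [hu'.2.1 j l hjl, algebraMap_smul]
      rw [h1]
      apply Submodule.smul_mem
      apply Submodule.subset_span
      exact ⟨l, (eq_iff_aux hle l j).2 hjl.symm, rfl⟩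
    · have h1 : (u : Matrix (Fin n) (Fin n) (A k X)) j l = 0 := by
        rw [hu, Matrix.map_apply, hc0.2.2 j l hjl, map_zero]
      rw [h1, zero_smul]
      exact Submodule.zero_mem _
  · have h1 : u * g = (u * (h * g⁻¹)⁻¹) * h := by group
    have h2 : rw' h j = ∑ l, (1 : Matrix (Fin n) (Fin n) (A k X)) j l • rw' h l := by
      have := row_mul (1 : GLm k X n) h j
      rw [one_mul] at this
      exact this
    have h3 : rw' (u * g) j - rw' h j = ∑ l, (((u * (h * g⁻¹)⁻¹ : GLm k X n) :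
        Matrix (Fin n) (Fin n) (A k X)) j l - (1 : Matrix (Fin n) (Fin n) (A k X)) j l) • rw' h l := by
      rw [h1, row_mul (u * (h * g⁻¹)⁻¹) h j]
      simp only [sub_smul, Finset.sum_sub_distrib]
      rw [← h2]
    rw [h3]
    apply Submodule.sum_mem
    intro l _
    rcases lt_trichotomy (β j) (β l) with hjl | hjl | hjl
    · have hne : j ≠ l := fun h => absurd (congrArg β h) (ne_of_lt hjl)
      rw [hw.1 j l hjl, Matrix.one_apply_ne hne, sub_zero, zero_smul]
      exact Submodule.zero_mem _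
    · have h4 : ((u * (h * g⁻¹)⁻¹ : GLm k X n) : Matrix (Fin n) (Fin n) (A k X)) j l =
          (1 : Matrix (Fin n) (Fin n) (A k X)) j l := by
        rw [hw.2.1 j l hjl]
        by_cases hne : j = l
        · rw [hne, Matrix.one_apply_eq, Matrix.one_apply_eq, map_one]
        · rw [Matrix.one_apply_ne hne, Matrix.one_apply_ne hne, map_zero]
      rw [h4, sub_self, zero_smul]
      exact Submodule.zero_mem _
    · apply Submodule.smul_mem
      apply Submodule.subset_span
      exact ⟨l, (lt_iff_aux hle l j).2 hjl, rfl⟩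

end Pool.Agent.SMF
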