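import Pool.Agent.SMF.LatB
import Pool.Agent.SMF.Spec

/-!
# SMF-Hull: sum of a lattice with a lattice with large gaps (imports LatB, Spec, Umb, Alg)

PLAN.  Use `mem_of`, `T_mem`, `co_rw_mul`, `co_change`, `eq_sum`, `fil_mul`, `fil_mono`.  For adapted `b`, `g`: `(g * b⁻¹) l l' = co b (rw' g l) l'` is `0` if `t l < t l'`, a constant if `t l' = t l`
(`T_mem`), and in `Fil (a l - a l')` if `t l' < t l` (`h2`).
`≥`: `m = ∑ l, co g m l • rw' g l`, it is enough to treat one `x • rw' g l`, `x ∈ Fil (d - min (D l) (a l - j))`.  If the minimum is `D l`, it is in the first lattice.  If it is `a l - j`: its `b`-coordinates are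
`x * (g * b⁻¹) l l'`: zero for `t l < t l'`; for `t l' = t l` in `Fil (d + j - a l)`, `a l' = a l`; for `t l' < t l` in `Fil (d + j - a l + (a l - a l'))`: so it is in
`(Lat.of b a).fil (d + j)`.
`≤`: the first lattice: `Fil (d - D l) ≤ Fil (d - min …)`.  The second: one `x • rw' b l`, `x ∈ Fil (d + j - a l)`: its `g`-coordinates `x * (b * g⁻¹) l l'` are in `Fil (d + j - a l')` in all cases (`h1`).
-/

namespace Pool.Agent.SMF

variable {k X : Type*} [Field k] {n : ℕ}

private theorem hl_step (t : T k X n) {b g : GLm k X n} (hb : Ad b t) (hg : Ad g t) (a : Fin n → ℤ)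
    (ha : ∀ l l', t l = t l' → a l = a l')
    (h1 : ∀ l l', t l' < t l → ((b * g⁻¹ : GLm k X n) : Matrix (Fin n) (Fin n) (A k X)) l l' ∈
      Fil (k := k) (X := X) (a l - a l')) (e : ℤ) (l l' : Fin n) {x : A k X}
    (hx : x ∈ Fil (k := k) (X := X) (e - a l)) :
    x * ((b * g⁻¹ : GLm k X n) : Matrix (Fin n) (Fin n) (A k X)) l l' ∈
      Fil (k := k) (X := X) (e - a l') := by
  have hm := (T_mem t hg l (rw' b l)).1 (hb l) l'
  rw [co_rw_mul] at hm
  rcases T_tot t l l' with h | h
  · rcases eq_or_lt_of_le h with h2 | h2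
    · have h3 := hm.2 h2.symm
      obtain ⟨c, hc⟩ := h3
      rw [← hc, ← ha l l' h2]
      have h4 := fil_mul hx (fil_alg (k := k) (X := X) c (le_refl (0 : ℤ)))
      rw [add_zero] at h4
      exact h4
    · rw [hm.1 h2, mul_zero]
      exact Submodule.zero_mem _
  · rcases eq_or_lt_of_le h with h2 | h2
    · have h3 := hm.2 h2
      obtain ⟨c, hc⟩ := h3
      rw [← hc, ← ha l l' h2.symm]
      have h4 := fil_mul hx (fil_alg (k := k) (X := X) c (le_refl (0 : ℤ)))
      rw [add_zero] at h4
      exact h4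
    · have h4 := fil_mul hx (h1 l l' h2)
      have h5 : e - a l + (a l - a l') = e - a l' := by ring
      rw [h5] at h4
      exact h4

private theorem hl_co (b g : GLm k X n) (m : V k X n) (l' : Fin n) :
    co g m l' = ∑ l, co b m l * ((b * g⁻¹ : GLm k X n) : Matrix (Fin n) (Fin n) (A k X)) l l' := by
  have h1 : (g * b⁻¹)⁻¹ = b * g⁻¹ := by group
  rw [co_change b g m, h1]
  rfl

theorem hull (t : T k X n) {b g : GLm k X n} (hb : Ad b t) (hg : Ad g t) (D a : Fin n → ℤ)
    (ha : ∀ l l', t l = t l' → a l = a l')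
    (h1 : ∀ l l', t l' < t l → ((b * g⁻¹ : GLm k X n) : Matrix (Fin n) (Fin n) (A k X)) l l' ∈
      Fil (k := k) (X := X) (a l - a l'))
    (h2 : ∀ l l', t l' < t l → ((g * b⁻¹ : GLm k X n) : Matrix (Fin n) (Fin n) (A k X)) l l' ∈
      Fil (k := k) (X := X) (a l - a l')) (j d : ℤ) :
    (Lat.of g D).fil d ⊔ (Lat.of b a).fil (d + j) = (Lat.of g (fun l => min (D l) (a l - j))).fil d := by
  apply le_antisymm
  · apply sup_le
    · intro m hm
      rw [mem_of] at hm ⊢
      intro l
      have h3 : D l ⊓ (a l - j) ≤ D l := min_le_left _ _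
      exact fil_mono (by linarith) (hm l)
    · intro m hm
      rw [mem_of] at hm ⊢
      intro l'
      have h3 : D l' ⊓ (a l' - j) ≤ a l' - j := min_le_right _ _
      refine fil_mono (d := d + j - a l') (by linarith) ?_
      rw [hl_co b g m l']
      exact Submodule.sum_mem _ fun l _ => hl_step t hb hg a ha h1 (d + j) l l' (hm l)
  · intro m hm
    rw [mem_of] at hm
    rw [eq_sum g m]
    refine Submodule.sum_mem _ fun l _ => ?_
    have hl := hm l
    rcases le_total (D l) (a l - j) with h | h
    · refine Submodule.mem_sup_left ?_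
      rw [min_eq_left h] at hl
      rw [mem_of]
      intro l'
      rw [co_smulA, Pi.smul_apply, co_rw, Pi.single_apply]
      split_ifs with hll
      · rw [hll, smul_eq_mul, mul_one]
        exact hl
      · rw [smul_zero]
        exact Submodule.zero_mem _
    · refine Submodule.mem_sup_right ?_
      rw [min_eq_right h] at hl
      rw [mem_of]
      intro l'
      rw [co_smulA, Pi.smul_apply, co_rw_mul, smul_eq_mul]
      refine hl_step t hg hb a ha h2 (d + j) l l' ?_
      have h5 : d - (a l - j) = d + j - a l := by ring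
      rw [← h5]
      exact hl

end Pool.Agent.SMF
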