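import Mathlib

/-!
# SMF-Ibn: a ring with a homomorphism to a field has invariant basis number (Mathlib only)

The matrices of an isomorphism are mapped to matrices over the field.
-/

namespace Pool.Agent.SMF

theorem ibn_of_hom {S k : Type*} [Ring S] [Field k] (f : S →+* k) : InvariantBasisNumber S := by
  rw [invariantBasisNumber_iff_matrix]
  intro n m a b hab hba
  have h0 : InvariantBasisNumber k := inferInstance
  refine invariantBasisNumber_iff_matrix.1 h0 n m (a.map f) (b.map f) ?_ ?_
  · rw [← Matrix.map_mul, hab, Matrix.map_one _ (map_zero f) (map_one f)]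
  · rw [← Matrix.map_mul, hba, Matrix.map_one _ (map_zero f) (map_one f)]

end Pool.Agent.SMF
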