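import Pool.Agent.SMF.Std

/-!
# SMF-LatB: two lattices are comparable up to a shift
-/

namespace Pool.Agent.SMF

variable {k X : Type*} [Field k] {n : ℕ}

private theorem lb_mem (g : GLm k X n) (D : Fin n → ℤ) (d : ℤ) (m : V k X n) :
    m ∈ (Lat.of g D).fil d ↔ ∀ j, co g m j ∈ Fil (k := k) (X := X) (d - D j) := by
  have h : ∀ j, (d - D j) / ((1 : ℕ) : ℤ) = d - D j := by
    intro j
    rw [Nat.cast_one, Int.ediv_one]
  show (∀ j, co g m j ∈ Fil (k := k) (X := X) ((d - D j) / ((1 : ℕ) : ℤ))) ↔ _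
  exact forall_congr' fun j => by rw [h j]

theorem lat_std (Λ : Lat k X n) : ∃ (g : GLm k X n) (D : Fin n → ℤ), Monotone D ∧ Λ = Lat.of g D := by
  obtain ⟨g, E, hE, h⟩ := std (w := 1) le_rfl Λ.fil Λ.mono Λ.low Λ.exh (fun d m hm => by
    rw [Nat.cast_one]
    exact Λ.star d m hm)
  exact ⟨g, E, hE, Lat.ext (funext h)⟩

theorem lat_mul (Λ : Lat k X n) {a : A k X} {e d : ℤ} {m : V k X n} (ha : a ∈ Fil (k := k) (X := X) e)
    (hm : m ∈ Λ.fil d) : a • m ∈ Λ.fil (d + e) := by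
  obtain ⟨g, D, _, rfl⟩ := lat_std Λ
  rw [lb_mem] at hm ⊢
  intro j
  have h1 : co g (a • m) j = a * co g m j := by
    rw [co_smulA]
    rfl
  have h2 := fil_mul ha (hm j)
  have h3 : e + (d - D j) = d + e - D j := by ring
  rw [h1, ← h3]
  exact h2

theorem lat_bdd (Λ Λ' : Lat k X n) : ∃ j0 : ℤ, ∀ j, j0 ≤ j → Λ ≤ Λ'.sh j := by
  obtain ⟨g, D, _, rfl⟩ := lat_std Λ
  choose e he using fun l => Λ'.exh (rw' g l)
  obtain ⟨j0, hj0⟩ := (Set.finite_range fun l => e l - D l).bddAbove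
  refine ⟨j0, fun j hj d m hm => ?_⟩
  rw [lb_mem] at hm
  show m ∈ Λ'.fil (d + j)
  rw [eq_sum g m]
  refine Submodule.sum_mem _ fun l _ => ?_
  have h1 := lat_mul Λ' (hm l) (he l)
  have h2 : e l - D l ≤ j0 := hj0 ⟨l, rfl⟩
  exact Λ'.mono (by linarith) h1

theorem lat_le_sh (Λ : Lat k X n) {j : ℤ} (hj : 0 ≤ j) : Λ ≤ Λ.sh j := by
  intro d
  exact Λ.mono (by linarith)

theorem mem_of (g : GLm k X n) (D : Fin n → ℤ) (d : ℤ) (m : V k X n) :
    m ∈ (Lat.of g D).fil d ↔ ∀ j, co g m j ∈ Fil (k := k) (X := X) (d - D j) := by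
  exact lb_mem g D d m

end Pool.Agent.SMF
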