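import Pool.Agent.SMF.Umb

/-!
# SMF-LatW: the filtration given by a basis and degrees
-/

namespace Pool.Agent.SMF

open Matrix

variable {k X : Type*} [Field k] {n : ℕ}

private theorem co_eq (g : GLm k X n) (m : V k X n) (j : Fin n) :
    co g m j = ∑ i, m i * ((g⁻¹ : GLm k X n) : Matrix (Fin n) (Fin n) (A k X)) i j := rfl

theorem co_ep (g : GLm k X n) (m : V k X n) (hm : ∀ j, ep (m j) = 0) (j : Fin n) : ep (co g m j) = 0 := by
  rw [co_eq, ep_sum]
  refine Finset.sum_eq_zero fun i _ => ?_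
  rw [ep_mul, hm, zero_mul]

theorem co_dl (g : GLm k X n) (m : V k X n) (hm : ∀ j, ep (m j) = 0) (y : X) :
    co g (fun j => dl y (m j)) = fun j => dl y (co g m j) := by
  funext j
  rw [co_eq, co_eq, dl_sum]
  refine Finset.sum_congr rfl fun i _ => ?_
  rw [dl_mul, hm, zero_smul, add_zero]

theorem filW_mono (w : ℕ) (g : GLm k X n) (D : Fin n → ℤ) : Monotone (filW w g D) := by
  intro d e h m hm j
  refine fil_mono ?_ (hm j)
  rcases Nat.eq_zero_or_pos w with hw | hw
  · rw [hw, Nat.cast_zero, Int.ediv_zero, Int.ediv_zero]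
  · exact Int.ediv_le_ediv (by exact_mod_cast hw) (by linarith)

theorem filW_low {w : ℕ} (hw : 1 ≤ w) (g : GLm k X n) (D : Fin n → ℤ) : ∃ d, filW w g D d = ⊥ := by
  refine ⟨-(∑ j, |D j|) - 1, ?_⟩
  rw [eq_bot_iff]
  intro m hm
  rw [Submodule.mem_bot, eq_sum g m]
  refine Finset.sum_eq_zero fun l _ => ?_
  have h1 := hm l
  have h2 : |D l| ≤ ∑ j, |D j| :=
    Finset.single_le_sum (f := fun j => |D j|) (fun _ _ => abs_nonneg _) (Finset.mem_univ l)
  have h3 := neg_abs_le (D l)
  have h4 : (-(∑ j, |D j|) - 1 - D l) / (w : ℤ) < 0 := by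
    refine Int.ediv_lt_of_lt_mul (by exact_mod_cast hw) ?_
    rw [zero_mul]
    linarith
  rw [fil_neg h4, Submodule.mem_bot] at h1
  rw [h1, zero_smul]

theorem filW_exh {w : ℕ} (hw : 1 ≤ w) (g : GLm k X n) (D : Fin n → ℤ) (m : V k X n) :
    ∃ d, m ∈ filW w g D d := by
  choose c _ hc using fun j => fil_exh (k := k) (X := X) (co g m j)
  refine ⟨∑ j, |w * c j + D j|, fun j => fil_mono ?_ (hc j)⟩
  have h2 : |w * c j + D j| ≤ ∑ j, |w * c j + D j| :=
    Finset.single_le_sum (f := fun j => |w * c j + D j|) (fun _ _ => abs_nonneg _)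
      (Finset.mem_univ j)
  have h3 := le_abs_self (w * c j + D j)
  rw [Int.le_ediv_iff_mul_le (by exact_mod_cast hw)]
  linarith

theorem filW_star {w : ℕ} (hw : 1 ≤ w) (g : GLm k X n) (D : Fin n → ℤ) (d : ℤ) (m : V k X n)
    (hm : ∀ j, ep (m j) = 0) :
    m ∈ filW w g D d ↔ ∀ y, (fun j => dl y (m j)) ∈ filW w g D (d - w) := by
  have h1 : ∀ j, (d - w - D j) / (w : ℤ) = (d - D j) / (w : ℤ) - 1 := by
    intro j
    have e : d - w - D j = (d - D j) + (w : ℤ) * (-1) := by ring
    rw [e, Int.add_mul_ediv_left _ _ (by exact_mod_cast (by omega : w ≠ 0))]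
    ring
  constructor
  · intro h y j
    rw [co_dl g m hm, h1]
    exact (fil_dl (co_ep g m hm j) _).1 (h j) y
  · intro h j
    refine (fil_dl (co_ep g m hm j) _).2 fun y => ?_
    have h2 := h y j
    rw [co_dl g m hm, h1] at h2
    exact h2

private theorem fil_aux (w : ℕ) (g h : GLm k X n) (D : Fin n → ℤ) (e : Matrix (Fin n) (Fin n) k)
    (he : ∀ i l, (((h * g⁻¹)⁻¹ : GLm k X n) : Matrix (Fin n) (Fin n) (A k X)) i l =
      algebraMap k (A k X) (e i l)) (he0 : ∀ i l, D i ≠ D l → e i l = 0) (d : ℤ) :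
    filW w g D d ≤ filW w h D d := by
  intro m hm l
  have h1 : co h m l = ∑ i, e i l • co g m i := by
    rw [co_change g h m]
    show ∑ i, co g m i * (((h * g⁻¹)⁻¹ : GLm k X n) : Matrix (Fin n) (Fin n) (A k X)) i l = _
    refine Finset.sum_congr rfl fun i _ => ?_
    rw [he, ← Algebra.commutes, Algebra.smul_def]
  rw [h1]
  refine Submodule.sum_mem _ fun i _ => ?_
  by_cases hil : D i = D l
  · rw [← hil]
    exact Submodule.smul_mem _ _ (hm i)
  · rw [he0 i l hil, zero_smul]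
    exact Submodule.zero_mem _

/-- Change of basis by constants within the same degree. -/
theorem filW_kk (w : ℕ) (g g' : GLm k X n) (D : Fin n → ℤ)
    (h : ∀ j, rw' g' j ∈ Submodule.span k {v | ∃ l, D l = D j ∧ v = rw' g l}) : filW w g' D = filW w g D := by
  have h1 : ∀ j, ∃ c : Fin n → k, (∀ l, D j ≠ D l → c l = 0) ∧
      ∀ l, co g (rw' g' j) l = algebraMap k (A k X) (c l) := by
    intro j
    refine Submodule.span_induction (p := fun v _ => ∃ c : Fin n → k, (∀ l, D j ≠ D l → c l = 0) ∧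
      ∀ l, co g v l = algebraMap k (A k X) (c l)) ?_ ?_ ?_ ?_ (h j)
    · rintro v ⟨l0, hl0, rfl⟩
      refine ⟨Pi.single l0 1, fun l hl => ?_, fun l => ?_⟩
      · refine Pi.single_eq_of_ne ?_ 1
        rintro rfl
        exact hl hl0.symm
      · rw [co_rw]
        by_cases hl : l = l0
        · rw [hl, Pi.single_eq_same, Pi.single_eq_same, map_one]
        · rw [Pi.single_eq_of_ne hl, Pi.single_eq_of_ne hl, map_zero]
    · refine ⟨0, fun l _ => rfl, fun l => ?_⟩
      have e : co g (0 : V k X n) = 0 := by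
        have := co_smulk g (0 : k) (0 : V k X n)
        rwa [zero_smul, zero_smul] at this
      rw [e]
      simp
    · rintro u v _ _ ⟨c, hc, hc'⟩ ⟨c', hd, hd'⟩
      refine ⟨c + c', fun l hl => ?_, fun l => ?_⟩
      · rw [Pi.add_apply, hc l hl, hd l hl, add_zero]
      · rw [co_add, Pi.add_apply, hc', hd', Pi.add_apply, map_add]
    · rintro a v _ ⟨c, hc, hc'⟩
      refine ⟨a • c, fun l hl => ?_, fun l => ?_⟩
      · rw [Pi.smul_apply, hc l hl, smul_zero]
      · rw [co_smulk, Pi.smul_apply, hc', Pi.smul_apply, smul_eq_mul, map_mul, Algebra.smul_def]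
  obtain ⟨c0, hc0, hc1⟩ : ∃ c0 : Matrix (Fin n) (Fin n) k, (∀ j l, D j ≠ D l → c0 j l = 0) ∧
      ∀ j l, co g (rw' g' j) l = algebraMap k (A k X) (c0 j l) := by
    choose c hc hc' using h1
    exact ⟨c, hc, hc'⟩
  have h2 : ∀ j l, ((g' * g⁻¹ : GLm k X n) : Matrix (Fin n) (Fin n) (A k X)) j l =
      algebraMap k (A k X) (c0 j l) := by
    intro j l
    rw [← co_rw_mul, hc1]
  have s1 : Shp D ((g' * g⁻¹ : GLm k X n) : Matrix (Fin n) (Fin n) (A k X)) c0 :=
    ⟨fun j l hjl => by rw [h2, hc0 j l hjl.ne, map_zero], fun j l _ => h2 j l, fun j l => hc0 j l⟩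
  have s2 : Shp (fun j => -D j) ((g' * g⁻¹ : GLm k X n) : Matrix (Fin n) (Fin n) (A k X)) c0 :=
    ⟨fun j l hjl => by
      rw [h2, hc0 j l (by
        intro he
        simp only [he] at hjl
        exact lt_irrefl _ hjl), map_zero], fun j l _ => h2 j l, fun j l hjl => hc0 j l (by
        intro he
        exact hjl (by simp only [he]))⟩
  have t1 := tri3 (g' * g⁻¹) s1
  have t2 := tri3 (g' * g⁻¹) s2
  have h3 : ∀ i l, (((g' * g⁻¹)⁻¹ : GLm k X n) : Matrix (Fin n) (Fin n) (A k X)) i l =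
      algebraMap k (A k X) (c0⁻¹ i l) := by
    intro i l
    rcases lt_trichotomy (D i) (D l) with hil | hil | hil
    · rw [t1.1 i l hil, t1.2.2 i l hil.ne, map_zero]
    · exact t1.2.1 i l hil
    · have e : (fun j => -D j) i < (fun j => -D j) l := by
        show -D i < -D l
        linarith
      rw [t2.1 i l e, t1.2.2 i l hil.ne', map_zero]
  funext d
  refine le_antisymm ?_ ?_
  · refine fil_aux w g' g D c0 (fun i l => ?_) (fun i l => hc0 i l) d
    have e : ((g * g'⁻¹)⁻¹ : GLm k X n) = g' * g⁻¹ := by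
      rw [_root_.mul_inv_rev, inv_inv]
    rw [e]
    exact h2 i l
  · exact fil_aux w g g' D c0⁻¹ h3 (fun i l hil => t1.2.2 i l hil) d

/-- The lattice with basis the rows of `g`, in degrees `D`. -/
def Lat.of (g : GLm k X n) (D : Fin n → ℤ) : Lat k X n where
  fil := filW 1 g D
  mono := filW_mono 1 g D
  low := filW_low le_rfl g D
  exh := filW_exh le_rfl g D
  star := fun d m hm => by
    have h := filW_star le_rfl g D d m hm
    simpa using h

/-- translation -/
def Lat.sh (Λ : Lat k X n) (j : ℤ) : Lat k X n where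
  fil := fun d => Λ.fil (d + j)
  mono := fun d e h => Λ.mono (by linarith)
  low := by
    obtain ⟨d, hd⟩ := Λ.low
    exact ⟨d - j, by simpa using hd⟩
  exh := fun m => by
    obtain ⟨d, hd⟩ := Λ.exh m
    exact ⟨d - j, by simpa using hd⟩
  star := fun d m hm => by
    have h := Λ.star (d + j) m hm
    rw [h]
    have : d + j - 1 = d - 1 + j := by ring
    rw [this]

/-- intersection -/
def Lat.inf (Λ Λ' : Lat k X n) : Lat k X n where
  fil := fun d => Λ.fil d ⊓ Λ'.fil d
  mono := fun d e h => inf_le_inf (Λ.mono h) (Λ'.mono h)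
  low := by
    obtain ⟨d, hd⟩ := Λ.low
    exact ⟨d, by rw [hd, bot_inf_eq]⟩
  exh := fun m => by
    obtain ⟨d, hd⟩ := Λ.exh m
    obtain ⟨e, he⟩ := Λ'.exh m
    exact ⟨max d e, Λ.mono (le_max_left _ _) hd, Λ'.mono (le_max_right _ _) he⟩
  star := fun d m hm => by
    rw [Submodule.mem_inf, Λ.star d m hm, Λ'.star d m hm, ← forall_and]
    rfl

/-- `Λ` is compatible with the flag `t`. -/
def Comp (Λ : Lat k X n) (t : T k X n) : Prop :=
  ∃ (g : GLm k X n) (D : Fin n → ℤ), Ad g t ∧ (∀ j l, t j ≤ t l → D j ≤ D l) ∧ Monotone D ∧ Λ = Lat.of g D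

end Pool.Agent.SMF
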