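import Mathlib

/-!
# SMF-UnL: increasing unions of finitely generated modules with enough direct summands (Mathlib only)

The union is the internal direct sum of `D_0` and of complements of `D_s` in `D_{s+1}` for a sequence of summands `D_s` with union the given module.
-/

namespace Pool.Agent.SMF

private theorem ul_zero {S W : Type*} [Ring S] [AddCommGroup W] [Module S W] {F D : ℕ → Submodule S W}
    (h1 : ∀ i, F i ≤ D i) (hm : Monotone D) (h2 : ∀ i, D i ⊓ F (i + 1) = ⊥) (b : ℕ) :
    ∀ (s : Finset ℕ) (v : ℕ → W), s ⊆ Finset.range b → (∀ i ∈ s, v i ∈ F i) → ∑ i ∈ s, v i = 0 →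
      ∀ i ∈ s, v i = 0 := by
  induction b with
  | zero =>
    intro s v hs _ _ i hi
    exact absurd (Finset.mem_range.1 (hs hi)) (Nat.not_lt_zero i)
  | succ b ih =>
    intro s v hs hv h0 i hi
    by_cases hb : b ∈ s
    · have hs' : s.erase b ⊆ Finset.range b := by
        intro j hj
        have h3 := Finset.mem_range.1 (hs (Finset.mem_of_mem_erase hj))
        have h4 := Finset.ne_of_mem_erase hj
        exact Finset.mem_range.2 (by omega)
      have hsum : v b + ∑ j ∈ s.erase b, v j = 0 := by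
        rw [Finset.add_sum_erase s v hb]
        exact h0
      have hvb : v b = 0 := by
        cases b with
        | zero =>
          have h3 : s.erase 0 = ∅ := Finset.subset_empty.1 hs'
          rw [h3, Finset.sum_empty, add_zero] at hsum
          exact hsum
        | succ c =>
          have h3 : v (c + 1) ∈ D c ⊓ F (c + 1) := by
            refine ⟨?_, hv _ hb⟩
            have h4 : v (c + 1) = -∑ j ∈ s.erase (c + 1), v j := eq_neg_of_add_eq_zero_left hsum
            rw [h4]
            refine (D c).neg_mem (Submodule.sum_mem _ fun j hj => ?_)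
            have h5 := Finset.mem_range.1 (hs' hj)
            exact hm (show j ≤ c by omega) (h1 j (hv j (Finset.mem_of_mem_erase hj)))
          rw [h2] at h3
          exact (Submodule.mem_bot S).1 h3
      by_cases hib : i = b
      · rw [hib]
        exact hvb
      · rw [hvb, zero_add] at hsum
        exact ih (s.erase b) v hs' (fun j hj => hv j (Finset.mem_of_mem_erase hj)) hsum i
          (Finset.mem_erase.2 ⟨hib, hi⟩)
    · refine ih s v ?_ hv h0 i hi
      intro j hj
      have h3 := Finset.mem_range.1 (hs hj)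
      have h4 : j ≠ b := fun h => hb (h ▸ hj)
      exact Finset.mem_range.2 (by omega)

private theorem ul_inj {S W : Type*} [Ring S] [AddCommGroup W] [Module S W] {F D : ℕ → Submodule S W}
    (h1 : ∀ i, F i ≤ D i) (hm : Monotone D) (h2 : ∀ i, D i ⊓ F (i + 1) = ⊥) :
    Function.Injective (DFinsupp.lsum ℕ fun i => (F i).subtype : (Π₀ i, F i) →ₗ[S] W) := by
  classical
  rw [← LinearMap.ker_eq_bot, eq_bot_iff]
  intro f hf
  rw [LinearMap.mem_ker, DFinsupp.lsum_apply_apply, DFinsupp.sumAddHom_apply] at hf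
  have h3 : ∑ i ∈ f.support, ((f i : F i) : W) = 0 := hf
  have h4 := ul_zero h1 hm h2 (f.support.sup id + 1) f.support (fun i => ((f i : F i) : W))
    (fun i hi => Finset.mem_range.2 (Nat.lt_succ_of_le (Finset.le_sup (f := id) hi)))
    (fun i _ => (f i).2) h3
  rw [Submodule.mem_bot]
  ext i
  by_cases hi : i ∈ f.support
  · exact h4 i hi
  · rw [DFinsupp.notMem_support_iff.1 hi]
    rfl

private theorem ul_fg {S W : Type*} [Ring S] [AddCommGroup W] [Module S W] {A B C : Submodule S W}
    (hC : C.FG) (hAB : A ⊓ B = ⊥) (hs : A ⊔ B = C) : B.FG := by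
  have hB : B ≤ C := hs ▸ le_sup_right
  have hA : A ≤ C := hs ▸ le_sup_left
  have hc : IsCompl (A.comap C.subtype) (B.comap C.subtype) := by
    constructor
    · rw [disjoint_iff, ← Submodule.comap_inf, hAB, Submodule.comap_bot, Submodule.ker_subtype]
    · rw [codisjoint_iff, eq_top_iff]
      rintro ⟨x, hx⟩ -
      have hx' : x ∈ A ⊔ B := by
        rw [hs]
        exact hx
      obtain ⟨a, ha, b, hb, hab⟩ := Submodule.mem_sup.1 hx'
      exact Submodule.mem_sup.2 ⟨⟨a, hA ha⟩, ha, ⟨b, hB hb⟩, hb, Subtype.ext hab⟩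
  have h1 : Module.Finite S C := Module.Finite.iff_fg.2 hC
  have h2 : Module.Finite S (C ⧸ A.comap C.subtype) := inferInstance
  have h3 : Module.Finite S (B.comap C.subtype) :=
    Module.Finite.equiv (Submodule.quotientEquivOfIsCompl _ _ hc)
  have h4 : Module.Finite S B := Module.Finite.equiv (Submodule.comapSubtypeEquivOfLe hB)
  exact Module.Finite.iff_fg.1 h4

theorem union_free {S W : Type*} [Ring S] [AddCommGroup W] [Module S W] (N : ℕ → Submodule S W)
    (hmono : Monotone N) (hfree : ∀ N' : Submodule S W, N'.FG → N' ≤ ⨆ i, N i → Module.Free S N')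
    (h : ∀ j, ∃ i0, j ≤ i0 ∧ ∃ D : Submodule S W, N j ≤ D ∧ D ≤ N i0 ∧ D.FG ∧
      ∀ i, i0 ≤ i → ∃ E : Submodule S W, D ⊓ E = ⊥ ∧ D ⊔ E = N i) :
    Module.Free S (⨆ i, N i : Submodule S W) := by
  classical
  choose i0 hi0 D0 hD1 hD2 hD3 hD4 using h
  obtain ⟨J, hJ0, hJ1⟩ : ∃ J : ℕ → ℕ, J 0 = 0 ∧ ∀ s, J (s + 1) = i0 (J s) + 1 :=
    ⟨fun s => Nat.rec 0 (fun _ j => i0 j + 1) s, rfl, fun _ => rfl⟩
  obtain ⟨D, hD⟩ : ∃ D : ℕ → Submodule S W, D = fun s => D0 (J s) := ⟨_, rfl⟩
  have hDs : ∀ s, D s = D0 (J s) := fun s => by rw [hD]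
  have hND : ∀ s, N (J s) ≤ D s := fun s => by
    rw [hDs]
    exact hD1 _
  have hDN : ∀ s, D s ≤ N (i0 (J s)) := fun s => by
    rw [hDs]
    exact hD2 _
  have hDN' : ∀ s, D s ≤ N (J (s + 1)) := fun s => (hDN s).trans (hmono (by
    rw [hJ1]
    exact Nat.le_succ _))
  have hDD : ∀ s, D s ≤ D (s + 1) := fun s => (hDN' s).trans (hND _)
  have hDmono : Monotone D := monotone_nat_of_le_succ hDD
  have hE : ∀ s, ∃ E : Submodule S W, D s ⊓ E = ⊥ ∧ D s ⊔ E = D (s + 1) := by
    intro s
    have h1 : i0 (J s) ≤ i0 (J (s + 1)) := by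
      have h2 := hi0 (J (s + 1))
      have h3 := hJ1 s
      omega
    obtain ⟨E, h2, h3⟩ := hD4 (J s) (i0 (J (s + 1))) h1
    rw [← hDs] at h2 h3
    refine ⟨E ⊓ D (s + 1), ?_, ?_⟩
    · rw [← inf_assoc, h2, bot_inf_eq]
    · rw [← sup_inf_assoc_of_le E (hDD s), h3]
      exact inf_eq_right.2 (hDN (s + 1))
  choose E hE1 hE2 using hE
  obtain ⟨F, hF0, hF1⟩ : ∃ F : ℕ → Submodule S W, F 0 = D 0 ∧ ∀ s, F (s + 1) = E s :=
    ⟨fun s => Nat.casesOn s (D 0) E, rfl, fun _ => rfl⟩
  have hFD : ∀ s, F s ≤ D s := by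
    intro s
    cases s with
    | zero => exact hF0.le
    | succ s =>
      rw [hF1, ← hE2]
      exact le_sup_right
  have hDfg : ∀ s, (D s).FG := fun s => by
    rw [hDs]
    exact hD3 _
  have hFfg : ∀ s, (F s).FG := by
    intro s
    cases s with
    | zero =>
      rw [hF0]
      exact hDfg 0
    | succ s =>
      rw [hF1]
      exact ul_fg (hDfg (s + 1)) (hE1 s) (hE2 s)
  have hDsup : ∀ s, D s ≤ ⨆ i, F i := by
    intro s
    induction s with
    | zero =>
      rw [← hF0]
      exact le_iSup F 0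
    | succ s ih =>
      rw [← hE2, ← hF1]
      exact sup_le ih (le_iSup F (s + 1))
  have hJs : ∀ s, s ≤ J s := by
    intro s
    induction s with
    | zero => exact Nat.zero_le _
    | succ s ih =>
      have h1 := hi0 (J s)
      have h2 := hJ1 s
      omega
  have hsup : ⨆ i, F i = ⨆ i, N i := by
    apply le_antisymm
    · refine iSup_le fun s => (hFD s).trans ((hDN' s).trans (le_iSup N _))
    · refine iSup_le fun s => (hmono (hJs s)).trans ((hND s).trans (hDsup s))
  have hFfree : ∀ s, Module.Free S (F s) := fun s =>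
    hfree (F s) (hFfg s) ((le_iSup F s).trans hsup.le)
  have hinj := ul_inj hFD hDmono (fun s => by rw [hF1]; exact hE1 s)
  have hrange : LinearMap.range (DFinsupp.lsum ℕ fun i => (F i).subtype : (Π₀ i, F i) →ₗ[S] W) =
      ⨆ i, N i := by
    rw [← hsup]
    exact (Submodule.iSup_eq_range_dfinsupp_lsum F).symm
  exact Module.Free.of_equiv ((LinearEquiv.ofInjective _ hinj).trans (LinearEquiv.ofEq _ _ hrange))

end Pool.Agent.SMF
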