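import Pool.Agent.SMF.Main1
import Pool.Agent.SMF.ClA
import Pool.Agent.SMF.ClB
import Pool.Agent.SMF.UnL
import Pool.Agent.SMF.CtG

/-!
# SMF-LeftF: countably generated left ideals of the invariants are free (assembly)
-/

namespace Pool.Agent.SMF

open Pool.Agent.Helper71.FreeDefs

variable {k X : Type*} [Field k]

theorem left_cg (G : Subgroup (FreeAlgebra k X ≃ₐ[k] FreeAlgebra k X)) {p e : ℕ} (hp : p.Prime)
    (hG : Nat.card G = p ^ e) (a : ℕ → invariants G) :
    Module.Free (invariants G) (Submodule.span (invariants G) (Set.range a)) := by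
  haveI : Fact p.Prime := ⟨hp⟩
  haveI : Finite G := by
    apply Nat.finite_of_card_ne_zero
    rw [hG]
    exact pow_ne_zero _ hp.ne_zero
  have hpG : IsPGroup p G := IsPGroup.of_card hG
  have htr := inv_triv G hp hG
  have hS : ∀ x : A k X, x ∈ invariants G ↔ ∀ g : G, G.subtype g x = x :=
    fun x => ⟨fun h g => h g.1 g.2, fun h g hg => h ⟨g, hg⟩⟩
  let N : ℕ → Submodule (invariants G) (invariants G) := fun i => Submodule.span (invariants G) (a '' {l | l < i})
  have hmono : Monotone N := fun i j hij => Submodule.span_mono (Set.image_mono (fun l (hl : l < i) => lt_of_lt_of_le hl hij))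
  have hfg : ∀ i, (N i).FG := fun i => Submodule.fg_span ((Set.finite_lt_nat i).image a)
  have hsup : (⨆ i, N i) = Submodule.span (invariants G) (Set.range a) := by
    apply le_antisymm
    · exact iSup_le fun i => Submodule.span_mono (Set.image_subset_range _ _)
    · rw [Submodule.span_le]
      rintro _ ⟨i, rfl⟩
      exact (le_iSup N (i + 1)) (Submodule.subset_span ⟨i, Nat.lt_succ_self i, rfl⟩)
  rw [← hsup]
  apply union_free N hmono (fun N' hN' _ => left_free htr N' hN')
  intro j
  obtain ⟨i0, hji, hst⟩ := cl_stab (invariants G) N hmono hfg j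
  have hs := fun i (hi : j ≤ i) => cl_struct hpG G.subtype (invariants G) hS (hfg j) (hfg i) (hmono hi)
  have heq : ∀ i, i0 ≤ i → cloS (invariants G) (N j) (N i) = cloS (invariants G) (N j) (N i0) := by
    intro i hi
    ext v
    show (v : A k X) ∈ clo (invariants G) (N j) (N i) ↔ (v : A k X) ∈ clo (invariants G) (N j) (N i0)
    rw [hst i hi]
  refine ⟨i0, hji, cloS (invariants G) (N j) (N i0), (hs i0 hji).2.1, (hs i0 hji).2.2.1, (hs i0 hji).1, ?_⟩
  intro i hi
  obtain ⟨E, h1, h2⟩ := (hs i (hji.trans hi)).2.2.2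
  rw [heq i hi] at h1 h2
  exact ⟨E, h1, h2⟩

theorem left_all [Countable X] (G : Subgroup (FreeAlgebra k X ≃ₐ[k] FreeAlgebra k X)) {p e : ℕ} (hp : p.Prime)
    (hG : Nat.card G = p ^ e) (I : Submodule (invariants G) (invariants G)) : Module.Free (invariants G) I := by
  obtain ⟨a, ha⟩ := ideal_cg (invariants G) I
  rw [ha]
  exact left_cg G hp hG a

end Pool.Agent.SMF
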