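import Pool.Agent.SMF.Short

/-!
# SMF-Lub: the flags compatible with all members of a short chain have a least element (imports Short, Uniq, CompM, Ord)

PLAN.  `w = l.length`, `g`, `E` from `short_std`; `s = ⟨Um g E, _⟩`, with `s j ≤ s l ↔ E j ≤ E l` (`um_le`), `g` adapted (`um_self`).
(0) `filW w g E (w * d + i) = filW 1 g (D i) d` with `D i j = - ((i - E j) / w)` (`(w d + i - E j) / w = d + (i - E j) / w`, `Int.add_mul_ediv_left`): so
`l.get i = Lat.of g (D i)`, `D i` is monotone in `E`: `Comp (l.get i) s`.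
(1) Let `t` be compatible with all members: `l.get i = Lat.of (b i) (D' i)`, `b i` adapted to `t`, `D' i` monotone; `D' i = D i` by `deg_unique`.
(a) `t j ≤ t l → E j ≤ E l`: for `i = E l mod w` one has `D i l = (E l - i) / w` exactly, and `E j > E l` would give `D i j > D i l`, contradiction to
`D' i j ≤ D' i l`.
(b) a common adapted basis: let `i j = E j mod w` (as an element of `Fin w`) and let `h` be the matrix with rows `h j = rw' (b (i j)) j`.
`h j ∈ t j`.  `h j ∈ s j`: `h j ∈ (l.get (i j)).fil (D (i j) j) = filW w g E (E j)` (as `w * D (i j) j + i j = E j`, and `rw' b j` has coordinates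
`Pi.single j 1` in the basis `b`: `co_rw`, `fil_alg`), so its coordinates `co g (h j) l` are in `Fil ((E j - E l) / w)`: zero for `E l > E j` (`fil_neg`),
constants for `E l = E j` (`fil_zero`).  `h` is invertible: fix an adapted basis `b` of `t` (if `n = 0` trivial) and `β` as in `T_spec t`; the matrix `c = h * b⁻¹`
has the shape `Shp β c c0` where for every block of `t` (on which `E`, hence `i j`, is constant by (a), say `= i`) the block of `c0` is the block of the shape of
`b i * b⁻¹` (`um_shp`); `c0` is invertible: its blocks are blocks of the invertible block diagonal matrices `c0^(i)` (`tri1`): e.g. take `d0 j l = (c0^(i j))⁻¹ j l`,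
then `c0 * d0 = 1`.  So `c` and `h = c * b` are units by `tri2`.
-/

namespace Pool.Agent.SMF

open Matrix

variable {k X : Type*} [Field k] {n : ℕ}

/-- the degrees of the member `i` -/
private def dg (w : ℕ) (E : Fin n → ℤ) (i : ℕ) (j : Fin n) : ℤ := -(((i : ℤ) - E j) / (w : ℤ))

private theorem dg_quot {w : ℕ} (hw : 1 ≤ w) (E : Fin n → ℤ) (i : ℕ) (d : ℤ) (j : Fin n) :
    ((w : ℤ) * d + i - E j) / (w : ℤ) = (d - dg w E i j) / ((1 : ℕ) : ℤ) := by
  have h0 : (w : ℤ) ≠ 0 := by
    have : (1 : ℤ) ≤ w := by exact_mod_cast hw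
    omega
  have h1 : (w : ℤ) * d + i - E j = ((i : ℤ) - E j) + (w : ℤ) * d := by ring
  rw [h1, Int.add_mul_ediv_left _ _ h0, Nat.cast_one, Int.ediv_one]
  unfold dg
  ring

private theorem dg_fil {w : ℕ} (hw : 1 ≤ w) (g : GLm k X n) (E : Fin n → ℤ) (i : ℕ) (d : ℤ) :
    filW w g E ((w : ℤ) * d + i) = filW 1 g (dg w E i) d := by
  ext m
  show (∀ j, co g m j ∈ Fil (k := k) (X := X) (((w : ℤ) * d + i - E j) / (w : ℤ))) ↔
    ∀ j, co g m j ∈ Fil (k := k) (X := X) ((d - dg w E i j) / ((1 : ℕ) : ℤ))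
  simp only [dg_quot hw]

private theorem dg_mono {w : ℕ} (hw : 1 ≤ w) (E : Fin n → ℤ) (i : ℕ) {j l : Fin n} (h : E j ≤ E l) :
    dg w E i j ≤ dg w E i l := by
  unfold dg
  have : ((i : ℤ) - E l) / (w : ℤ) ≤ ((i : ℤ) - E j) / (w : ℤ) :=
    Int.ediv_le_ediv (by exact_mod_cast hw) (by omega)
  omega

private theorem dg_self {w : ℕ} (hw : 1 ≤ w) (E : Fin n → ℤ) (l : Fin n) {i : ℕ}
    (hi : (i : ℤ) = E l % (w : ℤ)) : (w : ℤ) * dg w E i l + i = E l := by
  have h0 : (w : ℤ) ≠ 0 := by
    have : (1 : ℤ) ≤ w := by exact_mod_cast hw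
    omega
  have h1 : (i : ℤ) - E l = (w : ℤ) * (-(E l / (w : ℤ))) := by
    have := Int.mul_ediv_add_emod (E l) (w : ℤ)
    rw [hi]
    linarith
  have h2 : dg w E i l = E l / (w : ℤ) := by
    unfold dg
    rw [h1, Int.mul_ediv_cancel_left _ h0, neg_neg]
  rw [h2, hi]
  exact Int.mul_ediv_add_emod (E l) (w : ℤ)

private theorem dg_le {w : ℕ} (hw : 1 ≤ w) (E : Fin n → ℤ) (j l : Fin n) {i : ℕ}
    (hi : (i : ℤ) = E l % (w : ℤ)) (h : dg w E i j ≤ dg w E i l) : E j ≤ E l := by
  have h1 := dg_self hw E l hi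
  have hw' : (0 : ℤ) < w := by exact_mod_cast hw
  have h2 : E j - i ≤ (w : ℤ) * dg w E i j := by
    unfold dg
    have := Int.mul_ediv_self_le (x := (i : ℤ) - E j) (k := (w : ℤ)) hw'.ne'
    linarith
  have h3 : (w : ℤ) * dg w E i j ≤ (w : ℤ) * dg w E i l := mul_le_mul_of_nonneg_left h hw'.le
  linarith

private theorem rw_mem (b : GLm k X n) (D : Fin n → ℤ) (j : Fin n) : rw' b j ∈ filW 1 b D (D j) := by
  show ∀ l, co b (rw' b j) l ∈ Fil (k := k) (X := X) ((D j - D l) / ((1 : ℕ) : ℤ))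
  intro l
  rw [co_rw]
  by_cases h : l = j
  · rw [h, Pi.single_eq_same, sub_self, Int.zero_ediv]
    have := fil_alg (k := k) (X := X) (1 : k) (le_refl (0 : ℤ))
    rwa [map_one] at this
  · rw [Pi.single_eq_of_ne h]
    exact Submodule.zero_mem _

theorem lub (l : List (Lat k X n)) (hl : Sho Set.univ l) (hne : l ≠ []) :
    ∃ s : T k X n, (∀ Λ ∈ l, Comp Λ s) ∧ ∀ t : T k X n, (∀ Λ ∈ l, Comp Λ t) → s ≤ t := by
  classical
  obtain ⟨g, E, hE, hfil⟩ := short_std l hl hne
  have hw : 1 ≤ l.length := List.length_pos_iff.mpr hne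
  obtain ⟨w, hwl⟩ : ∃ w, w = l.length := ⟨_, rfl⟩
  rw [← hwl] at hw
  have hw' : (0 : ℤ) < w := by exact_mod_cast hw
  have hfilw : ∀ (i : Fin l.length) (d : ℤ),
      (l.get i).fil d = filW w g E ((w : ℤ) * d + ((i : ℕ) : ℤ)) := by
    intro i d
    rw [hwl]
    exact hfil i d
  have hfil' : ∀ (i : Fin l.length) (d : ℤ), (l.get i).fil d = filW 1 g (dg w E i) d := by
    intro i d
    rw [hfilw i d]
    exact dg_fil hw g E i d
  let s : T k X n := ⟨Um g E, g, E, hE, rfl⟩
  have hs : ∀ j, s j = Um g E j := fun _ => rfl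
  have hgs : Ad g s := fun j => um_self g E j
  refine ⟨s, ?_, ?_⟩
  · intro Λ hΛ
    obtain ⟨i, rfl⟩ := List.get_of_mem hΛ
    refine ⟨g, dg w E i, hgs, ?_, ?_, ?_⟩
    · intro j m hjm
      rw [hs, hs, um_le] at hjm
      exact dg_mono hw E i hjm
    · intro j m hjm
      exact dg_mono hw E i (hE hjm)
    · exact Lat.ext (funext fun d => hfil' i d)
  · intro t ht
    have hall : ∀ i : Fin l.length, ∃ b : GLm k X n, Ad b t ∧
        (∀ j m, t j ≤ t m → dg w E i j ≤ dg w E i m) ∧ l.get i = Lat.of b (dg w E i) := by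
      intro i
      obtain ⟨b, D, hb, hD, hDm, hΛ⟩ := ht (l.get i) (List.get_mem l i)
      have hDE : D = dg w E i := by
        refine (deg_unique le_rfl g b (D := dg w E i) (D' := D)
          (fun j m hjm => dg_mono hw E i (hE hjm)) hDm fun d => ?_).symm
        rw [← hfil' i d, hΛ]
        rfl
      subst hDE
      exact ⟨b, hb, hD, hΛ⟩
    choose b hb hD hΛ using hall
    -- the residues
    have hres : ∀ j : Fin n, ∃ i : Fin l.length, ((i : ℕ) : ℤ) = E j % (w : ℤ) := by
      intro j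
      have h1 := Int.emod_nonneg (E j) hw'.ne'
      have h2 := Int.emod_lt_of_pos (E j) hw'
      refine ⟨⟨(E j % (w : ℤ)).toNat, ?_⟩, ?_⟩
      · rw [← hwl]
        omega
      · show (((E j % (w : ℤ)).toNat : ℕ) : ℤ) = _
        omega
    choose ι hι using hres
    have hια : ∀ j m, E j = E m → ι j = ι m := by
      intro j m h
      apply Fin.ext
      have h1 := hι j
      have h2 := hι m
      rw [h] at h1
      omega
    have ha : ∀ j m, t j ≤ t m → E j ≤ E m := by
      intro j m hjm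
      exact dg_le hw E j m (hι m) (hD (ι m) j m hjm)
    obtain ⟨β, hβ, hβt, hβU, b0, hb0⟩ := T_spec t
    have htU : ∀ j, t j = Um b0 β j := by
      intro j
      rw [← hβU b0 hb0]
    have hshp : ∀ i, ∃ c0, Shp β ((b i * b0⁻¹ : GLm k X n) : Matrix (Fin n) (Fin n) (A k X)) c0 := by
      intro i
      refine (um_shp b0 (b i) β).mp fun j => ?_
      rw [← htU]
      exact hb i j
    choose c0 hc0 using hshp
    have hu0 : ∀ i, IsUnit (c0 i) := fun i => tri1 _ (hc0 i)
    have hβE : ∀ j m, β j = β m → ι j = ι m := by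
      intro j m h
      refine hια j m (le_antisymm (ha j m ?_) (ha m j ?_))
      · exact (hβt j m).mpr h.le
      · exact (hβt m j).mpr h.ge
    let c : Matrix (Fin n) (Fin n) (A k X) := fun j m =>
      ((b (ι j) * b0⁻¹ : GLm k X n) : Matrix (Fin n) (Fin n) (A k X)) j m
    let C0 : Matrix (Fin n) (Fin n) k := fun j m => c0 (ι j) j m
    have hcC : Shp β c C0 := by
      refine ⟨fun j m h => (hc0 (ι j)).1 j m h, fun j m h => (hc0 (ι j)).2.1 j m h,
        fun j m h => (hc0 (ι j)).2.2 j m h⟩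
    have hC0 : IsUnit C0 := by
      let d0 : Matrix (Fin n) (Fin n) k := fun j m => (c0 (ι j))⁻¹ j m
      have hmul : C0 * d0 = 1 := by
        ext j m
        rw [Matrix.mul_apply]
        have h1 : ∀ x : Fin n, C0 j x * d0 x m = c0 (ι j) j x * (c0 (ι j))⁻¹ x m := by
          intro x
          show c0 (ι j) j x * (c0 (ι x))⁻¹ x m = c0 (ι j) j x * (c0 (ι j))⁻¹ x m
          by_cases h : β j = β x
          · rw [hβE j x h]
          · rw [(hc0 (ι j)).2.2 j x h, zero_mul, zero_mul]
        rw [Finset.sum_congr rfl fun x _ => h1 x, ← Matrix.mul_apply,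
          Matrix.mul_nonsing_inv _ ((Matrix.isUnit_iff_isUnit_det _).mp (hu0 (ι j)))]
      exact IsUnit.of_mul_eq_one _ hmul
    obtain ⟨u, hu⟩ := tri2 hcC hC0
    have hrow : ∀ j, rw' (u * b0) j = rw' (b (ι j)) j := by
      intro j
      have h1 : ∀ m, ((u * b0 : GLm k X n) : Matrix (Fin n) (Fin n) (A k X)) j m =
          (((b (ι j) * b0⁻¹) * b0 : GLm k X n) : Matrix (Fin n) (Fin n) (A k X)) j m := by
        intro m
        rw [Units.val_mul u b0, Units.val_mul (b (ι j) * b0⁻¹) b0, Matrix.mul_apply,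
          Matrix.mul_apply, hu]
      have h2 : (b (ι j) * b0⁻¹) * b0 = b (ι j) := by
        rw [mul_assoc, inv_mul_cancel, mul_one]
      rw [h2] at h1
      exact funext h1
    rw [le_def]
    refine ⟨?_, u * b0, ?_, ?_⟩
    · intro j m hjm
      rw [hs, hs, um_le]
      exact ha j m hjm
    · intro j
      rw [hrow j, hs]
      have h1 : rw' (b (ι j)) j ∈ (l.get (ι j)).fil (dg w E (ι j) j) := by
        rw [hΛ (ι j)]
        exact rw_mem (b (ι j)) (dg w E (ι j)) j
      rw [hfilw, dg_self hw E j (hι j)] at h1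
      have h2 : ∀ m, co g (rw' (b (ι j)) j) m ∈ Fil (k := k) (X := X) ((E j - E m) / (w : ℤ)) := h1
      intro m
      refine ⟨fun h => ?_, fun h => ?_⟩
      · have h3 := h2 m
        have h4 : (E j - E m) / (w : ℤ) < 0 := Int.ediv_neg_of_neg_of_pos (by omega) hw'
        rw [fil_neg h4] at h3
        exact (Submodule.mem_bot k).mp h3
      · have h3 := h2 m
        rw [h, sub_self, Int.zero_ediv] at h3
        exact (fil_zero _).mp h3
    · intro j
      rw [hrow j]
      exact hb (ι j) j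

end Pool.Agent.SMF
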