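import Pool.Agent.SMF.WAa

/-!
# SMF-WAb: weak algorithm, minimal columns (imports WAa, Alg, Defs)
-/

namespace Pool.Agent.SMF

open Matrix

variable {k X : Type*} [Field k]

private theorem mu_ex (a : A k X) : ∃ s : ℕ, a ∈ Fil (k := k) (X := X) ((s : ℤ) - 1) := by
  obtain ⟨d, hd0, hd⟩ := fil_exh a
  refine ⟨(d + 1).toNat, ?_⟩
  have h1 : ((d + 1).toNat : ℤ) - 1 = d := by omega
  rwa [h1]

open Classical in
/-- the size of an element -/
private noncomputable def mu (a : A k X) : ℕ := Nat.find (mu_ex a)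

private theorem mu_lt {x y : A k X} {d : ℤ} (hx : x ∉ Fil (k := k) (X := X) d)
    (hy : y ∈ Fil (k := k) (X := X) d) : mu y < mu x := by
  classical
  have h1 : x ∈ Fil (k := k) (X := X) ((mu x : ℤ) - 1) := Nat.find_spec (mu_ex x)
  have h2 : d < (mu x : ℤ) - 1 := by
    by_contra h
    exact hx (fil_mono (not_lt.1 h) h1)
  rcases lt_or_ge d 0 with hd | hd
  · have h3 : y ∈ Fil (k := k) (X := X) (((0 : ℕ) : ℤ) - 1) := by
      rw [fil_neg hd] at hy
      rw [fil_neg (by norm_num)]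
      exact hy
    have h4 : mu y ≤ 0 := Nat.find_min' (mu_ex y) h3
    have h5 : mu x ≠ 0 := by
      intro h6
      rw [h6, fil_neg (by norm_num), Submodule.mem_bot] at h1
      exact hx (h1 ▸ Submodule.zero_mem _)
    omega
  · have h3 : y ∈ Fil (k := k) (X := X) (((d + 1).toNat : ℤ) - 1) := by
      have h4 : ((d + 1).toNat : ℤ) - 1 = d := by omega
      rwa [h4]
    have h4 : mu y ≤ (d + 1).toNat := Nat.find_min' (mu_ex y) h3
    omega

/-- the nilpotent part of an elementary matrix -/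
private noncomputable def NN {N : ℕ} (j0 : Fin N) (a : Fin N → A k X) :
    Matrix (Fin N) (Fin N) (A k X) :=
  Matrix.of fun i j => if i = j0 ∧ j ≠ j0 then a j else 0

private theorem NN_sq {N : ℕ} (j0 : Fin N) (a : Fin N → A k X) : NN j0 a * NN j0 a = 0 := by
  ext i l
  rw [Matrix.mul_apply, Matrix.zero_apply]
  refine Finset.sum_eq_zero fun j _ => ?_
  by_cases hj : j = j0
  · have h1 : NN j0 a i j = 0 := by
      simp [NN, hj]
    rw [h1, zero_mul]
  · have h1 : NN j0 a j l = 0 := by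
      simp [NN, hj]
    rw [h1, mul_zero]

/-- the elementary matrix -/
private noncomputable def EE {N : ℕ} (j0 : Fin N) (a : Fin N → A k X) : GLm k X N where
  val := 1 + NN j0 a
  inv := 1 - NN j0 a
  val_inv := by
    have h : (1 + NN j0 a) * (1 - NN j0 a) = 1 - NN j0 a * NN j0 a := by noncomm_ring
    rw [h, NN_sq, sub_zero]
  inv_val := by
    have h : (1 - NN j0 a) * (1 + NN j0 a) = 1 - NN j0 a * NN j0 a := by noncomm_ring
    rw [h, NN_sq, sub_zero]

private theorem EE_mulVec {N : ℕ} (j0 : Fin N) (a : Fin N → A k X) (ha : a j0 = 1)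
    (v : Fin N → A k X) (i : Fin N) :
    ((EE j0 a : Matrix (Fin N) (Fin N) (A k X)) *ᵥ v) i =
      if i = j0 then ∑ j, a j * v j else v i := by
  have h0 : (EE j0 a : Matrix (Fin N) (Fin N) (A k X)) = 1 + NN j0 a := rfl
  rw [h0, Matrix.add_mulVec, Matrix.one_mulVec, Pi.add_apply]
  have h1 : (NN j0 a *ᵥ v) i = ∑ j, NN j0 a i j * v j := rfl
  rw [h1]
  by_cases hi : i = j0
  · subst hi
    rw [if_pos rfl, ← Finset.add_sum_erase _ _ (Finset.mem_univ i),
      ← Finset.add_sum_erase _ (fun j => a j * v j) (Finset.mem_univ i)]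
    have h2 : NN i a i i = 0 := by simp [NN]
    rw [h2, zero_mul, zero_add, ha, one_mul]
    congr 1
    refine Finset.sum_congr rfl fun j hj => ?_
    have h3 : NN i a i j = a j := by simp [NN, Finset.ne_of_mem_erase hj]
    rw [h3]
  · rw [if_neg hi]
    have h2 : ∀ j, NN j0 a i j = 0 := by
      intro j
      simp [NN, hi]
    simp [h2]

/-- a permutation matrix -/
private noncomputable def PM {N : ℕ} (σ : Equiv.Perm (Fin N)) : Matrix (Fin N) (Fin N) (A k X) :=
  Matrix.of fun i j => if σ i = j then 1 else 0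

private theorem PM_mulVec {N : ℕ} (σ : Equiv.Perm (Fin N)) (v : Fin N → A k X) (i : Fin N) :
    (PM σ *ᵥ v) i = v (σ i) := by
  have h1 : (PM σ *ᵥ v) i = ∑ j, (if σ i = j then (1 : A k X) else 0) * v j := rfl
  rw [h1]
  simp

private theorem PM_mul {N : ℕ} (σ τ : Equiv.Perm (Fin N)) (h : ∀ i, τ (σ i) = i) :
    PM (k := k) (X := X) σ * PM τ = 1 := by
  ext i l
  have h1 : ((PM σ : Matrix (Fin N) (Fin N) (A k X)) * (PM τ : Matrix (Fin N) (Fin N) (A k X))) i l =
      ∑ j, (if σ i = j then (1 : A k X) else 0) * (if τ j = l then 1 else 0) := rfl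
  rw [h1, Finset.sum_eq_single (σ i)]
  · rw [if_pos rfl, one_mul, h, Matrix.one_apply]
  · intro j _ hj
    rw [if_neg (Ne.symm hj), zero_mul]
  · intro hn
    exact absurd (Finset.mem_univ _) hn

private noncomputable def PU {N : ℕ} (σ : Equiv.Perm (Fin N)) : GLm k X N where
  val := PM σ
  inv := PM σ.symm
  val_inv := PM_mul _ _ (by simp)
  inv_val := PM_mul _ _ (by simp)

private theorem sorted {N : ℕ} (P : Fin N → Prop) :
    ∃ (σ : Equiv.Perm (Fin N)) (m : ℕ), m ≤ N ∧ (∀ j : Fin N, (j : ℕ) < m → P (σ j)) ∧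
      ∀ j : Fin N, m ≤ (j : ℕ) → ¬ P (σ j) := by
  classical
  let f : Fin N → ℕ := fun j => if P j then 0 else 1
  have hmono : Monotone (f ∘ Tuple.sort f) := Tuple.monotone_sort f
  have hex : ∃ m : ℕ, ∀ j : Fin N, m ≤ (j : ℕ) → ¬ P (Tuple.sort f j) :=
    ⟨N, fun j hj => absurd j.2 (not_lt.2 hj)⟩
  refine ⟨Tuple.sort f, Nat.find hex, ?_, ?_, Nat.find_spec hex⟩
  · exact Nat.find_min' hex fun j hj => absurd j.2 (not_lt.2 hj)
  · intro j hj
    by_contra hP
    refine Nat.find_min hex hj ?_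
    intro l hl hPl
    have h1 : f (Tuple.sort f j) ≤ f (Tuple.sort f l) := hmono hl
    have h2 : f (Tuple.sort f j) = 1 := if_neg hP
    have h3 : f (Tuple.sort f l) = 0 := if_pos hPl
    omega

theorem wa {N : ℕ} (b : Fin N → A k X) :
    ∃ (g : GLm k X N) (m : ℕ), m ≤ N ∧
      (∀ j : Fin N, (j : ℕ) < m → ((g : Matrix (Fin N) (Fin N) (A k X)) *ᵥ b) j = 0) ∧
      ∀ c : Fin N → A k X, (∀ j : Fin N, (j : ℕ) < m → c j = 0) →
        ∑ j, c j * ((g : Matrix (Fin N) (Fin N) (A k X)) *ᵥ b) j = 0 → c = 0 := by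
  classical
  let F : GLm k X N → ℕ := fun g => ∑ j, mu (((g : Matrix (Fin N) (Fin N) (A k X)) *ᵥ b) j)
  obtain ⟨g, hg⟩ : ∃ g, ∀ g', F g ≤ F g' :=
    ⟨Function.argmin F, fun g' => Function.argmin_le F g'⟩
  let v : Fin N → A k X := (g : Matrix (Fin N) (Fin N) (A k X)) *ᵥ b
  have key : ∀ c : Fin N → A k X, ∑ j, c j * v j = 0 → ∀ j, v j ≠ 0 → c j = 0 := by
    intro c hc j hv
    by_contra hcj
    obtain ⟨j0, a, d, ha, hb, hs⟩ := wa_red v c hc ⟨j, hcj, hv⟩
    have h1 := hg (EE j0 a * g)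
    apply absurd h1
    rw [not_le]
    have h2 : ∀ i, (((EE j0 a * g : GLm k X N) : Matrix (Fin N) (Fin N) (A k X)) *ᵥ b) i =
        if i = j0 then ∑ j, a j * v j else v i := by
      intro i
      rw [Units.val_mul, ← Matrix.mulVec_mulVec, EE_mulVec j0 a ha]
    have h3 : F (EE j0 a * g) = ∑ i, mu (if i = j0 then ∑ j, a j * v j else v i) :=
      Finset.sum_congr rfl fun i _ => by rw [h2]
    have h4 : F g = ∑ i, mu (v i) := rfl
    rw [h3, h4]
    refine Finset.sum_lt_sum (fun i _ => ?_) ⟨j0, Finset.mem_univ _, ?_⟩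
    · by_cases hi : i = j0
      · rw [if_pos hi, hi]
        exact (mu_lt hb hs).le
      · rw [if_neg hi]
    · rw [if_pos rfl]
      exact mu_lt hb hs
  obtain ⟨σ, m, hm, h0, h1⟩ := sorted fun j => v j = 0
  have h2 : ∀ i, (((PU σ * g : GLm k X N) : Matrix (Fin N) (Fin N) (A k X)) *ᵥ b) i = v (σ i) := by
    intro i
    rw [Units.val_mul, ← Matrix.mulVec_mulVec]
    exact PM_mulVec σ v i
  refine ⟨PU σ * g, m, hm, fun j hj => ?_, fun c hc hs => ?_⟩
  · rw [h2]
    exact h0 j hj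
  · have h3 : ∑ j, c (σ.symm j) * v j = 0 := by
      rw [← hs, ← Equiv.sum_comp σ]
      refine Finset.sum_congr rfl fun j _ => ?_
      rw [h2, Equiv.symm_apply_apply]
    funext j
    by_cases hj : (j : ℕ) < m
    · exact hc j hj
    · have h4 := key _ h3 (σ j) (h1 j (not_lt.1 hj))
      rwa [Equiv.symm_apply_apply] at h4

end Pool.Agent.SMF
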