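import Pool.Agent.SMF.Pth
import Pool.Agent.SMF.Kap
import Pool.Agent.SMF.Act0
import Pool.Agent.SMF.WAb

/-!
# SMF-Main0: relations between invariants of a `p`-group are trivialised by invertible matrices of invariants
-/

namespace Pool.Agent.SMF

open Matrix

variable {k X : Type*} [Field k] {G : Type*} [Group G]

private theorem dot_eq {N : ℕ} (g : GLm k X N) (v b : Fin N → A k X) :
    ∑ j, v j * b j = ∑ l, co g v l * ((g : Matrix (Fin N) (Fin N) (A k X)) *ᵥ b) l := by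
  have h1 : v ⬝ᵥ b = (v ᵥ* ((g⁻¹ : GLm k X N) : Matrix (Fin N) (Fin N) (A k X))) ⬝ᵥ
      ((g : Matrix (Fin N) (Fin N) (A k X)) *ᵥ b) := by
    rw [Matrix.dotProduct_mulVec, Matrix.vecMul_vecMul, ← Units.val_mul, inv_mul_cancel, Units.val_one,
      Matrix.vecMul_one]
  exact h1

theorem trivialise {p : ℕ} [Fact p.Prime] [Finite G] (hG : IsPGroup p G) (φ : G →* (A k X ≃ₐ[k] A k X)) {N : ℕ}
    (a b : Fin N → A k X) (ha : ∀ g j, φ g (a j) = a j) (hb : ∀ g j, φ g (b j) = b j)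
    (hab : ∑ j, a j * b j = 0) :
    ∃ P : GLm k X N, (∀ g i j, φ g ((P : Matrix (Fin N) (Fin N) (A k X)) i j) =
        (P : Matrix (Fin N) (Fin N) (A k X)) i j) ∧
      ∀ j, co P a j = 0 ∨ ((P : Matrix (Fin N) (Fin N) (A k X)) *ᵥ b) j = 0 := by
  obtain ⟨g₀, m, hm, hz, hind⟩ := wa b
  obtain ⟨r, rfl⟩ := Nat.exists_eq_add_of_le hm
  have hKiff : ∀ v : V k X (m + r), inK g₀ v ↔ ∑ j, v j * b j = 0 := by
    intro v
    rw [dot_eq g₀ v b]
    constructor
    · intro h
      apply Finset.sum_eq_zero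
      intro l _
      refine Fin.addCases (fun i => ?_) (fun i => ?_) l
      · rw [hz (Fin.castAdd r i) (by simp), mul_zero]
      · rw [h i, zero_mul]
    · intro h
      have hc := hind (fun l => if (l : ℕ) < m then 0 else co g₀ v l) (fun j hj => by simp [hj]) (by
        rw [← h]
        apply Finset.sum_congr rfl
        intro l _
        by_cases hl : (l : ℕ) < m
        · simp only [hl, if_true]
          rw [hz l hl, mul_zero, mul_zero]
        · simp only [hl, if_false])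
      intro i
      have h2 := congrFun hc (Fin.natAdd m i)
      simpa using h2
  let ρ := act0 φ (m + r)
  have hK : ∀ g v, inK g₀ v → inK g₀ (ρ.r g v) := by
    intro g v hv
    rw [hKiff] at hv ⊢
    have h1 : ∑ j, ρ.r g v j * b j = φ g (∑ j, v j * b j) := by
      rw [map_sum]
      apply Finset.sum_congr rfl
      intro j _
      rw [map_mul, hb]
      rfl
    rw [h1, hv, map_zero]
  obtain ⟨ρ1, h1⟩ := split1 ρ g₀ hK
  obtain ⟨ρ2, h2⟩ := split2 ρ g₀ hK
  obtain ⟨t1, ht1⟩ := fx_exists hG ρ1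
  obtain ⟨t2, ht2⟩ := fx_exists hG ρ2
  obtain ⟨κ, hκ, hκ'⟩ := kap ρ g₀ ρ1 ρ2 h1 h2 ht1 ht2
  obtain ⟨v₀, hv1, hv2⟩ := v0_good φ (m + r)
  obtain ⟨κ', hle, h, hh, hfix⟩ := good_path hG ρ hv1 hv2 hκ
  obtain ⟨hP1, hP2⟩ := hκ' κ' hle h hh
  refine ⟨h, ?_, ?_⟩
  · intro g i j
    exact congrFun (hfix g i) j
  · intro j
    refine Fin.addCases (fun i => ?_) (fun i => ?_) j
    · right
      exact (hKiff _).mp (hP1 i)
    · left
      exact hP2 a ((hKiff a).mpr hab) i

end Pool.Agent.SMF
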