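import Mathlib

/-!
# SMF-SemL: relations and one sided ideals (Mathlib only)
-/

namespace Pool.Agent.SMF

open Matrix

/-- every relation `∑ a j * b j = 0` is trivialised by an invertible matrix -/
def Trivialisable (S : Type*) [Ring S] : Prop :=
  ∀ (N : ℕ) (a b : Fin N → S), ∑ j, a j * b j = 0 → ∃ P : (Matrix (Fin N) (Fin N) S)ˣ,
    ∀ j, (a ᵥ* ((P⁻¹ : (Matrix (Fin N) (Fin N) S)ˣ) : Matrix (Fin N) (Fin N) S)) j = 0 ∨
      ((P : Matrix (Fin N) (Fin N) S) *ᵥ b) j = 0

private theorem free_of_shrink {R M : Type*} [Ring R] [AddCommGroup M] [Module R M]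
    (I : Submodule R M) (hI : I.FG)
    (h : ∀ (N : ℕ) (v : Fin N → M) (g : Fin N → R), ∑ i, g i • v i = 0 → g ≠ 0 →
      ∃ w : Fin N → M, Submodule.span R (Set.range w) = Submodule.span R (Set.range v) ∧
        ∃ j, w j = 0) : Module.Free R I := by
  classical
  have hex : ∃ N : ℕ, ∃ v : Fin N → M, Submodule.span R (Set.range v) = I :=
    Submodule.fg_iff_exists_fin_generating_family.1 hI
  obtain ⟨v, hv⟩ := Nat.find_spec hex
  have hmin := fun m (hm : m < Nat.find hex) => Nat.find_min hex hm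
  generalize Nat.find hex = N at v hv hmin
  have hli : LinearIndependent R v := by
    rw [Fintype.linearIndependent_iff]
    intro g hg
    by_contra hc
    have hne : g ≠ 0 := fun h0 => hc fun i => congrFun h0 i
    obtain ⟨w, hw, j, hj⟩ := h N v g hg hne
    obtain ⟨m, rfl⟩ : ∃ m, N = m + 1 := ⟨N - 1, by have := j.2; omega⟩
    refine hmin m (Nat.lt_succ_self m) ⟨fun k => w (j.succAbove k), ?_⟩
    rw [← hv, ← hw]
    refine le_antisymm (Submodule.span_mono ?_) (Submodule.span_le.2 ?_)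
    · rintro x ⟨k, rfl⟩
      exact ⟨j.succAbove k, rfl⟩
    · rintro x ⟨i, rfl⟩
      by_cases hij : i = j
      · rw [hij, hj]
        exact Submodule.zero_mem _
      · obtain ⟨k, rfl⟩ := Fin.exists_succAbove_eq hij
        exact Submodule.subset_span ⟨k, rfl⟩
  have hf : Module.Free R (Submodule.span R (Set.range v)) := Module.Free.of_basis (Module.Basis.span hli)
  rw [hv] at hf
  exact hf

private theorem inv_mul_self {S : Type*} [Ring S] {N : ℕ} (P : (Matrix (Fin N) (Fin N) S)ˣ) :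
    ((P⁻¹ : (Matrix (Fin N) (Fin N) S)ˣ) : Matrix (Fin N) (Fin N) S) * (P : Matrix (Fin N) (Fin N) S) = 1 :=
  P.inv_mul

private theorem vec_back {S : Type*} [Ring S] {N : ℕ} (P : (Matrix (Fin N) (Fin N) S)ˣ) (a : Fin N → S) :
    (a ᵥ* ((P⁻¹ : (Matrix (Fin N) (Fin N) S)ˣ) : Matrix (Fin N) (Fin N) S)) ᵥ* (P : Matrix (Fin N) (Fin N) S) = a := by
  rw [Matrix.vecMul_vecMul, inv_mul_self, Matrix.vecMul_one]

private theorem mul_back {S : Type*} [Ring S] {N : ℕ} (P : (Matrix (Fin N) (Fin N) S)ˣ) (b : Fin N → S) :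
    ((P⁻¹ : (Matrix (Fin N) (Fin N) S)ˣ) : Matrix (Fin N) (Fin N) S) *ᵥ ((P : Matrix (Fin N) (Fin N) S) *ᵥ b) = b := by
  rw [Matrix.mulVec_mulVec, inv_mul_self, Matrix.one_mulVec]

theorem left_free {S : Type*} [Ring S] (h : Trivialisable S) (I : Submodule S S) (hI : I.FG) : Module.Free S I := by
  refine free_of_shrink I hI fun N b g hg hne => ?_
  obtain ⟨P, hP⟩ := h N g b hg
  have h1 : ∃ j, (g ᵥ* ((P⁻¹ : (Matrix (Fin N) (Fin N) S)ˣ) : Matrix (Fin N) (Fin N) S)) j ≠ 0 := by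
    by_contra hc
    push Not at hc
    have h2 := vec_back P g
    rw [funext hc] at h2
    exact hne (by rw [← h2]; exact Matrix.zero_vecMul _)
  obtain ⟨j, hj⟩ := h1
  have h3 := (hP j).resolve_left hj
  refine ⟨(P : Matrix (Fin N) (Fin N) S) *ᵥ b, le_antisymm (Submodule.span_le.2 ?_) (Submodule.span_le.2 ?_),
    j, h3⟩
  · rintro x ⟨i, rfl⟩
    show ∑ k, P.val i k • b k ∈ Submodule.span S (Set.range b)
    exact Submodule.sum_mem _ fun k _ => Submodule.smul_mem _ (P.val i k) (Submodule.subset_span (Set.mem_range_self (f := b) k))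
  · rintro x ⟨i, rfl⟩
    have h4 := congrFun (mul_back P b) i
    rw [← h4]
    show ∑ k, P⁻¹.val i k • (P.val *ᵥ b) k ∈ Submodule.span S (Set.range (P.val *ᵥ b))
    exact Submodule.sum_mem _ fun k _ => Submodule.smul_mem _ (P⁻¹.val i k) (Submodule.subset_span (Set.mem_range_self (f := P.val *ᵥ b) k))

theorem right_free {S : Type*} [Ring S] (h : Trivialisable S) (I : Submodule Sᵐᵒᵖ S) (hI : I.FG) :
    Module.Free Sᵐᵒᵖ I := by
  refine free_of_shrink I hI fun N a g hg hne => ?_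
  obtain ⟨P, hP⟩ := h N a (fun i => (g i).unop) hg
  have h1 : ∃ j, ((P : Matrix (Fin N) (Fin N) S) *ᵥ (fun i => (g i).unop)) j ≠ 0 := by
    by_contra hc
    push Not at hc
    have h2 := mul_back P (fun i => (g i).unop)
    rw [funext hc] at h2
    refine hne (funext fun i => ?_)
    have h5 := congrFun h2 i
    have h6 : (g i).unop = 0 := by
      rw [← h5]
      exact congrFun (Matrix.mulVec_zero _) i
    exact MulOpposite.unop_injective h6
  obtain ⟨j, hj⟩ := h1
  have h3 := (hP j).resolve_right hj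
  refine ⟨a ᵥ* ((P⁻¹ : (Matrix (Fin N) (Fin N) S)ˣ) : Matrix (Fin N) (Fin N) S),
    le_antisymm (Submodule.span_le.2 ?_) (Submodule.span_le.2 ?_), j, h3⟩
  · rintro x ⟨i, rfl⟩
    show ∑ k, MulOpposite.op (P⁻¹.val k i) • a k ∈ Submodule.span Sᵐᵒᵖ (Set.range a)
    exact Submodule.sum_mem _ fun k _ =>
      Submodule.smul_mem _ (MulOpposite.op (P⁻¹.val k i)) (Submodule.subset_span (Set.mem_range_self (f := a) k))
  · rintro x ⟨i, rfl⟩
    have h4 := congrFun (vec_back P a) i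
    rw [← h4]
    show ∑ k, MulOpposite.op (P.val k i) • (a ᵥ* P⁻¹.val) k ∈ Submodule.span Sᵐᵒᵖ (Set.range (a ᵥ* P⁻¹.val))
    exact Submodule.sum_mem _ fun k _ =>
      Submodule.smul_mem _ (MulOpposite.op (P.val k i)) (Submodule.subset_span (Set.mem_range_self (f := a ᵥ* P⁻¹.val) k))

end Pool.Agent.SMF
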