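import Pool.Agent.SMF.Main0
import Pool.Agent.SMF.SemL
import Pool.Agent.SMF.Ibn
import Pool.Agent.Helper71.FreeDefs

/-!
# SMF-Main1: the invariants of a finite group of prime power order form a semifir (assembly)
-/

namespace Pool.Agent.SMF

open Matrix Pool.Agent.Helper71.FreeDefs

variable {k X : Type*} [Field k]

theorem inv_triv (G : Subgroup (FreeAlgebra k X ≃ₐ[k] FreeAlgebra k X)) {p a : ℕ} (hp : p.Prime)
    (hG : Nat.card G = p ^ a) : Trivialisable (invariants G) := by
  intro N u v huv
  haveI : Fact p.Prime := ⟨hp⟩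
  haveI : Finite G := by
    apply Nat.finite_of_card_ne_zero
    rw [hG]
    exact pow_ne_zero _ hp.ne_zero
  have hpG : IsPGroup p G := IsPGroup.of_card hG
  have hfx : ∀ (c : invariants G) (g : G), G.subtype g (c : FreeAlgebra k X) = c := fun c g => c.2 g.1 g.2
  obtain ⟨P, hP, htr⟩ := trivialise hpG G.subtype (fun j => (u j : FreeAlgebra k X))
    (fun j => (v j : FreeAlgebra k X)) (fun g j => hfx _ g) (fun g j => hfx _ g) (by
      have h := congrArg (fun x : invariants G => (x : FreeAlgebra k X)) huv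
      simpa using h)
  -- the inverse has invariant entries
  have hQ : ∀ (g : G) i j, G.subtype g (((P⁻¹ : GLm k X N) : Matrix (Fin N) (Fin N) (A k X)) i j) =
      ((P⁻¹ : GLm k X N) : Matrix (Fin N) (Fin N) (A k X)) i j := by
    intro g i j
    let f : Matrix (Fin N) (Fin N) (A k X) →+* Matrix (Fin N) (Fin N) (A k X) :=
      RingHom.mapMatrix ((G.subtype g : FreeAlgebra k X ≃ₐ[k] FreeAlgebra k X) : FreeAlgebra k X →+* FreeAlgebra k X)
    have h1 : f (P : Matrix (Fin N) (Fin N) (A k X)) = P := by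
      ext i j
      exact hP g i j
    have h2 : Units.map (f : Matrix (Fin N) (Fin N) (A k X) →* Matrix (Fin N) (Fin N) (A k X)) P = P := Units.ext h1
    have h3 : Units.map (f : Matrix (Fin N) (Fin N) (A k X) →* Matrix (Fin N) (Fin N) (A k X)) P⁻¹ = P⁻¹ := by
      rw [map_inv, h2]
    have h4 := congrArg (fun U : GLm k X N => (U : Matrix (Fin N) (Fin N) (A k X)) i j) h3
    exact h4
  let P' : Matrix (Fin N) (Fin N) (invariants G) := fun i j =>
    ⟨(P : Matrix (Fin N) (Fin N) (A k X)) i j, fun g hg => hP ⟨g, hg⟩ i j⟩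
  let Q' : Matrix (Fin N) (Fin N) (invariants G) := fun i j =>
    ⟨((P⁻¹ : GLm k X N) : Matrix (Fin N) (Fin N) (A k X)) i j, fun g hg => hQ ⟨g, hg⟩ i j⟩
  have hinj : Function.Injective (fun (M : Matrix (Fin N) (Fin N) (invariants G)) => M.map (fun x => (x : FreeAlgebra k X))) := by
    intro M M' h
    ext i j
    exact congrFun (congrFun h i) j
  have hmul : ∀ M M' : Matrix (Fin N) (Fin N) (invariants G), (M * M').map (fun x => (x : FreeAlgebra k X)) =
      M.map (fun x => (x : FreeAlgebra k X)) * M'.map (fun x => (x : FreeAlgebra k X)) := by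
    intro M M'
    ext i j
    simp [Matrix.mul_apply]
  have hone : (1 : Matrix (Fin N) (Fin N) (invariants G)).map (fun x => (x : FreeAlgebra k X)) = 1 := by
    ext i j
    by_cases h : i = j
    · subst h; simp
    · simp [Matrix.one_apply_ne h]
  have hPm : P'.map (fun x => (x : FreeAlgebra k X)) = (P : Matrix (Fin N) (Fin N) (A k X)) := rfl
  have hQm : Q'.map (fun x => (x : FreeAlgebra k X)) = ((P⁻¹ : GLm k X N) : Matrix (Fin N) (Fin N) (A k X)) := rfl
  refine ⟨⟨P', Q', hinj ?_, hinj ?_⟩, ?_⟩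
  · show (P' * Q').map _ = (1 : Matrix (Fin N) (Fin N) (invariants G)).map _
    rw [hmul, hone, hPm, hQm, ← Units.val_mul, mul_inv_cancel, Units.val_one]
  · show (Q' * P').map _ = (1 : Matrix (Fin N) (Fin N) (invariants G)).map _
    rw [hmul, hone, hPm, hQm, ← Units.val_mul, inv_mul_cancel, Units.val_one]
  · intro j
    rcases htr j with h | h
    · left
      apply Subtype.ext
      show ((u ᵥ* Q') j : FreeAlgebra k X) = 0
      rw [← h]
      simp [co, Matrix.vecMul, dotProduct, Q']
    · right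
      apply Subtype.ext
      show ((P' *ᵥ v) j : FreeAlgebra k X) = 0
      rw [← h]
      simp [Matrix.mulVec, dotProduct, P']

theorem inv_ibn (G : Subgroup (FreeAlgebra k X ≃ₐ[k] FreeAlgebra k X)) : InvariantBasisNumber (invariants G) :=
  ibn_of_hom ((FreeAlgebra.algebraMapInv : FreeAlgebra k X →ₐ[k] k).toRingHom.comp (invariants G).subtype)

end Pool.Agent.SMF
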