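import Pool.Agent.SMF.Prism

/-!
# SMF-PathA: acyclicity from finite sequences of steps (imports Prism, H0)

A cycle is moved along the finite sequence of steps by prisms; at the end it is a multiple of a
constant chain, which is a boundary.
-/

namespace Pool.Agent.SMF

open Finsupp

variable {K : Type*} [Field K] {P : Type*} [PartialOrder P]

/-- short chains (abstract) -/
def Shq (q : P → P → Prop) (S : Set P) (l : List P) : Prop :=
  (∀ u ∈ l, u ∈ S) ∧ l.Pairwise (· ≤ ·) ∧ ∀ u ∈ l, ∀ v ∈ l, q u v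

/-- a step -/
def Stp (q : P → P → Prop) (S C : Set P) (f g : P → P) : Prop :=
  (∀ u ∈ C, f u ∈ S ∧ g u ∈ S ∧ f u ≤ g u) ∧ (∀ u ∈ C, ∀ v ∈ C, u ≤ v → f u ≤ f v ∧ g u ≤ g v) ∧
    ∀ u ∈ C, ∀ v ∈ C, q u v → q (g u) (f v)

private theorem stp_list (q : P → P → Prop) (hq1 : ∀ x y z, x ≤ y → q y z → q x z)
    (hq2 : ∀ x y z, q x y → y ≤ z → q x z) (S C : Set P) {f g : P → P} (h : Stp q S C f g)
    (l1 l2 : List P) (v : P) (hl : Shq q S (l1 ++ v :: l2) ∧ ∀ u ∈ l1 ++ v :: l2, u ∈ C) :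
    Shq q S (l1.map f ++ f v :: g v :: l2.map g) := by
  obtain ⟨⟨-, h2, h3⟩, h4⟩ := hl
  obtain ⟨s1, s2, s3⟩ := h
  have hv : v ∈ l1 ++ v :: l2 := by simp
  have m1 : ∀ u ∈ l1, u ∈ l1 ++ v :: l2 := fun u hu => by simp [hu]
  have m2 : ∀ u ∈ l2, u ∈ l1 ++ v :: l2 := fun u hu => by simp [hu]
  have key : ∀ x ∈ l1.map f ++ f v :: g v :: l2.map g, ∃ u ∈ l1 ++ v :: l2, x = f u ∨ x = g u := by
    intro x hx
    rw [List.mem_append, List.mem_cons, List.mem_cons, List.mem_map, List.mem_map] at hx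
    rcases hx with ⟨u, hu, rfl⟩ | rfl | rfl | ⟨u, hu, rfl⟩
    · exact ⟨u, m1 u hu, Or.inl rfl⟩
    · exact ⟨v, hv, Or.inl rfl⟩
    · exact ⟨v, hv, Or.inr rfl⟩
    · exact ⟨u, m2 u hu, Or.inr rfl⟩
  refine ⟨fun x hx => ?_, ?_, fun x hx y hy => ?_⟩
  · obtain ⟨u, hu, rfl | rfl⟩ := key x hx
    · exact (s1 u (h4 u hu)).1
    · exact (s1 u (h4 u hu)).2.1
  · rw [List.pairwise_append, List.pairwise_cons] at h2
    obtain ⟨p1, ⟨p2, p3⟩, p4⟩ := h2
    have fg : ∀ u ∈ l1 ++ v :: l2, f u ≤ g u := fun u hu => (s1 u (h4 u hu)).2.2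
    rw [List.pairwise_append, List.pairwise_cons, List.pairwise_cons, List.pairwise_map,
      List.pairwise_map]
    refine ⟨?_, ⟨?_, ?_, ?_⟩, ?_⟩
    · exact p1.imp_of_mem fun {a b} ha hb hab => (s2 a (h4 a (m1 a ha)) b (h4 b (m1 b hb)) hab).1
    · intro x hx
      rw [List.mem_cons, List.mem_map] at hx
      rcases hx with rfl | ⟨w, hw, rfl⟩
      · exact fg v hv
      · exact (fg v hv).trans (s2 v (h4 v hv) w (h4 w (m2 w hw)) (p2 w hw)).2
    · intro x hx
      rw [List.mem_map] at hx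
      obtain ⟨w, hw, rfl⟩ := hx
      exact (s2 v (h4 v hv) w (h4 w (m2 w hw)) (p2 w hw)).2
    · exact p3.imp_of_mem fun {a b} ha hb hab => (s2 a (h4 a (m2 a ha)) b (h4 b (m2 b hb)) hab).2
    · intro x hx y hy
      rw [List.mem_map] at hx
      obtain ⟨u, hu, rfl⟩ := hx
      have hu' := h4 u (m1 u hu)
      rw [List.mem_cons, List.mem_cons, List.mem_map] at hy
      rcases hy with rfl | rfl | ⟨w, hw, rfl⟩
      · exact (s2 u hu' v (h4 v hv) (p4 u hu v List.mem_cons_self)).1
      · exact (s2 u hu' v (h4 v hv) (p4 u hu v List.mem_cons_self)).1.trans (fg v hv)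
      · exact (fg u (m1 u hu)).trans
          (s2 u hu' w (h4 w (m2 w hw)) (p4 u hu w (List.mem_cons_of_mem _ hw))).2
  · obtain ⟨u, hu, hx'⟩ := key x hx
    obtain ⟨w, hw, hy'⟩ := key y hy
    have h5 := s3 u (h4 u hu) w (h4 w hw) (h3 u hu w hw)
    have h6 : x ≤ g u := by
      rcases hx' with rfl | rfl
      · exact (s1 u (h4 u hu)).2.2
      · exact le_rfl
    have h7 : f w ≤ y := by
      rcases hy' with rfl | rfl
      · exact le_rfl
      · exact (s1 w (h4 w hw)).2.2
    exact hq2 _ _ _ (hq1 _ _ _ h6 h5) h7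

omit [PartialOrder P] in
private theorem bd_const (c : P) (j : ℕ) :
    bd (single (List.replicate (2 * j) c) (1 : K)) = 0 ∧
      bd (single (List.replicate (2 * j + 1) c) (1 : K)) = single (List.replicate (2 * j) c) 1 := by
  have h1 : ∀ k : ℕ, bd (single (List.replicate (k + 1) c) (1 : K)) =
      single (List.replicate k c) 1 - cns c (bd (single (List.replicate k c) (1 : K))) := by
    intro k
    rw [List.replicate_succ, ← cns_single, bd_cns]
  induction j with
  | zero =>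
    have h2 : bd (single (List.replicate (2 * 0) c) (1 : K)) = 0 := bd_nil 1
    refine ⟨h2, ?_⟩
    rw [h1, h2, map_zero, sub_zero]
  | succ j ih =>
    have h2 : bd (single (List.replicate (2 * (j + 1)) c) (1 : K)) = 0 := by
      rw [show 2 * (j + 1) = (2 * j + 1) + 1 by ring, h1, ih.2, cns_single, List.replicate_succ,
        sub_self]
    refine ⟨h2, ?_⟩
    rw [h1, h2, map_zero, sub_zero]

theorem acyc_paths (q : P → P → Prop) (hq1 : ∀ x y z, x ≤ y → q y z → q x z)
    (hq2 : ∀ x y z, q x y → y ≤ z → q x z) (S : Set P)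
    (h : ∀ C : Set P, C.Finite → C ⊆ S → ∃ (N : ℕ) (f : ℕ → P → P) (c : P), c ∈ S ∧ q c c ∧
      (∀ u ∈ C, f 0 u = u) ∧ (∀ u ∈ C, f N u = c) ∧
      ∀ i < N, Stp q S C (f i) (f (i + 1)) ∨ Stp q S C (f (i + 1)) (f i)) : Acyc K (Shq q S) := by
  intro m z hz hbz
  have hz' := mem_SP.1 hz
  obtain ⟨C, hC⟩ : ∃ C : Set P, C = {u | ∃ l, z l ≠ 0 ∧ u ∈ l} := ⟨_, rfl⟩
  have hCm : ∀ l, z l ≠ 0 → ∀ u ∈ l, u ∈ C := by
    intro l hl u hu
    rw [hC]
    exact ⟨l, hl, hu⟩
  have hCfin : C.Finite := by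
    have h1 : C = ⋃ l ∈ (z.support : Set (List P)), {u | u ∈ l} := by
      rw [hC]
      ext u
      simp only [Set.mem_ofPred_eq, Set.mem_iUnion, Finset.mem_coe, Finsupp.mem_support_iff,
        exists_prop]
    rw [h1]
    exact Set.Finite.biUnion z.support.finite_toSet fun l _ => List.finite_toSet l
  have hCS : C ⊆ S := by
    intro u hu
    rw [hC] at hu
    obtain ⟨l, hl, hul⟩ := hu
    exact (hz' l hl).1.1 u hul
  obtain ⟨N, f, c, hcS, hcq, hf0, hfN, hst⟩ := h C hCfin hCS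
  have hz0 : z ∈ SP K (fun l => Shq q S l ∧ ∀ u ∈ l, u ∈ C) m :=
    mem_SP.2 fun l hl => ⟨⟨(hz' l hl).1, hCm l hl⟩, (hz' l hl).2⟩
  have step : ∀ f g : P → P, Stp q S C f g →
      ∃ y ∈ SP K (Shq q S) (m + 1), bd y = mp g z - mp f z := by
    intro f g hfg
    refine ⟨pr f g z, prism_mem (stp_list q hq1 hq2 S C hfg) hz0, ?_⟩
    have h1 := prism f g z
    rw [hbz, map_zero, add_zero] at h1
    exact h1
  have path : ∀ i, i ≤ N → ∃ y ∈ SP K (Shq q S) (m + 1), bd y = mp (f i) z - z := by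
    intro i
    induction i with
    | zero =>
      intro _
      refine ⟨0, Submodule.zero_mem _, ?_⟩
      have h1 : mp (f 0) z = z := by
        rw [mp_congr (f := f 0) (g := fun u => u) fun l hl u hu => hf0 u (hCm l hl u hu), mp_id]
      rw [h1, sub_self, map_zero]
    | succ i ih =>
      intro hi
      obtain ⟨y, hy, hy'⟩ := ih (by omega)
      rcases hst i (by omega) with h1 | h1
      · obtain ⟨w, hw, hw'⟩ := step _ _ h1
        refine ⟨w + y, Submodule.add_mem _ hw hy, ?_⟩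
        rw [map_add, hw', hy']
        abel
      · obtain ⟨w, hw, hw'⟩ := step _ _ h1
        refine ⟨y - w, Submodule.sub_mem _ hy hw, ?_⟩
        rw [map_sub, hw', hy']
        abel
  obtain ⟨y, hy, hy'⟩ := path N le_rfl
  have hcst : mp (f N) z = mp (fun _ => c) z :=
    mp_congr fun l hl u hu => hfN u (hCm l hl u hu)
  have hspan : mp (fun _ => c) z ∈ Submodule.span K {single (List.replicate m c) (1 : K)} := by
    have h1 : z ∈ (Submodule.span K {single (List.replicate m c) (1 : K)}).comap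
        (mp (K := K) fun _ : P => c) := by
      refine SP_induction (Q := Shq q S) (m := m) (fun l _ hl => ?_) hz
      rw [Submodule.mem_comap, mp_single, List.map_const', hl]
      exact Submodule.mem_span_singleton_self _
    exact h1
  obtain ⟨s, hs⟩ := Submodule.mem_span_singleton.1 hspan
  have hbd0 : s • bd (single (List.replicate m c) (1 : K)) = 0 := by
    rw [← map_smul, hs, bd_mp, hbz, map_zero]
  rcases Nat.even_or_odd' m with ⟨j, hj | hj⟩
  · refine ⟨s • single (List.replicate (m + 1) c) 1 - y, Submodule.sub_mem _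
      (Submodule.smul_mem _ _ ?_) hy, ?_⟩
    · have h1 := single_mem_SP (K := K) (Q := Shq q S) (l := List.replicate (m + 1) c)
        ⟨fun u hu => by rw [List.eq_of_mem_replicate hu]; exact hcS,
          List.pairwise_replicate.2 (Or.inr le_rfl), fun u hu v hv => by
            rw [List.eq_of_mem_replicate hu, List.eq_of_mem_replicate hv]
            exact hcq⟩ 1
      rw [List.length_replicate] at h1
      exact h1
    · rw [map_sub, map_smul, hy', hcst, ← hs, hj, (bd_const c j).2]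
      abel
  · have h1 : s = 0 := by
      rw [hj, (bd_const c j).2, smul_single, smul_eq_mul, mul_one] at hbd0
      exact Finsupp.single_eq_zero.1 hbd0
    refine ⟨-y, Submodule.neg_mem _ hy, ?_⟩
    rw [map_neg, hy', hcst, ← hs, h1, zero_smul, zero_sub, neg_neg]

end Pool.Agent.SMF
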