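import Pool.Agent.SMF.LatW

/-!
# SMF-Uniq: the degrees of a lattice are unique (imports LatW, Alg, Umb)

PLAN.  Let `G` be the matrix over `k` of augmentations of the entries of `g` (`RingHom.mapMatrix` of `FreeAlgebra.algebraMapInv`), invertible, rows `v j`.
The image of `filW w g D d` under the augmentation `V → k^n` (a `k`-linear map) is `span {v j | D j ≤ d}`: if `m = ∑ c j • rw' g j` with
`c j ∈ Fil ((d - D j) / w)` then `ep (m) = ∑ ep (c j) • v j` and `ep (c j) = 0` if `d < D j` (`fil_neg`); conversely `v j` is the image of `rw' g j`.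
So its dimension is `#{j | D j ≤ d}` (`finrank_span_eq_card`, linear independence of the rows).  Hence `#{j | D j ≤ d} = #{j | D' j ≤ d}` for all `d`, and for monotone
`D`, `D'` this gives `D = D'`: `{j | D j ≤ d}` is an initial segment of `Fin n`, so the two sets are equal for all `d`; `D j ≤ d ↔ D' j ≤ d`.
-/

namespace Pool.Agent.SMF

variable {k X : Type*} [Field k] {n : ℕ}

/-- the augmentation of rows -/
private noncomputable def E0 : V k X n →ₗ[k] (Fin n → k) where
  toFun m := fun j => ep (m j)
  map_add' a b := by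
    funext j
    exact ep_add _ _
  map_smul' c a := by
    funext j
    exact ep_smul _ _

private theorem E0_smulA (a : A k X) (m : V k X n) : E0 (a • m) = ep a • E0 m := by
  funext j
  exact ep_mul _ _

private theorem li (g : GLm k X n) : LinearIndependent k fun j => E0 (rw' g j) := by
  have h1 : IsUnit ((RingHom.mapMatrix (m := Fin n)
      (FreeAlgebra.algebraMapInv (R := k) (X := X)).toRingHom) (g : Matrix (Fin n) (Fin n) (A k X))) :=
    g.isUnit.map _
  exact Matrix.linearIndependent_rows_iff_isUnit.2 h1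

private theorem map_fil {w : ℕ} (hw : 1 ≤ w) (g : GLm k X n) (D : Fin n → ℤ) (d : ℤ) :
    (filW w g D d).map E0 =
      Submodule.span k (Set.range fun j : {j // D j ≤ d} => E0 (rw' g j.1)) := by
  have hw' : (0 : ℤ) < (w : ℤ) := by exact_mod_cast hw
  apply le_antisymm
  · rintro _ ⟨m, hm, rfl⟩
    have h1 : E0 m = ∑ l, ep (co g m l) • E0 (rw' g l) := by
      conv_lhs => rw [eq_sum g m]
      rw [map_sum]
      exact Finset.sum_congr rfl fun l _ => E0_smulA _ _
    rw [h1]
    refine Submodule.sum_mem _ fun l _ => ?_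
    by_cases hl : D l ≤ d
    · exact Submodule.smul_mem _ _ (Submodule.subset_span ⟨⟨l, hl⟩, rfl⟩)
    · have h2 : co g m l ∈ Fil (k := k) (X := X) ((d - D l) / (w : ℤ)) := hm l
      have h3 : (d - D l) / (w : ℤ) < 0 := Int.ediv_neg_of_neg_of_pos (by linarith [not_le.1 hl]) hw'
      rw [fil_neg h3, Submodule.mem_bot] at h2
      rw [h2]
      have h4 : ep (0 : A k X) = 0 := map_zero (FreeAlgebra.algebraMapInv (R := k) (X := X))
      rw [h4, zero_smul]
      exact Submodule.zero_mem _
  · rw [Submodule.span_le]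
    rintro _ ⟨j, rfl⟩
    refine ⟨rw' g j.1, ?_, rfl⟩
    intro l
    rw [co_rw]
    by_cases hl : l = j.1
    · subst hl
      rw [Pi.single_eq_same]
      have h1 := fil_alg (k := k) (X := X) 1 (d := (d - D j.1) / (w : ℤ))
        (Int.ediv_nonneg (by linarith [j.2]) hw'.le)
      rwa [map_one] at h1
    · rw [Pi.single_eq_of_ne hl]
      exact Submodule.zero_mem _

private theorem card_eq {w : ℕ} (hw : 1 ≤ w) (g : GLm k X n) (D : Fin n → ℤ) (d : ℤ) :
    Module.finrank k ((filW w g D d).map E0) = (Finset.univ.filter fun j => D j ≤ d).card := by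
  have h1 : LinearIndependent k fun j : {j // D j ≤ d} => E0 (rw' g j.1) :=
    (li g).comp _ Subtype.val_injective
  rw [map_fil hw, finrank_span_eq_card h1, Fintype.card_subtype]

private theorem le_of_card {D D' : Fin n → ℤ} (hD : Monotone D) (hD' : Monotone D')
    (h : ∀ d : ℤ, (Finset.univ.filter fun j => D j ≤ d).card =
      (Finset.univ.filter fun j => D' j ≤ d).card) (j : Fin n) : D' j ≤ D j := by
  by_contra hc
  have hc' : D j < D' j := not_le.1 hc
  have h1 := h (D j)
  have h2 : (Finset.univ.filter fun l : Fin n => l ≤ j) ⊆ Finset.univ.filter fun l => D l ≤ D j := by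
    intro l hl
    rw [Finset.mem_filter] at hl ⊢
    exact ⟨hl.1, hD hl.2⟩
  have h3 : (Finset.univ.filter fun l => D' l ≤ D j) ⊆ Finset.univ.filter fun l : Fin n => l < j := by
    intro l hl
    rw [Finset.mem_filter] at hl ⊢
    refine ⟨hl.1, ?_⟩
    by_contra hlj
    have h4 := hD' (not_lt.1 hlj)
    linarith [hl.2]
  have h4 : (Finset.univ.filter fun l : Fin n => l < j) ⊂ Finset.univ.filter fun l : Fin n => l ≤ j := by
    rw [Finset.ssubset_iff_of_subset]
    · exact ⟨j, by simp, by simp⟩
    · intro l hl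
      rw [Finset.mem_filter] at hl ⊢
      exact ⟨hl.1, hl.2.le⟩
  have h5 := Finset.card_le_card h2
  have h6 := Finset.card_le_card h3
  have h7 := Finset.card_lt_card h4
  omega

theorem deg_unique {w : ℕ} (hw : 1 ≤ w) (g g' : GLm k X n) {D D' : Fin n → ℤ} (hD : Monotone D) (hD' : Monotone D')
    (h : ∀ d, filW w g D d = filW w g' D' d) : D = D' := by
  have h1 : ∀ d : ℤ, (Finset.univ.filter fun j => D j ≤ d).card =
      (Finset.univ.filter fun j => D' j ≤ d).card := by
    intro d
    rw [← card_eq hw g D d, ← card_eq hw g' D' d, h d]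
  funext j
  exact le_antisymm (le_of_card hD' hD (fun d => (h1 d).symm) j) (le_of_card hD hD' h1 j)

end Pool.Agent.SMF
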