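import Pool.Agent.SMF.Std
import Pool.Agent.SMF.Uniq
import Pool.Agent.SMF.CompM

/-!
# SMF-Short: short chains of lattices have a standard form
-/

namespace Pool.Agent.SMF

variable {k X : Type*} [Field k] {n : ℕ}

/-- short chains with vertices in `S` -/
def Sho (S : Set (Lat k X n)) (l : List (Lat k X n)) : Prop :=
  (∀ u ∈ l, u ∈ S) ∧ l.Pairwise (· ≤ ·) ∧ ∀ u ∈ l, ∀ v ∈ l, u ≤ v.sh 1

theorem short_std (l : List (Lat k X n)) (hl : Sho Set.univ l) (hne : l ≠ []) :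
    ∃ (g : GLm k X n) (E : Fin n → ℤ), Monotone E ∧
      ∀ (i : Fin l.length) (d : ℤ), (l.get i).fil d = filW l.length g E (l.length * d + i) := by
  have hw : 1 ≤ l.length := List.length_pos_of_ne_nil hne
  obtain ⟨-, hpw, hsh⟩ := hl
  have hwz : (0 : ℤ) < (l.length : ℤ) := by exact_mod_cast hw
  have hix : ∀ e : ℤ, (e % (l.length : ℤ)).toNat < l.length := by
    intro e
    have h1 := Int.emod_nonneg e hwz.ne'
    have h2 := Int.emod_lt_of_pos e hwz
    omega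
  let Γ : ℤ → Submodule k (V k X n) := fun e =>
    (l.get ⟨(e % (l.length : ℤ)).toNat, hix e⟩).fil (e / (l.length : ℤ))
  have hΓ : ∀ (q : ℤ) (i : Fin l.length),
      Γ ((l.length : ℤ) * q + ((i : ℕ) : ℤ)) = (l.get i).fil q := by
    intro q i
    have hi : ((i : ℕ) : ℤ) < (l.length : ℤ) := by exact_mod_cast i.isLt
    have hi0 : (0 : ℤ) ≤ ((i : ℕ) : ℤ) := Int.natCast_nonneg _
    have h1 : ((l.length : ℤ) * q + ((i : ℕ) : ℤ)) % (l.length : ℤ) = ((i : ℕ) : ℤ) := by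
      rw [add_comm, Int.add_mul_emod_self_left]
      exact Int.emod_eq_of_lt hi0 hi
    have h2 : ((l.length : ℤ) * q + ((i : ℕ) : ℤ)) / (l.length : ℤ) = q := by
      rw [add_comm, Int.add_mul_ediv_left _ _ hwz.ne', Int.ediv_eq_zero_of_lt hi0 hi, zero_add]
    have h3 : (⟨(((l.length : ℤ) * q + ((i : ℕ) : ℤ)) % (l.length : ℤ)).toNat, hix _⟩ :
        Fin l.length) = i := by
      apply Fin.ext
      show (((l.length : ℤ) * q + ((i : ℕ) : ℤ)) % (l.length : ℤ)).toNat = (i : ℕ)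
      rw [h1, Int.toNat_natCast]
    show (l.get ⟨(((l.length : ℤ) * q + ((i : ℕ) : ℤ)) % (l.length : ℤ)).toNat, hix _⟩).fil
      (((l.length : ℤ) * q + ((i : ℕ) : ℤ)) / (l.length : ℤ)) = _
    rw [h3, h2]
  have hdec : ∀ e : ℤ, ∃ (q : ℤ) (i : Fin l.length),
      e = (l.length : ℤ) * q + ((i : ℕ) : ℤ) := by
    intro e
    refine ⟨e / (l.length : ℤ), ⟨(e % (l.length : ℤ)).toNat, hix e⟩, ?_⟩
    show e = (l.length : ℤ) * (e / (l.length : ℤ)) + (((e % (l.length : ℤ)).toNat : ℕ) : ℤ)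
    rw [Int.toNat_of_nonneg (Int.emod_nonneg e hwz.ne')]
    exact (Int.mul_ediv_add_emod e _).symm
  have hmono : Monotone Γ := by
    apply monotone_int_of_le_succ
    intro e
    obtain ⟨q, i, rfl⟩ := hdec e
    by_cases hi : (i : ℕ) + 1 < l.length
    · have h1 : (l.length : ℤ) * q + ((i : ℕ) : ℤ) + 1 =
          (l.length : ℤ) * q + (((⟨(i : ℕ) + 1, hi⟩ : Fin l.length) : ℕ) : ℤ) := by
        show _ = (l.length : ℤ) * q + (((i : ℕ) + 1 : ℕ) : ℤ)
        push_cast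
        ring
      rw [h1, hΓ, hΓ]
      have h2 := List.pairwise_iff_get.1 hpw i ⟨(i : ℕ) + 1, hi⟩ (by
        rw [Fin.lt_def]; exact Nat.lt_succ_self _)
      exact h2 q
    · have hi' : (i : ℕ) + 1 = l.length := by
        have := i.isLt
        omega
      have h1 : (l.length : ℤ) * q + ((i : ℕ) : ℤ) + 1 =
          (l.length : ℤ) * (q + 1) + (((⟨0, hw⟩ : Fin l.length) : ℕ) : ℤ) := by
        show _ = (l.length : ℤ) * (q + 1) + ((0 : ℕ) : ℤ)
        have h3 : (l.length : ℤ) = ((i : ℕ) : ℤ) + 1 := by exact_mod_cast hi'.symm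
        rw [mul_add, mul_one]
        push_cast
        linarith
      rw [h1, hΓ, hΓ]
      have h2 := hsh (l.get i) (List.get_mem l i) (l.get ⟨0, hw⟩) (List.get_mem l _)
      exact h2 q
  have hlow : ∃ d, Γ d = ⊥ := by
    obtain ⟨d, hd⟩ := (l.get ⟨0, hw⟩).low
    exact ⟨_, (hΓ d ⟨0, hw⟩).trans hd⟩
  have hexh : ∀ m, ∃ d, m ∈ Γ d := by
    intro m
    obtain ⟨d, hd⟩ := (l.get ⟨0, hw⟩).exh m
    exact ⟨_, by rw [hΓ d ⟨0, hw⟩]; exact hd⟩
  have hstar : ∀ d m, (∀ j, ep (m j) = 0) →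
      (m ∈ Γ d ↔ ∀ y, (fun j => dl y (m j)) ∈ Γ (d - (l.length : ℤ))) := by
    intro d m hm
    obtain ⟨q, i, rfl⟩ := hdec d
    have h1 : (l.length : ℤ) * q + ((i : ℕ) : ℤ) - (l.length : ℤ) =
        (l.length : ℤ) * (q - 1) + ((i : ℕ) : ℤ) := by ring
    rw [h1, hΓ, hΓ]
    exact (l.get i).star q m hm
  obtain ⟨g, E, hE, h⟩ := std hw Γ hmono hlow hexh hstar
  refine ⟨g, E, hE, ?_⟩
  intro i d
  rw [← hΓ d i]
  exact h _

end Pool.Agent.SMF
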