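import Pool.Agent.SMF.LatB
import Pool.Agent.SMF.Short
import Pool.Agent.SMF.PathA

/-!
# SMF-PathAll: the complex of all short chains of lattices is acyclic (imports PathA, LatB, Short)

`acyc_paths` with `q u v := u ≤ v.sh 1` and the steps `Λ ↦ Λ.inf (Λ'.sh (J - i))`, where `Λ'` is the standard
lattice: for `i = 0` this is `Λ`, for large `i` it is `Λ'.sh (J - i)`.
-/

namespace Pool.Agent.SMF

variable {K : Type*} [Field K] {k X : Type*} [Field k] {n : ℕ}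

private theorem fin_bd {P : Type*} {C : Set P} (hC : C.Finite) (j0 : P → ℤ) :
    ∃ J : ℤ, ∀ u ∈ C, j0 u ≤ J := by
  obtain ⟨J, hJ⟩ := (hC.image j0).bddAbove
  exact ⟨J, fun u hu => hJ ⟨u, hu, rfl⟩⟩

theorem acyc_all : Acyc K (Sho (Set.univ : Set (Lat k X n))) := by
  have hq1 : ∀ x y z : Lat k X n, x ≤ y → y ≤ z.sh 1 → x ≤ z.sh 1 := fun x y z h h' => h.trans h'
  have hq2 : ∀ x y z : Lat k X n, x ≤ y.sh 1 → y ≤ z → x ≤ z.sh 1 :=
    fun x y z h h' => h.trans fun d => h' (d + 1)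
  refine acyc_paths (fun u v : Lat k X n => u ≤ v.sh 1) hq1 hq2 Set.univ ?_
  intro C hC _
  obtain ⟨L, hL⟩ : ∃ L : Lat k X n, L = Lat.of 1 0 := ⟨_, rfl⟩
  choose j0 hj0 using fun Λ : Lat k X n => lat_bdd Λ L
  choose j1 hj1 using fun Λ : Lat k X n => lat_bdd L Λ
  obtain ⟨J, hJ⟩ := fin_bd hC j0
  obtain ⟨M, hM⟩ := fin_bd hC j1
  refine ⟨(J + M).toNat, fun i Λ => Λ.inf (L.sh (J - (i : ℤ))), L.sh (J - ((J + M).toNat : ℤ)),
    Set.mem_univ _, lat_le_sh _ (by norm_num), ?_, ?_, ?_⟩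
  · intro u hu
    refine Lat.ext (funext fun d => ?_)
    have h1 := hj0 u J (hJ u hu) d
    show u.fil d ⊓ L.fil (d + (J - ((0 : ℕ) : ℤ))) = u.fil d
    rw [Nat.cast_zero, sub_zero]
    exact inf_eq_left.2 h1
  · intro u hu
    refine Lat.ext (funext fun d => ?_)
    have h0 : M ≤ ((J + M).toNat : ℤ) - J := by
      have := Int.self_le_toNat (J + M)
      omega
    have h1 := hj1 u (((J + M).toNat : ℤ) - J) ((hM u hu).trans h0) (d + (J - ((J + M).toNat : ℤ)))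
    show u.fil d ⊓ L.fil (d + (J - ((J + M).toNat : ℤ))) = L.fil (d + (J - ((J + M).toNat : ℤ)))
    refine inf_eq_right.2 (h1.trans (le_of_eq ?_))
    show u.fil _ = u.fil d
    congr 1
    ring
  · intro i _
    right
    refine ⟨fun u _ => ⟨Set.mem_univ _, Set.mem_univ _, fun d => ?_⟩, fun u _ v _ h => ⟨fun d => ?_, fun d => ?_⟩,
      fun u _ v _ h d => ?_⟩
    · show u.fil d ⊓ L.fil (d + (J - ((i + 1 : ℕ) : ℤ))) ≤ u.fil d ⊓ L.fil (d + (J - (i : ℤ)))
      refine inf_le_inf le_rfl (L.mono ?_)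
      push_cast
      linarith
    · exact inf_le_inf (h d) le_rfl
    · exact inf_le_inf (h d) le_rfl
    · show u.fil d ⊓ L.fil (d + (J - (i : ℤ))) ≤
        v.fil (d + 1) ⊓ L.fil (d + 1 + (J - ((i + 1 : ℕ) : ℤ)))
      refine inf_le_inf (h d) (le_of_eq ?_)
      congr 1
      push_cast
      ring

end Pool.Agent.SMF
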