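import Pool.Agent.SMF.Hull
import Pool.Agent.SMF.Short
import Pool.Agent.SMF.PathA

/-!
# SMF-PathC: the short chains of lattices compatible with a flag are acyclic (imports Hull, LatB, PathA, Short, Spec)

`acyc_paths` for the sums of the given lattices with the translates of one lattice `Ψ = Lat.of b a` with large gaps (`hull`).
-/

namespace Pool.Agent.SMF

variable {K : Type*} [Field K] {k X : Type*} [Field k] {n : ℕ}

private theorem pc_bdd {ι : Type*} {s : Set ι} (hs : s.Finite) (f : ι → A k X) :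
    ∃ L : ℤ, 0 ≤ L ∧ ∀ i ∈ s, f i ∈ Fil (k := k) (X := X) L := by
  induction s, hs using Set.Finite.induction_on with
  | empty => exact ⟨0, le_refl _, fun i hi => absurd hi (Set.notMem_empty i)⟩
  | @insert a s _ _ ih =>
    obtain ⟨L, hL, h⟩ := ih
    obtain ⟨d, hd, hda⟩ := fil_exh (f a)
    refine ⟨max L d, le_max_of_le_left hL, fun i hi => ?_⟩
    rcases Set.mem_insert_iff.1 hi with rfl | hi
    · exact fil_mono (le_max_right _ _) hda
    · exact fil_mono (le_max_left _ _) (h i hi)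

private theorem pc_unif {ι : Type*} {s : Set ι} (hs : s.Finite) (P : ι → ℕ → Prop)
    (h : ∀ i ∈ s, ∃ J0, ∀ J, J0 ≤ J → P i J) : ∃ J, ∀ i ∈ s, P i J := by
  have h' : ∃ J0, ∀ J, J0 ≤ J → ∀ i ∈ s, P i J := by
    induction s, hs using Set.Finite.induction_on with
    | empty => exact ⟨0, fun _ _ i hi => absurd hi (Set.notMem_empty i)⟩
    | @insert a s _ _ ih =>
      obtain ⟨J1, h1⟩ := ih fun i hi => h i (Set.mem_insert_of_mem _ hi)
      obtain ⟨J2, h2⟩ := h a (Set.mem_insert _ _)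
      refine ⟨max J1 J2, fun J hJ i hi => ?_⟩
      rcases Set.mem_insert_iff.1 hi with rfl | hi
      · exact h2 J ((le_max_right _ _).trans hJ)
      · exact h1 J ((le_max_left _ _).trans hJ) i hi
  obtain ⟨J0, hJ⟩ := h'
  exact ⟨J0, hJ J0 le_rfl⟩

theorem acyc_comp (t : T k X n) : Acyc K (Sho {Λ : Lat k X n | Comp Λ t}) := by
  have hq2 : ∀ x y z : Lat k X n, x ≤ y.sh 1 → y ≤ z → x ≤ z.sh 1 := fun x y z h h' =>
    le_trans h fun d => h' (d + 1)
  have hmain := acyc_paths (K := K) (fun u v : Lat k X n => u ≤ v.sh 1) (fun x y z h h' => le_trans h h')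
    hq2 {Λ : Lat k X n | Comp Λ t} ?_
  · exact hmain
  intro C hC hCS
  obtain ⟨β, hβ, hle, _, b, hb⟩ := T_spec t
  have hex : ∀ Λ : Lat k X n, ∃ (g : GLm k X n) (D : Fin n → ℤ), Ad g t ∧ (∀ j l, t j ≤ t l → D j ≤ D l) ∧
      (Λ ∈ C → Λ = Lat.of g D) := by
    intro Λ
    by_cases h : Λ ∈ C
    · obtain ⟨g, D, h1, h2, _, h4⟩ := hCS h
      exact ⟨g, D, h1, h2, fun _ => h4⟩
    · exact ⟨b, fun _ => 0, hb, fun _ _ _ => le_rfl, fun h' => absurd h' h⟩
  choose g D hg hD hΛ using hex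
  obtain ⟨L, hL0, hL⟩ := pc_bdd (k := k) (X := X) (hC.prod (Set.finite_univ (α := Fin n × (Fin n × Bool))))
    (fun p => if p.2.2.2 = true then
      ((b * (g p.1)⁻¹ : GLm k X n) : Matrix (Fin n) (Fin n) (A k X)) p.2.1 p.2.2.1 else
      ((g p.1 * b⁻¹ : GLm k X n) : Matrix (Fin n) (Fin n) (A k X)) p.2.1 p.2.2.1)
  let a : Fin n → ℤ := fun l => L * β l
  have ha1 : ∀ l l', t l ≤ t l' → a l ≤ a l' := fun l l' h =>
    mul_le_mul_of_nonneg_left ((hle l l').1 h) hL0
  have ha : ∀ l l', t l = t l' → a l = a l' := fun l l' h =>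
    le_antisymm (ha1 l l' h.le) (ha1 l' l h.ge)
  have hgap : ∀ l l', t l' < t l → L ≤ a l - a l' := by
    intro l l' h
    have h1 : β l' + 1 ≤ β l := by
      by_contra hcon
      have h2 : β l ≤ β l' := by omega
      exact absurd ((hle l l').2 h2) (not_le_of_gt h)
    have h3 : L * (β l' + 1) ≤ L * β l := mul_le_mul_of_nonneg_left h1 hL0
    show L ≤ L * β l - L * β l'
    linarith
  have hull' : ∀ Λ ∈ C, ∀ j d : ℤ, (Lat.of (g Λ) (fun l => min (D Λ l) (a l - j))).fil d =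
      Λ.fil d ⊔ (Lat.of b a).fil (d + j) := by
    intro Λ hΛC j d
    have h := hull t hb (hg Λ) (D Λ) a ha (fun l l' hll => ?_) (fun l l' hll => ?_) j d
    · rw [← h, ← hΛ Λ hΛC]
    · have h2 := hL (Λ, (l, (l', true))) ⟨hΛC, Set.mem_univ _⟩
      simp only [if_true] at h2
      exact fil_mono (hgap l l' hll) h2
    · have h2 := hL (Λ, (l, (l', false))) ⟨hΛC, Set.mem_univ _⟩
      simp only [Bool.false_eq_true, if_false] at h2
      exact fil_mono (hgap l l' hll) h2
  obtain ⟨J, hJ⟩ := pc_unif hC (fun Λ (J : ℕ) => Lat.of b a ≤ Λ.sh J ∧ Λ ≤ (Lat.of b a).sh J) (by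
    intro Λ _
    obtain ⟨j1, h1⟩ := lat_bdd (Lat.of b a) Λ
    obtain ⟨j2, h2⟩ := lat_bdd Λ (Lat.of b a)
    refine ⟨(max j1 j2).toNat, fun J hJ => ⟨h1 _ ?_, h2 _ ?_⟩⟩
    · have := le_max_left j1 j2
      omega
    · have := le_max_right j1 j2
      omega)
  have hcomp : ∀ (Λ : Lat k X n) (j : ℤ), Comp (Lat.of (g Λ) (fun l => min (D Λ l) (a l - j))) t := by
    intro Λ j
    have h1 : ∀ l l', t l ≤ t l' → min (D Λ l) (a l - j) ≤ min (D Λ l') (a l' - j) := fun l l' h =>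
      min_le_min (hD Λ l l' h) (sub_le_sub_right (ha1 l l' h) j)
    exact ⟨g Λ, _, hg Λ, h1, fun l l' h => h1 l l' (T_mono t h), rfl⟩
  refine ⟨2 * J, fun i Λ => Lat.of (g Λ) (fun l => min (D Λ l) (a l - ((i : ℤ) - J))), Lat.of b (fun l => a l - J),
    ?_, ?_, ?_, ?_, ?_⟩
  · have h1 : ∀ l l', t l ≤ t l' → a l - (J : ℤ) ≤ a l' - J := fun l l' h => sub_le_sub_right (ha1 l l' h) _
    exact ⟨b, _, hb, h1, fun l l' h => h1 l l' (T_mono t h), rfl⟩
  · exact lat_le_sh _ zero_le_one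
  · intro Λ hΛC
    refine Lat.ext (funext fun d => ?_)
    rw [hull' Λ hΛC]
    refine sup_eq_left.2 ?_
    have h1 := (hJ Λ hΛC).1 (d + ((0 : ℕ) - (J : ℤ)))
    refine h1.trans (le_of_eq ?_)
    show Λ.fil (d + ((0 : ℕ) - (J : ℤ)) + J) = Λ.fil d
    congr 1
    push_cast
    ring
  · intro Λ hΛC
    refine Lat.ext (funext fun d => ?_)
    rw [hull' Λ hΛC]
    have h2 : (Lat.of b a).fil (d + (((2 * J : ℕ) : ℤ) - J)) = (Lat.of b (fun l => a l - J)).fil d := by
      ext m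
      rw [mem_of, mem_of]
      have h3 : ∀ l, d + (((2 * J : ℕ) : ℤ) - J) - a l = d - (a l - J) := by
        intro l
        push_cast
        ring
      simp only [h3]
    rw [h2]
    refine sup_eq_right.2 ?_
    rw [← h2]
    refine ((hJ Λ hΛC).2 d).trans (le_of_eq ?_)
    show (Lat.of b a).fil (d + J) = _
    congr 1
    push_cast
    ring
  · intro i _
    left
    refine ⟨fun u hu => ⟨hcomp u _, hcomp u _, fun d => ?_⟩, fun u hu v hv huv => ⟨fun d => ?_, fun d => ?_⟩,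
      fun u hu v hv huv d => ?_⟩
    · show (Lat.of (g u) _).fil d ≤ (Lat.of (g u) _).fil d
      rw [hull' u hu, hull' u hu]
      refine sup_le_sup le_rfl ((Lat.of b a).mono ?_)
      push_cast
      linarith
    · show (Lat.of (g u) _).fil d ≤ (Lat.of (g v) _).fil d
      rw [hull' u hu, hull' v hv]
      exact sup_le_sup (huv d) le_rfl
    · show (Lat.of (g u) _).fil d ≤ (Lat.of (g v) _).fil d
      rw [hull' u hu, hull' v hv]
      exact sup_le_sup (huv d) le_rfl
    · show (Lat.of (g u) _).fil d ≤ (Lat.of (g v) _).fil (d + 1)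
      rw [hull' u hu, hull' v hv]
      refine sup_le_sup (huv d) (le_of_eq ?_)
      congr 1
      push_cast
      ring

end Pool.Agent.SMF
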