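import Pool.Agent.SMF.H0

/-!
# SMF-Prism: the prism homotopy (imports H0)

The prism identity is checked on lists and extended linearly.
-/

namespace Pool.Agent.SMF

open Finsupp

noncomputable section

variable {K : Type*} [Field K] {P P' : Type*}

/-- the prism of a list -/
def prL (f g : P → P') : List P → Ch K P'
  | [] => 0
  | v :: l => single (f v :: g v :: l.map g) 1 - cns (f v) (prL f g l)

/-- the prism -/
def pr (f g : P → P') : Ch K P →ₗ[K] Ch K P' := Finsupp.linearCombination K (prL f g)

private theorem pr_single (f g : P → P') (l : List P) (a : K) :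
    pr f g (single l a) = a • prL f g l := by
  simp [pr, Finsupp.linearCombination_single]

private theorem pr_cns (f g : P → P') (v : P) (c : Ch K P) :
    pr f g (cns v c) = cns (f v) (cns (g v) (mp g c)) - cns (f v) (pr f g c) := by
  induction c using Finsupp.induction_linear with
  | zero => simp
  | add a b ha hb =>
    rw [map_add, map_add, ha, hb, map_add, map_add, map_add, map_add, map_add]
    abel
  | single l a =>
    rw [cns_single, pr_single, pr_single, mp_single, cns_single, cns_single]
    show a • (single (f v :: g v :: l.map g) 1 - cns (f v) (prL f g l)) = _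
    rw [smul_sub, Finsupp.smul_single, smul_eq_mul, mul_one, map_smul]

private theorem prism_list (f g : P → P') (l : List P) :
    bd (prL f g l : Ch K P') + pr f g (bdL l) = single (l.map g) 1 - single (l.map f) 1 := by
  induction l with
  | nil => simp [prL, bdL]
  | cons v l ih =>
    have h1 : (bdL (l.map g) : Ch K P') = mp g (bdL l) := by
      have := bd_mp g (single l (1 : K))
      rw [mp_single, bd_single, bd_single, one_smul, one_smul] at this
      exact this
    have h2 : (prL f g (v :: l) : Ch K P') =
        single (f v :: g v :: l.map g) 1 - cns (f v) (prL f g l) := rfl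
    have h3 : (bdL (v :: l) : Ch K P) = single l 1 - cns v (bdL l) := rfl
    have h4 : (bdL (f v :: g v :: l.map g) : Ch K P') = single (g v :: l.map g) 1 -
        cns (f v) (single (l.map g) 1 - cns (g v) (bdL (l.map g))) := rfl
    have h5 := congrArg (cns (f v)) ih
    rw [map_add, map_sub, cns_single, cns_single] at h5
    have h6 : bd (prL f g (v :: l) : Ch K P') = single (g v :: l.map g) 1 -
        (single (f v :: l.map g) 1 - cns (f v) (cns (g v) (mp g (bdL l)))) -
        (prL f g l - cns (f v) (bd (prL f g l))) := by
      rw [h2, map_sub, bd_single, one_smul, h4, bd_cns, h1, map_sub, cns_single]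
    have h7 : pr f g (bdL (v :: l)) = prL f g l - (cns (f v) (cns (g v) (mp g (bdL l))) -
        cns (f v) (pr f g (bdL l)) : Ch K P') := by
      rw [h3, map_sub, pr_single, one_smul, pr_cns]
    rw [h6, h7, List.map_cons, List.map_cons]
    have h8 : cns (f v) (bd (prL f g l)) = (single (f v :: l.map g) 1 - single (f v :: l.map f) 1 : Ch K P') -
        cns (f v) (pr f g (bdL l)) := eq_sub_of_add_eq h5
    rw [h8]
    abel

private theorem cns_mem {Q' : List P' → Prop} {w : P'} {m : ℕ} {c : Ch K P'}
    (hc : c ∈ SP K (fun l => Q' (w :: l)) m) : cns w c ∈ SP K Q' (m + 1) := by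
  have : c ∈ (SP K Q' (m + 1)).comap (cns w) := by
    refine SP_induction (fun l hl hm => ?_) hc
    rw [Submodule.mem_comap, cns_single]
    have := single_mem_SP (K := K) hl 1
    rw [List.length_cons, hm] at this
    exact this
  exact this

private theorem prL_mem (f g : P → P') (l : List P) : ∀ Q' : List P' → Prop,
    (∀ (l1 l2 : List P) (v : P), l = l1 ++ v :: l2 → Q' (l1.map f ++ f v :: g v :: l2.map g)) →
      (prL f g l : Ch K P') ∈ SP K Q' (l.length + 1) := by
  induction l with
  | nil =>
    intro Q' _
    exact Submodule.zero_mem _
  | cons w l ih =>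
    intro Q' hQ
    show (single (f w :: g w :: l.map g) 1 - cns (f w) (prL f g l) : Ch K P') ∈ _
    apply Submodule.sub_mem
    · have h1 : Q' (f w :: g w :: l.map g) := hQ [] l w rfl
      have := single_mem_SP (K := K) h1 1
      rw [List.length_cons, List.length_cons, List.length_map] at this
      rw [List.length_cons]
      exact this
    · rw [List.length_cons]
      apply cns_mem
      apply ih
      intro l1 l2 v hl
      exact hQ (w :: l1) l2 v (by rw [hl, List.cons_append])

theorem prism (f g : P → P') (z : Ch K P) : bd (pr f g z) + pr f g (bd z) = mp g z - mp f z := by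
  induction z using Finsupp.induction_linear with
  | zero => simp
  | add a b ha hb =>
    have h1 : bd (pr f g (a + b)) + pr f g (bd (a + b)) =
        (bd (pr f g a) + pr f g (bd a)) + (bd (pr f g b) + pr f g (bd b)) := by
      rw [map_add, map_add, map_add, map_add]
      abel
    rw [h1, ha, hb, map_add, map_add]
    abel
  | single l a =>
    rw [pr_single, bd_single, mp_single, mp_single, map_smul, map_smul, ← smul_add, prism_list, smul_sub,
      Finsupp.smul_single, Finsupp.smul_single, smul_eq_mul, mul_one]

theorem prism_mem {Q : List P → Prop} {Q' : List P' → Prop} {f g : P → P'}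
    (h : ∀ (l1 l2 : List P) (v : P), Q (l1 ++ v :: l2) → Q' (l1.map f ++ f v :: g v :: l2.map g)) {m : ℕ}
    {z : Ch K P} (hz : z ∈ SP K Q m) : pr f g z ∈ SP K Q' (m + 1) := by
  have h1 : z ∈ (SP K Q' (m + 1)).comap (pr f g) := by
    refine SP_induction (fun l hl hm => ?_) hz
    rw [Submodule.mem_comap, pr_single, one_smul, ← hm]
    apply prL_mem
    intro l1 l2 v hl'
    apply h
    rw [← hl']
    exact hl
  exact h1

end

end Pool.Agent.SMF
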