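import Pool.Agent.SMF.TFix
import Pool.Agent.SMF.CplG
import Pool.Agent.SMF.Cop

/-!
# SMF-Pth: goodness along paths of fixed flags (assembly)
-/

namespace Pool.Agent.SMF

variable {k X : Type*} [Field k] {n : ℕ} {G : Type*} [Group G] {φ : G →* (A k X ≃ₐ[k] A k X)}

theorem good_path {p : ℕ} [Fact p.Prime] [Finite G] (hG : IsPGroup p G) (ρ : SAct φ n) {v₀ κ : T k X n}
    (h0 : Good ρ v₀) (hv : ρ.Fx v₀) (hκ : ρ.Fx κ) : ∃ κ', κ ≤ κ' ∧ Good ρ κ' := by
  have hpath := fx_conn hG ρ v₀ κ hv hκ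
  by_cases hch : CharP k p
  · -- wild case
    obtain ⟨c₀, hc1, hc2, hc3⟩ := cpl_exists hG hv
    have hg0 : Good ρ c₀ := good_up h0 hc1
    have key : ∀ κ, Relation.ReflTransGen (fun a b => ρ.Fx a ∧ ρ.Fx b ∧ (a ≤ b ∨ b ≤ a)) v₀ κ →
        ∃ c, κ ≤ c ∧ Cpl c ∧ ρ.Fx c ∧ Good ρ c := by
      intro κ h
      induction h with
      | refl => exact ⟨c₀, hc1, hc2, hc3, hg0⟩
      | tail _ hab ih =>
        obtain ⟨c, h1, h2, h3, h4⟩ := ih
        obtain ⟨ha, hb, hle⟩ := hab
        rcases hle with hle | hle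
        · obtain ⟨c', h1', h2', h3'⟩ := cpl_exists hG hb
          exact ⟨c', h1', h2', h3', good_cpl hG ha h1 (le_trans hle h1') h2 h2' h3 h3' h4⟩
        · exact ⟨c, le_trans hle h1, h2, h3, h4⟩
    obtain ⟨c, h1, _, _, h4⟩ := key κ hpath
    exact ⟨c, h1, h4⟩
  · -- coprime case
    have hcard : ((Nat.card G : ℕ) : k) ≠ 0 := by
      obtain ⟨a, ha⟩ := IsPGroup.iff_card.mp hG
      rw [ha, Nat.cast_pow]
      apply pow_ne_zero
      intro h
      apply hch
      have hp : p.Prime := Fact.out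
      have h2 := CharP.exists k
      obtain ⟨q, hq⟩ := h2
      have hdvd : q ∣ p := (CharP.cast_eq_zero_iff k q p).mp h
      rcases (Nat.dvd_prime hp).mp hdvd with h3 | h3
      · exact absurd h3 (CharP.char_ne_one k q)
      · rw [← h3]
        exact hq
    refine ⟨κ, le_refl _, ?_⟩
    clear hκ
    induction hpath with
    | refl => exact h0
    | tail _ hab ih =>
      obtain ⟨ha, hb, hle⟩ := hab
      rcases hle with hle | hle
      · exact good_up ih hle
      · exact good_down ih hle (triv_cop hcard hb ha hle ih)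

end Pool.Agent.SMF
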