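import Pool.Agent.SMF.Ord

/-!
# SMF-Rank: strict chains of flags have bounded length (imports Ord)

PLAN.  `rk t = (Finset.univ.image t.1).card ≤ n` (`Classical.decEq`).  If `s ≤ t`: the map `t j ↦ s j` is a well defined surjection from the
values of `t` onto the values of `s` (`t j = t l → s j = s l` by the hypothesis of `Le` both ways), so `rk s ≤ rk t`; if equality holds the map
is injective (`Finset.surj_on... ` / `Finset.card_le_card_of_surjOn` and `Finset.inj_on_of_surj_on_of_card_le`), so `s j = s l → t j = t l`; with the
total order (`T_tot`): `s j ≤ s l → t j ≤ t l` (if not, `t l ≤ t j`, so `s l ≤ s j`, hence `s j = s l`, `t j = t l`): then `s = t` by `T_ext`.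
So `s < t → rk s < rk t`, and in a strict chain `l` the ranks are strictly increasing natural numbers `≤ n`: `l.length ≤ n + 1`
(the list of ranks is `Nodup` and contained in `range (n + 1)`).
-/

namespace Pool.Agent.SMF

variable {k X : Type*} [Field k] {n : ℕ}

open Classical in
private noncomputable def rkT (t : T k X n) : ℕ := (Finset.univ.image t.1).card

open Classical in
private theorem rk_lt {s t : T k X n} (h : s < t) : rkT s < rkT t := by
  have hle : Le s t := (le_def s t).1 h.le
  have hne : s ≠ t := h.ne
  have heq : ∀ j l, t j = t l → s j = s l := fun j l hjl =>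
    le_antisymm (hle.1 j l hjl.le) (hle.1 l j hjl.ge)
  -- the map from the values of t onto the values of s
  have hsub : Finset.univ.image s.1 ⊆ (Finset.univ.image t.1).image
      (fun U => if hU : ∃ j, t j = U then s hU.choose else ⊥) := by
    intro U hU
    obtain ⟨j, -, rfl⟩ := Finset.mem_image.1 hU
    refine Finset.mem_image.2 ⟨t j, Finset.mem_image_of_mem _ (Finset.mem_univ j), ?_⟩
    have hex : ∃ l, t l = t j := ⟨j, rfl⟩
    rw [dif_pos hex]
    exact heq _ _ hex.choose_spec
  have hle2 : rkT s ≤ rkT t := by
    unfold rkT
    exact (Finset.card_le_card hsub).trans Finset.card_image_le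
  refine lt_of_le_of_ne hle2 fun hcard => hne ?_
  -- equality: the map is injective
  have h1 : ((Finset.univ.image t.1).image
      (fun U => if hU : ∃ j, t j = U then s hU.choose else ⊥)).card = (Finset.univ.image t.1).card := by
    refine le_antisymm Finset.card_image_le ?_
    have h2 : (Finset.univ.image t.1).card = (Finset.univ.image s.1).card := hcard.symm
    rw [h2]
    exact Finset.card_le_card hsub
  have hinj := Finset.card_image_iff.1 h1
  have hinj2 : ∀ j l, s j = s l → t j = t l := by
    intro j l hjl
    refine hinj (Finset.mem_coe.2 (Finset.mem_image_of_mem _ (Finset.mem_univ j)))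
      (Finset.mem_coe.2 (Finset.mem_image_of_mem _ (Finset.mem_univ l))) ?_
    have hex : ∃ m, t m = t j := ⟨j, rfl⟩
    have hex' : ∃ m, t m = t l := ⟨l, rfl⟩
    show (if hU : ∃ m, t m = t j then s hU.choose else ⊥) = if hU : ∃ m, t m = t l then s hU.choose else ⊥
    rw [dif_pos hex, dif_pos hex', heq _ _ hex.choose_spec, heq _ _ hex'.choose_spec, hjl]
  have hshape : ∀ j l, s j ≤ s l ↔ t j ≤ t l := by
    intro j l
    refine ⟨fun hjl => ?_, hle.1 j l⟩
    rcases T_tot t j l with h2 | h2
    · exact h2
    · exact (hinj2 j l (le_antisymm hjl (hle.1 l j h2))).le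
  obtain ⟨b, hb, hb'⟩ := hle.2
  exact T_ext hshape hb hb'

theorem chain_length (l : List (T k X n)) (hl : l.Pairwise (· < ·)) : l.length ≤ n + 1 := by
  have h1 : (l.map rkT).Pairwise (· < ·) := by
    rw [List.pairwise_map]
    exact hl.imp fun h => rk_lt h
  have h2 : (l.map rkT).Nodup := h1.imp fun h => h.ne
  have h3 : (l.map rkT).toFinset ⊆ Finset.range (n + 1) := by
    intro a ha
    rw [List.mem_toFinset, List.mem_map] at ha
    obtain ⟨t, -, rfl⟩ := ha
    rw [Finset.mem_range]
    unfold rkT
    have h4 : (Finset.univ.image t.1).card ≤ (Finset.univ : Finset (Fin n)).card := Finset.card_image_le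
    rw [Finset.card_univ, Fintype.card_fin] at h4
    omega
  have h4 := Finset.card_le_card h3
  rw [List.toFinset_card_of_nodup h2, List.length_map, Finset.card_range] at h4
  exact h4

end Pool.Agent.SMF
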