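import Pool.Agent.SMF.Defs

/-!
# SMF-StarD: transport of automorphisms by the reversal of words (definitions)
-/

namespace Pool.Agent.SMF

variable {k X : Type*} [Field k]

/-- the automorphism conjugated by the reversal of words -/
def starE (e : A k X ≃ₐ[k] A k X) : A k X ≃ₐ[k] A k X where
  toFun a := star (e (star a))
  invFun a := star (e.symm (star a))
  left_inv a := by simp
  right_inv a := by simp
  map_mul' a b := by simp
  map_add' a b := by simp
  commutes' c := by
    show star (e (star (algebraMap k (A k X) c))) = algebraMap k (A k X) c
    rw [FreeAlgebra.star_algebraMap, AlgEquiv.commutes, FreeAlgebra.star_algebraMap]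

theorem starE_apply (e : A k X ≃ₐ[k] A k X) (a : A k X) : starE e a = star (e (star a)) := rfl

/-- the action conjugated by the reversal of words -/
def starφ {G : Type*} [Group G] (φ : G →* (A k X ≃ₐ[k] A k X)) : G →* (A k X ≃ₐ[k] A k X) where
  toFun g := starE (φ g)
  map_one' := by
    ext a
    simp [starE_apply]
  map_mul' g h := by
    apply AlgEquiv.ext
    intro a
    show star (φ (g * h) (star a)) = star (φ g (star (star (φ h (star a)))))
    rw [star_star, map_mul]
    rfl

theorem starφ_apply {G : Type*} [Group G] (φ : G →* (A k X ≃ₐ[k] A k X)) (g : G) (a : A k X) :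
    starφ φ g a = star (φ g (star a)) := rfl

end Pool.Agent.SMF
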