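import Mathlib

/-!
# SMF-TrL: transport of freeness along an anti-isomorphism (Mathlib only)

PLAN.  `σ` is additive with `unop (σ (x * y)) = unop (σ y) * unop (σ x)`.  The additive bijection `τ x = (σ x).unop : S → S'` satisfies `τ (op c • x) = τ (x * c) = τ c * τ x`, so it is semilinear for the ring isomorphism `Sᵐᵒᵖ ≃+* S'`, `op c ↦ τ c`, and maps `span Sᵐᵒᵖ (range a)` onto `span S' (range (τ ∘ a))`
(`Submodule.span_induction` both ways, or `Submodule.map_span` for semilinear maps).  Transport a basis (`Basis.mapCoeffs`, `Module.Free.of_ringEquiv` or semilinear equivalences `≃ₛₗ`): e.g. a basis `b` of the span over `S'`; the family `τ⁻¹ (b i)` is linearly independent over `Sᵐᵒᵖ` and spans.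
-/

namespace Pool.Agent.SMF

open MulOpposite

theorem free_transport {S S' : Type*} [Ring S] [Ring S'] (σ : S ≃+* S'ᵐᵒᵖ) (a : ℕ → S)
    (h : Module.Free S' (Submodule.span S' (Set.range fun i => (σ (a i)).unop))) :
    Module.Free Sᵐᵒᵖ (Submodule.span Sᵐᵒᵖ (Set.range a)) := by
  let e₁ : S' ≃+* Sᵐᵒᵖ := (RingEquiv.opOp S').trans (RingEquiv.op σ).symm
  have he₁ : ∀ c, e₁ c = op (σ.symm (op c)) := fun c => rfl
  haveI : RingHomInvPair (e₁ : S' →+* Sᵐᵒᵖ) (e₁.symm : Sᵐᵒᵖ →+* S') :=
    RingHomInvPair.of_ringEquiv e₁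
  haveI : RingHomInvPair (e₁.symm : Sᵐᵒᵖ →+* S') (e₁ : S' →+* Sᵐᵒᵖ) :=
    RingHomInvPair.of_ringEquiv e₁.symm
  let T : S' ≃ₛₗ[(e₁ : S' →+* Sᵐᵒᵖ)] S :=
    { toFun := fun x => σ.symm (op x)
      map_add' := fun x y => by rw [op_add, map_add]
      map_smul' := fun c x => by
        show σ.symm (op (c * x)) = e₁ c • σ.symm (op x)
        rw [he₁, op_mul, map_mul]
        rfl
      invFun := fun y => (σ y).unop
      left_inv := fun x => by
        show (σ (σ.symm (op x))).unop = x
        rw [σ.apply_symm_apply, unop_op]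
      right_inv := fun y => by
        show σ.symm (op (σ y).unop) = y
        rw [op_unop, σ.symm_apply_apply] }
  have hT : ∀ x, T x = σ.symm (op x) := fun x => rfl
  have hmap : (Submodule.span S' (Set.range fun i => (σ (a i)).unop)).map
      (T : S' →ₛₗ[(e₁ : S' →+* Sᵐᵒᵖ)] S) = Submodule.span Sᵐᵒᵖ (Set.range a) := by
    rw [Submodule.map_span]
    congr 1
    ext y
    constructor
    · rintro ⟨_, ⟨i, rfl⟩, rfl⟩
      refine ⟨i, ?_⟩
      show a i = T (σ (a i)).unop
      rw [hT, op_unop, σ.symm_apply_apply]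
    · rintro ⟨i, rfl⟩
      refine ⟨(σ (a i)).unop, ⟨i, rfl⟩, ?_⟩
      show T (σ (a i)).unop = a i
      rw [hT, op_unop, σ.symm_apply_apply]
  have h2 := Module.Free.of_equiv (T.submoduleMap
    (Submodule.span S' (Set.range fun i => (σ (a i)).unop)))
  rw [hmap] at h2
  exact h2

end Pool.Agent.SMF
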