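import Pool.Agent.SMF.LeftF
import Pool.Agent.SMF.StarD
import Pool.Agent.SMF.TrL

/-!
# SMF-RightF: countably generated right ideals of the invariants are free (assembly)
-/

namespace Pool.Agent.SMF

open Pool.Agent.Helper71.FreeDefs MulOpposite

variable {k X : Type*} [Field k]

/-- conjugation by the reversal of words -/
def starH : (FreeAlgebra k X ≃ₐ[k] FreeAlgebra k X) →* (FreeAlgebra k X ≃ₐ[k] FreeAlgebra k X) :=
  starφ (MonoidHom.id _)

theorem starH_apply (e : FreeAlgebra k X ≃ₐ[k] FreeAlgebra k X) (a : FreeAlgebra k X) :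
    starH e a = star (e (star a)) := rfl

theorem starH_inj : Function.Injective (starH (k := k) (X := X)) := by
  intro e f h
  apply AlgEquiv.ext
  intro a
  have h2 := congrArg (fun u : FreeAlgebra k X ≃ₐ[k] FreeAlgebra k X => u (star a)) h
  have h3 : star (e (star (star a))) = star (f (star (star a))) := h2
  rw [star_star] at h3
  exact star_injective h3

theorem mem_star (G : Subgroup (FreeAlgebra k X ≃ₐ[k] FreeAlgebra k X)) (a : FreeAlgebra k X) :
    star a ∈ invariants (G.map starH) ↔ a ∈ invariants G := by
  constructor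
  · intro h g hg
    have h2 := h (starH g) (Subgroup.mem_map_of_mem _ hg)
    rw [starH_apply, star_star] at h2
    exact star_injective h2
  · rintro h _ ⟨g, hg, rfl⟩
    show starH g (star a) = star a
    rw [starH_apply, star_star, h g hg]

/-- the anti-isomorphism of the algebras of invariants -/
noncomputable def sigma (G : Subgroup (FreeAlgebra k X ≃ₐ[k] FreeAlgebra k X)) :
    invariants G ≃+* (invariants (G.map starH))ᵐᵒᵖ where
  toFun x := op ⟨star (x : FreeAlgebra k X), (mem_star G _).mpr x.2⟩
  invFun y := ⟨star (y.unop : FreeAlgebra k X), (mem_star G _).mp (by rw [star_star]; exact y.unop.2)⟩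
  left_inv x := Subtype.ext (star_star _)
  right_inv y := unop_injective (Subtype.ext (star_star _))
  map_mul' x y := unop_injective (Subtype.ext (star_mul _ _))
  map_add' x y := unop_injective (Subtype.ext (star_add _ _))

theorem right_cg (G : Subgroup (FreeAlgebra k X ≃ₐ[k] FreeAlgebra k X)) {p e : ℕ} (hp : p.Prime)
    (hG : Nat.card G = p ^ e) (a : ℕ → invariants G) :
    Module.Free (invariants G)ᵐᵒᵖ (Submodule.span (invariants G)ᵐᵒᵖ (Set.range a)) := by
  apply free_transport (sigma G)
  apply left_cg (G.map starH) hp (e := e)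
  rw [← hG]
  exact (Nat.card_congr (G.equivMapOfInjective starH starH_inj).toEquiv).symm

theorem right_all [Countable X] (G : Subgroup (FreeAlgebra k X ≃ₐ[k] FreeAlgebra k X)) {p e : ℕ} (hp : p.Prime)
    (hG : Nat.card G = p ^ e) (I : Submodule (invariants G)ᵐᵒᵖ (invariants G)) :
    Module.Free (invariants G)ᵐᵒᵖ I := by
  obtain ⟨a, ha⟩ := ideal_cg_r (invariants G) I
  rw [ha]
  exact right_cg G hp hG a

end Pool.Agent.SMF
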