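import Mathlib

/-!
# SMF-SmA: invariant functions on orbits of prime order (Mathlib only)

Induction on the size of the support of `f`.
-/

namespace Pool.Agent.SMF

open Finsupp

private theorem ka_sum {Ω : Type*} {p : ℕ} {K : Type*} [Field K] (s : Ω → Ω) {w : Ω} (hw : s^[p] w = w) (c : K) :
    Finsupp.mapDomain s (∑ i ∈ Finset.range p, Finsupp.mapDomain (s^[i]) (Finsupp.single w c)) =
      ∑ i ∈ Finset.range p, Finsupp.mapDomain (s^[i]) (Finsupp.single w c) := by
  have h1 : Finsupp.mapDomain s (∑ i ∈ Finset.range p, Finsupp.mapDomain (s^[i]) (Finsupp.single w c)) =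
      ∑ i ∈ Finset.range p, Finsupp.single (s^[i + 1] w) c := by
    rw [Finsupp.mapDomain_finsetSum]
    refine Finset.sum_congr rfl fun i _ => ?_
    rw [Finsupp.mapDomain_single, Finsupp.mapDomain_single, Function.iterate_succ_apply']
  have h2 : ∑ i ∈ Finset.range p, Finsupp.mapDomain (s^[i]) (Finsupp.single w c) =
      ∑ i ∈ Finset.range p, Finsupp.single (s^[i] w) c :=
    Finset.sum_congr rfl fun i _ => Finsupp.mapDomain_single
  rw [h1, h2]
  have h3 := Finset.sum_range_succ (fun i => Finsupp.single (s^[i] w) c) p
  have h4 := Finset.sum_range_succ' (fun i => Finsupp.single (s^[i] w) c) p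
  rw [h3] at h4
  simp only [Function.iterate_zero, id_eq] at h4
  rw [hw] at h4
  exact (add_right_cancel h4).symm

private theorem ka_apply {Ω : Type*} {p : ℕ} [Fact p.Prime] {K : Type*} [Field K] (s : Ω → Ω) {w : Ω} (hw : s^[p] w = w)
    (hne : s w ≠ w) (c : K) : (∑ i ∈ Finset.range p, Finsupp.mapDomain (s^[i]) (Finsupp.single w c)) w = c := by
  classical
  have hpp : p.Prime := Fact.out
  have hm : Function.minimalPeriod s w = p := Function.minimalPeriod_eq_prime hw hne
  have hinj := Function.iterate_injOn_Iio_minimalPeriod (f := s) (x := w)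
  rw [hm] at hinj
  rw [Finsupp.finsetSum_apply, Finset.sum_eq_single 0]
  · rw [Finsupp.mapDomain_single]
    exact Finsupp.single_eq_same
  · intro i hi hi0
    rw [Finsupp.mapDomain_single]
    refine Finsupp.single_eq_of_ne ?_
    intro h
    apply hi0
    refine hinj (Set.mem_Iio.2 (Finset.mem_range.1 hi)) (Set.mem_Iio.2 hpp.pos) ?_
    show s^[i] w = s^[0] w
    first
      | exact h
      | exact h.symm
  · intro h
    exact absurd (Finset.mem_range.2 hpp.pos) h

private theorem ka_out {Ω : Type*} {p : ℕ} {K : Type*} [Field K] (s : Ω → Ω) {w y : Ω} (h : ∀ i, s^[i] w ≠ y) (c : K) :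
    (∑ i ∈ Finset.range p, Finsupp.mapDomain (s^[i]) (Finsupp.single w c)) y = 0 := by
  classical
  rw [Finsupp.finsetSum_apply]
  refine Finset.sum_eq_zero fun i _ => ?_
  rw [Finsupp.mapDomain_single, Finsupp.single_apply, if_neg (h i)]

private theorem ka_main {Ω : Type*} {p : ℕ} [Fact p.Prime] {K : Type*} [Field K] (s : Ω → Ω) (W : Set Ω)
    (hs : ∀ w ∈ W, s w ∈ W) (hp : ∀ w ∈ W, s^[p] w = w) (n : ℕ) : ∀ f : Ω →₀ K, f.support.card = n →
      f ∈ Finsupp.supported K K W → Finsupp.mapDomain s f = f →
    ∃ g ∈ Finsupp.supported K K W, ∃ f' ∈ Finsupp.supported K K {w | w ∈ W ∧ s w = w},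
      f = ∑ i ∈ Finset.range p, Finsupp.mapDomain (s^[i]) g + f' := by
  classical
  have hpp : p.Prime := Fact.out
  have hinj : Set.InjOn s W := by
    intro a ha b hb hab
    have h1 := hp a ha
    have h2 := hp b hb
    have h3 : p = p - 1 + 1 := by have := hpp.pos; omega
    rw [h3, Function.iterate_succ_apply] at h1 h2
    rw [← h1, ← h2, hab]
  have hiter : ∀ w ∈ W, ∀ i, s^[i] w ∈ W := by
    intro w hw i
    induction i with
    | zero => exact hw
    | succ i ih =>
      rw [Function.iterate_succ_apply']
      exact hs _ ih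
  induction n using Nat.strong_induction_on with
  | _ n ih =>
    intro f hn hf h
    have hfW : (f.support : Set Ω) ⊆ W := (Finsupp.mem_supported K f).1 hf
    by_cases h0 : f.support = ∅
    · have hf0 : f = 0 := Finsupp.support_eq_empty.1 h0
      refine ⟨0, Submodule.zero_mem _, 0, Submodule.zero_mem _, ?_⟩
      rw [hf0, add_zero, eq_comm]
      exact Finset.sum_eq_zero fun i _ => Finsupp.mapDomain_zero
    · obtain ⟨w, hw⟩ := Finset.nonempty_iff_ne_empty.2 h0
      have hwW : w ∈ W := hfW hw
      have hstep : ∀ O : Ω →₀ K, Finsupp.mapDomain s O = O → O w = f w → (∀ y, f y = 0 → O y = 0) →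
          ∃ g ∈ Finsupp.supported K K W, ∃ f' ∈ Finsupp.supported K K {w | w ∈ W ∧ s w = w},
            f - O = ∑ i ∈ Finset.range p, Finsupp.mapDomain (s^[i]) g + f' := by
        intro O hO hOw hOy
        have hsub : (f - O).support ⊆ f.support.erase w := by
          intro y hy
          rw [Finsupp.mem_support_iff, Finsupp.sub_apply] at hy
          rw [Finset.mem_erase, Finsupp.mem_support_iff]
          refine ⟨?_, ?_⟩
          · intro hyw
            rw [hyw, hOw, sub_self] at hy
            exact hy rfl
          · intro hfy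
            rw [hfy, hOy y hfy, sub_self] at hy
            exact hy rfl
        refine ih (f - O).support.card ?_ (f - O) rfl ?_ ?_
        · rw [← hn]
          exact lt_of_le_of_lt (Finset.card_le_card hsub) (Finset.card_erase_lt_of_mem hw)
        · rw [Finsupp.mem_supported]
          intro y hy
          exact hfW (Finset.mem_of_mem_erase (hsub hy))
        · have h1 : Finsupp.mapDomain s (f - O) + Finsupp.mapDomain s O = (f - O) + O := by
            rw [← Finsupp.mapDomain_add, sub_add_cancel]
            exact h
          rw [hO] at h1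
          exact add_right_cancel h1
      by_cases hfix : s w = w
      · obtain ⟨g, hg, f', hf', he⟩ := hstep (Finsupp.single w (f w)) (by rw [Finsupp.mapDomain_single, hfix])
          Finsupp.single_eq_same (by
            intro y hy
            rw [Finsupp.single_apply]
            split_ifs with hwy
            · rw [hwy]
              exact hy
            · rfl)
        refine ⟨g, hg, f' + Finsupp.single w (f w), ?_, ?_⟩
        · refine Submodule.add_mem _ hf' ?_
          exact Finsupp.single_mem_supported K _ ⟨hwW, hfix⟩
        · rw [← add_assoc, ← he, sub_add_cancel]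
      · have hval : ∀ i, f (s^[i] w) = f w := by
          intro i
          induction i with
          | zero => rfl
          | succ i ihi =>
            rw [Function.iterate_succ_apply', ← ihi]
            conv_lhs => rw [← h]
            exact Finsupp.mapDomain_apply' W f hfW hinj (hiter w hwW i)
        obtain ⟨g, hg, f', hf', he⟩ := hstep
          (∑ i ∈ Finset.range p, Finsupp.mapDomain (s^[i]) (Finsupp.single w (f w)))
          (ka_sum s (hp w hwW) (f w)) (ka_apply s (hp w hwW) hfix (f w)) (by
            intro y hy
            refine ka_out s ?_ (f w)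
            intro i hi
            have h1 := hval i
            rw [hi, hy] at h1
            exact (Finsupp.mem_support_iff.1 hw) h1.symm)
        refine ⟨g + Finsupp.single w (f w), ?_, f', hf', ?_⟩
        · refine Submodule.add_mem _ hg ?_
          exact Finsupp.single_mem_supported K _ hwW
        · have h1 : ∑ i ∈ Finset.range p, Finsupp.mapDomain (s^[i]) (g + Finsupp.single w (f w)) =
              ∑ i ∈ Finset.range p, Finsupp.mapDomain (s^[i]) g +
                ∑ i ∈ Finset.range p, Finsupp.mapDomain (s^[i]) (Finsupp.single w (f w)) := by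
            rw [← Finset.sum_add_distrib]
            exact Finset.sum_congr rfl fun i _ => Finsupp.mapDomain_add
          rw [h1, add_right_comm, ← he, sub_add_cancel]

theorem ker_one {Ω : Type*} {p : ℕ} [Fact p.Prime] {K : Type*} [Field K] (s : Ω → Ω) (W : Set Ω)
    (hs : ∀ w ∈ W, s w ∈ W) (hp : ∀ w ∈ W, s^[p] w = w) {f : Ω →₀ K} (hf : f ∈ Finsupp.supported K K W)
    (h : Finsupp.mapDomain s f = f) :
    ∃ g ∈ Finsupp.supported K K W, ∃ f' ∈ Finsupp.supported K K {w | w ∈ W ∧ s w = w},
      f = ∑ i ∈ Finset.range p, Finsupp.mapDomain (s^[i]) g + f' := by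
  exact ka_main s W hs hp _ f rfl hf h

end Pool.Agent.SMF
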