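import Pool.Agent.SMF.SmA

/-!
# SMF-SmB: kernels of the powers of `τ = 1 - s` in characteristic `p`
-/

namespace Pool.Agent.SMF

open Finsupp

variable {Ω : Type*} {K : Type*} [Field K]

/-- `τ = 1 - s` -/
noncomputable def tau (K : Type*) [Field K] (s : Ω → Ω) : (Ω →₀ K) →ₗ[K] (Ω →₀ K) := LinearMap.id - Finsupp.lmapDomain K K s

private theorem map_mem (s : Ω → Ω) {W : Set Ω} (hs : ∀ w ∈ W, s w ∈ W) {f : Ω →₀ K}
    (hf : f ∈ Finsupp.supported K K W) : Finsupp.mapDomain s f ∈ Finsupp.supported K K W := by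
  classical
  rw [Finsupp.mem_supported] at hf ⊢
  intro w hw
  have h1 := Finsupp.mapDomain_support hw
  rw [Finset.mem_image] at h1
  obtain ⟨v, hv, rfl⟩ := h1
  exact hs v (hf hv)

private theorem tau_apply (s : Ω → Ω) (f : Ω →₀ K) : tau K s f = f - Finsupp.mapDomain s f := rfl

theorem tau_mem (s : Ω → Ω) {W : Set Ω} (hs : ∀ w ∈ W, s w ∈ W) {f : Ω →₀ K}
    (hf : f ∈ Finsupp.supported K K W) : tau K s f ∈ Finsupp.supported K K W := by
  rw [tau_apply]
  exact Submodule.sub_mem _ hf (map_mem s hs hf)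

theorem tau_pow_mem (s : Ω → Ω) {W : Set Ω} (hs : ∀ w ∈ W, s w ∈ W) (j : ℕ) {f : Ω →₀ K}
    (hf : f ∈ Finsupp.supported K K W) : (tau K s ^ j) f ∈ Finsupp.supported K K W := by
  induction j generalizing f with
  | zero => exact hf
  | succ j ih =>
    rw [pow_succ, Module.End.mul_apply]
    exact ih (tau_mem s hs hf)

theorem tau_fix {p : ℕ} [Fact p.Prime] (s : Ω → Ω) {W : Set Ω} (hs : ∀ w ∈ W, s w ∈ W)
    (hp : ∀ w ∈ W, s^[p] w = w) {f : Ω →₀ K} (hf : f ∈ Finsupp.supported K K W) {ω : Ω} (hω : s ω = ω) :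
    (tau K s f) ω = 0 := by
  rw [tau_apply, Finsupp.sub_apply]
  have hpos : 0 < p := (Fact.out : p.Prime).pos
  have hinj : Set.InjOn s W := by
    intro a ha b hb hab
    obtain ⟨q, rfl⟩ : ∃ q, p = q + 1 := ⟨p - 1, by omega⟩
    have h1 := hp a ha
    have h2 := hp b hb
    rw [Function.iterate_succ_apply] at h1 h2
    rw [← h1, ← h2, hab]
  by_cases hW : ω ∈ W
  · have h1 := Finsupp.mapDomain_apply' W f ((Finsupp.mem_supported K f).1 hf) hinj hW
    rw [hω] at h1
    rw [h1, sub_self]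
  · have h1 := map_mem s hs hf
    have h2 : ∀ g ∈ Finsupp.supported K K W, g ω = 0 := by
      intro g hg
      by_contra hne
      exact hW ((Finsupp.mem_supported K g).1 hg (Finsupp.mem_support_iff.2 hne))
    rw [h2 f hf, h2 _ h1, sub_self]

private theorem sig_pow (s : Ω → Ω) (i : ℕ) (f : Ω →₀ K) :
    ((Finsupp.lmapDomain K K s : Module.End K (Ω →₀ K)) ^ i) f = Finsupp.mapDomain (s^[i]) f := by
  induction i generalizing f with
  | zero => rw [pow_zero, Function.iterate_zero, Finsupp.mapDomain_id]; rfl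
  | succ i ih =>
    rw [pow_succ, Module.End.mul_apply, Finsupp.lmapDomain_apply, ih, ← Finsupp.mapDomain_comp]
    rfl

private theorem tau_aeval (s : Ω → Ω) (n : ℕ) :
    (tau K s ^ n : Module.End K (Ω →₀ K)) =
      Polynomial.aeval (Finsupp.lmapDomain K K s : Module.End K (Ω →₀ K)) ((1 - Polynomial.X : Polynomial K) ^ n) := by
  rw [map_pow, map_sub, map_one, Polynomial.aeval_X]
  rfl

theorem tau_pow_p {p : ℕ} [Fact p.Prime] [CharP K p] (s : Ω → Ω) {W : Set Ω} (hs : ∀ w ∈ W, s w ∈ W)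
    (hp : ∀ w ∈ W, s^[p] w = w) {f : Ω →₀ K} (hf : f ∈ Finsupp.supported K K W) : (tau K s ^ p) f = 0 := by
  rw [tau_aeval, sub_pow_char, one_pow, map_sub, map_one, map_pow, Polynomial.aeval_X,
    LinearMap.sub_apply, sig_pow, Module.End.one_apply, sub_eq_zero]
  have h1 : Finsupp.mapDomain (s^[p]) f = Finsupp.mapDomain id f :=
    Finsupp.mapDomain_congr fun w hw => hp w ((Finsupp.mem_supported K f).1 hf hw)
  rw [h1, Finsupp.mapDomain_id]

private theorem poly_norm {p : ℕ} [Fact p.Prime] [CharP K p] :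
    ((1 - Polynomial.X : Polynomial K) ^ (p - 1)) = ∑ i ∈ Finset.range p, Polynomial.X ^ i := by
  have hpos : 0 < p := (Fact.out : p.Prime).pos
  have hne : (1 - Polynomial.X : Polynomial K) ≠ 0 := by
    intro h
    have h1 := congrArg (fun q => Polynomial.eval 0 q) h
    simp at h1
  refine mul_right_cancel₀ hne ?_
  rw [geom_sum_mul_neg, ← pow_succ, Nat.sub_add_cancel hpos, sub_pow_char, one_pow]

theorem tau_norm {p : ℕ} [Fact p.Prime] [CharP K p] (s : Ω → Ω) (f : Ω →₀ K) :
    (tau K s ^ (p - 1)) f = ∑ i ∈ Finset.range p, Finsupp.mapDomain (s^[i]) f := by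
  rw [tau_aeval, poly_norm, map_sum, LinearMap.sum_apply]
  refine Finset.sum_congr rfl fun i _ => ?_
  rw [map_pow, Polynomial.aeval_X, sig_pow]

theorem ker_tau {p : ℕ} [Fact p.Prime] [CharP K p] (s : Ω → Ω) {W : Set Ω} (hs : ∀ w ∈ W, s w ∈ W)
    (hp : ∀ w ∈ W, s^[p] w = w) {j : ℕ} (hj : 1 ≤ j) (hj' : j ≤ p - 1) {f : Ω →₀ K}
    (hf : f ∈ Finsupp.supported K K W) (h : (tau K s ^ j) f = 0) :
    ∃ g ∈ Finsupp.supported K K W, ∃ f' ∈ Finsupp.supported K K {w | w ∈ W ∧ s w = w},
      f = (tau K s ^ (p - j)) g + f' := by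
  have base : ∀ {f : Ω →₀ K}, f ∈ Finsupp.supported K K W → tau K s f = 0 →
      ∃ g ∈ Finsupp.supported K K W, ∃ f' ∈ Finsupp.supported K K {w | w ∈ W ∧ s w = w},
        f = (tau K s ^ (p - 1)) g + f' := by
    intro f hf h
    rw [tau_apply, sub_eq_zero] at h
    obtain ⟨g, hg, f', hf', he⟩ := ker_one (p := p) s W hs hp hf h.symm
    refine ⟨g, hg, f', hf', ?_⟩
    rw [tau_norm]
    exact he
  induction j generalizing f with
  | zero => omega
  | succ j ih =>
    rcases Nat.eq_zero_or_pos j with hj0 | hj0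
    · subst hj0
      rw [zero_add, pow_one] at h
      exact base hf h
    · rw [pow_succ, Module.End.mul_apply] at h
      obtain ⟨g, hg, f', hf', he⟩ := ih hj0 (by omega) (tau_mem s hs hf) h
      have hz : f' = 0 := by
        ext ω
        rw [Finsupp.zero_apply]
        by_contra hne
        obtain ⟨hW, hfix⟩ := (Finsupp.mem_supported K f').1 hf' (Finsupp.mem_support_iff.2 hne)
        have h1 := tau_fix (p := p) s hs hp hf hfix
        have h2 : ((tau K s ^ (p - j)) g) ω = 0 := by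
          have h3 : p - j = (p - j - 1) + 1 := by omega
          rw [h3, pow_succ', Module.End.mul_apply]
          exact tau_fix (p := p) s hs hp (tau_pow_mem s hs _ hg) hfix
        rw [he, Finsupp.add_apply, h2, zero_add] at h1
        exact hne h1
      rw [hz, add_zero] at he
      have h4 : tau K s (f - (tau K s ^ (p - (j + 1))) g) = 0 := by
        rw [map_sub, he, sub_eq_zero]
        have h3 : p - j = (p - (j + 1)) + 1 := by omega
        rw [h3, pow_succ', Module.End.mul_apply]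
      obtain ⟨g', hg', f'', hf'', he'⟩ := base
        (Submodule.sub_mem _ hf (tau_pow_mem s hs (p - (j + 1)) hg)) h4
      refine ⟨g + (tau K s ^ j) g', Submodule.add_mem _ hg (tau_pow_mem s hs j hg'), f'', hf'', ?_⟩
      rw [map_add, ← Module.End.mul_apply, ← pow_add]
      have h5 : p - (j + 1) + j = p - 1 := by omega
      rw [h5, add_assoc, ← he']
      abel

end Pool.Agent.SMF
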