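import Pool.Agent.SMF.SmB
import Pool.Agent.SMF.H0

/-!
# SMF-SmC: Smith theory for one map of prime order (imports SmB, H0)
-/

namespace Pool.Agent.SMF

private theorem map_iter {P : Type*} (s : P → P) (n : ℕ) (l : List P) :
    (List.map s)^[n] l = l.map (s^[n]) := by
  induction n generalizing l with
  | zero => simp
  | succ n ih => rw [Function.iterate_succ_apply, ih, List.map_map, Function.iterate_succ]

private theorem map_fix {P : Type*} (s : P → P) (l : List P) : l.map s = l ↔ ∀ u ∈ l, s u = u := by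
  induction l with
  | nil => simp
  | cons a l ih => simp [ih]

section

variable {K : Type*} [Field K] {P : Type*} (s : P → P)

private theorem tau_eq (c : Ch K P) : tau K (List.map s) c = c - mp s c := rfl

private theorem bd_tau (c : Ch K P) : bd (tau K (List.map s) c) = tau K (List.map s) (bd c) := by
  rw [tau_eq, tau_eq, map_sub, bd_mp]

private theorem bd_tau_pow (j : ℕ) (c : Ch K P) :
    bd ((tau K (List.map s) ^ j) c) = (tau K (List.map s) ^ j) (bd c) := by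
  induction j with
  | zero => rfl
  | succ j ih => rw [pow_succ', Module.End.mul_apply, Module.End.mul_apply, bd_tau, ih]

private theorem tau_zero {Q : List P → Prop} {m : ℕ} {x : Ch K P}
    (hx : x ∈ SP K (fun l => Q l ∧ ∀ u ∈ l, s u = u) m) {j : ℕ} (hj : 1 ≤ j) :
    (tau K (List.map s) ^ j) x = 0 := by
  obtain ⟨i, rfl⟩ : ∃ i, j = i + 1 := ⟨j - 1, by omega⟩
  have h1 : mp s x = x := by
    rw [mp_congr (g := fun u => u) (z := x), mp_id]
    intro l hl u hu
    exact ((mem_SP.1 hx) l hl).1.2 u hu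
  rw [pow_succ, Module.End.mul_apply, tau_eq, h1, sub_self, map_zero]

end

section

variable {p : ℕ} [Fact p.Prime] {P : Type*} (s : P → P) (Q : List P → Prop)

private theorem one_step (hQ : Clo Q) (hs : ∀ l, Q l → Q (l.map s)) (hp : ∀ l, Q l → ∀ u ∈ l, s^[p] u = u)
    (hA : Acyc (ZMod p) Q) (m j : ℕ) (hj : 1 ≤ j) (hj' : j ≤ p - 1)
    (ih : ∀ w ∈ SP (ZMod p) Q (m + 1), bd ((tau (ZMod p) (List.map s) ^ j) w) = 0 →
      ∃ v ∈ SP (ZMod p) Q (m + 1 + 1), bd ((tau (ZMod p) (List.map s) ^ j) v) =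
        (tau (ZMod p) (List.map s) ^ j) w)
    (w x : Ch (ZMod p) P) (hw : w ∈ SP (ZMod p) Q m)
    (hx : x ∈ SP (ZMod p) (fun l => Q l ∧ ∀ u ∈ l, s u = u) m)
    (h1 : bd ((tau (ZMod p) (List.map s) ^ (p - j)) w) = 0) (h2 : bd x = 0) :
    ∃ g ∈ SP (ZMod p) Q (m + 1), ∃ f ∈ SP (ZMod p) (fun l => Q l ∧ ∀ u ∈ l, s u = u) (m + 1),
      (tau (ZMod p) (List.map s) ^ (p - j)) w = (tau (ZMod p) (List.map s) ^ (p - j)) (bd g) ∧
      x = bd f := by
  have hsW : ∀ m : ℕ, ∀ l ∈ {l : List P | Q l ∧ l.length = m}, l.map s ∈ {l : List P | Q l ∧ l.length = m} := by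
    rintro m l ⟨h3, h4⟩
    exact ⟨hs l h3, by rw [List.length_map, h4]⟩
  have hpW : ∀ m : ℕ, ∀ l ∈ {l : List P | Q l ∧ l.length = m}, (List.map s)^[p] l = l := by
    rintro m l ⟨h3, h4⟩
    rw [map_iter, map_fix]
    exact hp l h3
  have hp1 : 1 < p := (Fact.out : p.Prime).one_lt
  have hQf : Clo (fun l => Q l ∧ ∀ u ∈ l, s u = u) := by
    rintro l l' ⟨h3, h4⟩ h5
    exact ⟨hQ l l' h3 h5, fun u hu => h4 u (h5.subset hu)⟩
  have hx' : x ∈ SP (ZMod p) Q m := SP_mono (fun l hl => hl.1) m hx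
  have hx1 : (tau (ZMod p) (List.map s) ^ (p - j)) w ∈ SP (ZMod p) Q m :=
    tau_pow_mem (List.map s) (hsW m) (p - j) hw
  obtain ⟨y, hy, hyb⟩ := hA m _ (Submodule.add_mem _ hx1 hx') (by rw [map_add, h1, h2, add_zero])
  have h3 : bd ((tau (ZMod p) (List.map s) ^ j) y) = 0 := by
    rw [bd_tau_pow, hyb, map_add, tau_zero s hx hj, add_zero, ← Module.End.mul_apply, ← pow_add]
    have h4 : j + (p - j) = p := by omega
    rw [h4]
    exact tau_pow_p (List.map s) (hsW m) (hpW m) hw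
  obtain ⟨v, hv, hvb⟩ := ih y hy h3
  rw [bd_tau_pow] at hvb
  have hbv : bd v ∈ SP (ZMod p) Q (m + 1) := bd_mem hQ hv
  have h4 : (tau (ZMod p) (List.map s) ^ j) (y - bd v) = 0 := by
    rw [map_sub, hvb, sub_self]
  obtain ⟨g, hg, f, hf, hgf⟩ := ker_tau (List.map s) (hsW (m + 1)) (hpW (m + 1)) hj hj'
    (Submodule.sub_mem _ hy hbv) h4
  have hf' : f ∈ SP (ZMod p) (fun l => Q l ∧ ∀ u ∈ l, s u = u) (m + 1) := by
    rw [mem_SP]
    intro l hl
    have h5 : l ∈ {w | w ∈ {l : List P | Q l ∧ l.length = m + 1} ∧ w.map s = w} :=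
      hf (Finsupp.mem_support_iff.2 hl)
    exact ⟨⟨h5.1.1, (map_fix s l).1 h5.2⟩, h5.1.2⟩
  have h5 := congrArg bd hgf
  rw [map_sub, bd_bd, sub_zero, hyb, map_add, bd_tau_pow] at h5
  have h6 : (tau (ZMod p) (List.map s) ^ (p - j)) (w - bd g) = bd f - x := by
    rw [map_sub, sub_eq_sub_iff_add_eq_add, h5, add_comm]
  have hwg : w - bd g ∈ SP (ZMod p) Q m := Submodule.sub_mem _ hw (bd_mem hQ hg)
  have hfx : bd f - x ∈ SP (ZMod p) (fun l => Q l ∧ ∀ u ∈ l, s u = u) m :=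
    Submodule.sub_mem _ (bd_mem hQf hf') hx
  have h7 : bd f - x = 0 := by
    ext l
    by_contra hl
    rw [Finsupp.zero_apply] at hl
    have h8 := ((mem_SP.1 hfx) l hl).1.2
    apply hl
    rw [← h6]
    obtain ⟨i, hi⟩ : ∃ i, p - j = i + 1 := ⟨p - j - 1, by omega⟩
    rw [hi, pow_succ', Module.End.mul_apply]
    exact tau_fix (List.map s) (hsW m) (hpW m) (tau_pow_mem (List.map s) (hsW m) i hwg)
      ((map_fix s l).2 h8)
  refine ⟨g, hg, f, hf', ?_, (sub_eq_zero.1 h7).symm⟩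
  rw [h7, map_sub, sub_eq_zero] at h6
  exact h6

private theorem sp_zero (N : ℕ) (hN : ∀ l, Q l → l.length ≤ N) {m : ℕ} (hm : N < m) {z : Ch (ZMod p) P}
    (hz : z ∈ SP (ZMod p) Q m) : z = 0 := by
  ext l
  by_contra hl
  rw [Finsupp.zero_apply] at hl
  have h1 := (mem_SP.1 hz) l hl
  have h2 := hN l h1.1
  omega

end

theorem smith_step {p : ℕ} [Fact p.Prime] {P : Type*} (s : P → P) (Q : List P → Prop) (hQ : Clo Q) (N : ℕ)
    (hN : ∀ l, Q l → l.length ≤ N) (hs : ∀ l, Q l → Q (l.map s)) (hp : ∀ l, Q l → ∀ u ∈ l, s^[p] u = u)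
    (hA : Acyc (ZMod p) Q) : Acyc (ZMod p) (fun l => Q l ∧ ∀ u ∈ l, s u = u) := by
  have hp1 : 1 < p := (Fact.out : p.Prime).one_lt
  have key : ∀ k m : ℕ, N + 1 ≤ m + k →
      (∀ j, 1 ≤ j → j ≤ p - 1 → ∀ w ∈ SP (ZMod p) Q m, bd ((tau (ZMod p) (List.map s) ^ j) w) = 0 →
        ∃ v ∈ SP (ZMod p) Q (m + 1), bd ((tau (ZMod p) (List.map s) ^ j) v) =
          (tau (ZMod p) (List.map s) ^ j) w) ∧
      (∀ z ∈ SP (ZMod p) (fun l => Q l ∧ ∀ u ∈ l, s u = u) m, bd z = 0 →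
        ∃ y ∈ SP (ZMod p) (fun l => Q l ∧ ∀ u ∈ l, s u = u) (m + 1), bd y = z) := by
    intro k
    induction k with
    | zero =>
      intro m hm
      refine ⟨fun j _ _ w hw _ => ⟨0, Submodule.zero_mem _, ?_⟩,
        fun z hz _ => ⟨0, Submodule.zero_mem _, ?_⟩⟩
      · rw [sp_zero Q N hN (by omega) hw, map_zero, map_zero]
      · rw [sp_zero Q N hN (by omega) (SP_mono (fun l hl => hl.1) m hz), map_zero]
    | succ k ih =>
      intro m hm
      have ih' := (ih (m + 1) (by omega)).1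
      constructor
      · intro j hj hj' w hw hb
        have hjj : p - (p - j) = j := by omega
        obtain ⟨g, hg, f, hf, h1, h2⟩ := one_step s Q hQ hs hp hA m (p - j) (by omega) (by omega)
          (ih' (p - j) (by omega) (by omega)) w 0 hw (Submodule.zero_mem _) (by rw [hjj]; exact hb)
          (map_zero _)
        rw [hjj] at h1
        exact ⟨g, hg, by rw [bd_tau_pow, h1]⟩
      · intro z hz hb
        obtain ⟨g, hg, f, hf, h1, h2⟩ := one_step s Q hQ hs hp hA m 1 (le_refl 1) (by omega)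
          (ih' 1 (le_refl 1) (by omega)) 0 z (Submodule.zero_mem _) hz (by rw [map_zero, map_zero]) hb
        exact ⟨f, hf, h2.symm⟩
  intro m z hz hb
  exact (key (N + 1) m (by omega)).2 z hz hb

end Pool.Agent.SMF
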