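import Pool.Agent.SMF.SmC

/-!
# SMF-SmD: Smith theory for `p`-groups (imports SmC, H0)
-/

namespace Pool.Agent.SMF

/-- a subgroup containing a subgroup of index `p` and one more element is the whole group -/
private theorem sub_top {p : ℕ} [Fact p.Prime] {G : Type*} [Group G] {H K : Subgroup G} (hH : H.index = p)
    (hK : H ≤ K) {g : G} (hg : g ∉ H) (hg' : g ∈ K) (x : G) : x ∈ K := by
  have h1 := Subgroup.relIndex_mul_index hK
  rw [hH] at h1
  have h2 : K.index ∣ p := ⟨_, (mul_comm _ _).trans h1 |>.symm⟩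
  rcases (Nat.dvd_prime (Fact.out : p.Prime)).1 h2 with h3 | h3
  · rw [Subgroup.index_eq_one] at h3
    rw [h3]
    exact Subgroup.mem_top x
  · exfalso
    rw [h3] at h1
    have h4 : H.relIndex K = 1 :=
      Nat.eq_of_mul_eq_mul_right (Fact.out : p.Prime).pos (h1.trans (one_mul p).symm)
    rw [Subgroup.relIndex_eq_one] at h4
    exact hg (h4 hg')

private theorem smith_aux {p : ℕ} [Fact p.Prime] {P : Type*} (Q : List P → Prop) (hQ : Clo Q) (N : ℕ)
    (hN : ∀ l, Q l → l.length ≤ N) (hA : Acyc (ZMod p) Q) : ∀ (n : ℕ) (G : Type*) [Group G] [Finite G],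
    Nat.card G = p ^ n → ∀ ρ : G →* Equiv.Perm P, (∀ g l, Q l → Q (l.map (ρ g))) →
    Acyc (ZMod p) (fun l => Q l ∧ ∀ u ∈ l, ∀ g, ρ g u = u) := by
  have hpp : p.Prime := Fact.out
  intro n
  induction n with
  | zero =>
    intro G _ _ hc ρ _
    rw [pow_zero] at hc
    have hsub : Subsingleton G := (Nat.card_eq_one_iff_unique.1 hc).1
    have h1 : (fun l => Q l ∧ ∀ u ∈ l, ∀ g, ρ g u = u) = Q := by
      funext l
      refine propext ⟨fun h => h.1, fun h => ⟨h, fun u _ g => ?_⟩⟩
      rw [Subsingleton.elim g 1, map_one]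
      rfl
    rw [h1]
    exact hA
  | succ n ih =>
    intro G _ _ hc ρ hinv
    obtain ⟨H, hH⟩ := Sylow.exists_subgroup_card_pow_prime p (n := n) (G := G)
      (by rw [hc]; exact pow_dvd_pow p (Nat.le_succ n))
    have hidx : H.index = p := by
      have h1 := H.card_mul_index
      rw [hH, hc, pow_succ] at h1
      exact Nat.eq_of_mul_eq_mul_left (pow_pos hpp.pos n) h1
    have hnor : H.Normal := by
      refine Subgroup.normal_of_index_eq_minFac_card ?_
      rw [hc, hidx, hpp.pow_minFac (Nat.succ_ne_zero n)]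
    obtain ⟨g, hg⟩ : ∃ g, g ∉ H := by
      by_contra hcon
      push Not at hcon
      have h1 : H = ⊤ := by
        ext x
        exact ⟨fun _ => Subgroup.mem_top x, fun _ => hcon x⟩
      rw [h1, Subgroup.index_top] at hidx
      exact hpp.one_lt.ne hidx
    have h1 := ih H hH (ρ.comp H.subtype) (fun h l hl => hinv h.1 l hl)
    have h2 := smith_step (p := p) (fun u => ρ g u) (fun l => Q l ∧ ∀ u ∈ l, ∀ h : H, (ρ.comp H.subtype) h u = u)
      (fun l l' hl hs => ⟨hQ l l' hl.1 hs, fun u hu => hl.2 u (hs.subset hu)⟩) N (fun l hl => hN l hl.1)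
      (fun l hl => ?_) (fun l hl u hu => ?_) h1
    · have h3 : (fun l => (Q l ∧ ∀ u ∈ l, ∀ h : H, (ρ.comp H.subtype) h u = u) ∧ ∀ u ∈ l, (fun u => ρ g u) u = u) =
          fun l => Q l ∧ ∀ u ∈ l, ∀ g, ρ g u = u := by
        funext l
        refine propext ⟨fun h => ⟨h.1.1, fun u hu x => ?_⟩, fun h => ⟨⟨h.1, fun u hu x => h.2 u hu x.1⟩, fun u hu => h.2 u hu g⟩⟩
        let K : Subgroup G :=
          { carrier := {x | ρ x u = u}
            mul_mem' := fun {a b} ha hb => by
              have ha' : ρ a u = u := ha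
              have hb' : ρ b u = u := hb
              show ρ (a * b) u = u
              rw [map_mul, Equiv.Perm.mul_apply, hb', ha']
            one_mem' := by
              show ρ 1 u = u
              rw [map_one]
              rfl
            inv_mem' := fun {a} ha => by
              have ha' : ρ a u = u := ha
              show ρ a⁻¹ u = u
              rw [map_inv, Equiv.Perm.inv_eq_iff_eq]
              exact ha'.symm }
        exact sub_top (K := K) hidx (fun y hy => h.1.2 u hu ⟨y, hy⟩) hg (h.2 u hu) x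
      rw [← h3]
      exact h2
    · refine ⟨hinv g l hl.1, fun u hu h => ?_⟩
      obtain ⟨v, hv, rfl⟩ := List.mem_map.1 hu
      have h3 : g⁻¹ * h.1 * g ∈ H := by
        have h4 := hnor.conj_mem h.1 h.2 g⁻¹
        rwa [inv_inv] at h4
      have h4 : ρ (g⁻¹ * h.1 * g) v = v := hl.2 v hv ⟨_, h3⟩
      show ρ h.1 (ρ g v) = ρ g v
      have h5 : h.1 * g = g * (g⁻¹ * h.1 * g) := by group
      rw [← Equiv.Perm.mul_apply, ← map_mul, h5, map_mul, Equiv.Perm.mul_apply, h4]
    · have h3 : g ^ p ∈ H := by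
        rw [← hidx]
        exact H.pow_index_mem g
      have h4 : ∀ m : ℕ, (fun u => ρ g u)^[m] u = ρ (g ^ m) u := by
        intro m
        induction m with
        | zero =>
          rw [pow_zero, map_one]
          rfl
        | succ m ihm =>
          rw [Function.iterate_succ_apply', ihm, pow_succ', map_mul]
          rfl
      rw [h4]
      exact hl.2 u hu ⟨_, h3⟩

theorem smith_group {p : ℕ} [Fact p.Prime] {G : Type*} [Group G] [Finite G] (hG : IsPGroup p G) {P : Type*}
    (ρ : G →* Equiv.Perm P) (Q : List P → Prop) (hQ : Clo Q) (N : ℕ) (hN : ∀ l, Q l → l.length ≤ N)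
    (hinv : ∀ g l, Q l → Q (l.map (ρ g))) (hA : Acyc (ZMod p) Q) :
    Acyc (ZMod p) (fun l => Q l ∧ ∀ u ∈ l, ∀ g, ρ g u = u) := by
  obtain ⟨n, hn⟩ := IsPGroup.iff_card.1 hG
  exact smith_aux Q hQ N hN hA n G hn ρ hinv

end Pool.Agent.SMF
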