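import Pool.Agent.SMF.H0

/-!
# SMF-SmE: a poset with acyclic strict chains is nonempty and connected (imports H0)

PLAN.  `acyc_exists`: `z = single [] 1`, `bd z = 0`: there is `y` supported on lists of length `1` with `bd y = z ≠ 0`, so `y ≠ 0`, it has `[u]` in its support.
`acyc_conn`: `z = single [t] 1 - single [s] 1`, `bd z = 0` (if `s = t` trivial); `y` supported on strict chains `[u, v]` of elements with `F`, `bd y = z`.  Let `E` be the set of all `u` reachable from `s`, and `χ : Ch K P →ₗ K` the linear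
map `single [u] a ↦ a` if `u ∈ E`, and `0` on all other lists.  For a strict chain `[u, v]`: `bd [u, v] = [v] - [u]` and `u ∈ E ↔ v ∈ E`, so `χ (bd y) = 0` (`SP_induction`), while `χ z = χ [t] - 1`; so `t ∈ E`.
-/

namespace Pool.Agent.SMF

open Finsupp

theorem acyc_exists {K : Type*} [Field K] {P : Type*} [PartialOrder P] (F : P → Prop)
    (hA : Acyc K (fun l : List P => l.Pairwise (· < ·) ∧ ∀ u ∈ l, F u)) : ∃ u, F u := by
  have hQ : (fun l : List P => l.Pairwise (· < ·) ∧ ∀ u ∈ l, F u) [] :=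
    ⟨List.Pairwise.nil, fun u hu => absurd hu List.not_mem_nil⟩
  obtain ⟨y, hy, hb⟩ := hA 0 (single [] 1) (single_mem_SP hQ 1) (bd_nil 1)
  have hy0 : y ≠ 0 := by
    rintro rfl
    rw [map_zero] at hb
    have h1 : (single ([] : List P) (1 : K)) [] = 0 := by rw [← hb]; rfl
    rw [Finsupp.single_eq_same] at h1
    exact one_ne_zero h1
  obtain ⟨l, hl⟩ := Finsupp.ne_iff.1 hy0
  obtain ⟨h1, h2⟩ := mem_SP.1 hy l hl
  obtain ⟨u, rfl⟩ := List.length_eq_one_iff.1 h2
  exact ⟨u, h1.2 u (List.mem_singleton.2 rfl)⟩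

private theorem bdL_one {K : Type*} [Field K] {P : Type*} (u : P) :
    bdL (K := K) [u] = single [] 1 := by
  rw [bdL, bdL, map_zero, sub_zero]

private theorem bdL_two {K : Type*} [Field K] {P : Type*} (u v : P) :
    bdL (K := K) [u, v] = single [v] 1 - single [u] 1 := by
  rw [bdL, bdL_one, cns_single]

theorem acyc_conn {K : Type*} [Field K] {P : Type*} [PartialOrder P] (F : P → Prop)
    (hA : Acyc K (fun l : List P => l.Pairwise (· < ·) ∧ ∀ u ∈ l, F u)) (s t : P) (hs : F s) (ht : F t) :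
    Relation.ReflTransGen (fun a b => F a ∧ F b ∧ (a ≤ b ∨ b ≤ a)) s t := by
  classical
  have hQ : ∀ u, F u → (fun l : List P => l.Pairwise (· < ·) ∧ ∀ u ∈ l, F u) [u] := by
    intro u hu
    refine ⟨List.pairwise_singleton _ _, fun v hv => ?_⟩
    rw [List.mem_singleton.1 hv]
    exact hu
  have hz : (single [t] (1 : K) - single [s] 1) ∈
      SP K (fun l : List P => l.Pairwise (· < ·) ∧ ∀ u ∈ l, F u) 1 :=
    Submodule.sub_mem _ (single_mem_SP (hQ t ht) 1) (single_mem_SP (hQ s hs) 1)
  have hbz : bd (single [t] (1 : K) - single [s] 1) = 0 := by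
    rw [map_sub, bd_single, bd_single, bdL_one, bdL_one, sub_self]
  obtain ⟨y, hy, hb⟩ := hA 1 _ hz hbz
  obtain ⟨R, hR⟩ : ∃ R : P → Prop,
      R = Relation.ReflTransGen (fun a b => F a ∧ F b ∧ (a ≤ b ∨ b ≤ a)) s := ⟨_, rfl⟩
  let g : List P → K := fun l => if ∃ u, l = [u] ∧ R u then 1 else 0
  have hg : ∀ u, g [u] = if R u then 1 else 0 := by
    intro u
    show (if ∃ v, [u] = [v] ∧ R v then (1 : K) else 0) = _
    refine if_congr ⟨?_, fun h => ⟨u, rfl, h⟩⟩ rfl rfl
    rintro ⟨v, hv, h⟩
    have : u = v := by simpa using hv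
    rw [this]
    exact h
  let χ : Ch K P →ₗ[K] K := Finsupp.linearCombination K g
  have hχ : ∀ l, χ (single l 1) = g l := by
    intro l
    show Finsupp.linearCombination K g (single l 1) = g l
    rw [Finsupp.linearCombination_single, one_smul]
  have h0 : χ (bd y) = 0 := by
    have h1 : y ∈ LinearMap.ker (χ ∘ₗ bd) := by
      refine SP_induction ?_ hy
      intro l hl hlen
      rw [LinearMap.mem_ker, LinearMap.comp_apply, bd_single, one_smul]
      obtain ⟨u, v, rfl⟩ := List.length_eq_two.1 hlen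
      rw [bdL_two, map_sub, hχ, hχ, hg, hg]
      have hu : F u := hl.2 u (by simp)
      have hv : F v := hl.2 v (by simp)
      have huv : u < v := by
        have h2 := hl.1
        rw [List.pairwise_cons] at h2
        exact h2.1 v (List.mem_singleton.2 rfl)
      have hiff : R v ↔ R u := by
        rw [hR]
        exact ⟨fun h => h.tail ⟨hv, hu, Or.inr huv.le⟩, fun h => h.tail ⟨hu, hv, Or.inl huv.le⟩⟩
      rw [if_congr hiff rfl rfl, sub_self]
    exact h1
  rw [hb, map_sub, hχ, hχ, hg, hg] at h0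
  have hRs : R s := by rw [hR]
  rw [if_pos hRs] at h0
  by_contra hcon
  rw [if_neg (by rw [hR]; exact hcon), zero_sub] at h0
  exact one_ne_zero (neg_eq_zero.1 h0)

end Pool.Agent.SMF
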