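import Pool.Agent.SMF.ActG

/-!
# SMF-Split: the action on a stable direct summand and on the quotient (imports ActG, Umb)

`g₀` is a basis of the free module of rank `m + r` whose first `m` rows span the stable submodule `{v | inK g₀ v}`.
PLAN.  `emb g₀` is injective, `A`-linear, its image is `{v | inK g₀ v}` (`eq_sum`, `Fin.sum_univ_add`), and `co g₀ (emb g₀ c) (castAdd r i) = c i` (`co_rw`, `co_add`, `co_smulA`); `prj g₀` is `A`-linear and surjective with kernel `{v | inK g₀ v}`.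
`split1`: `ρ1.r g c = fun i => co g₀ (ρ.r g (emb g₀ c)) (castAdd r i)`; as `ρ.r g (emb g₀ c)` is in the image of `emb g₀`, `emb g₀ (ρ1.r g c) = ρ.r g (emb g₀ c)`; so `ρ1.r` is multiplicative with inverse `ρ1.r g⁻¹`
(injectivity), `k`-linear and semilinear.
`split2`: `ρ2.r g c = prj g₀ (ρ.r g (∑ i, c i • rw' g₀ (natAdd m i)))`; for any `v` with `prj g₀ v = c` the difference `v - ∑ …` is in the kernel, which is stable, so `prj g₀ (ρ.r g v) = ρ2.r g (prj g₀ v)`; the other properties follow by surjectivity.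
-/

namespace Pool.Agent.SMF

variable {k X : Type*} [Field k] {m r : ℕ} {G : Type*} [Group G] {φ : G →* (A k X ≃ₐ[k] A k X)}

/-- membership in the span of the first `m` rows -/
def inK (g₀ : GLm k X (m + r)) (v : V k X (m + r)) : Prop := ∀ i : Fin r, co g₀ v (Fin.natAdd m i) = 0

/-- combinations of the first `m` rows -/
def emb (g₀ : GLm k X (m + r)) (c : V k X m) : V k X (m + r) := ∑ i : Fin m, c i • rw' g₀ (Fin.castAdd r i)

/-- the last `r` coordinates -/
def prj (g₀ : GLm k X (m + r)) (v : V k X (m + r)) : V k X r := fun i => co g₀ v (Fin.natAdd m i)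

private theorem emb_eq (g₀ : GLm k X (m + r)) (c : V k X m) :
    co g₀ (emb g₀ c) = fun l => Fin.addCases (motive := fun _ => A k X) (fun i => c i) (fun _ => 0) l := by
  apply co_unique
  rw [Fin.sum_univ_add]
  simp only [Fin.addCases_left, Fin.addCases_right, zero_smul, Finset.sum_const_zero, add_zero]
  rfl

theorem emb_co (g₀ : GLm k X (m + r)) (c : V k X m) (i : Fin m) : co g₀ (emb g₀ c) (Fin.castAdd r i) = c i := by
  rw [emb_eq]
  simp only [Fin.addCases_left]

theorem emb_inK (g₀ : GLm k X (m + r)) (c : V k X m) : inK g₀ (emb g₀ c) := by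
  intro i
  rw [emb_eq]
  simp only [Fin.addCases_right]

theorem inK_emb (g₀ : GLm k X (m + r)) {v : V k X (m + r)} (h : inK g₀ v) :
    v = emb g₀ (fun i => co g₀ v (Fin.castAdd r i)) := by
  conv_lhs => rw [eq_sum g₀ v, Fin.sum_univ_add]
  have h1 : ∑ i : Fin r, co g₀ v (Fin.natAdd m i) • rw' g₀ (Fin.natAdd m i) = 0 :=
    Finset.sum_eq_zero fun i _ => by rw [h i, zero_smul]
  rw [h1, add_zero]
  rfl

private theorem emb_inj (g₀ : GLm k X (m + r)) {c c' : V k X m} (h : emb g₀ c = emb g₀ c') : c = c' := by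
  funext i
  rw [← emb_co g₀ c i, h, emb_co]

private theorem emb_add (g₀ : GLm k X (m + r)) (c c' : V k X m) : emb g₀ (c + c') = emb g₀ c + emb g₀ c' := by
  unfold emb
  rw [← Finset.sum_add_distrib]
  exact Finset.sum_congr rfl fun i _ => by rw [Pi.add_apply, add_smul]

private theorem emb_smulA (g₀ : GLm k X (m + r)) (a : A k X) (c : V k X m) : emb g₀ (a • c) = a • emb g₀ c := by
  unfold emb
  rw [Finset.smul_sum]
  exact Finset.sum_congr rfl fun i _ => by rw [Pi.smul_apply, smul_eq_mul, mul_smul]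

private theorem emb_smulk (g₀ : GLm k X (m + r)) (a : k) (c : V k X m) : emb g₀ (a • c) = a • emb g₀ c := by
  unfold emb
  rw [Finset.smul_sum]
  exact Finset.sum_congr rfl fun i _ => by rw [Pi.smul_apply, smul_assoc]

private theorem r_inv_l {n : ℕ} (ρ : SAct φ n) (g : G) (v : V k X n) : ρ.r g⁻¹ (ρ.r g v) = v := by
  rw [← LinearEquiv.mul_apply, ← map_mul, inv_mul_cancel, map_one]
  rfl

private theorem r_inv_r {n : ℕ} (ρ : SAct φ n) (g : G) (v : V k X n) : ρ.r g (ρ.r g⁻¹ v) = v := by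
  rw [← LinearEquiv.mul_apply, ← map_mul, mul_inv_cancel, map_one]
  rfl

private theorem r_one {n : ℕ} (ρ : SAct φ n) (v : V k X n) : ρ.r 1 v = v := by
  rw [map_one]
  rfl

private theorem r_mul {n : ℕ} (ρ : SAct φ n) (g g' : G) (v : V k X n) : ρ.r (g * g') v = ρ.r g (ρ.r g' v) := by
  rw [map_mul]
  rfl

theorem split1 (ρ : SAct φ (m + r)) (g₀ : GLm k X (m + r)) (hK : ∀ g v, inK g₀ v → inK g₀ (ρ.r g v)) :
    ∃ ρ1 : SAct φ m, ∀ g c, emb g₀ (ρ1.r g c) = ρ.r g (emb g₀ c) := by
  set w : G → V k X m → V k X m := fun g c i => co g₀ (ρ.r g (emb g₀ c)) (Fin.castAdd r i) with hw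
  have h1 : ∀ g c, emb g₀ (w g c) = ρ.r g (emb g₀ c) := fun g c =>
    (inK_emb g₀ (hK g _ (emb_inK g₀ c))).symm
  have hadd : ∀ g c c', w g (c + c') = w g c + w g c' := fun g c c' => by
    apply emb_inj g₀
    rw [h1, emb_add, map_add, emb_add, h1, h1]
  have hsm : ∀ g (a : k) c, w g (a • c) = a • w g c := fun g a c => by
    apply emb_inj g₀
    rw [h1, emb_smulk, map_smul, emb_smulk, h1]
  have hl : ∀ g c, w g⁻¹ (w g c) = c := fun g c => by
    apply emb_inj g₀
    rw [h1, h1, r_inv_l]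
  have hr : ∀ g c, w g (w g⁻¹ c) = c := fun g c => by
    apply emb_inj g₀
    rw [h1, h1, r_inv_r]
  let e : G → (V k X m ≃ₗ[k] V k X m) := fun g =>
    { toFun := w g
      map_add' := hadd g
      map_smul' := hsm g
      invFun := w g⁻¹
      left_inv := hl g
      right_inv := hr g }
  have he : ∀ g c, e g c = w g c := fun _ _ => rfl
  refine ⟨⟨⟨⟨e, ?_⟩, ?_⟩, ?_⟩, fun g c => h1 g c⟩
  · refine LinearEquiv.ext fun c => ?_
    rw [he]
    apply emb_inj g₀
    rw [h1, r_one]
    rfl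
  · intro g g'
    refine LinearEquiv.ext fun c => ?_
    show w (g * g') c = w g (w g' c)
    apply emb_inj g₀
    rw [h1, h1, h1, r_mul]
  · intro g a c
    show w g (a • c) = φ g a • w g c
    apply emb_inj g₀
    rw [h1, emb_smulA, ρ.semi, emb_smulA, h1]

/-- combinations of the last `r` rows -/
private def sec (g₀ : GLm k X (m + r)) (c : V k X r) : V k X (m + r) := ∑ i : Fin r, c i • rw' g₀ (Fin.natAdd m i)

private theorem prj_sec (g₀ : GLm k X (m + r)) (c : V k X r) : prj g₀ (sec g₀ c) = c := by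
  have h1 : co g₀ (sec g₀ c) = fun l => Fin.addCases (motive := fun _ => A k X) (fun _ => 0) (fun i => c i) l := by
    apply co_unique
    rw [Fin.sum_univ_add]
    simp only [Fin.addCases_left, Fin.addCases_right, zero_smul, Finset.sum_const_zero, zero_add]
    rfl
  funext i
  show co g₀ (sec g₀ c) (Fin.natAdd m i) = c i
  rw [h1]
  simp only [Fin.addCases_right]

private theorem prj_add (g₀ : GLm k X (m + r)) (v v' : V k X (m + r)) : prj g₀ (v + v') = prj g₀ v + prj g₀ v' := by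
  funext i
  show co g₀ (v + v') _ = co g₀ v _ + co g₀ v' _
  rw [co_add]
  rfl

private theorem prj_sub (g₀ : GLm k X (m + r)) (v v' : V k X (m + r)) : prj g₀ (v - v') = prj g₀ v - prj g₀ v' := by
  funext i
  show co g₀ (v - v') _ = co g₀ v _ - co g₀ v' _
  rw [co_sub]
  rfl

private theorem prj_smulA (g₀ : GLm k X (m + r)) (a : A k X) (v : V k X (m + r)) : prj g₀ (a • v) = a • prj g₀ v := by
  funext i
  show co g₀ (a • v) _ = a • co g₀ v _
  rw [co_smulA]
  rfl

private theorem prj_smulk (g₀ : GLm k X (m + r)) (a : k) (v : V k X (m + r)) : prj g₀ (a • v) = a • prj g₀ v := by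
  funext i
  show co g₀ (a • v) _ = a • co g₀ v _
  rw [co_smulk]
  rfl

private theorem prj_zero_iff (g₀ : GLm k X (m + r)) (v : V k X (m + r)) : prj g₀ v = 0 ↔ inK g₀ v := by
  constructor
  · intro h i
    exact congrFun h i
  · intro h
    funext i
    exact h i

theorem split2 (ρ : SAct φ (m + r)) (g₀ : GLm k X (m + r)) (hK : ∀ g v, inK g₀ v → inK g₀ (ρ.r g v)) :
    ∃ ρ2 : SAct φ r, ∀ g v, prj g₀ (ρ.r g v) = ρ2.r g (prj g₀ v) := by
  set w : G → V k X r → V k X r := fun g c => prj g₀ (ρ.r g (sec g₀ c)) with hw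
  have h1 : ∀ g v, prj g₀ (ρ.r g v) = w g (prj g₀ v) := by
    intro g v
    have h2 : inK g₀ (v - sec g₀ (prj g₀ v)) := by
      rw [← prj_zero_iff, prj_sub, prj_sec, sub_self]
    have h3 := (prj_zero_iff g₀ _).2 (hK g _ h2)
    rw [map_sub, prj_sub, sub_eq_zero] at h3
    exact h3
  have hadd : ∀ g c c', w g (c + c') = w g c + w g c' := fun g c c' => by
    conv_lhs => rw [← prj_sec g₀ c, ← prj_sec g₀ c', ← prj_add, ← h1, map_add, prj_add, h1, h1, prj_sec, prj_sec]
  have hsm : ∀ g (a : k) c, w g (a • c) = a • w g c := fun g a c => by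
    conv_lhs => rw [← prj_sec g₀ c, ← prj_smulk, ← h1, map_smul, prj_smulk, h1, prj_sec]
  have hl : ∀ g c, w g⁻¹ (w g c) = c := fun g c => by
    have h2 : w g c = prj g₀ (ρ.r g (sec g₀ c)) := rfl
    rw [h2, ← h1, r_inv_l, prj_sec]
  have hr : ∀ g c, w g (w g⁻¹ c) = c := fun g c => by
    have h2 : w g⁻¹ c = prj g₀ (ρ.r g⁻¹ (sec g₀ c)) := rfl
    rw [h2, ← h1, r_inv_r, prj_sec]
  let e : G → (V k X r ≃ₗ[k] V k X r) := fun g =>
    { toFun := w g
      map_add' := hadd g
      map_smul' := hsm g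
      invFun := w g⁻¹
      left_inv := hl g
      right_inv := hr g }
  have he : ∀ g c, e g c = w g c := fun _ _ => rfl
  refine ⟨⟨⟨⟨e, ?_⟩, ?_⟩, ?_⟩, fun g v => h1 g v⟩
  · refine LinearEquiv.ext fun c => ?_
    rw [he]
    conv_lhs => rw [← prj_sec g₀ c, ← h1, r_one, prj_sec]
    rfl
  · intro g g'
    refine LinearEquiv.ext fun c => ?_
    show w (g * g') c = w g (w g' c)
    conv_lhs => rw [← prj_sec g₀ c, ← h1, r_mul, h1, h1, prj_sec]
  · intro g a c
    show w g (a • c) = φ g a • w g c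
    conv_lhs => rw [← prj_sec g₀ c, ← prj_smulA, ← h1, ρ.semi, prj_smulA, h1, prj_sec]

end Pool.Agent.SMF
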