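import Mathlib

/-!
# SMF-StdLin: a basis adapted to an increasing filtration of `k^n` (Mathlib only)
-/

namespace Pool.Agent.SMF

variable {k : Type*} [Field k]

private theorem exists_hyp {M : Type*} [AddCommGroup M] [Module k M] [FiniteDimensional k M]
    {N V : Submodule k M} (hV : V ≤ N) (hne : V ≠ N) {n : ℕ}
    (hn : Module.finrank k N = n + 1) :
    ∃ (H : Submodule k M) (x : M), V ≤ H ∧ H ≤ N ∧ x ∈ N ∧ x ∉ H ∧
      N = H ⊔ Submodule.span k {x} ∧ Module.finrank k H = n := by
  obtain ⟨x, hxN, hxV⟩ := SetLike.exists_of_lt (lt_of_le_of_ne hV hne)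
  obtain ⟨f, hf, hfV⟩ := Submodule.exists_le_ker_of_notMem hxV
  have hxH : x ∉ N ⊓ LinearMap.ker f := fun h => hf (LinearMap.mem_ker.1 h.2)
  have hsup : N = (N ⊓ LinearMap.ker f) ⊔ Submodule.span k {x} := by
    refine le_antisymm ?_ (sup_le inf_le_left ?_)
    · intro m hm
      refine Submodule.mem_sup.2 ⟨m - (f m / f x) • x, ⟨?_, ?_⟩, (f m / f x) • x,
        Submodule.smul_mem _ _ (Submodule.mem_span_singleton_self x), sub_add_cancel _ _⟩
      · exact N.sub_mem hm (N.smul_mem _ hxN)
      · rw [SetLike.mem_coe, LinearMap.mem_ker, map_sub, map_smul, smul_eq_mul,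
          div_mul_cancel₀ _ hf, sub_self]
    · rw [Submodule.span_singleton_le_iff_mem]
      exact hxN
  refine ⟨N ⊓ LinearMap.ker f, x, le_inf hV hfV, inf_le_left, hxN, hxH, hsup, ?_⟩
  have hx0 : x ≠ 0 := fun h => hxV (by rw [h]; exact V.zero_mem)
  have hinf : (N ⊓ LinearMap.ker f) ⊓ Submodule.span k {x} = ⊥ := by
    rw [eq_bot_iff]
    rintro m ⟨h1, h2⟩
    obtain ⟨c, rfl⟩ := Submodule.mem_span_singleton.1 h2
    rw [Submodule.mem_bot]
    by_cases hc : c = 0
    · rw [hc, zero_smul]
    · exfalso
      apply hxH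
      have h3 := (N ⊓ LinearMap.ker f).smul_mem c⁻¹ h1
      rwa [smul_smul, inv_mul_cancel₀ hc, one_smul] at h3
  have h1 := Submodule.finrank_sup_add_finrank_inf_eq (N ⊓ LinearMap.ker f)
    (Submodule.span k {x})
  rw [← hsup, hinf, finrank_bot, finrank_span_singleton hx0, hn] at h1
  omega

private theorem std_aux {M : Type*} [AddCommGroup M] [Module k M] [FiniteDimensional k M] (n : ℕ) :
    ∀ (N : Submodule k M), Module.finrank k N = n → ∀ W : ℤ → Submodule k M, Monotone W →
      (∃ d, W d = ⊥) → (∀ d, W d ≤ N) → (∃ d, W d = N) →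
      ∃ (v : Fin n → M) (E : Fin n → ℤ), Monotone E ∧ LinearIndependent k v ∧
        ∀ d, W d = Submodule.span k (v '' {i | E i ≤ d}) := by
  induction n with
  | zero =>
    intro N hN W mono low hle _
    refine ⟨Fin.elim0, Fin.elim0, fun i => i.elim0, linearIndependent_empty_type, fun d => ?_⟩
    have h1 : N = ⊥ := Submodule.finrank_eq_zero.1 hN
    have h2 : (Fin.elim0 '' {i : Fin 0 | Fin.elim0 i ≤ d} : Set M) = ∅ := by
      rw [Set.image_eq_empty]
      ext i
      exact i.elim0
    rw [h2, Submodule.span_empty, eq_bot_iff, ← h1]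
    exact hle d
  | succ n ih =>
    intro N hN W mono low hle exh
    obtain ⟨d0, hd0⟩ := low
    have hN0 : N ≠ ⊥ := by
      intro h
      rw [h, finrank_bot] at hN
      omega
    obtain ⟨e, he, hemin⟩ := Int.exists_least_of_bdd (P := fun d => W d = N)
      ⟨d0, fun z hz => by
        by_contra h
        apply hN0
        rw [eq_bot_iff, ← hz, ← hd0]
        exact mono (by omega)⟩ exh
    have hlt : W (e - 1) ≠ N := by
      intro h
      have := hemin _ h
      omega
    obtain ⟨H, x, hVH, hHN, hxN, hxH, hsup, hHn⟩ := exists_hyp (hle (e - 1)) hlt hN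
    have hge : ∀ d, e ≤ d → W d = N := by
      intro d hd
      refine le_antisymm (hle d) ?_
      rw [← he]
      exact mono hd
    have hltd : ∀ d, d < e → W d ≤ H := fun d hd => (mono (by omega)).trans hVH
    obtain ⟨v, E, hE, hv, hW⟩ := ih H hHn (fun d => W d ⊓ H)
      (fun a b hab => inf_le_inf_right H (mono hab)) ⟨d0, by simp only [hd0, bot_inf_eq]⟩
      (fun d => inf_le_right) ⟨e, by
        simp only [he]
        exact inf_eq_right.2 hHN⟩
    have hWge : ∀ d, e ≤ d → H = Submodule.span k (v '' {i | E i ≤ d}) := by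
      intro d hd
      rw [← hW d, hge d hd]
      exact (inf_eq_right.2 hHN).symm
    have hEe : ∀ i, E i ≤ e := by
      intro i
      by_contra h
      refine hv.notMem_span_image (s := {i | E i ≤ e}) h ?_
      rw [← hWge e le_rfl, hWge (E i) (by omega)]
      exact Submodule.subset_span ⟨i, le_refl (E i), rfl⟩
    have hspan : Submodule.span k (Set.range v) = H := by
      rw [hWge e le_rfl]
      congr 1
      ext m
      constructor
      · rintro ⟨i, rfl⟩
        exact ⟨i, hEe i, rfl⟩
      · rintro ⟨i, _, rfl⟩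
        exact ⟨i, rfl⟩
    refine ⟨Fin.snoc v x, Fin.snoc E e, ?_, ?_, ?_⟩
    · intro i j
      refine Fin.lastCases ?_ (fun j => ?_) j
      · intro _
        refine Fin.lastCases ?_ (fun i => ?_) i
        · exact le_rfl
        · rw [Fin.snoc_castSucc, Fin.snoc_last]
          exact hEe i
      · refine Fin.lastCases ?_ (fun i => ?_) i
        · intro h
          exact absurd h (not_le.2 (Fin.castSucc_lt_last j))
        · intro h
          rw [Fin.snoc_castSucc, Fin.snoc_castSucc]
          exact hE (Fin.castSucc_le_castSucc_iff.1 h)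
    · rw [linearIndependent_finSnoc]
      refine ⟨hv, ?_⟩
      rw [hspan]
      exact hxH
    · intro d
      by_cases hd : d < e
      · have h1 : (Fin.snoc v x : Fin (n + 1) → M) '' {i | (Fin.snoc E e : Fin (n + 1) → ℤ) i ≤ d} =
            v '' {i | E i ≤ d} := by
          ext m
          constructor
          · rintro ⟨i, hi, rfl⟩
            revert hi
            refine Fin.lastCases ?_ (fun i => ?_) i
            · intro hi
              rw [Set.mem_ofPred_eq, Fin.snoc_last] at hi
              omega
            · intro hi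
              rw [Set.mem_ofPred_eq, Fin.snoc_castSucc] at hi
              rw [Fin.snoc_castSucc]
              exact ⟨i, hi, rfl⟩
          · rintro ⟨i, hi, rfl⟩
            refine ⟨Fin.castSucc i, ?_, ?_⟩
            · rw [Set.mem_ofPred_eq, Fin.snoc_castSucc]
              exact hi
            · rw [Fin.snoc_castSucc]
        rw [h1, ← hW d]
        exact (inf_eq_left.2 (hltd d hd)).symm
      · have h1 : (Fin.snoc v x : Fin (n + 1) → M) '' {i | (Fin.snoc E e : Fin (n + 1) → ℤ) i ≤ d} =
            Set.range v ∪ {x} := by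
          ext m
          constructor
          · rintro ⟨i, _, rfl⟩
            refine Fin.lastCases ?_ (fun i => ?_) i
            · rw [Fin.snoc_last]
              exact Or.inr rfl
            · rw [Fin.snoc_castSucc]
              exact Or.inl ⟨i, rfl⟩
          · rintro (⟨i, rfl⟩ | hm)
            · refine ⟨Fin.castSucc i, ?_, ?_⟩
              · rw [Set.mem_ofPred_eq, Fin.snoc_castSucc]
                exact (hEe i).trans (not_lt.1 hd)
              · rw [Fin.snoc_castSucc]
            · refine ⟨Fin.last n, ?_, ?_⟩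
              · rw [Set.mem_ofPred_eq, Fin.snoc_last]
                exact not_lt.1 hd
              · rw [Fin.snoc_last]
                exact (Set.mem_singleton_iff.1 hm).symm
        rw [h1, Submodule.span_union, hspan, hge d (not_lt.1 hd)]
        exact hsup

/-- general version -/
theorem std_lin' (n : ℕ) (M : Type*) [AddCommGroup M] [Module k M] [FiniteDimensional k M]
    (hn : Module.finrank k M = n) (W : ℤ → Submodule k M) (mono : Monotone W) (low : ∃ d, W d = ⊥)
    (exh : ∀ m, ∃ d, m ∈ W d) :
    ∃ (v : Fin n → M) (E : Fin n → ℤ), Monotone E ∧ LinearIndependent k v ∧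
      ∀ d, W d = Submodule.span k (v '' {i | E i ≤ d}) := by
  refine std_aux n ⊤ ?_ W mono low (fun d => le_top) ?_
  · rw [finrank_top]
    exact hn
  · obtain ⟨s, hs⟩ : (⊤ : Submodule k M).FG := Module.Finite.fg_top
    choose dd hdd using exh
    obtain ⟨e, he⟩ := Finset.exists_le (s.image dd)
    refine ⟨e, ?_⟩
    rw [eq_top_iff, ← hs, Submodule.span_le]
    intro m hm
    exact mono (he _ (Finset.mem_image_of_mem dd hm)) (hdd m)

theorem std_lin (n : ℕ) (W : ℤ → Submodule k (Fin n → k)) (mono : Monotone W) (low : ∃ d, W d = ⊥)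
    (exh : ∀ m, ∃ d, m ∈ W d) :
    ∃ (v : Fin n → Fin n → k) (E : Fin n → ℤ), Monotone E ∧ LinearIndependent k v ∧
      ∀ d, W d = Submodule.span k (v '' {i | E i ≤ d}) :=
  std_lin' n (Fin n → k) (by simp) W mono low exh

end Pool.Agent.SMF
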