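import Pool.Agent.SMF.LatW
import Pool.Agent.SMF.StdLin

/-!
# SMF-Std: standard form of a filtration for which the variables have weight `w`
-/

namespace Pool.Agent.SMF

open Matrix

variable {k X : Type*} [Field k] {n : ℕ}

private theorem sd_smul_alg (c : k) (m : V k X n) : (algebraMap k (A k X) c) • m = c • m := by
  funext j
  rw [Pi.smul_apply, Pi.smul_apply, smul_eq_mul, Algebra.smul_def]

private theorem sd_iota {w : ℕ} (Γ : ℤ → Submodule k (V k X n))
    (star : ∀ d m, (∀ j, ep (m j) = 0) → (m ∈ Γ d ↔ ∀ y, (fun j => dl y (m j)) ∈ Γ (d - w)))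
    {d : ℤ} {m : V k X n} (hm : m ∈ Γ d) (y : X) : (FreeAlgebra.ι k y : A k X) • m ∈ Γ (d + w) := by
  classical
  have h0 : ∀ j, ep (((FreeAlgebra.ι k y : A k X) • m) j) = 0 := by
    intro j
    rw [Pi.smul_apply, smul_eq_mul, ep_mul, ep_iota, zero_mul]
  refine (star (d + w) _ h0).2 fun y' => ?_
  have h1 : (fun j => dl y' (((FreeAlgebra.ι k y : A k X) • m) j)) = if y' = y then m else 0 := by
    funext j
    rw [Pi.smul_apply, smul_eq_mul, dl_iota_mul]
    split_ifs <;> rfl
  rw [h1, add_sub_cancel_right]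
  split_ifs
  · exact hm
  · exact Submodule.zero_mem _

private theorem sd_mul {w : ℕ} (Γ : ℤ → Submodule k (V k X n)) (mono : Monotone Γ)
    (star : ∀ d m, (∀ j, ep (m j) = 0) → (m ∈ Γ d ↔ ∀ y, (fun j => dl y (m j)) ∈ Γ (d - w)))
    (a : A k X) : ∀ (e d : ℤ) (m : V k X n), a ∈ Fil (k := k) (X := X) e → m ∈ Γ d →
      a • m ∈ Γ (d + w * e) := by
  refine deg_induction (P := fun a => ∀ (e d : ℤ) (m : V k X n), a ∈ Fil (k := k) (X := X) e → m ∈ Γ d →
    a • m ∈ Γ (d + w * e)) ?_ ?_ a
  · intro e d m _ _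
    rw [zero_smul]
    exact Submodule.zero_mem _
  · intro a ih e d m ha hm
    by_cases he : e < 0
    · rw [fil_neg he, Submodule.mem_bot] at ha
      rw [ha, zero_smul]
      exact Submodule.zero_mem _
    · have he' : 0 ≤ e := by omega
      have h1 : a • m = ep a • m +
          ∑ y ∈ (dl_finite a).toFinset, (FreeAlgebra.ι k y : A k X) • (dl y a • m) := by
        have hexp := congrArg (fun b : A k X => b • m) (expn a)
        rw [hexp, add_smul, sd_smul_alg, Finset.sum_smul]
        congr 1
        refine Finset.sum_congr rfl fun y _ => ?_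
        rw [mul_smul]
      rw [h1]
      refine Submodule.add_mem _ ?_ (Submodule.sum_mem _ fun y _ => ?_)
      · refine mono ?_ (Submodule.smul_mem _ _ hm)
        have : (0 : ℤ) ≤ w * e := by positivity
        linarith
      · have h2 := ih y (e - 1) d m (dl_fil ha y) hm
        have h3 := sd_iota Γ star h2 y
        have h4 : d + (w : ℤ) * (e - 1) + w = d + w * e := by ring
        rw [h4] at h3
        exact h3

private noncomputable def epL (k X : Type*) [Field k] (n : ℕ) : V k X n →ₗ[k] (Fin n → k) where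
  toFun m j := ep (m j)
  map_add' a b := by
    funext j
    exact ep_add _ _
  map_smul' c a := by
    funext j
    exact ep_smul c _

private theorem sd_epL (c : V k X n) (g : Fin n → V k X n) :
    epL k X n (∑ j, c j • g j) = ∑ j, ep (c j) • epL k X n (g j) := by
  funext i
  show ep ((∑ j, c j • g j) i) = _
  rw [Finset.sum_apply, Finset.sum_apply, ep_sum]
  refine Finset.sum_congr rfl fun j _ => ?_
  rw [Pi.smul_apply, smul_eq_mul, ep_mul]
  rfl

private theorem sd_ind (g : Fin n → V k X n) (hv : LinearIndependent k fun j => epL k X n (g j)) :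
    ∀ (N : ℕ) (c : V k X n), (∀ j, c j ∈ Fil (k := k) (X := X) ((N : ℤ) - 1)) →
      ∑ j, c j • g j = 0 → c = 0 := by
  intro N
  induction N with
  | zero =>
    intro c hc _
    funext j
    have h1 := hc j
    rw [fil_neg (by norm_num), Submodule.mem_bot] at h1
    exact h1
  | succ N ih =>
    intro c hc h
    have h1 := sd_epL c g
    rw [h, map_zero] at h1
    have h2 : ∀ j, ep (c j) = 0 := by
      rw [Fintype.linearIndependent_iff] at hv
      exact hv (fun j => ep (c j)) h1.symm
    have h3 : ∀ y, (fun j => dl y (c j)) = 0 := by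
      intro y
      refine ih _ (fun j => ?_) ?_
      · have h4 := dl_fil (hc j) y
        have e : ((N + 1 : ℕ) : ℤ) - 1 - 1 = (N : ℤ) - 1 := by
          push_cast
          ring
        rw [e] at h4
        exact h4
      · funext i
        have h4 : (∑ j, c j • g j) i = 0 := by
          rw [h]
          rfl
        rw [Finset.sum_apply] at h4 ⊢
        have h5 : dl y (∑ j, (c j • g j) i) = 0 := by rw [h4, dl_zero]
        rw [dl_sum] at h5
        show _ = (0 : A k X)
        rw [← h5]
        refine Finset.sum_congr rfl fun j _ => ?_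
        rw [Pi.smul_apply, Pi.smul_apply, smul_eq_mul, smul_eq_mul, dl_mul, h2 j, zero_smul, add_zero]
    funext j
    rw [Pi.zero_apply, eq_zero_iff]
    exact ⟨h2 j, fun y => congrFun (h3 y) j⟩

private theorem sd_ind' (g : Fin n → V k X n) (hv : LinearIndependent k fun j => epL k X n (g j))
    (c : V k X n) (h : ∑ j, c j • g j = 0) : c = 0 := by
  choose d hd0 hd using fun j => fil_exh (c j)
  refine sd_ind g hv ((∑ j, (d j).toNat) + 1) c (fun j => ?_) h
  refine fil_mono ?_ (hd j)
  obtain ⟨S, hS⟩ : ∃ S, S = ∑ j, (d j).toNat := ⟨_, rfl⟩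
  have h1 : (d j).toNat ≤ S := by
    rw [hS]
    exact Finset.single_le_sum (f := fun j => (d j).toNat) (fun _ _ => Nat.zero_le _) (Finset.mem_univ j)
  rw [← hS]
  push_cast
  omega

private theorem sd_exp {w : ℕ} (hw : 1 ≤ w) (Γ : ℤ → Submodule k (V k X n)) (mono : Monotone Γ)
    (star : ∀ d m, (∀ j, ep (m j) = 0) → (m ∈ Γ d ↔ ∀ y, (fun j => dl y (m j)) ∈ Γ (d - w)))
    (d0 : ℤ) (h0 : Γ d0 = ⊥) (g : Fin n → V k X n) (E : Fin n → ℤ) (hg : ∀ j, g j ∈ Γ (E j))
    (hW : ∀ d, ∀ m ∈ Γ d, ∃ l : Fin n → k, (∀ j, d < E j → l j = 0) ∧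
      epL k X n m = ∑ j, l j • epL k X n (g j)) :
    ∀ (N : ℕ) (d : ℤ), d ≤ d0 + N → ∀ m ∈ Γ d, ∃ c : V k X n,
      (∀ j, c j ∈ Fil (k := k) (X := X) ((d - E j) / (w : ℤ))) ∧ m = ∑ j, c j • g j := by
  intro N
  induction N with
  | zero =>
    intro d hd m hm
    have h1 : m ∈ Γ d0 := mono (by simpa using hd) hm
    rw [h0, Submodule.mem_bot] at h1
    refine ⟨0, fun j => Submodule.zero_mem _, ?_⟩
    rw [h1]
    simp
  | succ N ih =>
    intro d hd m hm
    obtain ⟨l, hl, hl'⟩ := hW d m hm
    obtain ⟨m', hm'⟩ : ∃ m', m' = m - ∑ j, l j • g j := ⟨_, rfl⟩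
    have h1 : m' ∈ Γ d := by
      rw [hm']
      refine Submodule.sub_mem _ hm (Submodule.sum_mem _ fun j _ => ?_)
      by_cases hj : d < E j
      · rw [hl j hj, zero_smul]
        exact Submodule.zero_mem _
      · exact Submodule.smul_mem _ _ (mono (by omega) (hg j))
    have h2 : ∀ i, ep (m' i) = 0 := by
      intro i
      have h3 : epL k X n m' = 0 := by
        rw [hm', map_sub, map_sum, hl', sub_eq_zero]
        refine Finset.sum_congr rfl fun j _ => ?_
        rw [map_smul]
      exact congrFun h3 i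
    have h3 := (star d m' h2).1 h1
    choose c hc hc' using fun y => ih (d - w) (by push_cast at hd; omega) _ (h3 y)
    classical
    obtain ⟨S, hS⟩ : ∃ S : Finset X, ∀ i y, dl y (m' i) ≠ 0 → y ∈ S := by
      refine ⟨Finset.univ.biUnion fun i => (dl_finite (m' i)).toFinset, fun i y hy => ?_⟩
      rw [Finset.mem_biUnion]
      refine ⟨i, Finset.mem_univ _, ?_⟩
      rw [Set.Finite.mem_toFinset]
      exact hy
    refine ⟨fun j => algebraMap k (A k X) (l j) + ∑ y ∈ S, FreeAlgebra.ι k y * c y j, fun j => ?_, ?_⟩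
    · refine Submodule.add_mem _ ?_ (Submodule.sum_mem _ fun y _ => ?_)
      · by_cases hj : d < E j
        · rw [hl j hj, map_zero]
          exact Submodule.zero_mem _
        · exact fil_alg _ (Int.ediv_nonneg (by omega) (by omega))
      · have h4 := iota_fil (hc y j) y
        have h5 : (d - w - E j) / (w : ℤ) + 1 = (d - E j) / (w : ℤ) := by
          have hw0 : (w : ℤ) ≠ 0 := by omega
          rw [show d - w - E j = (d - E j) + (-1) * w by ring, Int.add_mul_ediv_right _ _ hw0]
          ring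
        rw [h5] at h4
        exact h4
    · funext i
      have h4 := expn' (m' i) S (hS i)
      rw [h2 i, map_zero, zero_add] at h4
      have h5 : ∀ y, dl y (m' i) = ∑ j, c y j * g j i := by
        intro y
        have h6 := congrFun (hc' y) i
        rw [Finset.sum_apply] at h6
        exact h6
      have h6 : m i = m' i + ∑ j, l j • g j i := by
        have h7 := congrFun hm' i
        rw [Pi.sub_apply, Finset.sum_apply] at h7
        rw [h7]
        simp only [Pi.smul_apply]
        abel
      have h7 : ∀ j ∈ (Finset.univ : Finset (Fin n)),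
          ((fun j => algebraMap k (A k X) (l j) + ∑ y ∈ S, FreeAlgebra.ι k y * c y j) j • g j) i =
          l j • g j i + ∑ y ∈ S, FreeAlgebra.ι k y * (c y j * g j i) := by
        intro j _
        rw [Pi.smul_apply, smul_eq_mul, add_mul, Finset.sum_mul, Algebra.smul_def]
        congr 1
        refine Finset.sum_congr rfl fun y _ => ?_
        rw [mul_assoc]
      rw [h6, h4, Finset.sum_apply, Finset.sum_congr rfl h7, Finset.sum_add_distrib, Finset.sum_comm,
        add_comm]
      congr 1
      refine Finset.sum_congr rfl fun y _ => ?_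
      rw [h5, Finset.mul_sum]

theorem std {w : ℕ} (hw : 1 ≤ w) (Γ : ℤ → Submodule k (V k X n)) (mono : Monotone Γ) (low : ∃ d, Γ d = ⊥)
    (exh : ∀ m, ∃ d, m ∈ Γ d)
    (star : ∀ d m, (∀ j, ep (m j) = 0) → (m ∈ Γ d ↔ ∀ y, (fun j => dl y (m j)) ∈ Γ (d - w))) :
    ∃ (g : GLm k X n) (E : Fin n → ℤ), Monotone E ∧ ∀ d, Γ d = filW w g E d := by
  obtain ⟨d0, h0⟩ := low
  obtain ⟨v, E, hE, hv, hWd⟩ := std_lin n (fun d => (Γ d).map (epL k X n))
    (fun d e h => Submodule.map_mono (mono h)) ⟨d0, by simp only [h0, Submodule.map_bot]⟩ (by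
      intro u
      obtain ⟨d, hd⟩ := exh fun j => algebraMap k (A k X) (u j)
      refine ⟨d, Submodule.mem_map.2 ⟨_, hd, ?_⟩⟩
      funext j
      exact ep_alg (u j))
  have hgex : ∀ j, ∃ x ∈ Γ (E j), epL k X n x = v j := by
    intro j
    have h1 : v j ∈ (Γ (E j)).map (epL k X n) := by
      have h2 := hWd (E j)
      rw [h2]
      exact Submodule.subset_span ⟨j, show E j ≤ E j from le_refl _, rfl⟩
    exact Submodule.mem_map.1 h1
  choose g hg hgv using hgex
  have hv' : LinearIndependent k fun j => epL k X n (g j) := by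
    have h1 : (fun j => epL k X n (g j)) = v := funext hgv
    rw [h1]
    exact hv
  have hW : ∀ d, ∀ m ∈ Γ d, ∃ l : Fin n → k, (∀ j, d < E j → l j = 0) ∧
      epL k X n m = ∑ j, l j • epL k X n (g j) := by
    intro d m hm
    have h1 : epL k X n m ∈ (Γ d).map (epL k X n) := Submodule.mem_map.2 ⟨m, hm, rfl⟩
    have h2 := hWd d
    rw [h2, Finsupp.mem_span_image_iff_linearCombination] at h1
    obtain ⟨l, hl, hl'⟩ := h1
    refine ⟨fun j => l j, fun j hj => ?_, ?_⟩
    · by_contra hne
      have h3 := (Finsupp.mem_supported k l).1 hl (Finsupp.mem_support_iff.2 hne)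
      have h4 : E j ≤ d := h3
      omega
    · rw [← hl', Finsupp.linearCombination_apply, Finsupp.sum_fintype l (fun i a => a • v i)
        (fun i => zero_smul k (v i))]
      refine Finset.sum_congr rfl fun j _ => ?_
      rw [hgv j]
  have hexp : ∀ d, ∀ m ∈ Γ d, ∃ c : V k X n,
      (∀ j, c j ∈ Fil (k := k) (X := X) ((d - E j) / (w : ℤ))) ∧ m = ∑ j, c j • g j := by
    intro d m hm
    exact sd_exp hw Γ mono star d0 h0 g E hg hW (d - d0).toNat d (by omega) m hm
  have hB : ∀ i, ∃ c : V k X n, (Pi.single i 1 : V k X n) = ∑ j, c j • g j := by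
    intro i
    obtain ⟨d, hd⟩ := exh (Pi.single i 1 : V k X n)
    obtain ⟨c, _, hc⟩ := hexp d _ hd
    exact ⟨c, hc⟩
  choose b hb using hB
  have hBG : Matrix.of b * Matrix.of g = 1 := by
    ext i l
    have h1 := congrFun (hb i) l
    rw [Finset.sum_apply] at h1
    rw [Matrix.mul_apply, Matrix.one_apply]
    rw [Pi.single_apply] at h1
    have h2 : (if i = l then (1 : A k X) else 0) = if l = i then 1 else 0 := by
      by_cases h : i = l
      · rw [if_pos h, if_pos h.symm]
      · rw [if_neg h, if_neg (fun e => h e.symm)]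
    rw [h2, h1]
    rfl
  have hGB : Matrix.of g * Matrix.of b = 1 := by
    have h1 : (Matrix.of g * Matrix.of b - 1) * Matrix.of g = 0 := by
      rw [sub_mul, one_mul, mul_assoc, hBG, mul_one, sub_self]
    have h2 : ∀ i, (fun j => (Matrix.of g * Matrix.of b - 1) i j) = 0 := by
      intro i
      refine sd_ind' g hv' _ ?_
      funext l
      rw [Finset.sum_apply]
      have h3 := congrFun (congrFun h1 i) l
      rw [Matrix.mul_apply] at h3
      exact h3
    rw [← sub_eq_zero]
    ext i l
    exact congrFun (h2 i) l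
  obtain ⟨u, hu⟩ : ∃ u : GLm k X n, u = ⟨Matrix.of g, Matrix.of b, hGB, hBG⟩ := ⟨_, rfl⟩
  have hu1 : ∀ m : V k X n, co u m = m ᵥ* Matrix.of b := by
    intro m
    rw [hu]
    rfl
  have hu2 : ∀ c : V k X n, co u (∑ j, c j • g j) = c := by
    intro c
    have h1 : ∑ j, c j • g j = c ᵥ* Matrix.of g := by
      rw [Matrix.vecMul_eq_sum]
      rfl
    rw [hu1, h1, Matrix.vecMul_vecMul, hGB, Matrix.vecMul_one]
  have hu3 : ∀ m : V k X n, m = ∑ j, co u m j • g j := by
    intro m
    have h1 : ∑ j, co u m j • g j = co u m ᵥ* Matrix.of g := by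
      rw [Matrix.vecMul_eq_sum]
      rfl
    rw [h1, hu1, Matrix.vecMul_vecMul, hBG, Matrix.vecMul_one]
  refine ⟨u, E, hE, fun d => ?_⟩
  ext m
  constructor
  · intro hm
    obtain ⟨c, hc, hc'⟩ := hexp d m hm
    intro j
    rw [hc', hu2]
    exact hc j
  · intro hm
    rw [hu3 m]
    refine Submodule.sum_mem _ fun j _ => ?_
    have h1 := sd_mul Γ mono star (co u m j) _ _ _ (hm j) (hg j)
    refine mono ?_ h1
    have h2 : (w : ℤ) * ((d - E j) / (w : ℤ)) ≤ d - E j := Int.mul_ediv_self_le (by omega)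
    omega

end Pool.Agent.SMF
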