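import Pool.Agent.SMF.TwoC
import Pool.Agent.SMF.PathAll
import Pool.Agent.SMF.PathC
import Pool.Agent.SMF.Lub

/-!
# SMF-TAcyc: the strict chains of flags with `k`-structures are acyclic (assembly)
-/

namespace Pool.Agent.SMF

variable {K : Type*} [Field K] {k X : Type*} [Field k] {n : ℕ}

theorem sho_clo (S : Set (Lat k X n)) : Clo (Sho S) := by
  intro l l' h hs
  exact ⟨fun u hu => h.1 u (hs.subset hu), h.2.1.sublist hs, fun u hu v hv => h.2.2 u (hs.subset hu) v (hs.subset hv)⟩

theorem T_acyc : Acyc K (fun l : List (T k X n) => l.Pairwise (· < ·)) := by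
  refine twoC (P' := Lat k X n) (Sho Set.univ) (sho_clo _) ⟨by simp, List.Pairwise.nil, by simp⟩ Comp
    (fun u s t h hst => comp_mono h hst) (fun m hm hne => lub m hm hne) acyc_all (fun t => ?_)
  have h := acyc_comp (K := K) t
  have he : (Sho {Λ : Lat k X n | Comp Λ t}) = fun m => Sho (Set.univ : Set (Lat k X n)) m ∧ ∀ u ∈ m, Comp u t := by
    funext m
    apply propext
    constructor
    · rintro ⟨h1, h2, h3⟩
      exact ⟨⟨fun _ _ => trivial, h2, h3⟩, h1⟩
    · rintro ⟨⟨_, h2, h3⟩, h1⟩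
      exact ⟨h1, h2, h3⟩
  rwa [he] at h

end Pool.Agent.SMF
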