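import Pool.Agent.SMF.TAcyc
import Pool.Agent.SMF.Rank
import Pool.Agent.SMF.SmD
import Pool.Agent.SMF.SmE
import Pool.Agent.SMF.ActG

/-!
# SMF-TFix: fixed flags of `p`-groups exist and are connected (assembly)
-/

namespace Pool.Agent.SMF

variable {k X : Type*} [Field k] {n : ℕ} {G : Type*} [Group G] {φ : G →* (A k X ≃ₐ[k] A k X)}

theorem fx_acyc {p : ℕ} [Fact p.Prime] [Finite G] (hG : IsPGroup p G) (ρ : SAct φ n) :
    Acyc (ZMod p) (fun l : List (T k X n) => l.Pairwise (· < ·) ∧ ∀ u ∈ l, ρ.Fx u) := by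
  have h := smith_group hG ρ.perm (fun l : List (T k X n) => l.Pairwise (· < ·))
    (fun l l' hl hs => hl.sublist hs) (n + 1) (fun l hl => chain_length l hl)
    (fun g l hl => by
      rw [List.pairwise_map]
      exact hl.imp (fun {a b} hab => perm_lt ρ g hab)) T_acyc
  exact h

theorem fx_exists {p : ℕ} [Fact p.Prime] [Finite G] (hG : IsPGroup p G) (ρ : SAct φ n) : ∃ t, ρ.Fx t :=
  acyc_exists _ (fx_acyc hG ρ)

theorem fx_conn {p : ℕ} [Fact p.Prime] [Finite G] (hG : IsPGroup p G) (ρ : SAct φ n) (s t : T k X n)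
    (hs : ρ.Fx s) (ht : ρ.Fx t) :
    Relation.ReflTransGen (fun a b => ρ.Fx a ∧ ρ.Fx b ∧ (a ≤ b ∨ b ≤ a)) s t :=
  acyc_conn _ (fx_acyc hG ρ) s t hs ht

end Pool.Agent.SMF
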