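import Pool.Agent.SMF.Alg

/-!
# SMF-Tri: block triangular matrices over the free algebra with diagonal blocks over `k` (imports Alg for `ep_add`, `ep_mul`, `ep_alg`)

`Shp β c c0`: `c` is zero above the `β`-blocks, its `β`-diagonal blocks are the ones of the matrix `c0` over `k`, and `c0` is
block diagonal.
-/

namespace Pool.Agent.SMF

open Matrix

variable {k X : Type*} [Field k] {n : ℕ}

/-- block triangular shape -/
def Shp (β : Fin n → ℤ) (c : Matrix (Fin n) (Fin n) (A k X)) (c0 : Matrix (Fin n) (Fin n) k) : Prop :=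
  (∀ j l, β j < β l → c j l = 0) ∧ (∀ j l, β j = β l → c j l = algebraMap k (A k X) (c0 j l)) ∧
    (∀ j l, β j ≠ β l → c0 j l = 0)

theorem tri_mul {β : Fin n → ℤ} {c d : Matrix (Fin n) (Fin n) (A k X)} {c0 d0 : Matrix (Fin n) (Fin n) k}
    (hc : Shp β c c0) (hd : Shp β d d0) : Shp β (c * d) (c0 * d0) := by
  obtain ⟨c1, c2, c3⟩ := hc
  obtain ⟨d1, d2, d3⟩ := hd
  refine ⟨fun j l h => ?_, fun j l h => ?_, fun j l h => ?_⟩
  · rw [Matrix.mul_apply]
    refine Finset.sum_eq_zero fun m _ => ?_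
    rcases lt_or_ge (β j) (β m) with h1 | h1
    · rw [c1 j m h1, zero_mul]
    · rw [d1 m l (lt_of_le_of_lt h1 h), mul_zero]
  · rw [Matrix.mul_apply, Matrix.mul_apply, map_sum]
    refine Finset.sum_congr rfl fun m _ => ?_
    rcases lt_trichotomy (β j) (β m) with h1 | h1 | h1
    · rw [c1 j m h1, c3 j m h1.ne, zero_mul, zero_mul, map_zero]
    · rw [c2 j m h1, d2 m l (h1.symm.trans h), map_mul]
    · rw [d1 m l (h ▸ h1), c3 j m h1.ne', mul_zero, zero_mul, map_zero]
  · rw [Matrix.mul_apply]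
    refine Finset.sum_eq_zero fun m _ => ?_
    by_cases h1 : β j = β m
    · rw [d3 m l (fun h2 => h (h1.trans h2)), mul_zero]
    · rw [c3 j m h1, zero_mul]

private theorem tri_add {β : Fin n → ℤ} {c d : Matrix (Fin n) (Fin n) (A k X)}
    {c0 d0 : Matrix (Fin n) (Fin n) k} (hc : Shp β c c0) (hd : Shp β d d0) :
    Shp β (c + d) (c0 + d0) := by
  obtain ⟨c1, c2, c3⟩ := hc
  obtain ⟨d1, d2, d3⟩ := hd
  refine ⟨fun j l h => ?_, fun j l h => ?_, fun j l h => ?_⟩
  · rw [Matrix.add_apply, c1 j l h, d1 j l h, add_zero]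
  · rw [Matrix.add_apply, Matrix.add_apply, c2 j l h, d2 j l h, map_add]
  · rw [Matrix.add_apply, c3 j l h, d3 j l h, add_zero]

private theorem tri_map {β : Fin n → ℤ} {c0 : Matrix (Fin n) (Fin n) k}
    (h : ∀ j l, β j ≠ β l → c0 j l = 0) :
    Shp β (c0.map (algebraMap k (A k X))) c0 := by
  refine ⟨fun j l h1 => ?_, fun j l _ => ?_, h⟩
  · rw [Matrix.map_apply, h j l h1.ne, map_zero]
  · rw [Matrix.map_apply]

private theorem tri_one (β : Fin n → ℤ) : Shp β (1 : Matrix (Fin n) (Fin n) (A k X)) 1 := by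
  have h := tri_map (X := X) (β := β) (c0 := (1 : Matrix (Fin n) (Fin n) k))
    (fun j l h => Matrix.one_apply_ne (fun h1 => h (by rw [h1])))
  rwa [Matrix.map_one _ (map_zero _) (map_one _)] at h

private theorem tri_pow {β : Fin n → ℤ} {c : Matrix (Fin n) (Fin n) (A k X)}
    (hc : Shp β c 0) (i : ℕ) : Shp β (c ^ i) ((0 : Matrix (Fin n) (Fin n) k) ^ i) := by
  induction i with
  | zero =>
    rw [pow_zero, pow_zero]
    exact tri_one β
  | succ i ih =>
    rw [pow_succ, pow_succ]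
    exact tri_mul ih hc

private theorem tri_geom {β : Fin n → ℤ} {c : Matrix (Fin n) (Fin n) (A k X)}
    (hc : Shp β c 0) (m : ℕ) : Shp β (∑ i ∈ Finset.range (m + 1), c ^ i) 1 := by
  induction m with
  | zero =>
    rw [zero_add, Finset.sum_range_one, pow_zero]
    exact tri_one β
  | succ m ih =>
    rw [Finset.sum_range_succ]
    have h1 := tri_pow hc (m + 1)
    rw [zero_pow (Nat.succ_ne_zero m)] at h1
    have h2 := tri_add ih h1
    rwa [add_zero] at h2

/-- strictly lower block triangular matrices are nilpotent -/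
private theorem tri_nil {β : Fin n → ℤ} {c : Matrix (Fin n) (Fin n) (A k X)}
    (hc : Shp β c 0) : c ^ (n + 1) = 0 := by
  classical
  have h0 : ∀ j l, c j l ≠ 0 → β l < β j := by
    intro j l h
    by_contra h1
    rcases lt_or_eq_of_le (not_lt.1 h1) with h2 | h2
    · exact h (hc.1 j l h2)
    · exact h (by rw [hc.2.1 j l h2, Matrix.zero_apply, map_zero])
  have hr : ∀ j l, β l < β j → (Finset.univ.filter fun i => β i < β l).card <
      (Finset.univ.filter fun i => β i < β j).card := by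
    intro j l h
    refine Finset.card_lt_card ⟨fun i hi => ?_, fun h1 => ?_⟩
    · rw [Finset.mem_filter] at hi ⊢
      exact ⟨hi.1, hi.2.trans h⟩
    · have h2 := h1 (Finset.mem_filter.2 ⟨Finset.mem_univ l, h⟩)
      exact lt_irrefl _ (Finset.mem_filter.1 h2).2
  have key : ∀ (m : ℕ) (j l : Fin n), (c ^ m) j l ≠ 0 →
      m ≤ (Finset.univ.filter fun i => β i < β j).card := by
    intro m
    induction m with
    | zero => exact fun _ _ _ => Nat.zero_le _
    | succ m ih =>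
      intro j l h
      rw [pow_succ', Matrix.mul_apply] at h
      obtain ⟨i, _, hi⟩ := Finset.exists_ne_zero_of_sum_ne_zero h
      have h1 := h0 j i (left_ne_zero_of_mul hi)
      have h2 := ih i l (right_ne_zero_of_mul hi)
      have h3 := hr j i h1
      omega
  ext j l
  rw [Matrix.zero_apply]
  by_contra h
  have h1 := key _ j l h
  have h2 : (Finset.univ.filter fun i => β i < β j).card ≤ n :=
    (Finset.card_filter_le _ _).trans (by rw [Finset.card_univ, Fintype.card_fin])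
  omega

/-- the inverse of a block diagonal matrix -/
private theorem diag_inv {β : Fin n → ℤ} {c0 : Matrix (Fin n) (Fin n) k}
    (h : ∀ j l, β j ≠ β l → c0 j l = 0) (h0 : IsUnit c0) (j l : Fin n) (hjl : β j ≠ β l) :
    c0⁻¹ j l = 0 := by
  classical
  have hdet : IsUnit c0.det := (Matrix.isUnit_iff_isUnit_det _).1 h0
  obtain ⟨P, hP⟩ : ∃ P : Matrix (Fin n) (Fin n) k,
      P = Matrix.diagonal fun i => if β i = β l then 1 else 0 := ⟨_, rfl⟩
  have h1 : c0 * P = P * c0 := by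
    ext a b
    rw [hP, Matrix.mul_diagonal, Matrix.diagonal_mul]
    by_cases hab : β a = β b
    · rw [hab, mul_comm]
    · rw [h a b hab, zero_mul, mul_zero]
  have h2 : P * c0⁻¹ = c0⁻¹ * P := by
    calc P * c0⁻¹ = c0⁻¹ * (c0 * P) * c0⁻¹ := by
          rw [← Matrix.mul_assoc, Matrix.nonsing_inv_mul _ hdet, Matrix.one_mul]
      _ = c0⁻¹ * P := by
          rw [h1, Matrix.mul_assoc, Matrix.mul_assoc, Matrix.mul_nonsing_inv _ hdet,
            Matrix.mul_one]
  have h3 := congrFun (congrFun h2 j) l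
  rw [hP, Matrix.mul_diagonal, Matrix.diagonal_mul, if_neg hjl, if_pos rfl, zero_mul,
    mul_one] at h3
  exact h3.symm

private theorem tri_inv {β : Fin n → ℤ} {c : Matrix (Fin n) (Fin n) (A k X)}
    {c0 : Matrix (Fin n) (Fin n) k} (hc : Shp β c c0) (h0 : IsUnit c0) :
    ∃ w : Matrix (Fin n) (Fin n) (A k X), Shp β w c0⁻¹ ∧ c * w = 1 := by
  have hdet : IsUnit c0.det := (Matrix.isUnit_iff_isUnit_det _).1 h0
  obtain ⟨e, he⟩ : ∃ e : Matrix (Fin n) (Fin n) (A k X),
      e = c0⁻¹.map (algebraMap k (A k X)) := ⟨_, rfl⟩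
  have hes : Shp β e c0⁻¹ := by
    rw [he]
    exact tri_map fun j l h => diag_inv hc.2.2 h0 j l h
  have hd : Shp β (c * e) 1 := by
    have h1 := tri_mul hc hes
    rwa [Matrix.mul_nonsing_inv _ hdet] at h1
  obtain ⟨N, hN⟩ : ∃ N, N = 1 - c * e := ⟨_, rfl⟩
  have hNs : Shp β N 0 := by
    refine ⟨fun j l h => ?_, fun j l h => ?_, fun j l _ => rfl⟩
    · rw [hN, Matrix.sub_apply, hd.1 j l h, (tri_one (k := k) (X := X) β).1 j l h, sub_zero]
    · rw [hN, Matrix.sub_apply, hd.2.1 j l h, (tri_one (k := k) (X := X) β).2.1 j l h, sub_self,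
        Matrix.zero_apply, map_zero]
  refine ⟨e * ∑ i ∈ Finset.range (n + 1), N ^ i, ?_, ?_⟩
  · have h1 := tri_mul hes (tri_geom hNs n)
    rwa [Matrix.mul_one] at h1
  · have h1 := mul_neg_geom_sum N (n + 1)
    rw [tri_nil hNs, sub_zero, hN, sub_sub_cancel] at h1
    rw [← Matrix.mul_assoc, hN]
    exact h1

theorem tri1 {β : Fin n → ℤ} (u : GLm k X n) {c0 : Matrix (Fin n) (Fin n) k}
    (hu : Shp β (u : Matrix (Fin n) (Fin n) (A k X)) c0) : IsUnit c0 := by
  classical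
  obtain ⟨f, hf⟩ : ∃ f : A k X →+* k, ∀ a, f a = ep a :=
    ⟨(FreeAlgebra.algebraMapInv : A k X →ₐ[k] k).toRingHom, fun _ => rfl⟩
  obtain ⟨E, hE⟩ : ∃ E, E = f.mapMatrix (u : Matrix (Fin n) (Fin n) (A k X)) := ⟨_, rfl⟩
  have h1 : IsUnit E := by
    rw [hE]
    exact u.isUnit.map f.mapMatrix
  have hEa : ∀ j l, E j l = ep ((u : Matrix (Fin n) (Fin n) (A k X)) j l) := by
    intro j l
    rw [hE, RingHom.mapMatrix_apply, Matrix.map_apply, hf]
  have ep0 : ep (0 : A k X) = 0 := by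
    rw [← hf, map_zero]
  have hb1 : E.BlockTriangular (fun i => OrderDual.toDual (β i)) := by
    intro i j hij
    rw [hEa, hu.1 i j (OrderDual.toDual_lt_toDual.1 hij), ep0]
  have hb2 : c0.BlockTriangular (fun i => OrderDual.toDual (β i)) := by
    intro i j hij
    exact hu.2.2 i j (OrderDual.toDual_lt_toDual.1 hij).ne
  have h2 : c0.det = E.det := by
    rw [hb1.det, hb2.det]
    refine Finset.prod_congr rfl fun a _ => ?_
    congr 1
    ext ⟨i, hi⟩ ⟨j, hj⟩
    have hij : β i = β j := OrderDual.toDual.injective (hi.trans hj.symm)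
    change c0 i j = E i j
    rw [hEa, hu.2.1 i j hij, ep_alg]
  rw [Matrix.isUnit_iff_isUnit_det, h2]
  exact (Matrix.isUnit_iff_isUnit_det _).1 h1

private theorem tri_inv' {β : Fin n → ℤ} {c : Matrix (Fin n) (Fin n) (A k X)}
    {c0 : Matrix (Fin n) (Fin n) k} (hc : Shp β c c0) (h0 : IsUnit c0) :
    ∃ w : Matrix (Fin n) (Fin n) (A k X), Shp β w c0⁻¹ ∧ c * w = 1 ∧ w * c = 1 := by
  obtain ⟨w, hw, h1⟩ := tri_inv hc h0
  have h0' : IsUnit c0⁻¹ := by
    rw [Matrix.isUnit_nonsing_inv_iff]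
    exact h0
  obtain ⟨w', _, h2⟩ := tri_inv hw h0'
  refine ⟨w, hw, h1, ?_⟩
  have h3 : c = w' := by
    calc c = c * (w * w') := by rw [h2, Matrix.mul_one]
      _ = w' := by rw [← Matrix.mul_assoc, h1, Matrix.one_mul]
  rw [h3]
  exact h2

theorem tri2 {β : Fin n → ℤ} {c : Matrix (Fin n) (Fin n) (A k X)} {c0 : Matrix (Fin n) (Fin n) k}
    (hc : Shp β c c0) (h0 : IsUnit c0) : ∃ u : GLm k X n, (u : Matrix (Fin n) (Fin n) (A k X)) = c := by
  obtain ⟨w, _, h1, h2⟩ := tri_inv' hc h0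
  exact ⟨⟨c, w, h1, h2⟩, rfl⟩

theorem tri3 {β : Fin n → ℤ} (u : GLm k X n) {c0 : Matrix (Fin n) (Fin n) k}
    (hu : Shp β (u : Matrix (Fin n) (Fin n) (A k X)) c0) :
    Shp β ((u⁻¹ : GLm k X n) : Matrix (Fin n) (Fin n) (A k X)) c0⁻¹ := by
  obtain ⟨w, hw, h1, _⟩ := tri_inv' hu (tri1 u hu)
  have h3 : ((u⁻¹ : GLm k X n) : Matrix (Fin n) (Fin n) (A k X)) = w := by
    calc ((u⁻¹ : GLm k X n) : Matrix (Fin n) (Fin n) (A k X))
        = (u⁻¹ : GLm k X n) * ((u : Matrix (Fin n) (Fin n) (A k X)) * w) := by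
          rw [h1, Matrix.mul_one]
      _ = w := by rw [← Matrix.mul_assoc, Units.inv_mul, Matrix.one_mul]
  rw [h3]
  exact hw

end Pool.Agent.SMF
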