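import Pool.Agent.SMF.CarH
import Pool.Agent.SMF.Cone

/-!
# SMF-TwoC: comparison of the chains of a poset with another complex (imports CarM, CarH, Cone)

PLAN.  Let `z` be a cycle of strict chains of `T` of length `m`, `N = m + 2`.
(1) `θ` : `carrier_map` for `Q l = l.Pairwise (<)` and `R l m' = Q' m' ∧ ∀ u ∈ m', ∀ s ∈ l.getLast?, Cm u s` (the last element is the largest; for a nonempty sublist `l'`
of `l` the last element of `l'` is `≤` the last element of `l`: `hmono`); `R l` is the predicate of `hloc` for `t` = last element.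
(2) `θ z ∈ SP K Q' m` and `bd (θ z) = θ (bd z) = 0` (`SP_induction` for the linear statements; for `m = 0` it is a multiple of `single [] 1`), so `θ z = bd y`, `y ∈ SP K Q' (m + 1)`.
(3) `ψ` : `carrier_map` for `Q'` and `R' m' l = l.Pairwise (<) ∧ ∀ u ∈ l, u ≤ lub m'` (`lub` chosen by `hlub`; monotone in `m'`: if `m''` is a nonempty sublist of `m'` then
`lub m'` is compatible with all members of `m''`); `cone_acyc`.
(4) `ψ ∘ θ` and the identity are both `CMap (m + 1) Q R''`, `R'' l l' = l'.Pairwise (<) ∧ ∀ u ∈ l', ∀ s ∈ l.getLast?, u ≤ s` (`θ l` consists of `m'` with all members compatible with the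
last element `t` of `l`, so `lub m' ≤ t` for nonempty `m'`).  `carrier_homotopy` gives `H`, so `bd (H z) = ψ (θ z) - z` (as `bd z = 0`) and
`z = bd (ψ y) - bd (H z)`; `ψ y`, `H z ∈ SP K Q (m + 1)`.
-/

namespace Pool.Agent.SMF

open Finsupp

variable {K : Type*} [Field K] {T P' : Type*} [PartialOrder T]

private theorem le_last {l : List T} (hl : l.Pairwise (· < ·)) {u s : T} (hu : u ∈ l)
    (hs : s ∈ l.getLast?) : u ≤ s := by
  have hne : l ≠ [] := List.ne_nil_of_mem hu
  rw [List.getLast?_eq_some_getLast hne] at hs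
  have hs' : l.getLast hne = s := by simpa using hs
  have h2 : l = l.dropLast ++ [s] := by
    rw [← hs']
    exact (List.dropLast_append_getLast hne).symm
  rw [h2] at hu hl
  rw [List.mem_append] at hu
  rcases hu with hu | hu
  · exact le_of_lt ((List.pairwise_append.1 hl).2.2 u hu s (by simp))
  · have : u = s := by simpa using hu
    exact this.le

private theorem last_mem {l : List T} {s : T} (hs : s ∈ l.getLast?) : s ∈ l := by
  exact List.mem_of_getLast? hs

private theorem last_ex {l : List T} (hl : l ≠ []) : ∃ s, s ∈ l.getLast? :=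
  ⟨l.getLast hl, by rw [List.getLast?_eq_some_getLast hl]; simp⟩

private theorem last_le {l l' : List T} (hl : l.Pairwise (· < ·)) (hs : l'.Sublist l) {s s' : T}
    (h : s ∈ l.getLast?) (h' : s' ∈ l'.getLast?) : s' ≤ s :=
  le_last hl (hs.subset (last_mem h')) h

private theorem pw_clo : Clo (fun l : List T => l.Pairwise (· < ·)) := fun _ _ h hs => h.sublist hs

theorem twoC (Q' : List P' → Prop) (hQ' : Clo Q') (h0 : Q' []) (Cm : P' → T → Prop)
    (hmono : ∀ u s t, Cm u s → s ≤ t → Cm u t)
    (hlub : ∀ m, Q' m → m ≠ [] → ∃ s, (∀ u ∈ m, Cm u s) ∧ ∀ t, (∀ u ∈ m, Cm u t) → s ≤ t)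
    (hall : Acyc K Q') (hloc : ∀ t, Acyc K (fun m => Q' m ∧ ∀ u ∈ m, Cm u t)) :
    Acyc K (fun l : List T => l.Pairwise (· < ·)) := by
  intro m z hz hbz
  -- θ
  obtain ⟨θ, hθ⟩ := carrier_map (K := K) (m + 1) (pw_clo (T := T))
    (R := fun l m' => Q' m' ∧ ∀ u ∈ m', ∀ s ∈ l.getLast?, Cm u s)
    (fun l _ _ => ⟨h0, fun u hu => by simp at hu⟩)
    (fun l l' m' hl hne hs h => ⟨h.1, fun u hu s hls => by
      obtain ⟨s', hs'⟩ := last_ex hne
      exact hmono u s' s (h.2 u hu s' hs') (last_le hl hs hls hs')⟩)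
    (fun l hl hne => by
      obtain ⟨t, ht⟩ := last_ex hne
      have h1 : (fun m' => Q' m' ∧ ∀ u ∈ m', ∀ s ∈ l.getLast?, Cm u s) =
          (fun m' => Q' m' ∧ ∀ u ∈ m', Cm u t) := by
        funext m'
        apply propext
        refine and_congr_right fun _ => forall₂_congr fun u _ => ⟨fun h => h t ht, fun h s hs => ?_⟩
        have : s = t := Option.mem_unique hs ht
        rw [this]
        exact h
      show Acyc K (fun m' => Q' m' ∧ ∀ u ∈ m', ∀ s ∈ l.getLast?, Cm u s)
      rw [h1]
      exact hloc t)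
  -- ψ
  obtain ⟨ψ, hψ⟩ := carrier_map (K := K) (m + 1) hQ'
    (R := fun m' l => (l : List T).Pairwise (· < ·) ∧ ∀ u ∈ l, ∀ t, (∀ v ∈ m', Cm v t) → u ≤ t)
    (fun l _ _ => ⟨List.Pairwise.nil, fun u hu => by simp at hu⟩)
    (fun l l' m' hl hne hs h => ⟨h.1, fun u hu t ht => h.2 u hu t fun v hv => ht v (hs.subset hv)⟩)
    (fun m' hm hne => by
      obtain ⟨s, hs1, hs2⟩ := hlub m' hm hne
      have h1 : (fun l : List T => l.Pairwise (· < ·) ∧ ∀ u ∈ l, ∀ t, (∀ v ∈ m', Cm v t) → u ≤ t) =
          (fun l : List T => l.Pairwise (· < ·) ∧ ∀ u ∈ l, u ≤ s) := by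
        funext l
        apply propext
        exact and_congr_right fun _ => forall₂_congr fun u _ =>
          ⟨fun h => h s hs1, fun h t ht => h.trans (hs2 t ht)⟩
      show Acyc K (fun l : List T => l.Pairwise (· < ·) ∧ ∀ u ∈ l, ∀ t, (∀ v ∈ m', Cm v t) → u ≤ t)
      rw [h1]
      exact cone_acyc s)
  -- linear statements
  have hmap : ∀ (j : ℕ), j ≤ m + 1 → ∀ w ∈ SP K (fun l : List T => l.Pairwise (· < ·)) j,
      θ w ∈ SP K Q' j ∧ bd (θ w) = θ (bd w) := by
    intro j hj w hw
    have h1 : w ∈ (SP K Q' j).comap θ := by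
      refine SP_induction (fun l hl hlen => ?_) hw
      rw [Submodule.mem_comap]
      by_cases hne : l = []
      · subst hne
        rw [hθ.1]
        have : j = 0 := by simpa using hlen.symm
        rw [this]
        exact single_mem_SP h0 1
      · have := (hθ.2 l hl hne (by omega)).1
        rw [hlen] at this
        exact SP_mono (fun m' hm' => hm'.1) j this
    have h2 : w ∈ LinearMap.ker (bd.comp θ - θ.comp bd : Ch K T →ₗ[K] Ch K P') := by
      refine SP_induction (fun l hl hlen => ?_) hw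
      rw [LinearMap.mem_ker, LinearMap.sub_apply, LinearMap.comp_apply, LinearMap.comp_apply,
        sub_eq_zero]
      by_cases hne : l = []
      · subst hne
        rw [hθ.1, bd_nil, bd_nil, map_zero]
      · exact (hθ.2 l hl hne (by omega)).2
    rw [LinearMap.mem_ker, LinearMap.sub_apply, LinearMap.comp_apply, LinearMap.comp_apply,
        sub_eq_zero] at h2
    exact ⟨h1, h2⟩
  have hmap' : ∀ (j : ℕ), j ≤ m + 1 → ∀ w ∈ SP K Q' j,
      ψ w ∈ SP K (fun l : List T => l.Pairwise (· < ·)) j ∧ bd (ψ w) = ψ (bd w) := by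
    intro j hj w hw
    have h1 : w ∈ (SP K (fun l : List T => l.Pairwise (· < ·)) j).comap ψ := by
      refine SP_induction (fun l hl hlen => ?_) hw
      rw [Submodule.mem_comap]
      by_cases hne : l = []
      · subst hne
        rw [hψ.1]
        have : j = 0 := by simpa using hlen.symm
        rw [this]
        exact single_mem_SP (Q := fun l : List T => l.Pairwise (· < ·)) List.Pairwise.nil 1
      · have := (hψ.2 l hl hne (by omega)).1
        rw [hlen] at this
        exact SP_mono (fun m' hm' => hm'.1) j this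
    have h2 : w ∈ LinearMap.ker (bd.comp ψ - ψ.comp bd : Ch K P' →ₗ[K] Ch K T) := by
      refine SP_induction (fun l hl hlen => ?_) hw
      rw [LinearMap.mem_ker, LinearMap.sub_apply, LinearMap.comp_apply, LinearMap.comp_apply,
        sub_eq_zero]
      by_cases hne : l = []
      · subst hne
        rw [hψ.1, bd_nil, bd_nil, map_zero]
      · exact (hψ.2 l hl hne (by omega)).2
    rw [LinearMap.mem_ker, LinearMap.sub_apply, LinearMap.comp_apply, LinearMap.comp_apply,
        sub_eq_zero] at h2
    exact ⟨h1, h2⟩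
  -- the cycle θ z bounds
  obtain ⟨hz1, hz2⟩ := hmap m (by omega) z hz
  rw [hbz, map_zero] at hz2
  obtain ⟨y, hy1, hy2⟩ := hall m (θ z) hz1 hz2
  obtain ⟨hy3, hy4⟩ := hmap' (m + 1) le_rfl y hy1
  -- the homotopy
  have c1 : CMap (m + 1) (fun l : List T => l.Pairwise (· < ·))
      (fun l l' => (l' : List T).Pairwise (· < ·) ∧ ∀ u ∈ l', ∀ s ∈ l.getLast?, u ≤ s)
      (ψ.comp θ : Ch K T →ₗ[K] Ch K T) := by
    refine ⟨by rw [LinearMap.comp_apply, hθ.1, hψ.1], fun l hl hne hlen => ⟨?_, ?_⟩⟩
    · rw [LinearMap.comp_apply]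
      have h1 := (hθ.2 l hl hne hlen).1
      have h2 : θ (single l 1) ∈ (SP K (fun l' : List T => l'.Pairwise (· < ·) ∧
          ∀ u ∈ l', ∀ s ∈ l.getLast?, u ≤ s) l.length).comap ψ := by
        refine SP_induction (fun m' hm' hlen' => ?_) h1
        rw [Submodule.mem_comap]
        have hne' : m' ≠ [] := by
          intro h
          rw [h] at hlen'
          exact hne (List.length_eq_zero_iff.1 (by simpa using hlen'.symm))
        have h3 := (hψ.2 m' hm'.1 hne' (by omega)).1
        rw [hlen'] at h3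
        exact SP_mono (fun l' hl' => ⟨hl'.1, fun u hu s hs =>
          hl'.2 u hu s fun v hv => hm'.2 v hv s hs⟩) _ h3
      exact h2
    · rw [LinearMap.comp_apply, LinearMap.comp_apply]
      rw [(hmap' l.length hlen (θ (single l 1))
        (hmap l.length hlen (single l 1) (single_mem_SP (Q := fun l : List T => l.Pairwise (· < ·)) hl 1)).1).2,
        (hθ.2 l hl hne hlen).2]
  have c2 : CMap (m + 1) (fun l : List T => l.Pairwise (· < ·))
      (fun l l' => (l' : List T).Pairwise (· < ·) ∧ ∀ u ∈ l', ∀ s ∈ l.getLast?, u ≤ s)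
      (LinearMap.id : Ch K T →ₗ[K] Ch K T) := by
    refine ⟨rfl, fun l hl hne hlen => ⟨?_, rfl⟩⟩
    exact single_mem_SP (Q := fun l' : List T => l'.Pairwise (· < ·) ∧
      ∀ u ∈ l', ∀ s ∈ l.getLast?, u ≤ s) ⟨hl, fun u hu s hs => le_last hl hu hs⟩ 1
  obtain ⟨H, hH0, hH⟩ := carrier_homotopy (m + 1) (pw_clo (T := T))
    (R := fun l l' => (l' : List T).Pairwise (· < ·) ∧ ∀ u ∈ l', ∀ s ∈ l.getLast?, u ≤ s)
    (fun l l' m' hl hne hs h => ⟨h.1, fun u hu s hls => by
      obtain ⟨s', hs'⟩ := last_ex hne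
      exact (h.2 u hu s' hs').trans (last_le hl hs hls hs')⟩)
    (fun l hl hne => by
      obtain ⟨t, ht⟩ := last_ex hne
      have h1 : (fun l' : List T => l'.Pairwise (· < ·) ∧ ∀ u ∈ l', ∀ s ∈ l.getLast?, u ≤ s) =
          (fun l' : List T => l'.Pairwise (· < ·) ∧ ∀ u ∈ l', u ≤ t) := by
        funext m'
        apply propext
        refine and_congr_right fun _ => forall₂_congr fun u _ => ⟨fun h => h t ht, fun h s hs => ?_⟩
        have : s = t := Option.mem_unique hs ht
        rw [this]
        exact h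
      show Acyc K (fun l' : List T => l'.Pairwise (· < ·) ∧ ∀ u ∈ l', ∀ s ∈ l.getLast?, u ≤ s)
      rw [h1]
      exact cone_acyc t) c1 c2
  have hHz : H z ∈ SP K (fun l : List T => l.Pairwise (· < ·)) (m + 1) := by
    have h1 : z ∈ (SP K (fun l : List T => l.Pairwise (· < ·)) (m + 1)).comap H := by
      refine SP_induction (fun l hl hlen => ?_) hz
      rw [Submodule.mem_comap]
      by_cases hne : l = []
      · subst hne
        rw [hH0]
        exact Submodule.zero_mem _
      · have := (hH l hl hne (by omega)).1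
        rw [hlen] at this
        exact SP_mono (fun m' hm' => hm'.1) _ this
    exact h1
  have hHz2 : bd (H z) = ψ (θ z) - z := by
    have h2 : z ∈ LinearMap.ker (bd.comp H + H.comp bd - (ψ.comp θ - LinearMap.id) :
        Ch K T →ₗ[K] Ch K T) := by
      refine SP_induction (fun l hl hlen => ?_) hz
      rw [LinearMap.mem_ker, LinearMap.sub_apply, LinearMap.add_apply, LinearMap.sub_apply,
        LinearMap.comp_apply, LinearMap.comp_apply, LinearMap.comp_apply, LinearMap.id_apply,
        sub_eq_zero]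
      by_cases hne : l = []
      · subst hne
        rw [hH0, bd_nil, hθ.1, hψ.1, map_zero, map_zero, add_zero, sub_self]
      · exact (hH l hl hne (by omega)).2
    rw [LinearMap.mem_ker, LinearMap.sub_apply, LinearMap.add_apply, LinearMap.sub_apply,
        LinearMap.comp_apply, LinearMap.comp_apply, LinearMap.comp_apply, LinearMap.id_apply,
        sub_eq_zero, hbz, map_zero, add_zero] at h2
    exact h2
  refine ⟨ψ y - H z, Submodule.sub_mem _ hy3 hHz, ?_⟩
  rw [map_sub, hy4, hy2, hHz2]
  abel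

end Pool.Agent.SMF
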