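import Pool.Agent.SMF.Alg

/-!
# SMF-WAa: weak algorithm, one reduction step (imports Alg, Defs)

Iterated left derivatives along a word in the support of one coefficient of a relation.
-/

namespace Pool.Agent.SMF

variable {k X : Type*} [Field k]

/-- the iterated left derivative -/
private noncomputable def dlw : List X → A k X → A k X
  | [], a => a
  | y :: w, a => dlw w (dl y a)

private theorem cf_dlw (v : FreeMonoid X) : ∀ (w : List X) (a : A k X),
    cf v (dlw w a) = cf (FreeMonoid.ofList w * v) a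
  | [], a => by
    rw [FreeMonoid.ofList_nil, one_mul]
    rfl
  | y :: w, a => by
    have h : dlw (y :: w) a = dlw w (dl y a) := rfl
    rw [h, cf_dlw v w, cf_dl, FreeMonoid.ofList_cons, mul_assoc]

private theorem dlw_fil : ∀ (w : List X) (a : A k X) (d : ℤ), a ∈ Fil (k := k) (X := X) d →
    dlw w a ∈ Fil (k := k) (X := X) (d - w.length)
  | [], a, d, h => by
    rw [List.length_nil, Nat.cast_zero, sub_zero]
    exact h
  | y :: w, a, d, h => by
    have h1 := dlw_fil w (dl y a) (d - 1) (dl_fil h y)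
    have h2 : d - 1 - (w.length : ℤ) = d - ((y :: w).length : ℤ) := by
      rw [List.length_cons]
      push_cast
      ring
    rwa [h2] at h1

private theorem red_word {N : ℕ} (b : Fin N → A k X) : ∀ (w : List X) (c : Fin N → A k X) (D : ℤ),
    ∑ j, c j * b j ∈ Fil (k := k) (X := X) (D - 1) →
    (∀ j, ∀ t : ℕ, t < w.length → c j ∈ Fil (k := k) (X := X) ((t : ℤ) - 1) ∨
      b j ∈ Fil (k := k) (X := X) (D - t - 1)) →
    ∑ j, dlw w (c j) * b j ∈ Fil (k := k) (X := X) (D - w.length - 1)
  | [], c, D, h, _ => by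
    rw [List.length_nil, Nat.cast_zero, sub_zero]
    exact h
  | y :: w, c, D, h, H => by
    have h1 : ∑ j, dl y (c j) * b j ∈ Fil (k := k) (X := X) (D - 1 - 1) := by
      have h2 : ∑ j, dl y (c j) * b j = dl y (∑ j, c j * b j) - ∑ j, ep (c j) • dl y (b j) := by
        rw [dl_sum, eq_sub_iff_add_eq, ← Finset.sum_add_distrib]
        exact Finset.sum_congr rfl fun j _ => (dl_mul y _ _).symm
      rw [h2]
      refine Submodule.sub_mem _ (dl_fil h y) (Submodule.sum_mem _ fun j _ => ?_)
      rcases H j 0 (by simp) with h3 | h3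
      · have h4 : c j = 0 := by
          rw [fil_neg (by norm_num), Submodule.mem_bot] at h3
          exact h3
        rw [h4, ((eq_zero_iff (0 : A k X)).1 rfl).1, zero_smul]
        exact Submodule.zero_mem _
      · refine Submodule.smul_mem _ _ ?_
        rw [Nat.cast_zero, sub_zero] at h3
        exact dl_fil h3 y
    have h2 := red_word b w (fun j => dl y (c j)) (D - 1) h1 (fun j t ht => by
      rcases H j (t + 1) (by rw [List.length_cons]; omega) with h3 | h3
      · left
        have h4 := dl_fil h3 y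
        have h5 : ((t + 1 : ℕ) : ℤ) - 1 - 1 = (t : ℤ) - 1 := by push_cast; ring
        rwa [h5] at h4
      · right
        have h5 : D - ((t + 1 : ℕ) : ℤ) - 1 = D - 1 - (t : ℤ) - 1 := by push_cast; ring
        rwa [h5] at h3)
    have h3 : D - 1 - (w.length : ℤ) - 1 = D - ((y :: w).length : ℤ) - 1 := by
      rw [List.length_cons]
      push_cast
      ring
    rwa [h3] at h2

private theorem exists_dg (a : A k X) : ∃ n : ℕ, a ∈ Fil (k := k) (X := X) (n : ℤ) ∧
    (a ≠ 0 → ∃ w : FreeMonoid X, cf w a ≠ 0 ∧ w.length = n) := by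
  by_cases ha : a = 0
  · exact ⟨0, by rw [ha]; exact Submodule.zero_mem _, fun h => absurd ha h⟩
  · have h1 : ∃ w : FreeMonoid X, cf w a ≠ 0 := by
      by_contra hn
      apply ha
      apply cf_ext
      intro w
      have h2 : cf w a = 0 := by
        by_contra h3
        exact hn ⟨w, h3⟩
      have h3 : cf w (0 : A k X) = 0 := by
        have h4 := cf_smul (k := k) w 0 (0 : A k X)
        rw [zero_smul, zero_mul] at h4
        exact h4
      rw [h2, h3]
    obtain ⟨w, hw, hmax⟩ := Set.exists_max_image {w : FreeMonoid X | cf w a ≠ 0}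
      (fun w => w.length) (cf_finite a) h1
    exact ⟨w.length, fun v hv => by exact_mod_cast hmax v hv, fun _ => ⟨w, hw, rfl⟩⟩

theorem wa_red {N : ℕ} (b c : Fin N → A k X) (hrel : ∑ j, c j * b j = 0) (hne : ∃ j, c j ≠ 0 ∧ b j ≠ 0) :
    ∃ (j0 : Fin N) (a : Fin N → A k X) (d : ℤ), a j0 = 1 ∧ b j0 ∉ Fil (k := k) (X := X) d ∧
      ∑ j, a j * b j ∈ Fil (k := k) (X := X) d := by
  classical
  choose gc hgc hgc' using fun j => exists_dg (c j)
  choose gb hgb hgb' using fun j => exists_dg (b j)
  obtain ⟨S, hS⟩ : ∃ S : Finset (Fin N), ∀ j, j ∈ S ↔ c j ≠ 0 ∧ b j ≠ 0 :=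
    ⟨Finset.univ.filter fun j => c j ≠ 0 ∧ b j ≠ 0, fun j => by simp⟩
  have hne' : S.Nonempty := by
    obtain ⟨j, hj⟩ := hne
    exact ⟨j, (hS j).2 hj⟩
  obtain ⟨j0, hj0, hmax⟩ := Finset.exists_max_image S
    (fun j => toLex (gc j + gb j, gb j)) hne'
  have hc0 := ((hS j0).1 hj0).1
  have hb0 := ((hS j0).1 hj0).2
  obtain ⟨w, hw, hwl⟩ := hgc' j0 hc0
  obtain ⟨v, hv, hvl⟩ := hgb' j0 hb0
  have hlen : ((FreeMonoid.toList w).length : ℤ) = (gc j0 : ℤ) := by
    have h1 : (FreeMonoid.toList w).length = w.length := rfl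
    rw [h1, hwl]
  have key := red_word b (FreeMonoid.toList w) c ((gc j0 : ℤ) + gb j0)
    (by rw [hrel]; exact Submodule.zero_mem _) (by
      intro j t ht
      have ht' : (t : ℤ) < gc j0 := by
        have h1 : (t : ℤ) < ((FreeMonoid.toList w).length : ℤ) := by exact_mod_cast ht
        rwa [hlen] at h1
      by_cases hcj : c j = 0
      · left
        rw [hcj]
        exact Submodule.zero_mem _
      by_cases hbj : b j = 0
      · right
        rw [hbj]
        exact Submodule.zero_mem _
      have h1 := hmax j ((hS j).2 ⟨hcj, hbj⟩)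
      rw [Prod.Lex.toLex_le_toLex] at h1
      by_cases h2 : gc j < t
      · left
        exact fil_mono (by omega) (hgc j)
      · right
        refine fil_mono ?_ (hgb j)
        rcases h1 with h1 | ⟨h1, h3⟩
        · simp only at h1
          omega
        · simp only at h1 h3
          omega)
  rw [hlen] at key
  have hconst : dlw (FreeMonoid.toList w) (c j0) = algebraMap k (A k X) (cf w (c j0)) := by
    have h1 := dlw_fil (FreeMonoid.toList w) (c j0) _ (hgc j0)
    rw [hlen, sub_self, fil_zero] at h1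
    obtain ⟨μ, hμ⟩ := h1
    have h2 : cf 1 (dlw (FreeMonoid.toList w) (c j0)) = cf w (c j0) := by
      rw [cf_dlw, mul_one, FreeMonoid.ofList_toList]
    rw [← hμ, cf_one, ep_alg] at h2
    rw [← hμ, h2]
  refine ⟨j0, fun j => (cf w (c j0))⁻¹ • dlw (FreeMonoid.toList w) (c j), (gb j0 : ℤ) - 1,
    ?_, ?_, ?_⟩
  · simp only
    rw [hconst, Algebra.smul_def, ← map_mul, inv_mul_cancel₀ hw, map_one]
  · intro h
    have h1 := h v hv
    rw [hvl] at h1
    omega
  · have h1 : ∑ j, (cf w (c j0))⁻¹ • dlw (FreeMonoid.toList w) (c j) * b j =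
        (cf w (c j0))⁻¹ • ∑ j, dlw (FreeMonoid.toList w) (c j) * b j := by
      rw [Finset.smul_sum]
      exact Finset.sum_congr rfl fun j _ => smul_mul_assoc _ _ _
    rw [h1]
    refine Submodule.smul_mem _ _ ?_
    have h2 : (gc j0 : ℤ) + gb j0 - gc j0 - 1 = (gb j0 : ℤ) - 1 := by ring
    rwa [h2] at key

end Pool.Agent.SMF
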